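import Mathlib

/-!
# Project MS (mesoscopic cycles of random stirring), statements over Mathlib only
-/

set_option autoImplicit false

namespace Pool.Agent.H961.T3

open Finset

section abstract_part

variable {ι : Type} [DecidableEq ι]

/-- Weight of a finite set `J` of marked objects (`a C` is the size of `C`): special objects are
chosen one after the other, all different, with weights `a C * v ^ a C` for the entries `v` of the
list, the remaining members of `J` get the weight `w ^ a C`. -/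
noncomputable def th (a : ι → ℕ) (w : ℝ) : List ℝ → Finset ι → ℝ
  | [], J => ∏ C ∈ J, w ^ a C
  | v :: ws, J => ∑ C ∈ J, (a C : ℝ) * v ^ a C * th a w ws (J.erase C)

/-- Sum over all tuples of different elements `C_1, ..., C_k` of `s` of the products of
`a C_i * v_i ^ a C_i`; `v_1, ..., v_k` are the entries of the list. -/
noncomputable def ph (a : ι → ℕ) : List ℝ → Finset ι → ℝ
  | [], _ => 1
  | v :: ws, s => ∑ C ∈ s, (a C : ℝ) * v ^ a C * ph a ws (s.erase C)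

/-- Sum over all tuples of `k` different elements of `s` of the product of the `f C_i`. -/
noncomputable def fm (f : ι → ℝ) : ℕ → Finset ι → ℝ
  | 0, _ => 1
  | k + 1, s => ∑ C ∈ s, f C * fm f k (s.erase C)

/-- expectation when every `C ∈ s` is marked independently with probability `w ^ a C` -/
noncomputable def mk (a : ι → ℕ) (w : ℝ) (s : Finset ι) (b : Finset ι → ℝ) : ℝ :=
  ∑ J ∈ s.powerset, (∏ C ∈ J, w ^ a C) * (∏ C ∈ s \ J, (1 - w ^ a C)) * b J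

end abstract_part

/-- MASS. Induction on the list (for all `s`). Empty list: `∑_{J ⊆ s} ∏_{J} p ∏_{s \ J} (1 - p) = 1`
(`Finset.prod_add`). Step: exchange the sums over `J ⊆ s` and `C ∈ J` with the sums over `C ∈ s` and
`J' = J.erase C ⊆ s.erase C`; `s \ J = (s.erase C) \ J'`. -/
def S_MASS : Prop := ∀ (ι : Type) [DecidableEq ι] (a : ι → ℕ) (w : ℝ) (ws : List ℝ) (s : Finset ι),
  ∑ J ∈ s.powerset, th a w ws J * ∏ C ∈ s \ J, (1 - w ^ a C) = ph a ws s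

/-- DOM. Stochastic domination. Induction on the list, for all `s` and all nonnegative nondecreasing
`b`. Empty list: `mk a w s b ≤ mk a wb s b` by induction on `s` (`Finset.sum_powerset_insert`): with
`p = w ^ a C ≤ p' = wb ^ a C` for the new element `C`, `b₁ J = b (insert C J) ≥ b J`,
`mk w (insert C s) b = p mk w s b₁ + (1 - p) mk w s b ≤ p mk wb s b₁ + (1 - p) mk wb s b ≤
p' mk wb s b₁ + (1 - p') mk wb s b`. Step: as in MASS the left side is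
`∑_{C ∈ s} a C v ^ a C (left side for s.erase C, ws, b (insert C ·))`, which by induction is at most
`∑_{C ∈ s} a C v ^ a C (∑_{s.erase C} a) ^ k mk a wb (s.erase C) (b (insert C ·))`, and
`v ^ a C mk a wb (s.erase C) (b (insert C ·)) ≤ wb ^ a C mk a wb (s.erase C) (b (insert C ·)) ≤
mk a wb s b` (the part of the sum with `C ∈ J`, `b ≥ 0`, `wb ≤ 1`). -/
def S_DOM : Prop := ∀ (ι : Type) [DecidableEq ι] (a : ι → ℕ) (w wb : ℝ) (ws : List ℝ) (s : Finset ι)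
  (b : Finset ι → ℝ), 0 ≤ w → w ≤ wb → wb ≤ 1 → (∀ v ∈ ws, 0 ≤ v ∧ v ≤ wb) → (∀ J, 0 ≤ b J) →
  (∀ J J', J ⊆ J' → b J ≤ b J') →
  ∑ J ∈ s.powerset, th a w ws J * (∏ C ∈ s \ J, (1 - w ^ a C)) * b J ≤
    (∑ C ∈ s, (a C : ℝ)) ^ ws.length * mk a wb s b

/-- BON. Bonferroni. Let `P s = ∏_{C ∈ s} (1 - f C)`, `e_j s = fm f j s / j!` (the elementary
symmetric polynomials: `e_(j+1) (insert C s) = e_(j+1) s + f C e_j s` for `C ∉ s`; prove first
`fm f (k+1) (insert C s) = fm f (k+1) s + (k + 1) f C fm f k s` by induction on `k`). Claim: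
`0 ≤ (-1)^(J+1) (P s - ∑_{j ≤ J} (-1)^j e_j s)` and this is `≤ e_(J+1) s`; both by induction on `s`:
with `R_J s = (-1)^(J+1) (P s - ∑_{j ≤ J} (-1)^j e_j s)` one has
`R_J (insert C s) = R_J s + f C R_(J-1) s`-type recursions (`R_0 s = 1 - P s`), and
`R_J + R_(J+1) = e_(J+1)`, so both inequalities follow from `R_J ≥ 0` for all `J`. -/
def S_BON : Prop := ∀ (ι : Type) [DecidableEq ι] (f : ι → ℝ) (s : Finset ι),
  (∀ C, 0 ≤ f C ∧ f C ≤ 1) → ∀ J : ℕ,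
  |∏ C ∈ s, (1 - f C) - ∑ j ∈ range (J + 1), (-1) ^ j * fm f j s / (j.factorial : ℝ)| ≤
    fm f (J + 1) s / ((J + 1).factorial : ℝ)

/-- TEST. From the moments to the Laplace functional of a Poisson process with intensity `du / u`.
Proof. `λ = ∫_0^∞ φ(u)/u du`. `ψ u = φ u / u` (`0` for `u ≤ 0`); the function `s ↦ ψ(- log s) / s` on `(0, 1]`,
extended by `0` to `s = 0`, is continuous on `[0, 1]` (it vanishes near `0` and near `1`). Weierstrass: a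
polynomial `Q(s) = ∑_{j < M} c_j s^j` with `|ψ(-log s)/s - Q(s)| ≤ η₁` on `[0, 1]`. So with
`P(s) = s Q(s) = ∑_{l=1}^M c_(l-1) s^l`: `|φ(u) - u P(e^(-u))| ≤ η₁ u e^(-u)` for `u ≥ 0`, and
`|λ - ∑_l c_(l-1)/l| ≤ η₁` (`∑_l c_(l-1) / l = ∫_0^∞ P(e^(-u)) du`). With `u_C = a C / n`,
`f C = φ(u_C)`, `f' C = u_C P(e^(-u_C))`, `h C = u_C e^(-u_C)`, `|f| ≤ c h`, `|f'| ≤ c h` with a constant `c ≥ 1`
depending on `φ` (if `η₁ ≤ 1`): `|fm f k s - fm f' k s| ≤ k η₁ c^(k-1) fm h k s` (telescoping, by induction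
on `k`), `fm h k s = n^(-k) ph a [e^(-1/n), ..., e^(-1/n)] s` and
`fm f' k s = n^(-k) ∑_{l_1..l_k} ∏ c_(l_i - 1) ph a [e^(-l_1/n), ..., e^(-l_k/n)] s` (induction on `k`). By the
hypothesis the expectation of `fm h k` is at most `1 + η`, and the one of `fm f' k` is
`(∑_l c_(l-1)/l)^k` up to `(∑ |c_l|)^k η`. So the expectation of `fm f k` tends to `λ^k` for every `k`.
BON with `J` such that `(λ + 1)^(J+1) / (J+1)! ≤ ε / 8` etc., and `|exp (-λ) - ∑_{j ≤ J} (-λ)^j / j!|` small. -/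
def S_TEST : Prop := ∀ φ : ℝ → ℝ, Continuous φ → (∀ u, 0 ≤ φ u ∧ φ u ≤ 1) →
  (∃ α β : ℝ, 0 < α ∧ α ≤ β ∧ ∀ u, (u < α ∨ β < u) → φ u = 0) → ∀ ε : ℝ, 0 < ε →
  ∃ (η : ℝ) (J M : ℕ), 0 < η ∧ ∀ (Ω ι : Type) [Fintype Ω] [DecidableEq ι] (P : Ω → ℝ)
    (s : Ω → Finset ι) (a : ι → ℕ) (n : ℝ), 0 < n → (∀ o, 0 ≤ P o) → ∑ o, P o = 1 →
    (∀ ls : List ℕ, ls.length ≤ J → (∀ l ∈ ls, 1 ≤ l ∧ l ≤ M) →
      |∑ o, P o * ph a (ls.map fun l => Real.exp (-(l / n))) (s o) -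
        (ls.map fun l => n / (l : ℝ)).prod| ≤ η * n ^ ls.length) →
    |∑ o, P o * ∏ C ∈ s o, (1 - φ (a C / n)) - Real.exp (-∫ u in Set.Ioi (0 : ℝ), φ u / u)| ≤ ε

/-- KAR. Karamata's Tauberian theorem, finite form with an atom at zero.
Proof. Let `g(s) = 1/s` for `1/e ≤ s ≤ 1` and `0` for `s < 1/e`. There are polynomials `P₋ ≤ g ≤ P₊` on
`[0, 1]` with `|∫_0^1 P_± - 1| ≤ ε'` and `|P_±(1) - 1| ≤ ε'`: take continuous functions
`h₋ ≤ g ≤ h₊`, equal to `g` off a small neighbourhood of `1/e`, with `∫ (h₊ - h₋) ≤ ε'/2` (`∫_0^1 g = 1`,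
`g 1 = 1`), approximate them uniformly by polynomials (Weierstrass) and shift by a small constant.
With `s_ℓ = exp (- ℓ/n)`: `∑_{ℓ ≤ n} p ℓ = ∑ p ℓ s_ℓ g(s_ℓ) ≤ ∑ p ℓ s_ℓ P₊(s_ℓ) = ∑_j c_j ∑ p ℓ exp (-(j+1) ℓ / n)
≤ A n ∑_j c_j/(j+1) + B ∑ c_j + η (∑ |c_j|) (A n + B)`, and `∑ c_j/(j+1) = ∫_0^1 P₊`, `∑ c_j = P₊(1)`; the
lower bound in the same way. -/
def S_KAR : Prop := ∀ ε : ℝ, 0 < ε → ∃ (η : ℝ) (M : ℕ), 0 < η ∧ ∀ n A B : ℝ, 0 < n → 0 ≤ A →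
  0 ≤ B → ∀ (S : Finset ℕ) (p : ℕ → ℝ), (∀ ℓ, 0 ≤ p ℓ) →
  (∀ l : ℕ, 1 ≤ l → l ≤ M →
    |∑ ℓ ∈ S, p ℓ * Real.exp (-(l * ℓ / n)) - (A * n / l + B)| ≤ η * (A * n + B)) →
  |∑ ℓ ∈ S.filter (fun ℓ : ℕ => (ℓ : ℝ) ≤ n), p ℓ - (A * n + B)| ≤ ε * (A * n + B)

end Pool.Agent.H961.T3
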