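import Pool.Agent.H961.T3.Stm

set_option autoImplicit false

namespace Pool.Agent.H961.T3.Cych

open Finset Equiv Matrix Q292.LC Pool.Agent.H961.T2 Pool.Agent.H961.T3

section

variable {V : Type} [Fintype V] [DecidableEq V] (g : Perm V)

theorem ms_mem {x y : V} : y ∈ cyc g x ↔ g.SameCycle x y := Pool.Agent.Q153.LC.mem_cyc g x y

theorem ms_cyc_eq {x y : V} (h : y ∈ cyc g x) : cyc g y = cyc g x := by
  ext z
  rw [ms_mem, ms_mem]
  rw [ms_mem] at h
  exact ⟨fun h1 => h.trans h1, fun h1 => h.symm.trans h1⟩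

theorem ms_mem_cycs {C : Finset V} : C ∈ cycs g ↔ ∃ x, cyc g x = C := by
  unfold cycs
  rw [mem_image]
  exact ⟨fun ⟨x, _, h⟩ => ⟨x, h⟩, fun ⟨x, h⟩ => ⟨x, mem_univ _, h⟩⟩

theorem ms_cyc_mem (x : V) : cyc g x ∈ cycs g := (ms_mem_cycs g).2 ⟨x, rfl⟩

theorem ms_eq_of_mem {C : Finset V} (hC : C ∈ cycs g) {x : V} (hx : x ∈ C) : cyc g x = C := by
  obtain ⟨y, rfl⟩ := (ms_mem_cycs g).1 hC
  exact ms_cyc_eq g hx

theorem ms_nonempty {C : Finset V} (hC : C ∈ cycs g) : C.Nonempty := by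
  obtain ⟨y, rfl⟩ := (ms_mem_cycs g).1 hC
  exact ⟨y, Pool.Agent.Q153.LC.self_mem_cyc g y⟩

theorem ms_disj {C C' : Finset V} (hC : C ∈ cycs g) (hC' : C' ∈ cycs g) (h : C ≠ C') :
    Disjoint C C' := by
  rw [disjoint_left]
  intro x hx hx'
  exact h ((ms_eq_of_mem g hC hx).symm.trans (ms_eq_of_mem g hC' hx'))

theorem ms_mem_biUnion {J : Finset (Finset V)} (hJ : J ⊆ cycs g) {x : V} :
    x ∈ J.biUnion id ↔ cyc g x ∈ J := by
  rw [mem_biUnion]
  constructor
  · rintro ⟨C, hC, hx⟩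
    rw [ms_eq_of_mem g (hJ hC) hx]
    exact hC
  · intro h
    exact ⟨_, h, Pool.Agent.Q153.LC.self_mem_cyc g x⟩

theorem ms_inv {J : Finset (Finset V)} (hJ : J ⊆ cycs g) : Inv g (J.biUnion id) := by
  intro a ha
  rw [ms_mem_biUnion g hJ] at ha ⊢
  have h : cyc g (g a) = cyc g a := by
    refine ms_cyc_eq g ?_
    rw [ms_mem]
    exact Perm.sameCycle_apply_right.2 (Perm.SameCycle.refl g a)
  rwa [h]

theorem ms_filter {J : Finset (Finset V)} (hJ : J ⊆ cycs g) :
    (cycs g).filter (fun C => C ⊆ J.biUnion id) = J := by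
  ext C
  rw [mem_filter]
  constructor
  · rintro ⟨hC, hsub⟩
    obtain ⟨x, hx⟩ := ms_nonempty g hC
    have h := (ms_mem_biUnion g hJ).1 (hsub hx)
    rwa [ms_eq_of_mem g hC hx] at h
  · intro hC
    exact ⟨hJ hC, fun x hx => mem_biUnion.2 ⟨C, hC, hx⟩⟩

theorem ms_biUnion_filter {A : Finset V} (hA : Inv g A) :
    ((cycs g).filter (fun C => C ⊆ A)).biUnion id = A := by
  ext x
  rw [ms_mem_biUnion g (filter_subset _ _), mem_filter]
  constructor
  · rintro ⟨_, h⟩
    exact h (Pool.Agent.Q153.LC.self_mem_cyc g x)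
  · intro hx
    exact ⟨ms_cyc_mem g x, cyc_sub g A hA x hx⟩

theorem ms_one (F : Finset V → ℝ) : ∑ A : Finset V, (if Inv g A then F A else 0) =
    ∑ J ∈ (cycs g).powerset, F (J.biUnion id) := by
  rw [← sum_filter]
  symm
  refine sum_bij' (fun J _ => J.biUnion id) (fun A _ => (cycs g).filter (fun C => C ⊆ A))
    ?_ ?_ ?_ ?_ ?_
  · intro J hJ
    exact mem_filter.2 ⟨mem_univ _, ms_inv g (mem_powerset.1 hJ)⟩
  · intro A _
    exact mem_powerset.2 (filter_subset _ _)
  · intro J hJ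
    exact ms_filter g (mem_powerset.1 hJ)
  · intro A hA
    exact ms_biUnion_filter g (mem_filter.1 hA).2
  · intro J _
    rfl

theorem ms_card {J : Finset (Finset V)} (hJ : J ⊆ cycs g) :
    (J.biUnion id).card = ∑ C ∈ J, C.card :=
  card_biUnion fun _ hC _ hC' h => ms_disj g (hJ hC) (hJ hC') h

theorem ms_four (w : ℝ) (K : Finset (Finset V)) : ∀ J ⊆ cycs g, cycs g \ J = K →
    dS w (univ \ J.biUnion id) (pm g) = ∏ C ∈ cycs g \ J, (1 - w ^ C.card) := by
  induction K using Finset.induction_on with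
  | empty =>
    intro J hJ h
    have h1 : (univ : Finset V) \ J.biUnion id = ∅ := by
      rw [sdiff_eq_empty_iff_subset]
      intro x _
      rw [ms_mem_biUnion g hJ]
      exact (sdiff_eq_empty_iff_subset.1 h) (ms_cyc_mem g x)
    rw [h1, h, prod_empty]
    exact Pool.Agent.Q153.LC.dS_empty w _
  | insert C K hCK ih =>
    intro J hJ h
    have hC : C ∈ cycs g \ J := by rw [h]; exact mem_insert_self _ _
    have hC' := mem_sdiff.1 hC
    obtain ⟨x, hx⟩ := ms_nonempty g hC'.1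
    have hcx := ms_eq_of_mem g hC'.1 hx
    have hJ' : insert C J ⊆ cycs g := insert_subset hC'.1 hJ
    have hK' : cycs g \ insert C J = K := by
      rw [sdiff_insert, h, erase_insert hCK]
    have h2 := ih (insert C J) hJ' hK'
    have hd : ∀ y ∈ C, y ∉ J.biUnion id := by
      intro y hy hyJ
      rw [ms_mem_biUnion g hJ, ms_eq_of_mem g hC'.1 hy] at hyJ
      exact hC'.2 hyJ
    have h3 := Pool.Agent.Q153.LC.p4d w (univ \ J.biUnion id) g x
      (mem_sdiff.2 ⟨mem_univ _, hd x hx⟩) (by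
        rw [hcx]
        intro y hy
        exact mem_sdiff.2 ⟨mem_univ _, hd y hy⟩)
    rw [hcx] at h3
    have h4 : (univ \ J.biUnion id) \ C = univ \ (insert C J).biUnion id := by
      ext y
      simp only [mem_sdiff, mem_univ, true_and, biUnion_insert, mem_union, id]
      tauto
    rw [h3, h4, h2, hK', h, prod_insert hCK]

theorem ms_five (F : Finset V → ℝ) :
    ∑ x : V, F (cyc g x) = ∑ C ∈ cycs g, (C.card : ℝ) * F C := by
  rw [← sum_fiberwise_of_maps_to (s := (univ : Finset V)) (t := cycs g) (g := cyc g)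
    (fun x _ => ms_cyc_mem g x)]
  refine sum_congr rfl fun C hC => ?_
  have h1 : (univ.filter fun x => cyc g x = C) = C := by
    ext x
    rw [mem_filter]
    constructor
    · rintro ⟨_, h⟩
      rw [← h]
      exact Pool.Agent.Q153.LC.self_mem_cyc g x
    · intro hx
      exact ⟨mem_univ _, ms_eq_of_mem g hC hx⟩
  rw [h1, sum_congr rfl (fun x hx => by rw [ms_eq_of_mem g hC hx] : ∀ x ∈ C, F (cyc g x) = F C),
    sum_const, nsmul_eq_mul]

end

theorem t_CYC : S_CYC := by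
  intro V _ _ g
  refine ⟨ms_one g, fun J hJ => ⟨ms_filter g hJ, ms_inv g hJ⟩, fun J hJ => ms_card g hJ,
    fun w J hJ => ms_four g w _ J hJ rfl, ms_five g⟩

end Pool.Agent.H961.T3.Cych
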