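import Pool.Agent.H961.T3.Stm2
import Pool.Graph.R_pool_sql_team_seeded_3997aac3.Q297.LC.Lim
import Pool.Graph.R_pool_sql_team_seeded_3997aac3.Q297.LC.Par
import Pool.Graph.R_pool_sql_team_seeded_3997aac3.Q153.LC.Rus

/-!
# MS STIR. From the circuit recursion to stirring
-/

set_option autoImplicit false
set_option linter.unusedSectionVars false
set_option linter.unusedVariables false

namespace Pool.Agent.H961.T3.Stirh

open Finset Equiv Matrix Q292.LC Pool.Agent.H961.T2 Pool.Agent.H961.T3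
open Pool.Agent.Y998.ST (stirExp nnRate cycleLen)

theorem ph_bound {ι : Type} [DecidableEq ι] (a : ι → ℕ) : ∀ (ws : List ℝ),
    (∀ v ∈ ws, 0 ≤ v ∧ v ≤ 1) → ∀ (s : Finset ι),
    0 ≤ ph a ws s ∧ ph a ws s ≤ (∑ C ∈ s, (a C : ℝ)) ^ ws.length
  | [], _, s => by simp [ph]
  | v :: ws, h, s => by
    have ih := ph_bound a ws (fun u hu => h u (List.mem_cons_of_mem _ hu))
    obtain ⟨hv0, hv1⟩ := h v List.mem_cons_self
    have hs : ∀ s : Finset ι, 0 ≤ ∑ C ∈ s, (a C : ℝ) := fun s =>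
      sum_nonneg fun _ _ => Nat.cast_nonneg _
    refine ⟨sum_nonneg fun C _ => mul_nonneg (mul_nonneg (Nat.cast_nonneg _)
      (pow_nonneg hv0 _)) (ih _).1, ?_⟩
    have h1 : ∀ C ∈ s, (a C : ℝ) * v ^ a C * ph a ws (s.erase C) ≤
        a C * (∑ C ∈ s, (a C : ℝ)) ^ ws.length := by
      intro C _
      have h3 : (a C : ℝ) * v ^ a C ≤ a C :=
        mul_le_of_le_one_right (Nat.cast_nonneg _) (pow_le_one₀ hv0 hv1)
      have h4 : ∑ C ∈ s.erase C, (a C : ℝ) ≤ ∑ C ∈ s, (a C : ℝ) :=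
        sum_le_sum_of_subset_of_nonneg (erase_subset _ _) (fun _ _ _ => Nat.cast_nonneg _)
      exact mul_le_mul h3 ((ih _).2.trans (pow_le_pow_left₀ (hs _) h4 _)) (ih _).1
        (Nat.cast_nonneg _)
    calc ph a (v :: ws) s = ∑ C ∈ s, (a C : ℝ) * v ^ a C * ph a ws (s.erase C) := rfl
      _ ≤ ∑ C ∈ s, a C * (∑ C ∈ s, (a C : ℝ)) ^ ws.length := sum_le_sum h1
      _ = (∑ C ∈ s, (a C : ℝ)) ^ (ws.length + 1) := by rw [← sum_mul, pow_succ, mul_comm]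

theorem sum_cycs {V : Type} [Fintype V] [DecidableEq V] (g : Perm V) :
    ∑ C ∈ cycs g, C.card = Fintype.card V := by
  have h := card_eq_sum_card_fiberwise (f := cyc g) (s := univ) (t := cycs g)
    (fun x _ => mem_image_of_mem _ (mem_univ x))
  rw [card_univ] at h
  rw [h]
  refine sum_congr rfl fun C hC => ?_
  obtain ⟨y, -, rfl⟩ := mem_image.1 hC
  congr 1
  ext x
  rw [mem_filter]
  constructor
  · intro hx
    exact ⟨mem_univ _, Pool.Agent.Q153.LC.cyc_eq g y x hx⟩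
  · rintro ⟨-, hx⟩
    rw [← hx]
    exact Pool.Agent.Q153.LC.self_mem_cyc g x

/-- arithmetic of one step -/
theorem step_arith {X Y P r ε' j pw N : ℝ} (hr : 0 ≤ r) (hP : 1 ≤ P) (hε0 : 0 < ε')
    (hj : 0 ≤ j) (hjε : 3 * (j + 1) * ε' ≤ 1) (hX : |X - P| ≤ 3 * j * ε' * P)
    (hpw : pw ≤ ε' * r) (hpw' : N ≤ ε')
    (h1 : Y ≤ (r + ε' * r) * X + pw) (h2 : (r - ε' * r) * (X - N) ≤ Y) :
    |Y - r * P| ≤ 3 * (j + 1) * ε' * (r * P) := by
  obtain ⟨x1, x2⟩ := abs_le.1 hX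
  have hrP : 0 ≤ r * P := mul_nonneg hr (by linarith)
  have hrle : r ≤ r * P := le_mul_of_one_le_right hr hP
  have hjε' : 0 ≤ j * ε' := mul_nonneg hj hε0.le
  rw [abs_le]
  constructor
  · have e1 : (1 - (3 * j + 1) * ε') * P ≤ X - N := by nlinarith
    have e2 : 0 ≤ r - ε' * r := by
      have : ε' ≤ 1 := by nlinarith
      nlinarith
    have e3 := mul_le_mul_of_nonneg_left e1 e2
    have e4 : (r - ε' * r) * ((1 - (3 * j + 1) * ε') * P) =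
        (r * P) * (1 - (3 * j + 2) * ε' + (3 * j + 1) * ε' * ε') := by ring
    rw [e4] at e3
    have e5 : 0 ≤ (r * P) * ((3 * j + 1) * ε' * ε') := by
      refine mul_nonneg hrP (mul_nonneg (mul_nonneg (by linarith) hε0.le) hε0.le)
    have e6 : 0 ≤ (r * P) * ε' := mul_nonneg hrP hε0.le
    nlinarith
  · have e1 : X ≤ (1 + 3 * j * ε') * P := by linarith
    have e2 : (r + ε' * r) * X ≤ (r + ε' * r) * ((1 + 3 * j * ε') * P) :=
      mul_le_mul_of_nonneg_left e1 (add_nonneg hr (mul_nonneg hε0.le hr))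
    have e3 : (r + ε' * r) * ((1 + 3 * j * ε') * P) =
        (r * P) * (1 + 3 * j * ε' + ε' + (3 * j * ε') * ε') := by ring
    rw [e3] at e2
    have e4 : (r * P) * ((3 * j * ε') * ε') ≤ (r * P) * ε' := by
      refine mul_le_mul_of_nonneg_left ?_ hrP
      have : 3 * j * ε' ≤ 1 := by nlinarith
      exact mul_le_of_le_one_left hε0.le this
    have e5 : ε' * r ≤ (r * P) * ε' := by
      rw [mul_comm]
      exact mul_le_mul_of_nonneg_right hrle hε0.le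
    nlinarith

theorem circ (hREC : S_REC) {V : Type} [Fintype V] [DecidableEq V] (e : ℕ → V × V) (n : ℕ)
    (δ wb ε' : ℝ) (k : ℕ) (B : (ℕ → Bool) → Finset V → Prop) (hδ0 : 0 ≤ δ) (hδ1 : δ ≤ 1)
    (hwb : wb < 1) (hB : ∀ ω R R', R' ⊆ R → B ω R → B ω R') (hε0 : 0 < ε')
    (hε : 3 * k * ε' ≤ 1) (hN : 1 ≤ (Fintype.card V : ℝ)) (hN' : 1 ≤ ε' * Fintype.card V)
    (hPW : PW e n δ wb (fun ω A => ¬ B ω A) ≤ 1 / (Fintype.card V : ℝ) ^ (k + 3)) :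
    ∀ ws : List ℝ, ws.length ≤ k → (∀ v ∈ ws, 0 ≤ v ∧ v ≤ wb ∧
       ∀ ω A, B ω A → Inv (gp e ω n) A →
       |∑ x ∈ univ \ A, Gx v (univ \ A) (TT e ω A δ n) x - 1 / (1 - v)| ≤
         ε' * (1 / (1 - v))) →
    |EE n δ (fun ω => ph (ι := Finset V) card ws (cycs (gp e ω n))) -
      (ws.map fun v => 1 / (1 - v)).prod| ≤
      3 * ws.length * ε' * (ws.map fun v => 1 / (1 - v)).prod ∧
    1 ≤ (ws.map fun v => 1 / (1 - v)).prod
  | [], _, _ => by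
    have h : EE n δ (fun ω => ph (ι := Finset V) card [] (cycs (gp e ω n))) = 1 :=
      Pool.Agent.Q68.LC.EE_const n δ 1
    rw [h]
    simp
  | w :: ws, hk, hw => by
    have hk' : ws.length + 1 ≤ k := hk
    obtain ⟨ih, hP⟩ := circ hREC e n δ wb ε' k B hδ0 hδ1 hwb hB hε0 hε hN hN' hPW ws (by omega)
      (fun v hv => hw v (List.mem_cons_of_mem _ hv))
    obtain ⟨hw0, hwwb, hG⟩ := hw w List.mem_cons_self
    have h1w : 0 < 1 - w := by linarith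
    have hr1 : 1 ≤ 1 / (1 - w) := by
      rw [le_div_iff₀ h1w]; linarith
    obtain ⟨r, hr⟩ : ∃ r : ℝ, r = 1 / (1 - w) := ⟨_, rfl⟩
    obtain ⟨N, hNN⟩ : ∃ N : ℝ, N = (Fintype.card V : ℝ) := ⟨_, rfl⟩
    have hjk : ((ws.length : ℝ) + 1) ≤ k := by exact_mod_cast hk'
    have hjε : 3 * ((ws.length : ℝ) + 1) * ε' ≤ 1 := by
      refine le_trans ?_ hε
      exact mul_le_mul_of_nonneg_right (by linarith) hε0.le
    have hε1 : ε' ≤ 1 := by
      have : (0 : ℝ) ≤ ws.length := Nat.cast_nonneg _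
      nlinarith
    rw [← hNN] at hN hN' hPW
    rw [← hr] at hr1 hG
    have hN0 : 0 < N := by linarith
    have hr0 : 0 ≤ r := by linarith
    -- powers
    have hpow : ∀ i : ℕ, i ≤ k → N ^ i * PW e n δ wb (fun ω A => ¬ B ω A) ≤ ε' := by
      intro i hi
      have e1 : N ^ i * PW e n δ wb (fun ω A => ¬ B ω A) ≤ N ^ i * (1 / N ^ (k + 3)) :=
        mul_le_mul_of_nonneg_left hPW (pow_nonneg hN0.le _)
      refine e1.trans ?_
      rw [mul_one_div, div_le_iff₀ (pow_pos hN0 _)]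
      have e2 : N ^ i * N ≤ N ^ (k + 3) := by
        rw [← pow_succ]
        exact pow_le_pow_right₀ hN (by omega)
      have e3 : N ^ i ≤ ε' * (N ^ i * N) := by
        have e4 : ε' * (N ^ i * N) = N ^ i * (ε' * N) := by ring
        rw [e4]
        exact le_mul_of_one_le_right (pow_nonneg hN0.le _) hN'
      exact e3.trans (mul_le_mul_of_nonneg_left e2 hε0.le)
    have hrec := hREC V e n δ w wb ws B (r - ε' * r) (r + ε' * r) hδ0 hδ1 hw0 hwwb hwb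
      (fun v hv => ⟨(hw v (List.mem_cons_of_mem _ hv)).1, (hw v (List.mem_cons_of_mem _ hv)).2.1⟩)
      hB (by nlinarith) (by nlinarith) (by
        intro ω A h1 h2
        obtain ⟨a1, a2⟩ := abs_le.1 (hG ω A h1 h2)
        constructor <;> linarith)
    obtain ⟨h1, h2⟩ := hrec
    rw [← hNN] at h1 h2
    rw [List.map_cons, List.prod_cons, List.length_cons, ← hr]
    refine ⟨?_, ?_⟩
    · push_cast
      refine step_arith hr0 hP hε0 (Nat.cast_nonneg _) hjε ih ?_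
        (hpow ws.length (by omega)) h1 h2
      have e1 : N ^ (ws.length + 1) / (1 - w) * PW e n δ wb (fun ω A => ¬ B ω A) =
          N ^ (ws.length + 1) * PW e n δ wb (fun ω A => ¬ B ω A) * r := by
        rw [hr]; ring
      rw [e1]
      exact mul_le_mul_of_nonneg_right (hpow _ hk') hr0
    · exact one_le_mul_of_one_le_of_one_le hr1 hP

theorem stir_le {d L : ℕ} [NeZero L] (hd : 1 ≤ d) (hL : 3 ≤ L) {K : ℕ} {t : ℝ}
    (hK : 1 ≤ K) (hKt : (K : ℝ) ≤ t) (ht : t ≤ 2 * K) {F : Perm (Fin d → ZMod L) → ℝ} {M : ℝ}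
    (hM : 0 < M) (hF : ∀ g, |F g| ≤ M) {B : ℝ}
    (h : ∃ q₀ : ℕ, ∀ q ≥ q₀, ∀ σ : ℕ → (Fin d → ZMod L) × Fin d, Per σ → ∀ δ : ℝ,
      1 ≤ δ * q → δ * q ≤ 2 →
      EE (K * (q * ms d L)) δ (fun ω => F (gp (ed ∘ σ) ω (K * (q * ms d L)))) ≤ B) :
    stirExp (nnRate d L) t F ≤ B := by
  have h1 : stirExp (nnRate d L) t (fun g => M⁻¹ * F g) ≤ M⁻¹ * B := by
    refine Pool.Agent.Q297.LC.stir_le_of_circuit hd hL hK hKt ht (fun g => ?_) ?_
    · rw [abs_mul, abs_of_pos (inv_pos.2 hM), inv_mul_le_iff₀ hM, mul_one]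
      exact hF g
    · obtain ⟨q₀, h⟩ := h
      refine ⟨q₀, fun q hq σ hσ δ h1 h2 => ?_⟩
      have h3 := Pool.Agent.Q68.LC.EE_smul (K * (q * ms d L)) δ M⁻¹
        (fun ω => F (gp (ed ∘ σ) ω (K * (q * ms d L))))
      rw [h3]
      exact mul_le_mul_of_nonneg_left (h q hq σ hσ δ h1 h2) (inv_pos.2 hM).le
  have h2 : stirExp (nnRate d L) t (fun g => M⁻¹ * F g) = M⁻¹ * stirExp (nnRate d L) t F := by
    unfold stirExp
    rw [mul_sum]
    exact sum_congr rfl fun g _ => by ring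
  rw [h2] at h1
  exact le_of_mul_le_mul_left h1 (inv_pos.2 hM)

theorem exists_wb {X Y : ℝ} (h0 : X ≤ Y) : ∀ ws : List ℝ,
    (∀ v ∈ ws, 0 ≤ v ∧ v < 1 ∧ X ≤ Y * (1 - v)) →
    ∃ wb : ℝ, 0 ≤ wb ∧ wb < 1 ∧ X ≤ Y * (1 - wb) ∧ ∀ v ∈ ws, v ≤ wb
  | [], _ => ⟨0, le_rfl, one_pos, by linarith, fun v hv => absurd hv List.not_mem_nil⟩
  | w :: ws, h => by
    obtain ⟨wb, b0, b1, b2, b3⟩ := exists_wb h0 ws (fun v hv => h v (List.mem_cons_of_mem _ hv))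
    obtain ⟨w0, w1, w2⟩ := h w List.mem_cons_self
    rcases le_total w wb with hle | hle
    · refine ⟨wb, b0, b1, b2, fun v hv => ?_⟩
      rcases List.mem_cons.1 hv with rfl | hv
      · exact hle
      · exact b3 v hv
    · refine ⟨w, w0, w1, w2, fun v hv => ?_⟩
      rcases List.mem_cons.1 hv with rfl | hv
      · exact le_rfl
      · exact (b3 v hv).trans hle

/-- the error term of the resolvent -/
theorem err_arith {ℓ t K Ld C ε' r T dd : ℝ} (m₀ : ℕ) (L2 : ℝ) (hdd : 0 ≤ dd) (hℓ : 4 / ε' ≤ ℓ)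
    (hℓ1 : 1 ≤ ℓ) (hε0 : 0 < ε') (hK0 : 0 < K) (ht : t ≤ 2 * K) (hKt : K ≤ t) (hL2 : 0 ≤ L2)
    (hLd : 0 ≤ Ld) (hC : 0 ≤ C) (hT0 : 0 < T) (hT : 2 * C * 2 ^ dd / ε' ≤ T)
    (h1 : T * (Ld * t ^ (-dd)) ≤ r) (h2 : ℓ ^ (m₀ + 1) * (1 + L2 / t) ≤ r) (hr : 0 ≤ r) :
    ℓ ^ m₀ * (1 + L2 / K) + C * (Ld * K ^ (-dd)) ≤ ε' * r := by
  have ht0 : 0 < t := by linarith
  have hℓ0 : 0 < ℓ := by linarith
  have e1 : 1 + L2 / K ≤ 2 * (1 + L2 / t) := by
    have : L2 / K ≤ 2 * (L2 / t) := by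
      rw [← mul_div_assoc, div_le_div_iff₀ hK0 ht0]
      nlinarith
    linarith
  have e2 : ℓ ^ m₀ * (1 + L2 / K) ≤ ε' / 2 * r := by
    have a1 : ℓ ^ m₀ * (1 + L2 / K) ≤ ℓ ^ m₀ * (2 * (1 + L2 / t)) :=
      mul_le_mul_of_nonneg_left e1 (pow_nonneg hℓ0.le _)
    have a2 : ℓ ^ m₀ * (2 * (1 + L2 / t)) * ℓ = 2 * (ℓ ^ (m₀ + 1) * (1 + L2 / t)) := by ring
    have a3 : ℓ ^ m₀ * (2 * (1 + L2 / t)) * ℓ ≤ 2 * r := by rw [a2]; linarith
    have a4 : 4 ≤ ε' * ℓ := by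
      rw [div_le_iff₀ hε0] at hℓ; linarith
    have a5 : 0 ≤ ℓ ^ m₀ * (2 * (1 + L2 / t)) := by positivity
    have a6 : ℓ ^ m₀ * (2 * (1 + L2 / t)) * 4 ≤ ℓ ^ m₀ * (2 * (1 + L2 / t)) * (ε' * ℓ) :=
      mul_le_mul_of_nonneg_left a4 a5
    have a7 : ℓ ^ m₀ * (2 * (1 + L2 / t)) * (ε' * ℓ) ≤ ε' * (2 * r) := by
      calc ℓ ^ m₀ * (2 * (1 + L2 / t)) * (ε' * ℓ) = ε' * (ℓ ^ m₀ * (2 * (1 + L2 / t)) * ℓ) := by
            ring
        _ ≤ ε' * (2 * r) := mul_le_mul_of_nonneg_left a3 hε0.le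
    linarith
  have e3 : K ^ (-dd) ≤ 2 ^ dd * t ^ (-dd) := by
    have b1 : (K : ℝ) ^ (-dd) ≤ (t / 2) ^ (-dd) :=
      Real.rpow_le_rpow_of_nonpos (by linarith) (by linarith) (by linarith)
    refine b1.trans (le_of_eq ?_)
    rw [Real.div_rpow ht0.le (by norm_num), Real.rpow_neg (by norm_num : (0 : ℝ) ≤ 2), div_inv_eq_mul,
      mul_comm]
  have e4 : C * (Ld * K ^ (-dd)) ≤ ε' / 2 * r := by
    have c1 : C * (Ld * K ^ (-dd)) ≤ C * (Ld * (2 ^ dd * t ^ (-dd))) :=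
      mul_le_mul_of_nonneg_left (mul_le_mul_of_nonneg_left e3 hLd) hC
    have c2 : 0 ≤ Ld * t ^ (-dd) := mul_nonneg hLd (Real.rpow_nonneg ht0.le _)
    have c3 : C * 2 ^ dd ≤ ε' / 2 * T := by
      rw [div_le_iff₀ hε0] at hT
      linarith
    have c4 : C * (Ld * (2 ^ dd * t ^ (-dd))) = (C * 2 ^ dd) * (Ld * t ^ (-dd)) := by ring
    have c5 : (C * 2 ^ dd) * (Ld * t ^ (-dd)) ≤ (ε' / 2 * T) * (Ld * t ^ (-dd)) :=
      mul_le_mul_of_nonneg_right c3 c2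
    have c6 : (ε' / 2 * T) * (Ld * t ^ (-dd)) = ε' / 2 * (T * (Ld * t ^ (-dd))) := by ring
    have c7 : ε' / 2 * (T * (Ld * t ^ (-dd))) ≤ ε' / 2 * r :=
      mul_le_mul_of_nonneg_left h1 (by linarith)
    linarith
  linarith

theorem stir (hREC : S_REC) (hCIR : S_CIR) : S_STIR := by
  intro d hd
  obtain ⟨m₀, hcir0⟩ := hCIR d hd
  refine ⟨m₀ + 1, ?_⟩
  intro k ε hε
  obtain ⟨C, Tc, hC, hcir⟩ := hcir0 (k + 3)
  obtain ⟨ε', hε'⟩ : ∃ ε' : ℝ, ε' = min ε 1 / (3 * k + 1) := ⟨_, rfl⟩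
  have hk0 : (0 : ℝ) ≤ k := Nat.cast_nonneg _
  have hk1 : (0 : ℝ) < 3 * k + 1 := by linarith
  have hmin : 0 < min ε 1 := lt_min hε one_pos
  have hε'0 : 0 < ε' := by rw [hε']; exact div_pos hmin hk1
  have hε'k : 3 * k * ε' ≤ min ε 1 := by
    have e1 : (3 * k + 1) * ε' = min ε 1 := by
      rw [hε']; field_simp
    linarith
  have hε'1 : 3 * k * ε' ≤ 1 := hε'k.trans (min_le_right _ _)
  have hε'ε : 3 * k * ε' ≤ ε := hε'k.trans (min_le_left _ _)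
  obtain ⟨Λ, hΛ⟩ : ∃ Λ : ℝ, Λ = 2 + 4 / ε' := ⟨_, rfl⟩
  have h4ε : 0 < 4 / ε' := by positivity
  have h2d : (0 : ℝ) < 2 ^ (d / 2 : ℝ) := Real.rpow_pos_of_pos (by norm_num) _
  have hC0 : 0 ≤ C := by linarith
  have hT2 : 0 ≤ 2 * C * 2 ^ (d / 2 : ℝ) / ε' := by positivity
  have hT3 : 0 < 1 / ε' := by positivity
  have hT4 : 0 < Real.exp (d * Λ) := Real.exp_pos _
  have hm₀ : (0 : ℝ) ≤ Tc := Nat.cast_nonneg _
  obtain ⟨T, hT⟩ : ∃ T : ℝ, T = 1 + Tc + Real.exp (d * Λ) + 2 * C * 2 ^ (d / 2 : ℝ) / ε' + 1 / ε' :=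
    ⟨_, rfl⟩
  refine ⟨T, by rw [hT]; linarith, ?_⟩
  intro L _ t ws hws hL hTt hlogt htL hv
  have hd0 : (0 : ℝ) < d := by
    have : 0 < d := by omega
    exact_mod_cast this
  have hL1 : 1 ≤ L := by omega
  have hL0 : (0 : ℝ) < L := by exact_mod_cast hL1
  have hLd0 : (0 : ℝ) < (L : ℝ) ^ d := pow_pos hL0 d
  have ht1 : 1 ≤ t := by
    have : 1 ≤ T := by rw [hT]; linarith
    linarith
  -- the logarithm
  obtain ⟨ℓ, hℓ⟩ : ∃ ℓ : ℝ, ℓ = Real.log L := ⟨_, rfl⟩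
  have hℓΛ : Λ ≤ ℓ := by
    have h1 : Real.exp (d * Λ) ≤ (L : ℝ) ^ d := by
      have : Real.exp (d * Λ) ≤ T := by rw [hT]; linarith
      linarith
    rw [Pool.Agent.Q297.LC.pow_exp hL1, Real.exp_le_exp, ← hℓ] at h1
    exact le_of_mul_le_mul_left h1 hd0
  have hℓ2 : 2 ≤ ℓ := by rw [hΛ] at hℓΛ; linarith
  have hℓ4 : 4 / ε' ≤ ℓ := by rw [hΛ] at hℓΛ; linarith
  rw [← hℓ] at hlogt
  -- the number of units
  obtain ⟨K, hK⟩ : ∃ K : ℕ, K = ⌊t⌋₊ := ⟨_, rfl⟩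
  have hKt : (K : ℝ) ≤ t := by rw [hK]; exact Nat.floor_le (by linarith)
  have hK1 : 1 ≤ K := by rw [hK]; exact Nat.le_floor (by rw [Nat.cast_one]; exact ht1)
  have hK1' : (1 : ℝ) ≤ K := by exact_mod_cast hK1
  have htK : t < K + 1 := by rw [hK]; exact Nat.lt_floor_add_one t
  have ht2K : t ≤ 2 * K := by linarith
  have hm₀K : Tc ≤ K := by
    rw [hK]
    refine Nat.le_floor ?_
    have : (Tc : ℝ) ≤ T := by rw [hT]; linarith
    linarith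
  have hKL : K ≤ L ^ d := by
    have : (K : ℝ) ≤ (L : ℝ) ^ d := hKt.trans htL
    exact_mod_cast this
  have hlogK : ℓ ^ m₀ ≤ K := by
    have h1 : ℓ ^ m₀ * 2 ≤ ℓ ^ (m₀ + 1) := by
      rw [pow_succ]
      exact mul_le_mul_of_nonneg_left hℓ2 (pow_nonneg (by linarith) _)
    linarith
  have hlogmono : ℓ ^ m₀ ≤ ℓ ^ (m₀ + 1) := pow_le_pow_right₀ (by linarith) (by omega)
  -- wb
  obtain ⟨wb, b0, b1, b2, b3⟩ := exists_wb (X := ℓ ^ m₀) (Y := (L : ℝ) ^ d)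
    (hlogK.trans (hKt.trans htL)) ws (fun v hvw => by
      obtain ⟨a1, a2, a3, a4, a5⟩ := hv v hvw
      rw [← hℓ] at a5
      exact ⟨a1, a2, hlogmono.trans a5⟩)
  have hcard : (Fintype.card (Fin d → ZMod L) : ℝ) = (L : ℝ) ^ d := by
    rw [Fintype.card_fun, ZMod.card, Fintype.card_fin]
    push_cast
    rfl
  -- circuits
  have key : ∃ q₀ : ℕ, ∀ q ≥ q₀, ∀ σ : ℕ → (Fin d → ZMod L) × Fin d, Per σ → ∀ δ : ℝ,
      1 ≤ δ * q → δ * q ≤ 2 →
      |EE (K * (q * ms d L)) δ (fun ω => ph (ι := Finset (Fin d → ZMod L)) card ws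
        (cycs (gp (ed ∘ σ) ω (K * (q * ms d L))))) - (ws.map fun v => 1 / (1 - v)).prod| ≤
        ε * (ws.map fun v => 1 / (1 - v)).prod := by
    obtain ⟨q₀, hq₀⟩ := hcir L K hm₀K hKL (by rw [← hℓ]; exact hlogK)
    refine ⟨q₀ + 2, fun q hq σ hσ δ h1 h2 => ?_⟩
    have hq' : (2 : ℝ) ≤ q := by
      have : 2 ≤ q := by omega
      exact_mod_cast this
    have hδ0 : 0 ≤ δ := by
      by_contra hcon
      push Not at hcon
      nlinarith
    have hδ1 : δ ≤ 1 := by nlinarith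
    obtain ⟨B, hB, hBG, hBP⟩ := hq₀ q (by omega) σ hσ δ h1 h2
    have hmain := circ hREC (ed ∘ σ) (K * (q * ms d L)) δ wb ε' k B hδ0 hδ1 b1 hB hε'0 hε'1
      (by rw [hcard]; exact ht1.trans htL)
      (by
        rw [hcard]
        have e1 : 1 / ε' ≤ (L : ℝ) ^ d := by
          have : 1 / ε' ≤ T := by rw [hT]; linarith
          linarith
        rw [div_le_iff₀ hε'0] at e1
        linarith)
      (by
        rw [hcard]
        exact hBP wb b0 b1 (by rw [← hℓ]; exact b2))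
      ws hws.le (fun v hvw => by
        obtain ⟨a1, a2, a3, a4, a5⟩ := hv v hvw
        refine ⟨a1, b3 v hvw, fun ω A hBA hI => ?_⟩
        refine (hBG ω A hBA hI v a1 a2).trans ?_
        rw [← hℓ] at a4 ⊢
        have hr0 : 0 ≤ 1 / (1 - v) := div_nonneg zero_le_one (by linarith)
        exact err_arith (T := T) m₀ ((L : ℝ) ^ 2) (by positivity) hℓ4 (by linarith) hε'0
          (by linarith) ht2K hKt (by positivity) hLd0.le hC0 (by rw [hT]; linarith)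
          (by rw [hT]; linarith) a3 a4 hr0)
    obtain ⟨m1, m2⟩ := hmain
    refine m1.trans (mul_le_mul_of_nonneg_right ?_ (by linarith))
    rw [hws]
    exact hε'ε
  -- the bound for `ph`
  have hv01 : ∀ v ∈ ws, 0 ≤ v ∧ v ≤ 1 := fun v hvw => ⟨(hv v hvw).1, (hv v hvw).2.1.le⟩
  have hph : ∀ g : Perm (Fin d → ZMod L),
      |ph (ι := Finset (Fin d → ZMod L)) card ws (cycs g)| ≤ ((L : ℝ) ^ d) ^ k := by
    intro g
    obtain ⟨p1, p2⟩ := ph_bound (ι := Finset (Fin d → ZMod L)) card ws hv01 (cycs g)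
    have e1 : ∑ C ∈ cycs g, ((C.card : ℕ) : ℝ) = (L : ℝ) ^ d := by
      rw [← Nat.cast_sum, sum_cycs g, hcard]
    rw [abs_of_nonneg p1]
    rw [e1, hws] at p2
    exact p2
  obtain ⟨P, hP⟩ : ∃ P : ℝ, P = (ws.map fun v => 1 / (1 - v)).prod := ⟨_, rfl⟩
  rw [← hP] at key ⊢
  have hM : (0 : ℝ) < ((L : ℝ) ^ d) ^ k := pow_pos hLd0 k
  have up : stirExp (nnRate d L) t (fun g => ph (ι := Finset (Fin d → ZMod L)) card ws (cycs g)) ≤
      P + ε * P := by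
    refine stir_le (by omega) hL hK1 hKt ht2K hM hph ?_
    obtain ⟨q₀, hq₀⟩ := key
    refine ⟨q₀, fun q hq σ hσ δ h1 h2 => ?_⟩
    have := (abs_le.1 (hq₀ q hq σ hσ δ h1 h2)).2
    linarith
  have low : stirExp (nnRate d L) t
      (fun g => -1 * ph (ι := Finset (Fin d → ZMod L)) card ws (cycs g)) ≤ -P + ε * P := by
    refine stir_le (by omega) hL hK1 hKt ht2K hM (fun g => ?_) ?_
    · rw [neg_one_mul, abs_neg]
      exact hph g
    obtain ⟨q₀, hq₀⟩ := key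
    refine ⟨q₀, fun q hq σ hσ δ h1 h2 => ?_⟩
    have := (abs_le.1 (hq₀ q hq σ hσ δ h1 h2)).1
    rw [Pool.Agent.Q68.LC.EE_smul (K * (q * ms d L)) δ (-1)
      (fun ω => ph (ι := Finset (Fin d → ZMod L)) card ws
        (cycs (gp (ed ∘ σ) ω (K * (q * ms d L)))))]
    linarith
  have hneg : stirExp (nnRate d L) t
      (fun g => -1 * ph (ι := Finset (Fin d → ZMod L)) card ws (cycs g)) =
      -1 * stirExp (nnRate d L) t
        (fun g => ph (ι := Finset (Fin d → ZMod L)) card ws (cycs g)) := by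
    unfold stirExp
    rw [mul_sum]
    exact sum_congr rfl fun g _ => by ring
  rw [hneg] at low
  rw [abs_le]
  constructor <;> linarith

end Pool.Agent.H961.T3.Stirh
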