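import Pool.Agent.H961.T3.Stm
import Pool.Agent.H961.T2.B2
import Pool.Agent.H961.T2.B3
import Pool.Agent.H961.T2.B6

/-!
# Project MS: the sum of the resolvent in a good environment (ENV, from VAR)
-/

set_option autoImplicit false

namespace Pool.Agent.H961.T3.Envh

open Finset Equiv Matrix Q292.LC Pool.Agent.H961.T2 Pool.Agent.H961.T3 Filter Topology
open Pool.Agent.Q68.LC (SS)

section gen

variable {V : Type} [Fintype V] [DecidableEq V]

/-- the complement of `A` is closed -/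
theorem pow_zero_of (T : Matrix V V ℝ) (A : Finset V) (hz : ∀ a, a ∉ A → ∀ b ∈ A, T a b = 0)
    (x : V) (hx : x ∉ A) (j : ℕ) : ∀ y ∈ A, (T ^ j) x y = 0 := by
  induction j with
  | zero =>
    intro y hy
    rw [pow_zero, Matrix.one_apply_ne]
    intro h
    rw [h] at hx
    exact hx hy
  | succ j ih =>
    intro y hy
    rw [pow_succ, Matrix.mul_apply]
    refine sum_eq_zero fun z _ => ?_
    by_cases h : z ∈ A
    · rw [ih z h, zero_mul]
    · rw [hz z h y hy, mul_zero]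

/-- the restriction to the complement of `A` is not needed -/
theorem pow_restrict (T : Matrix V V ℝ) (A : Finset V) (hz : ∀ a, a ∉ A → ∀ b ∈ A, T a b = 0)
    (x : V) (hx : x ∉ A) (j : ℕ) : ∀ y, (T * (dg (univ \ A) * T) ^ j) x y = (T ^ (j + 1)) x y := by
  induction j with
  | zero =>
    intro y
    rw [pow_zero, Matrix.mul_one, zero_add, pow_one]
  | succ j ih =>
    intro y
    rw [pow_succ (dg (univ \ A) * T), ← Matrix.mul_assoc, Matrix.mul_apply, pow_succ T (j + 1),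
      Matrix.mul_apply]
    refine sum_congr rfl fun z _ => ?_
    rw [ih z, dgT_apply]
    by_cases h : z ∈ A
    · rw [pow_zero_of T A hz x hx (j + 1) z h, zero_mul, zero_mul]
    · rw [if_pos (mem_sdiff.2 ⟨mem_univ _, h⟩), one_mul]

/-- the uniform vector on the complement of `A` is invariant -/
theorem unif_inv (T : Matrix V V ℝ) (A : Finset V) (g : Perm V) (hinv : ∀ a ∈ A, g a ∈ A)
    (hcol : ∀ y, ∑ x, T x y = 1) (hrowA : ∀ x ∈ A, ∀ y, T x y = if g x = y then 1 else 0)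
    (hz : ∀ a, a ∉ A → ∀ b ∈ A, T a b = 0) (c : ℝ) (k : ℕ) :
    vecMul (fun y => if y ∈ A then 0 else c) (T ^ k) = fun y => if y ∈ A then 0 else c := by
  induction k with
  | zero => rw [pow_zero, vecMul_one]
  | succ k ih =>
    rw [pow_succ, ← vecMul_vecMul, ih]
    funext y
    show ∑ x, (if x ∈ A then 0 else c) * T x y = _
    by_cases hy : y ∈ A
    · rw [if_pos hy]
      refine sum_eq_zero fun x _ => ?_
      by_cases hx : x ∈ A
      · rw [if_pos hx, zero_mul]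
      · rw [hz x hx y hy, mul_zero]
    · rw [if_neg hy]
      have h1 : ∀ x, (if x ∈ A then 0 else c) * T x y = c * T x y := by
        intro x
        by_cases hx : x ∈ A
        · have : g x ≠ y := fun h => hy (h ▸ hinv x hx)
          rw [if_pos hx, hrowA x hx y, if_neg this]
          ring
        · rw [if_neg hx]
      simp only [h1]
      rw [← mul_sum, hcol, mul_one]

/-- diagonal entries of the powers, from the decay of zero sum functions -/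
theorem diag_close (T : Matrix V V ℝ) (A : Finset V) (g : Perm V) (hinv : ∀ a ∈ A, g a ∈ A)
    (hcol : ∀ y, ∑ x, T x y = 1) (hrowA : ∀ x ∈ A, ∀ y, T x y = if g x = y then 1 else 0)
    (hz : ∀ a, a ∉ A → ∀ b ∈ A, T a b = 0) (k : ℕ) (t : ℝ)
    (hdec : ∀ f : V → ℝ, (∀ x ∈ A, f x = 0) → ∑ x, f x = 0 →
      ∑ x, (vecMul f (T ^ k) x) ^ 2 ≤ Real.exp (-(2 * t)) * ∑ x, (f x) ^ 2)
    (x : V) (hx : x ∉ A) :
    |(T ^ k) x x - 1 / ((univ \ A).card : ℝ)| ≤ Real.exp (-t) := by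
  obtain ⟨c, hc⟩ : ∃ c : ℝ, c = 1 / ((univ \ A).card : ℝ) := ⟨_, rfl⟩
  rw [← hc]
  have hUpos : 0 < (univ \ A).card := card_pos.2 ⟨x, mem_sdiff.2 ⟨mem_univ _, hx⟩⟩
  have hUr : (0 : ℝ) < ((univ \ A).card : ℝ) := by exact_mod_cast hUpos
  have hsumu : ∑ y : V, (if y ∈ A then 0 else c) = 1 := by
    rw [← sum_sdiff (subset_univ A)]
    have h1 : ∑ y ∈ A, (if y ∈ A then 0 else c) = 0 := sum_eq_zero fun y hy => by rw [if_pos hy]
    have h2 : ∑ y ∈ univ \ A, (if y ∈ A then 0 else c) = ∑ _y ∈ univ \ A, c :=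
      sum_congr rfl fun y hy => by rw [if_neg (mem_sdiff.1 hy).2]
    rw [h1, h2, sum_const, nsmul_eq_mul, hc, add_zero]
    field_simp
  have hsumu2 : ∑ y : V, (if y ∈ A then 0 else c) ^ 2 = c := by
    have h1 : ∀ y : V, (if y ∈ A then 0 else c) ^ 2 = c * (if y ∈ A then 0 else c) := by
      intro y
      split_ifs <;> ring
    simp only [h1]
    rw [← mul_sum, hsumu, mul_one]
  have hc0 : 0 < c := by rw [hc]; positivity
  obtain ⟨f, hf⟩ : ∃ f : V → ℝ, f = fun y => (Pi.single x (1 : ℝ) : V → ℝ) y -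
    (if y ∈ A then 0 else c) := ⟨_, rfl⟩
  have f0 : ∀ y ∈ A, f y = 0 := by
    intro y hy
    have : y ≠ x := fun h => hx (h ▸ hy)
    rw [hf]
    simp only
    rw [Pi.single_eq_of_ne this, if_pos hy, sub_zero]
  have hs1 : ∑ y : V, (Pi.single x (1 : ℝ) : V → ℝ) y = 1 := by
    rw [Finset.sum_eq_single x]
    · rw [Pi.single_eq_same]
    · intro b _ hb
      rw [Pi.single_eq_of_ne hb]
    · intro h
      exact absurd (mem_univ x) h
  have f1 : ∑ y, f y = 0 := by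
    rw [hf]
    simp only
    rw [sum_sub_distrib, hs1, hsumu, sub_self]
  have f2 : ∑ y, (f y) ^ 2 ≤ 1 := by
    have h1 : ∀ y, (f y) ^ 2 = (Pi.single x (1 : ℝ) : V → ℝ) y -
        2 * ((Pi.single x (1 : ℝ) : V → ℝ) y * (if y ∈ A then 0 else c)) +
        (if y ∈ A then 0 else c) ^ 2 := by
      intro y
      rw [hf]
      simp only
      by_cases h : y = x
      · subst h
        rw [Pi.single_eq_same]
        ring
      · rw [Pi.single_eq_of_ne h]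
        ring
    have h2 : ∑ y : V, (Pi.single x (1 : ℝ) : V → ℝ) y * (if y ∈ A then 0 else c) = c := by
      rw [Finset.sum_eq_single x]
      · rw [Pi.single_eq_same, if_neg hx, one_mul]
      · intro b _ hb
        rw [Pi.single_eq_of_ne hb, zero_mul]
      · intro h
        exact absurd (mem_univ x) h
    simp only [h1]
    rw [sum_add_distrib, sum_sub_distrib, ← mul_sum, hs1, h2, hsumu2]
    linarith
  have h3 := hdec f f0 f1
  have h4 : vecMul f (T ^ k) x = (T ^ k) x x - c := by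
    have h5 : f = (Pi.single x (1 : ℝ) : V → ℝ) - fun y => (if y ∈ A then 0 else c) := by
      rw [hf]
      rfl
    rw [h5, sub_vecMul, unif_inv T A g hinv hcol hrowA hz c k, Pi.sub_apply, single_one_vecMul]
    show (T ^ k) x x - (if x ∈ A then 0 else c) = _
    rw [if_neg hx]
  have h5 : (vecMul f (T ^ k) x) ^ 2 ≤ ∑ y, (vecMul f (T ^ k) y) ^ 2 :=
    single_le_sum (f := fun y => (vecMul f (T ^ k) y) ^ 2) (fun _ _ => sq_nonneg _) (mem_univ x)
  rw [h4] at h5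
  refine abs_le_of_sq_le_sq ?_ (Real.exp_pos _).le
  refine h5.trans (h3.trans ?_)
  calc Real.exp (-(2 * t)) * ∑ y, (f y) ^ 2 ≤ Real.exp (-(2 * t)) * 1 :=
        mul_le_mul_of_nonneg_left f2 (Real.exp_pos _).le
    _ = Real.exp (-t) ^ 2 := by
        rw [mul_one, ← Real.exp_nat_mul]
        congr 1
        push_cast
        ring

end gen

/-- geometric sum -/
theorem geo_sum (M : ℕ) (y : ℝ) (hy : 0 < y) :
    ∑ i ∈ range M, Real.exp (-(((i : ℝ) + 1) * y)) ≤ 1 / y := by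
  have h1 : ∀ M : ℕ, y * ∑ i ∈ range M, Real.exp (-(((i : ℝ) + 1) * y)) ≤
      1 - Real.exp (-((M : ℝ) * y)) := by
    intro M
    induction M with
    | zero => simp
    | succ M ih =>
      rw [sum_range_succ, mul_add]
      have e1 : Real.exp (-(((M : ℝ) + 1) * y)) = Real.exp (-((M : ℝ) * y)) * Real.exp (-y) := by
        rw [← Real.exp_add]
        congr 1
        ring
      push_cast
      rw [e1]
      have hp : 0 < Real.exp (-((M : ℝ) * y)) := Real.exp_pos _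
      have h2 : (y + 1) * Real.exp (-y) ≤ 1 := by
        have h3 := Real.add_one_le_exp y
        calc (y + 1) * Real.exp (-y) ≤ Real.exp y * Real.exp (-y) :=
              mul_le_mul_of_nonneg_right h3 (Real.exp_pos _).le
          _ = 1 := by rw [← Real.exp_add]; simp
      nlinarith [mul_le_mul_of_nonneg_left h2 hp.le]
  have h2 := h1 M
  have h3 : 0 < Real.exp (-((M : ℝ) * y)) := Real.exp_pos _
  rw [le_div_iff₀ hy]
  linarith

/-- abstract sum -/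
theorem sum_bd (b : ℕ → ℝ) (C P Z a : ℝ) (d : ℕ) (hd : 3 ≤ d) (hC : 0 ≤ C) (hP : 0 ≤ P)
    (ha : 0 < a) (hZ : 0 ≤ Z) (hb0 : ∀ j, 0 ≤ b j)
    (hb1 : ∀ j : ℕ, b j ≤ C + P * ((j : ℝ) + 1) ^ (-(d / 2 : ℝ)))
    (hb2 : ∀ j : ℕ, b j ≤ Real.exp Z * Real.exp (-(((j : ℝ) + 1) * a))) (M : ℕ) :
    ∑ j ∈ range M, b j ≤ C * (Z / a + 1) + P * rr d 0 + 1 / a := by
  obtain ⟨k1, hk1⟩ : ∃ k1 : ℕ, k1 = ⌈Z / a⌉₊ := ⟨_, rfl⟩
  have hk2 : Z / a ≤ k1 := by rw [hk1]; exact Nat.le_ceil _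
  have hk3 : (k1 : ℝ) ≤ Z / a + 1 := by
    rw [hk1]
    exact (Nat.ceil_lt_add_one (by positivity)).le
  have hZk : Z ≤ k1 * a := by rwa [div_le_iff₀ ha] at hk2
  have h1 : ∑ j ∈ range M, b j ≤ ∑ j ∈ range (k1 + M), b j :=
    sum_le_sum_of_subset_of_nonneg (range_subset_range.2 (by omega)) fun k _ _ => hb0 k
  rw [sum_range_add] at h1
  have h2 : ∑ j ∈ range k1, b j ≤ k1 * C + P * rr d 0 := by
    refine (sum_le_sum fun j _ => hb1 j).trans ?_
    rw [sum_add_distrib, sum_const, card_range, nsmul_eq_mul, ← mul_sum]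
    have e3 : ∑ i ∈ range k1, ((i : ℝ) + 1) ^ (-(d / 2 : ℝ)) ≤ rr d 0 := by
      have h := (rr_summable d 0 hd).sum_le_tsum (range k1) (fun k _ => by positivity)
      refine le_trans (le_of_eq ?_) h
      refine sum_congr rfl fun i _ => ?_
      push_cast
      rw [add_zero]
    exact add_le_add le_rfl (mul_le_mul_of_nonneg_left e3 hP)
  have h3 : ∑ i ∈ range M, b (k1 + i) ≤ 1 / a := by
    refine le_trans (sum_le_sum fun i _ => ?_) (geo_sum M a ha)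
    refine (hb2 (k1 + i)).trans ?_
    rw [← Real.exp_add]
    apply Real.exp_le_exp.2
    push_cast
    nlinarith
  have h4 : (k1 : ℝ) * C ≤ C * (Z / a + 1) := by
    rw [mul_comm]
    exact mul_le_mul_of_nonneg_left hk3 hC
  linarith

/-- the complement of a set with few points in every ball is not empty -/
theorem compl_ne (d L : ℕ) [NeZero L] (hd : 1 ≤ d) (A : Finset (Fin d → ZMod L)) (lam r Z : ℕ)
    (hlam : lam ≤ Z) (hr : d * Z ≤ r) (hL : Z < L)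
    (h : ∀ v, (A ∩ bal v r).card ≤ lam) : (univ \ A).Nonempty := by
  by_contra hcon
  rw [not_nonempty_iff_eq_empty, sdiff_eq_empty_iff_subset] at hcon
  have h1 : A = univ := Finset.eq_univ_iff_forall.2 fun x => hcon (mem_univ x)
  have h2 := h 0
  rw [h1, univ_inter] at h2
  have h3 := Pool.Agent.Q257.LC.card_bal_ge (d := d) (L := L) r Z hr hL
  have h4 : Z + 1 ≤ (Z + 1) ^ d := Nat.le_self_pow (by omega) _
  omega

theorem env (hVAR : S_VAR) : S_ENV := by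
  intro d hd
  obtain ⟨C0, m0, hC0, hvar⟩ := hVAR d (by omega)
  obtain ⟨C1, m1, c, hC1, hc, hker⟩ := ker2 d hd
  obtain ⟨c5, hc5⟩ : ∃ c5 : ℝ, c5 = c ^ (-(d / 2 : ℝ)) * rr d 0 := ⟨_, rfl⟩
  have hc50 : 0 ≤ c5 := by
    rw [hc5]
    exact mul_nonneg (Real.rpow_nonneg hc.le _) (rr_nonneg d 0)
  refine ⟨C0 + 2 * C1 + 4 + d + ⌈c5⌉₊, m0 + m1 + 2, by omega, ?_⟩
  intro Z hZ L K lam r ρ κ₀ _ hlam hρ hκ hLd hr hL hK
  have hZ1 : 1 ≤ Z := by omega
  have p0 : Z ^ m0 ≤ Z ^ (m0 + m1 + 2) := Nat.pow_le_pow_right hZ1 (by omega)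
  have p1 : Z ^ m1 ≤ Z ^ (m0 + m1 + 2) := Nat.pow_le_pow_right hZ1 (by omega)
  have p2 : Z ^ 2 ≤ Z ^ (m0 + m1 + 2) := Nat.pow_le_pow_right hZ1 (by omega)
  have p3 : Z ^ (m0 + 2) ≤ Z ^ (m0 + m1 + 2) := Nat.pow_le_pow_right hZ1 (by omega)
  have hZZ : Z ≤ Z ^ 2 := Nat.le_self_pow (by norm_num) _
  obtain ⟨q1, hq1⟩ := hvar Z (by omega) L K lam r ρ κ₀ hlam hρ hκ (by omega) (by omega) (by omega)
  obtain ⟨q2, hq2⟩ := hker Z (by omega) L K lam r ρ κ₀ hlam hρ hκ hLd (by omega) (by omega)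
    (by omega)
  refine ⟨q1 + q2 + 2, ?_⟩
  intro q hq σ hσ δ h1 h2 ω A hEv hinv w hw0 hw1
  have hqr : (2 : ℝ) ≤ q := by
    have : 2 ≤ q := by omega
    exact_mod_cast this
  have hδ : 0 < δ := by
    by_contra h
    push Not at h
    nlinarith
  have hδ1 : δ ≤ 1 := by nlinarith
  have hB := Pool.Agent.Q68.LC.bas2 _ (ed ∘ σ) ω A δ hδ.le hδ1
  obtain ⟨g, hg⟩ : ∃ g, g = gp (ed ∘ σ) ω (K * (q * ms d L)) := ⟨_, rfl⟩
  have hdec0 := hq1 q (by omega) σ hσ δ h1 h2 ω A hEv hinv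
  have hk1 := hq2 q (by omega) σ hσ δ h1 h2 ω A hEv (univ \ A)
  obtain ⟨T, hT⟩ : ∃ T, T = TT (ed ∘ σ) ω A δ (K * (q * ms d L)) := ⟨_, rfl⟩
  rw [← hT] at hdec0 hk1 ⊢
  rw [← hg] at hinv
  have hT0 : ∀ x y, 0 ≤ T x y := by
    rw [hT]
    exact hB.1 _
  have hrow : ∀ x, ∑ y, T x y = 1 := by
    rw [hT]
    exact hB.2.1 _
  have hcol : ∀ y, ∑ x, T x y = 1 := by
    rw [hT]
    exact hB.2.2.1 _
  have hrowA : ∀ x ∈ A, ∀ y, T x y = if g x = y then 1 else 0 := by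
    rw [hT, hg]
    exact hB.2.2.2.1 _
  have hgA : A.image g = A := by
    refine Finset.eq_of_subset_of_card_le ?_ ?_
    · intro y hy
      obtain ⟨a, ha, hay⟩ := mem_image.1 hy
      rw [← hay]
      exact hinv a ha
    · rw [card_image_of_injective _ g.injective]
  have hz : ∀ a, a ∉ A → ∀ b ∈ A, T a b = 0 := by
    intro a ha b hb
    rw [hT]
    refine hB.2.2.2.2.1 _ a ha b ?_
    rw [← hg, hgA]
    exact hb
  have hSS : SS T := ⟨hT0, fun x => (hrow x).le⟩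
  -- the complement is not empty
  have hU : (univ \ A).Nonempty := by
    refine compl_ne d L (by omega) A lam r Z hlam ?_ ?_ ?_
    · have e1 : d * Z ≤ Z * Z := Nat.mul_le_mul_right _ (by omega)
      have e2 : Z * Z = Z ^ 2 := by ring
      omega
    · have : Z < 8 * Z ^ 2 := by omega
      omega
    · intro v
      have := hEv.1 0 (Nat.zero_le _) v
      rw [Nat.zero_mul] at this
      have e1 : A.image (gp (ed ∘ σ) ω 0) = A := by
        simp [gp]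
      rwa [e1] at this
  have hK1 : 1 ≤ K := by
    have : 1 ≤ Z ^ (m0 + m1 + 2) := Nat.one_le_pow _ _ hZ1
    omega
  have hL1 : 1 ≤ L := by
    have : 1 ≤ Z ^ (m0 + m1 + 2) := Nat.one_le_pow _ _ hZ1
    omega
  have hK0 : (0 : ℝ) < K := by exact_mod_cast hK1
  have hL0 : (0 : ℝ) < L := by exact_mod_cast hL1
  have hZ0 : (0 : ℝ) < Z := by exact_mod_cast hZ1
  have hLd0 : (0 : ℝ) < (L : ℝ) ^ d := by positivity
  obtain ⟨a, ha⟩ : ∃ a : ℝ, a = K / (2 * ((Z : ℝ) ^ m0 * (L : ℝ) ^ 2)) := ⟨_, rfl⟩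
  have ha0 : 0 < a := by rw [ha]; positivity
  -- the diagonal entries
  have hdiag : ∀ (j : ℕ) (x : Fin d → ZMod L), x ∉ A →
      |(T ^ (j + 1)) x x - 1 / ((univ \ A).card : ℝ)| ≤ Real.exp (-(((j : ℝ) + 1) * a)) := by
    intro j x hx
    refine diag_close T A g hinv hcol hrowA hz (j + 1) _ ?_ x hx
    intro f hf0 hf1
    have h3 := hdec0 f hf0 hf1 (j + 1)
    have e1 : -(((j + 1 : ℕ) : ℝ) * K / ((Z : ℝ) ^ m0 * (L : ℝ) ^ 2)) =
        -(2 * (((j : ℝ) + 1) * a)) := by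
      rw [ha]
      push_cast
      field_simp
    rw [e1] at h3
    exact h3
  have hcardU : ((univ \ A).card : ℝ) ≤ (L : ℝ) ^ d := by
    have e1 : (univ \ A).card ≤ (univ : Finset (Fin d → ZMod L)).card :=
      card_le_card (subset_univ _)
    rw [card_univ, Fintype.card_fun, ZMod.card, Fintype.card_fin] at e1
    exact_mod_cast e1
  have hUpos : (0 : ℝ) < ((univ \ A).card : ℝ) := by
    exact_mod_cast card_pos.2 hU
  obtain ⟨s, hs⟩ : ∃ s : ℕ → ℝ, ∀ j, s j = ∑ x ∈ univ \ A, (T ^ (j + 1)) x x := ⟨_, fun _ => rfl⟩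
  have hs0 : ∀ j, 0 ≤ s j := by
    intro j
    rw [hs]
    exact sum_nonneg fun x _ => (Pool.Agent.Q68.LC.SS_pow hSS (j + 1)).nn x x
  have hpow : ∀ (j : ℕ) (x : Fin d → ZMod L), x ∈ univ \ A →
      (T * (dg (univ \ A) * T) ^ j) x x = (T ^ (j + 1)) x x := fun j x hx =>
    pow_restrict T A hz x (mem_sdiff.1 hx).2 j x
  have hUA : Disjoint (univ \ A) A := sdiff_disjoint
  -- first bound
  obtain ⟨P, hP⟩ : ∃ P : ℝ, P = (L : ℝ) ^ d * (c * K) ^ (-(d / 2 : ℝ)) := ⟨_, rfl⟩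
  have hP0 : 0 ≤ P := by
    rw [hP]
    exact mul_nonneg hLd0.le (Real.rpow_nonneg (by positivity) _)
  have b1 : ∀ j : ℕ, |s j - 1| ≤ ((C1 : ℝ) + 1) + P * ((j : ℝ) + 1) ^ (-(d / 2 : ℝ)) := by
    intro j
    have e1 : s j ≤ (C1 : ℝ) + P * ((j : ℝ) + 1) ^ (-(d / 2 : ℝ)) := by
      have e0 : 0 ≤ C1 / (L : ℝ) ^ d + (c * K * ((j : ℝ) + 1)) ^ (-(d / 2 : ℝ)) := by positivity
      rw [hs]
      calc ∑ x ∈ univ \ A, (T ^ (j + 1)) x x ≤
            ∑ x ∈ univ \ A, (C1 / (L : ℝ) ^ d + (c * K * ((j : ℝ) + 1)) ^ (-(d / 2 : ℝ))) := by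
            refine sum_le_sum fun x hx => ?_
            rw [← hpow j x hx]
            exact hk1 x x hUA (mem_sdiff.1 hx).2 j
        _ = (univ \ A).card * (C1 / (L : ℝ) ^ d + (c * K * ((j : ℝ) + 1)) ^ (-(d / 2 : ℝ))) := by
            rw [sum_const, nsmul_eq_mul]
        _ ≤ (L : ℝ) ^ d * (C1 / (L : ℝ) ^ d + (c * K * ((j : ℝ) + 1)) ^ (-(d / 2 : ℝ))) :=
            mul_le_mul_of_nonneg_right hcardU e0
        _ = _ := by
            rw [Real.mul_rpow (by positivity) (by positivity), hP]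
            field_simp
    have e2 : 0 ≤ P * ((j : ℝ) + 1) ^ (-(d / 2 : ℝ)) :=
      mul_nonneg hP0 (Real.rpow_nonneg (by positivity) _)
    have e3 := hs0 j
    have e4 : (0 : ℝ) ≤ C1 := Nat.cast_nonneg _
    rw [abs_le]
    constructor <;> linarith
  -- second bound
  have b2 : ∀ j : ℕ, |s j - 1| ≤ Real.exp Z * Real.exp (-(((j : ℝ) + 1) * a)) := by
    intro j
    have e1 : s j - 1 = ∑ x ∈ univ \ A, ((T ^ (j + 1)) x x - 1 / ((univ \ A).card : ℝ)) := by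
      rw [sum_sub_distrib, hs, sum_const, nsmul_eq_mul]
      field_simp
    rw [e1]
    refine (abs_sum_le_sum_abs _ _).trans ?_
    refine (sum_le_sum fun x hx => hdiag j x (mem_sdiff.1 hx).2).trans ?_
    rw [sum_const, nsmul_eq_mul]
    exact mul_le_mul_of_nonneg_right (hcardU.trans hLd) (Real.exp_pos _).le
  obtain ⟨Bd, hBd⟩ : ∃ Bd : ℝ, Bd = ((C1 : ℝ) + 1) * (Z / a + 1) + P * rr d 0 + 1 / a := ⟨_, rfl⟩
  have hsum : ∀ M : ℕ, ∑ j ∈ range M, |s j - 1| ≤ Bd := by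
    intro M
    rw [hBd]
    exact sum_bd (fun j => |s j - 1|) (C1 + 1) P Z a d hd (by positivity) hP0 ha0 hZ0.le
      (fun j => abs_nonneg _) b1 b2 M
  -- the limits
  have l1 : Tendsto (fun M : ℕ => ∑ x ∈ univ \ A, ∑ k ∈ range M,
      w ^ (k + 1) * (T * (dg (univ \ A) * T) ^ k) x x) atTop
      (𝓝 (∑ x ∈ univ \ A, Gx w (univ \ A) T x)) :=
    tendsto_finsetSum _ fun x hx => Gx_tendsto w (univ \ A) T x hSS hw0 hw1 hx
  have l1' : ∀ M : ℕ, ∑ x ∈ univ \ A, ∑ k ∈ range M,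
      w ^ (k + 1) * (T * (dg (univ \ A) * T) ^ k) x x = ∑ k ∈ range M, w ^ (k + 1) * s k := by
    intro M
    rw [sum_comm]
    refine sum_congr rfl fun k _ => ?_
    rw [hs, mul_sum]
    exact sum_congr rfl fun x hx => by rw [hpow k x hx]
  have l2 : Tendsto (fun M : ℕ => ∑ k ∈ range M, w ^ (k + 1)) atTop (𝓝 (w * (1 - w)⁻¹)) := by
    have h3 := ((hasSum_geometric_of_lt_one hw0 hw1).tendsto_sum_nat).const_mul w
    refine h3.congr fun M => ?_
    rw [mul_sum]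
    exact sum_congr rfl fun k _ => by rw [pow_succ]; ring
  have l3 : Tendsto (fun M : ℕ => |(∑ k ∈ range M, w ^ (k + 1) * s k) -
      (∑ k ∈ range M, w ^ (k + 1)) - 1|) atTop
      (𝓝 |(∑ x ∈ univ \ A, Gx w (univ \ A) T x) - w * (1 - w)⁻¹ - 1|) := by
    refine Tendsto.abs ?_
    refine ((l1.congr l1').sub l2).sub_const 1
  have hw1' : (1 - w) ≠ 0 := by linarith
  have e5 : (∑ x ∈ univ \ A, Gx w (univ \ A) T x) - 1 / (1 - w) =
      (∑ x ∈ univ \ A, Gx w (univ \ A) T x) - w * (1 - w)⁻¹ - 1 := by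
    field_simp
    ring
  have e6 : |(∑ x ∈ univ \ A, Gx w (univ \ A) T x) - 1 / (1 - w)| ≤ Bd + 1 := by
    rw [e5]
    refine le_of_tendsto' l3 fun M => ?_
    have e7 : (∑ k ∈ range M, w ^ (k + 1) * s k) - (∑ k ∈ range M, w ^ (k + 1)) - 1 =
        (∑ k ∈ range M, w ^ (k + 1) * (s k - 1)) + (-1) := by
      rw [← sum_sub_distrib]
      have : ∀ k ∈ range M, w ^ (k + 1) * s k - w ^ (k + 1) = w ^ (k + 1) * (s k - 1) :=
        fun k _ => by ring
      rw [sum_congr rfl this]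
      ring
    rw [e7]
    refine (abs_add_le _ _).trans ?_
    rw [abs_neg, abs_one]
    refine add_le_add ?_ le_rfl
    refine (abs_sum_le_sum_abs _ _).trans (le_trans (sum_le_sum fun k _ => ?_) (hsum M))
    rw [abs_mul, abs_of_nonneg (pow_nonneg hw0 _)]
    exact mul_le_of_le_one_left (abs_nonneg _) (pow_le_one₀ hw0 hw1.le)
  refine e6.trans ?_
  -- arithmetic
  obtain ⟨X, hX⟩ : ∃ X : ℝ, X = (L : ℝ) ^ 2 / K := ⟨_, rfl⟩
  have hX0 : 0 ≤ X := by rw [hX]; positivity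
  have ea : 1 / a = 2 * ((Z : ℝ) ^ m0 * X) := by
    rw [ha, hX]
    field_simp
  have eZa : Z / a = 2 * ((Z : ℝ) ^ (m0 + 1) * X) := by
    rw [div_eq_mul_one_div, ea, pow_succ]
    ring
  have eP : P * rr d 0 = c5 * ((L : ℝ) ^ d * (K : ℝ) ^ (-(d / 2 : ℝ))) := by
    rw [hP, hc5, Real.mul_rpow hc.le hK0.le]
    ring
  have hcc : c5 ≤ ((C0 + 2 * C1 + 4 + d + ⌈c5⌉₊ : ℕ) : ℝ) := by
    have h3 := Nat.le_ceil c5
    have h4 : (⌈c5⌉₊ : ℝ) ≤ ((C0 + 2 * C1 + 4 + d + ⌈c5⌉₊ : ℕ) : ℝ) := by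
      have : ⌈c5⌉₊ ≤ C0 + 2 * C1 + 4 + d + ⌈c5⌉₊ := by omega
      exact_mod_cast this
    exact h3.trans h4
  have hY0 : 0 ≤ (L : ℝ) ^ d * (K : ℝ) ^ (-(d / 2 : ℝ)) :=
    mul_nonneg hLd0.le (Real.rpow_nonneg hK0.le _)
  have i1 := mul_le_mul_of_nonneg_right hcc hY0
  have hZr : 2 * (C1 : ℝ) + 4 ≤ Z := by
    have : 2 * C1 + 4 ≤ Z := by omega
    exact_mod_cast this
  have hC1r : (0 : ℝ) ≤ C1 := Nat.cast_nonneg _
  have hZ1r : (1 : ℝ) ≤ Z := by exact_mod_cast hZ1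
  obtain ⟨Y, hY⟩ : ∃ Y : ℝ, Y = (Z : ℝ) ^ (m0 + 1) := ⟨_, rfl⟩
  have hY1 : 1 ≤ Y := by rw [hY]; exact one_le_pow₀ hZ1r
  have hZm : (Z : ℝ) ^ m0 ≤ Y := by rw [hY]; exact pow_le_pow_right₀ hZ1r (by omega)
  have hbig : (2 * (C1 : ℝ) + 4) * Y ≤ (Z : ℝ) ^ (m0 + m1 + 2) := by
    calc (2 * (C1 : ℝ) + 4) * Y ≤ Z * Y := mul_le_mul_of_nonneg_right hZr (by linarith)
      _ = (Z : ℝ) ^ (m0 + 2) := by rw [hY]; ring
      _ ≤ _ := pow_le_pow_right₀ hZ1r (by omega)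
  rw [hBd, eP, ea, eZa, ← hY, ← hX]
  have i2 : ((C1 : ℝ) + 1) * (2 * (Y * X) + 1) + 2 * ((Z : ℝ) ^ m0 * X) + 1 ≤
      (2 * (C1 : ℝ) + 4) * Y * (1 + X) := by
    have j1 : (Z : ℝ) ^ m0 * X ≤ Y * X := mul_le_mul_of_nonneg_right hZm hX0
    have j2 : 0 ≤ Y * X := by positivity
    nlinarith [mul_nonneg hC1r (by linarith : 0 ≤ Y - 1)]
  have i3 : (2 * (C1 : ℝ) + 4) * Y * (1 + X) ≤ (Z : ℝ) ^ (m0 + m1 + 2) * (1 + X) :=
    mul_le_mul_of_nonneg_right hbig (by linarith)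
  linarith

end Pool.Agent.H961.T3.Envh
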