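import Pool.Agent.H961.T3.Stm

/-!
# MS REC: the two-sided recursion (helper738)
-/

set_option autoImplicit false

namespace Pool.Agent.H961.T3.Rech

open Finset Equiv Matrix Q292.LC Pool.Agent.H961.T2 Pool.Agent.H961.T3 Filter Topology
open Pool.Agent.Q68.LC (EE_congr EE_const EE_add EE_smul EE_mono EE_succ SS SS_dg SS_pow SS_le)

lemma th_nonneg {ι : Type} [DecidableEq ι] (a : ι → ℕ) {w : ℝ} (hw : 0 ≤ w) :
    ∀ (ws : List ℝ) (J : Finset ι), (∀ v ∈ ws, 0 ≤ v) → 0 ≤ th a w ws J := by
  intro ws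
  induction ws with
  | nil =>
    intro J _
    exact Finset.prod_nonneg fun C _ => pow_nonneg hw _
  | cons v ws ih =>
    intro J h
    exact Finset.sum_nonneg fun C _ => mul_nonneg (mul_nonneg (Nat.cast_nonneg _)
      (pow_nonneg (h v List.mem_cons_self) _)) (ih _ fun u hu => h u (List.mem_cons_of_mem _ hu))

variable {V : Type} [Fintype V] [DecidableEq V]

theorem SS_mul {A B : Matrix V V ℝ} (hA : SS A) (hB : SS B) : SS (A * B) := by
  refine ⟨fun x y => ?_, fun x => ?_⟩
  · rw [Matrix.mul_apply]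
    exact Finset.sum_nonneg fun z _ => mul_nonneg (hA.nn _ _) (hB.nn _ _)
  · simp only [Matrix.mul_apply]
    rw [Finset.sum_comm]
    simp only [← Finset.mul_sum]
    calc ∑ z, A x z * ∑ y, B z y ≤ ∑ z, A x z * 1 :=
          Finset.sum_le_sum fun z _ => mul_le_mul_of_nonneg_left (hB.row z) (hA.nn _ _)
      _ ≤ 1 := by simpa using hA.row x

theorem Gx_bd (w : ℝ) (U : Finset V) (T : Matrix V V ℝ) (x : V) (hT : SS T) (h0 : 0 ≤ w)
    (h1 : w < 1) (hx : x ∈ U) : 0 ≤ Gx w U T x ∧ Gx w U T x ≤ 1 / (1 - w) := by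
  have ht := Gx_tendsto w U T x hT h0 h1 hx
  have hk : ∀ k, SS (T * (dg U * T) ^ k) := fun k => SS_mul hT (SS_pow (SS_dg hT U) k)
  refine ⟨ge_of_tendsto' ht fun N => Finset.sum_nonneg fun k _ =>
    mul_nonneg (pow_nonneg h0 _) ((hk k).nn _ _), le_of_tendsto' ht fun N => ?_⟩
  calc ∑ k ∈ Finset.range N, w ^ (k + 1) * (T * (dg U * T) ^ k) x x
      ≤ ∑ k ∈ Finset.range N, w ^ k := by
        refine Finset.sum_le_sum fun k _ => ?_
        calc w ^ (k + 1) * (T * (dg U * T) ^ k) x x ≤ w ^ (k + 1) * 1 :=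
              mul_le_mul_of_nonneg_left (SS_le (hk k) x x) (pow_nonneg h0 _)
          _ = w ^ k * w := by ring
          _ ≤ w ^ k * 1 := mul_le_mul_of_nonneg_left h1.le (pow_nonneg h0 _)
          _ = w ^ k := mul_one _
    _ ≤ 1 / (1 - w) := by
        rw [one_div, ← tsum_geometric_of_lt_one h0 h1]
        exact (summable_geometric_of_lt_one h0 h1).sum_le_tsum _ fun k _ => pow_nonneg h0 _

theorem Gx_sum_bd (w : ℝ) (U : Finset V) (T : Matrix V V ℝ) (hT : SS T) (h0 : 0 ≤ w)
    (h1 : w < 1) :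
    0 ≤ ∑ x ∈ U, Gx w U T x ∧ ∑ x ∈ U, Gx w U T x ≤ (Fintype.card V : ℝ) / (1 - w) := by
  have h2 : 0 < 1 - w := by linarith
  refine ⟨Finset.sum_nonneg fun x hx => (Gx_bd w U T x hT h0 h1 hx).1, ?_⟩
  calc ∑ x ∈ U, Gx w U T x ≤ ∑ x ∈ U, 1 / (1 - w) :=
        Finset.sum_le_sum fun x hx => (Gx_bd w U T x hT h0 h1 hx).2
    _ = (U.card : ℝ) * (1 / (1 - w)) := by rw [Finset.sum_const, nsmul_eq_mul]
    _ ≤ (Fintype.card V : ℝ) * (1 / (1 - w)) := by
        refine mul_le_mul_of_nonneg_right ?_ (by positivity)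
        exact_mod_cast Finset.card_le_univ U
    _ = _ := by ring

theorem sum_inv (hCYC : S_CYC) (g : Perm V) (w : ℝ) (ws : List ℝ) (F : Finset V → ℝ) :
    ∑ A : Finset V, (if Inv g A then
      th card w ws ((cycs g).filter fun C => C ⊆ A) * dS w (univ \ A) (pm g) * F A else 0) =
    ∑ J ∈ (cycs g).powerset, th card w ws J * (∏ C ∈ cycs g \ J, (1 - w ^ C.card)) *
      F (J.biUnion id) := by
  obtain ⟨c1, c2, c3, c4, c5⟩ := hCYC V g
  rw [c1 (fun A => th card w ws ((cycs g).filter fun C => C ⊆ A) * dS w (univ \ A) (pm g) * F A)]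
  refine sum_congr rfl fun J hJ => ?_
  rw [mem_powerset] at hJ
  rw [(c2 J hJ).1, c4 w J hJ]

/-- the total mass -/
theorem sum_one (hCYC : S_CYC) (hMASS : S_MASS) (g : Perm V) (w : ℝ) (ws : List ℝ) :
    ∑ A : Finset V, (if Inv g A then
      th card w ws ((cycs g).filter fun C => C ⊆ A) * dS w (univ \ A) (pm g) * 1 else 0) =
      ph card ws (cycs g) := by
  rw [sum_inv hCYC g w ws fun _ => 1]
  simp only [mul_one]
  exact hMASS (Finset V) card w ws (cycs g)

/-- the mass of the bad sets -/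
theorem sum_bad (hCYC : S_CYC) (hDOM : S_DOM) (g : Perm V) (w wb : ℝ) (ws : List ℝ)
    (hw0 : 0 ≤ w) (hw : w ≤ wb) (hwb : wb ≤ 1) (hws : ∀ v ∈ ws, 0 ≤ v ∧ v ≤ wb)
    (B : Finset V → Prop) [DecidablePred B] (hB : ∀ R R', R' ⊆ R → B R → B R') :
    ∑ A : Finset V, (if Inv g A then
      th card w ws ((cycs g).filter fun C => C ⊆ A) * dS w (univ \ A) (pm g) *
        (if B A then 0 else 1) else 0) ≤
      (Fintype.card V : ℝ) ^ ws.length * ∑ A : Finset V, (if Inv g A then
         (wb ^ A.card * dS wb (univ \ A) (pm g)) * (if B A then 0 else 1) else 0) := by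
  obtain ⟨c1, c2, c3, c4, c5⟩ := hCYC V g
  rw [sum_inv hCYC g w ws fun A => if B A then 0 else 1]
  have h1 := hDOM (Finset V) card w wb ws (cycs g) (fun J => if B (J.biUnion id) then 0 else 1)
    hw0 hw hwb hws (fun J => by beta_reduce; split_ifs <;> norm_num) (fun J J' hJ => by
      beta_reduce
      by_cases h : B (J'.biUnion id)
      · rw [if_pos h, if_pos (hB _ _ (Finset.biUnion_subset_biUnion_of_subset_left _ hJ) h)]
      · rw [if_neg h]
        split_ifs <;> norm_num)
  refine h1.trans (le_of_eq ?_)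
  congr 1
  · congr 1
    have h5 := c5 (fun _ => 1)
    simp only [mul_one, Finset.sum_const, card_univ, nsmul_eq_mul] at h5
    exact h5.symm
  · unfold Pool.Agent.H961.T3.mk
    rw [c1 (fun A => (wb ^ A.card * dS wb (univ \ A) (pm g)) * (if B A then 0 else 1))]
    refine sum_congr rfl fun J hJ => ?_
    rw [mem_powerset] at hJ
    rw [c4 wb J hJ, c3 J hJ, Finset.prod_pow_eq_pow_sum]

open Classical in
/-- **REC**, the two-sided recursion -/
theorem rec_k (hSTAR : S_STAR) (hCYC : S_CYC) (hMASS : S_MASS) (hDOM : S_DOM) : S_REC := by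
  intro V _ _ e n δ w wb ws B α β hδ0 hδ1 hw0 hwb hwb1 hws hher hα hβ hG
  have hw1 : w < 1 := by linarith
  have h1w : 0 < 1 - w := by linarith
  have hstar := hSTAR V e n δ w ws hδ0 hδ1 hw0 hw1
  obtain ⟨N, hN⟩ : ∃ N : ℝ, N = (Fintype.card V : ℝ) := ⟨_, rfl⟩
  have hN0 : 0 ≤ N := by rw [hN]; exact Nat.cast_nonneg _
  obtain ⟨θ, hθ⟩ : ∃ θ : (ℕ → Bool) → Finset V → ℝ, θ = fun ω A =>
    th card w ws ((cycs (gp e ω n)).filter fun C => C ⊆ A) *
      dS w (univ \ A) (pm (gp e ω n)) := ⟨_, rfl⟩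
  obtain ⟨G, hGd⟩ : ∃ G : (ℕ → Bool) → Finset V → ℝ, G = fun ω A =>
    ∑ x ∈ univ \ A, Gx w (univ \ A) (TT e ω A δ n) x := ⟨_, rfl⟩
  obtain ⟨S, hS⟩ : ∃ S : (ℕ → Bool) → ℝ, S = fun ω => ∑ A : Finset V,
    (if Inv (gp e ω n) A then (wb ^ A.card * dS wb (univ \ A) (pm (gp e ω n))) *
      (if B ω A then 0 else 1) else 0) := ⟨_, rfl⟩
  have hθ0 : ∀ ω A, 0 ≤ θ ω A := fun ω A => by
    rw [hθ]
    exact mul_nonneg (th_nonneg _ hw0 ws _ fun v hv => (hws v hv).1)
      (Pool.Agent.Q153.LC.p4 V (gp e ω n) 1 w (univ \ A) hw0 hw1).1.1.le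
  have hG0 : ∀ ω A, 0 ≤ G ω A ∧ G ω A ≤ N / (1 - w) := by
    intro ω A
    obtain ⟨b1, b2, -⟩ := Pool.Agent.Q68.LC.bas2 V e ω A δ hδ0 hδ1
    rw [hGd, hN]
    exact Gx_sum_bd w (univ \ A) _ ⟨fun x y => b1 n x y, fun x => (b2 n x).le⟩ hw0 hw1
  have hPW : PW e n δ wb (fun ω A => ¬ B ω A) = EE n δ S := by
    rw [hS]
    unfold PW
    congr 1
    funext ω
    refine sum_congr rfl fun A _ => ?_
    by_cases h1 : Inv (gp e ω n) A <;> by_cases h2 : B ω A <;> simp [h1, h2]
  have hone : ∀ ω, ∑ A : Finset V, (if Inv (gp e ω n) A then θ ω A * 1 else 0) =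
      ph card ws (cycs (gp e ω n)) := by
    intro ω
    rw [hθ]
    exact sum_one hCYC hMASS (gp e ω n) w ws
  have hbad : ∀ ω, ∑ A : Finset V, (if Inv (gp e ω n) A then θ ω A * (if B ω A then 0 else 1)
      else 0) ≤ N ^ ws.length * S ω := by
    intro ω
    rw [hθ, hS, hN]
    exact sum_bad hCYC hDOM (gp e ω n) w wb ws hw0 hwb hwb1.le hws (B ω) (hher ω)
  have hst : EE n δ (fun ω => ph (ι := Finset V) card (w :: ws) (cycs (gp e ω n))) =
      EE n δ (fun ω => ∑ A : Finset V, if Inv (gp e ω n) A then θ ω A * G ω A else 0) := by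
    rw [hstar, hθ, hGd]
  rw [hst, hPW, ← hN]
  constructor
  · -- the upper bound
    have h1 : EE n δ (fun ω => ∑ A : Finset V, if Inv (gp e ω n) A then θ ω A * G ω A else 0) ≤
        EE n δ (fun ω => β * ph card ws (cycs (gp e ω n)) +
          (N ^ (ws.length + 1) / (1 - w)) * S ω) := by
      refine EE_mono hδ0 hδ1 fun ω => ?_
      calc ∑ A : Finset V, (if Inv (gp e ω n) A then θ ω A * G ω A else 0) ≤
          ∑ A : Finset V, (β * (if Inv (gp e ω n) A then θ ω A * 1 else 0) + (N / (1 - w)) *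
            (if Inv (gp e ω n) A then θ ω A * (if B ω A then 0 else 1) else 0)) := by
            refine sum_le_sum fun A _ => ?_
            by_cases hi : Inv (gp e ω n) A
            · rw [if_pos hi, if_pos hi, if_pos hi]
              have h2 : G ω A ≤ β + (N / (1 - w)) * (if B ω A then 0 else 1) := by
                by_cases hb : B ω A
                · rw [if_pos hb, mul_zero, add_zero, hGd]
                  exact (hG ω A hb hi).2
                · rw [if_neg hb, mul_one]
                  linarith [(hG0 ω A).2]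
              have h3 := mul_le_mul_of_nonneg_left h2 (hθ0 ω A)
              refine h3.trans (le_of_eq ?_)
              ring
            · rw [if_neg hi, if_neg hi, if_neg hi, mul_zero, mul_zero, add_zero]
        _ = β * ph card ws (cycs (gp e ω n)) + (N / (1 - w)) * ∑ A : Finset V,
            (if Inv (gp e ω n) A then θ ω A * (if B ω A then 0 else 1) else 0) := by
            rw [sum_add_distrib, ← mul_sum, ← mul_sum, hone]
        _ ≤ β * ph card ws (cycs (gp e ω n)) + (N / (1 - w)) * (N ^ ws.length * S ω) := by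
            have := mul_le_mul_of_nonneg_left (hbad ω) (div_nonneg hN0 h1w.le)
            linarith
        _ = _ := by ring
    refine h1.trans (le_of_eq ?_)
    rw [EE_add, EE_smul, EE_smul]
  · -- the lower bound
    have h1 : EE n δ (fun ω => α * ph card ws (cycs (gp e ω n)) +
          (-(α * N ^ ws.length)) * S ω) ≤
        EE n δ (fun ω => ∑ A : Finset V, if Inv (gp e ω n) A then θ ω A * G ω A else 0) := by
      refine EE_mono hδ0 hδ1 fun ω => ?_
      calc α * ph card ws (cycs (gp e ω n)) + (-(α * N ^ ws.length)) * S ω ≤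
          α * ph card ws (cycs (gp e ω n)) + (-α) * ∑ A : Finset V,
            (if Inv (gp e ω n) A then θ ω A * (if B ω A then 0 else 1) else 0) := by
            have := mul_le_mul_of_nonneg_left (hbad ω) hα
            linarith
        _ = ∑ A : Finset V, (α * (if Inv (gp e ω n) A then θ ω A * 1 else 0) + (-α) *
            (if Inv (gp e ω n) A then θ ω A * (if B ω A then 0 else 1) else 0)) := by
            rw [sum_add_distrib, ← mul_sum, ← mul_sum, hone]
        _ ≤ ∑ A : Finset V, (if Inv (gp e ω n) A then θ ω A * G ω A else 0) := by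
            refine sum_le_sum fun A _ => ?_
            by_cases hi : Inv (gp e ω n) A
            · rw [if_pos hi, if_pos hi, if_pos hi]
              have h2 : α * 1 + (-α) * (if B ω A then 0 else 1) ≤ G ω A := by
                by_cases hb : B ω A
                · rw [if_pos hb, mul_zero, add_zero, mul_one, hGd]
                  exact (hG ω A hb hi).1
                · rw [if_neg hb]
                  linarith [(hG0 ω A).1]
              have h3 := mul_le_mul_of_nonneg_left h2 (hθ0 ω A)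
              refine le_trans (le_of_eq ?_) h3
              ring
            · rw [if_neg hi, if_neg hi, if_neg hi, mul_zero, mul_zero, add_zero]
    refine le_trans (le_of_eq ?_) h1
    rw [EE_add, EE_smul, EE_smul]
    ring

end Pool.Agent.H961.T3.Rech
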