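import Mathlib

/-!
# Project MS, statements 6A (Mathlib only): from characteristic functions to distribution functions
-/

set_option autoImplicit false

namespace Pool.Agent.H961.T3

open Finset

/-- LEVY. Finite form of the continuity theorem for the standard normal law, uniform in `y`.
Proof. By contradiction: otherwise for some `ε` and every `k` there are `Ω_k, P_k, X_k, y_k` with the hypothesis
for `η = 1/(k+1)`, `R = k` and with a difference `> ε`. Let `μ_k = ∑_o P_k o δ_(X_k o)` (a probability measure on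
`ℝ`). `charFun μ_k θ → exp (-θ²/2) = charFun (gaussianReal 0 1) θ`, so `μ_k → gaussianReal 0 1` weakly
(`MeasureTheory.ProbabilityMeasure.tendsto_iff_tendsto_charFun`), hence
`μ_k (Iic y) → gaussianReal 0 1 (Iic y)` for every fixed `y` (the frontier `{y}` of `Iic y` is a null set,
`ProbabilityMeasure.tendsto_measure_of_null_frontier_of_tendsto`). Uniformity (Pólya): the distribution
function `Φ` of the normal law is continuous with limits `0, 1`, so there are finitely many `a_1 < ... < a_r`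
with `Φ a_1 ≤ ε/3`, `Φ a_r ≥ 1 - ε/3`, `Φ a_(i+1) - Φ a_i ≤ ε/3`; for `k` large the difference is at most `ε/3` at
all `a_i`, and by monotonicity it is at most `ε` at every `y`. -/
def S_LEVY : Prop := ∀ ε : ℝ, 0 < ε → ∃ (η R : ℝ), 0 < η ∧ ∀ (Ω : Type) [Fintype Ω]
  (P X : Ω → ℝ), (∀ o, 0 ≤ P o) → ∑ o, P o = 1 →
  (∀ θ : ℝ, |θ| ≤ R →
    ‖∑ o, (P o : ℂ) * Complex.exp (θ * X o * Complex.I) - Complex.exp (-(θ : ℂ) ^ 2 / 2)‖ ≤ η) →
  ∀ y : ℝ, |∑ o, P o * (if X o ≤ y then 1 else 0) -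
    (ProbabilityTheory.gaussianReal 0 1).real (Set.Iic y)| ≤ ε

/-- CALC. The calculus of the central limit theorem.
Proof. `z = exp (i θ / √lam)`; `(z - 1) Lam - i θ √lam = (z - 1 - i θ / √lam + θ² / (2 lam)) lam - θ²/2 +
(z - 1) (Lam - lam)`; the first bracket is at most `|θ|³ / lam^(3/2)` (Taylor), `|z - 1| ≤ |θ| / √lam`, so the
exponent differs from `-θ²/2` by at most `(|θ|³ + |θ| |Lam - lam|) / √lam ≤ (R³ + R) e` if `1 ≤ √lam e` and
`|Lam - lam| ≤ e √lam`. -/
def S_CALC : Prop := ∀ (R η : ℝ), 0 < η → ∃ e : ℝ, 0 < e ∧ ∀ (lam Lam θ : ℝ), |θ| ≤ R →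
  0 < lam → 1 ≤ e * Real.sqrt lam → |Lam - lam| ≤ e * Real.sqrt lam →
  ‖Complex.exp ((Complex.exp ((θ / Real.sqrt lam : ℝ) * Complex.I) - 1) * Lam) *
      Complex.exp (-((θ * Real.sqrt lam : ℝ) : ℂ) * Complex.I) -
    Complex.exp (-(θ : ℂ) ^ 2 / 2)‖ ≤ η

end Pool.Agent.H961.T3
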