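import Pool.Agent.H961.T3.Stm5
import Pool.Agent.H961.T3.Stm6A

/-!
# Project MS, statements 6: the number of cycles in wide windows, central limit theorem, `d ≥ 2`
-/

set_option autoImplicit false

namespace Pool.Agent.H961.T3

open Finset Equiv Matrix Q292.LC Pool.Agent.H961.T2
open Pool.Agent.Y998.ST (stirExp stirLaw nnRate cycleLen)

/-- size biased functional: a special cycle `C` with weight `|C| w ^ |C|`, the other cycles are marked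
independently with probability `w ^ |C'|`, `H` is a function of the set of marked cycles -/
noncomputable def sb {V : Type} [Fintype V] [DecidableEq V] (w : ℝ) (H : Finset (Finset V) → ℝ)
    (g : Perm V) : ℝ :=
  ∑ C ∈ cycs g, (C.card : ℝ) * w ^ C.card * mk (ι := Finset V) card w ((cycs g).erase C) H

/-- the size of the errors -/
noncomputable def er (d L : ℕ) (t : ℝ) : ℝ :=
  1 + (L : ℝ) ^ 2 / t + (L : ℝ) ^ d * t ^ (-(d / 2 : ℝ))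

open Classical in
/-- STARG. The exact identity with a special cycle and an arbitrary function of the marked cycles.
Proof. As STAR (Pool/Agent/H961/T3/Star.lean), with `θ ω A = (∏_{C ∈ J} w ^ |C|) H J`,
`J = {C ∈ cycs g : C ⊆ A}`, instead of `th card w ws J`: it is `Rmeas e n A` for the same reason. For the left side:
`∑_J (∏_J w^|C|) H J ∑_{C ∈ cycs g \ J} |C| w^|C| ∏_{cycs g \ J \ {C}} (1 - w^|C'|)`; exchange the sums over `J` and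
`C`: `∑_C |C| w^|C| ∑_{J ⊆ (cycs g).erase C} (∏_J w^|C'|) (∏_{((cycs g).erase C) \ J} (1 - w^|C'|)) H J = sb w H g`. -/
def S_STARG : Prop := ∀ (V : Type) [Fintype V] [DecidableEq V] (e : ℕ → V × V) (n : ℕ) (δ w : ℝ)
  (H : Finset (Finset V) → ℝ), 0 ≤ δ → δ ≤ 1 → 0 ≤ w → w < 1 →
  EE n δ (fun ω => sb w H (gp e ω n)) =
  EE n δ (fun ω => ∑ A : Finset V, if Inv (gp e ω n) A then
    (∏ C ∈ (cycs (gp e ω n)).filter (fun C => C ⊆ A), w ^ C.card) *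
      H ((cycs (gp e ω n)).filter fun C => C ⊆ A) * dS w (univ \ A) (pm (gp e ω n)) *
      ∑ x ∈ univ \ A, Gx w (univ \ A) (TT e ω A δ n) x else 0)

open Classical in
/-- RECG. One step with an arbitrary bounded function of the marked cycles.
Proof. As REC (Pool/Agent/H961/T3/Rec.lean). By STARG and CYC the difference on the left side is
`E ∑_{A invariant} w^|A| H dS w (univ \ A) (pm g) (∑ Gx - α)`, `∏_{C ⊆ A} w^|C| = w^|A|`. For `B ω A` the bracket is at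
most `β` and `E ∑_{A invariant} w^|A| dS = 1` (CYC, MASS with the empty list); for the other `A` it is at most
`N / (1 - w)`, because `0 ≤ ∑ Gx ≤ N / (1 - w)` and `0 ≤ α ≤ N / (1 - w)`; `PW` is the law of `A` (CYC). -/
def S_RECG : Prop := ∀ (V : Type) [Fintype V] [DecidableEq V] (e : ℕ → V × V) (n : ℕ) (δ w : ℝ)
  (H : Finset (Finset V) → ℝ) (B : (ℕ → Bool) → Finset V → Prop) (α β : ℝ), 0 ≤ δ → δ ≤ 1 →
  0 ≤ w → w < 1 → (∀ J, |H J| ≤ 1) → 0 ≤ α → α ≤ (Fintype.card V : ℝ) / (1 - w) → 0 ≤ β →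
  (∀ ω A, B ω A → Inv (gp e ω n) A →
    |∑ x ∈ univ \ A, Gx w (univ \ A) (TT e ω A δ n) x - α| ≤ β) →
  |EE n δ (fun ω => sb w H (gp e ω n)) -
    α * EE n δ (fun ω => mk (ι := Finset V) card w (cycs (gp e ω n)) H)| ≤
    β + (Fintype.card V : ℝ) / (1 - w) * PW e n δ w (fun ω A => ¬ B ω A)

/-- CIG. Good environments, `d ≥ 2`, from CIR (`d ≥ 3`) and CIP (`d = 2`).
Proof. `d ≥ 3`: CIR, `C ≤ log L` for large `L` (`T ≤ K ≤ L^d`), exponent `m + 1`. `d = 2`: CIP,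
`L^d / K = L² / K`. -/
def S_CIG : Prop := ∀ d : ℕ, 2 ≤ d → ∃ m : ℕ, ∀ p : ℕ, ∃ T : ℕ,
  ∀ (L K : ℕ) [NeZero L], 3 ≤ L → T ≤ K → K ≤ L ^ d → (Real.log L) ^ m ≤ K → ∃ q₀ : ℕ, ∀ q ≥ q₀,
  ∀ σ : ℕ → (Fin d → ZMod L) × Fin d, Per σ → ∀ δ : ℝ, 1 ≤ δ * q → δ * q ≤ 2 →
  ∃ B : (ℕ → Bool) → Finset (Fin d → ZMod L) → Prop, (∀ ω R R', R' ⊆ R → B ω R → B ω R') ∧
  (∀ ω A, B ω A → Inv (gp (ed ∘ σ) ω (K * (q * ms d L))) A → ∀ w : ℝ, 0 ≤ w → w < 1 →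
    |∑ x ∈ univ \ A, Gx w (univ \ A) (TT (ed ∘ σ) ω A δ (K * (q * ms d L))) x - 1 / (1 - w)| ≤
      (Real.log L) ^ m * er d L K) ∧
  (∀ wb : ℝ, 0 ≤ wb → wb < 1 → (Real.log L) ^ m ≤ (L : ℝ) ^ d * (1 - wb) →
    PW (ed ∘ σ) (K * (q * ms d L)) δ wb (fun ω A => ¬ B ω A) ≤ 1 / ((L : ℝ) ^ d) ^ p)

/-- STG. One step for stirring.
Proof. `K = ⌊t⌋` (`K ≤ t ≤ 2 K`), CIG with `p = 2`, RECG with `α = 1/(1-w)`, `β = (log L)^m₀ er d L K`; the term with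
`PW` is at most `N / (1 - w) N^(-2) ≤ 1` as `1/(1-w) ≤ N`; `er d L K ≤ 2^d er d L t`, and `(log L)^m` with `m = m₀ + 1`
absorbs the constants since `log L` is large (`T ≤ t ≤ L^d`). Limit `q → ∞` as in Stir.lean:
`Pool.Agent.Q297.LC.stir_le_of_circuit` for `F = c (sb w H g - 1/(1-w) mk card w (cycs g) H)` and `- F`, with `c > 0`
such that `|F| ≤ 1` (`|mk ..| ≤ 1`, `|sb w H g| ≤ N` as `∑ |C| = N`). -/
def S_STG : Prop := ∀ d : ℕ, 2 ≤ d → ∃ (m : ℕ) (T : ℝ), 1 ≤ m ∧ 1 ≤ T ∧ ∀ (L : ℕ) [NeZero L]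
  (t w : ℝ) (H : Finset (Finset (Fin d → ZMod L)) → ℝ), 3 ≤ L → T ≤ t → (Real.log L) ^ m ≤ t →
  t ≤ (L : ℝ) ^ d → 0 ≤ w → w < 1 → (Real.log L) ^ m ≤ (L : ℝ) ^ d * (1 - w) →
  (∀ J, |H J| ≤ 1) →
  |stirExp (nnRate d L) t (fun g => sb w H g) - 1 / (1 - w) *
    stirExp (nnRate d L) t (fun g => mk (ι := Finset (Fin d → ZMod L)) card w (cycs g) H)| ≤
    (Real.log L) ^ m * er d L t

/-- GENF. The generating function of the number of cycles in a window, `|z| ≤ 1`.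
Proof. For `w ∈ [w₁, w₂]` let `F(w) = ∑_g law(g) ∏_C (1 + (z - 1) (w^|C| - w₁^|C|))`, `F(w₁) = 1`, and
`H_w(J) = ∏_{C ∈ J} (z + (1 - z) (w₁/w)^|C|)`, `|H_w(J)| ≤ 1` (convex combinations of `z` and `1`). For every finite `s`:
`mk card w s H_w = ∏_{C ∈ s} (1 - w^|C| + w^|C| (z + (1-z) (w₁/w)^|C|)) = ∏_{C ∈ s} (1 + (z-1) (w^|C| - w₁^|C|))` (`mk` of a
complex function: real and imaginary part; `Finset.prod_add`). So `w F'(w) = (z - 1) E sb w H_w`, which is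
`(z - 1) (F(w) / (1 - w) + r(w))`, `|r(w)| ≤ 2 R₀`, `R₀ = (log L)^m er d L t`, by STG for the real and the imaginary part.
Let `Λ(w) = log (w (1 - w₁) / (w₁ (1 - w)))`, `Λ' = 1 / (w (1 - w))`, `G(w) = F(w) exp (-(z - 1) Λ(w))`. Then
`G' = exp (-(z-1) Λ) (z - 1) r / w`, `|G'(w)| ≤ 8 R₀ exp ((1 - Re z) Λ(w)) ≤ 8 R₀ exp ((1 - Re z) Λ(w₂))`, so
`|G(w₂) - 1| ≤ 8 R₀ (w₂ - w₁) exp ((1 - Re z) Λ(w₂))` (mean value inequality); multiply with `exp ((z - 1) Λ(w₂))`. -/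
def S_GENF : Prop := ∀ d : ℕ, 2 ≤ d → ∃ (m : ℕ) (T : ℝ), 1 ≤ m ∧ 1 ≤ T ∧ ∀ (L : ℕ) [NeZero L]
  (t w₁ w₂ : ℝ) (z : ℂ), 3 ≤ L → T ≤ t → (Real.log L) ^ m ≤ t →
  t ≤ (L : ℝ) ^ d → 1 / 2 ≤ w₁ → w₁ ≤ w₂ → w₂ < 1 → (Real.log L) ^ m ≤ (L : ℝ) ^ d * (1 - w₂) →
  ‖z‖ ≤ 1 →
  ‖∑ g : Perm (Fin d → ZMod L), (stirLaw (nnRate d L) t g : ℂ) *
      ∏ C ∈ cycs g, (1 + (z - 1) * ((w₂ : ℂ) ^ C.card - (w₁ : ℂ) ^ C.card)) -
    Complex.exp ((z - 1) * Real.log (w₂ * (1 - w₁) / (w₁ * (1 - w₂))))‖ ≤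
    8 * ((Real.log L) ^ m * er d L t) * (1 - w₁)

/-- the number of cycles longer than `n` -/
noncomputable def nc {V : Type} [Fintype V] [DecidableEq V] (n : ℝ) (g : Perm V) : ℕ :=
  open Classical in ((cycs g).filter fun C => n < (C.card : ℝ)).card

/-- NUM. Sharp and smooth windows.
Proof. Let `Φ(w) = ∑_C |C| w^|C| = sb w 1 g` (`mk .. 1 = 1`), `w_i = exp (-1/n_i)`. By STG
`E Φ(w_i) ≤ 1/(1-w_i) + (log L)^m₀ er ≤ 2 n_i + n_i`. For a cycle of length `ℓ`, `f = w₂^ℓ - w₁^ℓ`: if `ℓ ≤ n₁` then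
`0 ≤ f ≤ ℓ/n₁`; if `n₁ < ℓ ≤ n₂` then `0 ≤ 1 - f ≤ ℓ/n₂ + w₁^ℓ ≤ ℓ/n₂ + (ℓ/n₁) w₁^ℓ`; if `ℓ > n₂` then
`0 ≤ f ≤ w₂^ℓ ≤ (ℓ/n₂) w₂^ℓ`. And `∑_{|C| ≤ n} |C| ≤ e Φ(exp (-1/n))`. So the expectation of
`∑_C |f - 1[n₁ < |C| ≤ n₂]|` is at most `(1 + e) (E Φ(w₁)/n₁ + E Φ(w₂)/n₂) ≤ 6 (1 + e)`. Use `STG` with `m = m₀ + 1`. -/
def S_NUM : Prop := ∀ d : ℕ, 2 ≤ d → ∃ (m : ℕ) (T C : ℝ), 1 ≤ m ∧ 1 ≤ T ∧ 1 ≤ C ∧
  ∀ (L : ℕ) [NeZero L] (t n₁ n₂ : ℝ), 3 ≤ L → T ≤ t → (Real.log L) ^ m ≤ t → t ≤ (L : ℝ) ^ d →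
  (Real.log L) ^ m * er d L t ≤ n₁ → n₁ ≤ n₂ → (Real.log L) ^ m * n₂ ≤ (L : ℝ) ^ d →
  stirExp (nnRate d L) t (fun g => ∑ D ∈ cycs g,
    |Real.exp (-(D.card / n₂)) - Real.exp (-(D.card / n₁)) -
      (if n₁ < (D.card : ℝ) ∧ (D.card : ℝ) ≤ n₂ then 1 else 0)|) ≤ C

/-- NCL. The mean number of cycles longer than `n`, for `n` close to `L^d`.
Proof. GAPO for `p` and `ε = 1`: `P(|cyc g x| ≤ y) ≤ 2 y / N` for `N / (log L)^p ≤ y ≤ N`, `N = L^d`. The number is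
`∑_x 1[|cyc g x| > n] / |cyc g x|` (CYC (5)). For `j ≥ 0` with `2^j n < N`: the mean number of cycles with
`2^j n < |C| ≤ 2^(j+1) n` is at most `N / (2^j n) P(|cyc g x| ≤ min (2^(j+1) n) N) ≤ 4`. There are at most
`1 + log₂ (N/n)` such `j`, `log (N/n) ≤ p log (log L)`. -/
def S_NCL : Prop := ∀ d : ℕ, 2 ≤ d → ∀ p : ℕ, ∃ (m : ℕ) (T C : ℝ), 1 ≤ m ∧ 3 ≤ T ∧ 1 ≤ C ∧
  ∀ (L : ℕ) [NeZero L] (t n : ℝ), 3 ≤ L → T ≤ t → (Real.log L) ^ m ≤ t → t ^ 4 ≤ (L : ℝ) ^ 7 →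
  0 < n → (L : ℝ) ^ d ≤ (Real.log L) ^ p * n → n ≤ (L : ℝ) ^ d →
  stirExp (nnRate d L) t (fun g => (nc n g : ℝ)) ≤ C * (1 + Real.log (Real.log L))

/-- CLT. Central limit theorem for the number of cycles longer than `n`.
Proof. `lam = log (N/n)`, `N = L^d`, `M` large (`M ≥ m + 1` for the `m` of GENF, NUM), `n₁ = n`, `n₂ = N / (log L)^M`
(`n₂ ≥ n` because `lam ≥ T (1 + log log L)²` and `T` is large), `w_i = exp (-1/n_i)`, NCL with `p = M`. For `|θ| ≤ R` let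
`z = exp (i θ / √lam)`. All factors below are in the unit disk, so
`|z^(nc n g) - ∏_C (1 + (z - 1) (w₂^|C| - w₁^|C|))| ≤ |z - 1| ∑_C |w₂^|C| - w₁^|C| - 1[|C| > n]|`
(`|∏ a - ∏ b| ≤ ∑ |a - b|`), whose mean is at most `(R / √lam) (C + C (1 + log log L))` by NUM and NCL. GENF:
the mean of the product is `exp ((z - 1) Λ)` up to `8 (log L)^m er (1 - w₁) ≤ 8 / log L`, with
`Λ = log (w₂ (1 - w₁) / (w₁ (1 - w₂)))`, `|Λ - lam| ≤ M log log L + 2`. CALC, then LEVY for `X = (nc n g - lam) / √lam`. -/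
def S_CLT : Prop := ∀ d : ℕ, 2 ≤ d → ∃ m : ℕ, ∀ ε : ℝ, 0 < ε → ∃ T : ℝ, 3 ≤ T ∧
  ∀ (L : ℕ) [NeZero L] (t n : ℝ), 3 ≤ L → T ≤ t → (Real.log L) ^ m ≤ t → t ^ 4 ≤ (L : ℝ) ^ 7 →
  (Real.log L) ^ m * er d L t ≤ n → n ≤ (L : ℝ) ^ d →
  T * (1 + Real.log (Real.log L)) ^ 2 ≤ Real.log ((L : ℝ) ^ d / n) → ∀ y : ℝ,
  |stirExp (nnRate d L) t (fun g => if (nc n g : ℝ) ≤ Real.log ((L : ℝ) ^ d / n) +
      y * Real.sqrt (Real.log ((L : ℝ) ^ d / n)) then 1 else 0) -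
    (ProbabilityTheory.gaussianReal 0 1).real (Set.Iic y)| ≤ ε

end Pool.Agent.H961.T3
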