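import Pool.Agent.H961.T3.Stm4

/-!
# Project MS, GAPP: the scales between `L^d / (log L)^p` and `L^d / T`
-/

set_option autoImplicit false

namespace Pool.Agent.H961.T3.Gapph

open Finset Equiv Matrix Q292.LC Pool.Agent.H961.T2 Pool.Agent.H961.T3
open Pool.Agent.Y998.ST (stirExp nnRate cycleLen)

/-- a number between `x ^ 200` and `x ^ 201` with small logarithm -/
theorem exists_L (M : ℕ) : ∃ X : ℝ, 2 ≤ X ∧ ∀ x : ℝ, X ≤ x → ∃ L : ℕ, x ^ 200 ≤ (L : ℝ) ∧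
    (Real.log L) ^ M ≤ x := by
  have h := (Real.isLittleO_pow_log_id_atTop (n := M)).bound
    (show (0 : ℝ) < 1 / 201 ^ M by positivity)
  obtain ⟨X, hX⟩ := Filter.eventually_atTop.1 h
  refine ⟨max X 2, le_max_right _ _, fun x hx => ?_⟩
  have hx1 : X ≤ x := (le_max_left _ _).trans hx
  have hx2 : 2 ≤ x := (le_max_right _ _).trans hx
  refine ⟨⌈x ^ 200⌉₊, Nat.le_ceil _, ?_⟩
  have h1 : (1 : ℝ) ≤ x ^ 200 := one_le_pow₀ (by linarith)
  have h2 : (⌈x ^ 200⌉₊ : ℝ) ≤ x ^ 201 := by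
    have h3 := (Nat.ceil_lt_add_one (show (0 : ℝ) ≤ x ^ 200 by positivity)).le
    calc (⌈x ^ 200⌉₊ : ℝ) ≤ x ^ 200 + 1 := h3
      _ ≤ x ^ 200 + x ^ 200 := by linarith
      _ = 2 * x ^ 200 := by ring
      _ ≤ x * x ^ 200 := by gcongr
      _ = x ^ 201 := by ring
  have h4 : (1 : ℝ) ≤ (⌈x ^ 200⌉₊ : ℝ) := h1.trans (Nat.le_ceil _)
  have h5 : 0 ≤ Real.log (⌈x ^ 200⌉₊ : ℝ) := Real.log_nonneg h4
  have h6 : Real.log (⌈x ^ 200⌉₊ : ℝ) ≤ 201 * Real.log x := by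
    have h7 := Real.log_le_log (by linarith) h2
    rw [Real.log_pow] at h7
    exact_mod_cast h7
  have hlx : 0 ≤ Real.log x := Real.log_nonneg (by linarith)
  have h8 := hX x hx1
  rw [Real.norm_of_nonneg (pow_nonneg hlx M), id_eq, Real.norm_of_nonneg (by linarith)] at h8
  calc (Real.log (⌈x ^ 200⌉₊ : ℝ)) ^ M ≤ (201 * Real.log x) ^ M := pow_le_pow_left₀ h5 h6 M
    _ = 201 ^ M * (Real.log x) ^ M := mul_pow _ _ _
    _ ≤ 201 ^ M * (1 / 201 ^ M * x) := by gcongr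
    _ = x := by
      field_simp

/-- negative powers of `t` -/
theorem rpow_bd {t y : ℝ} {q : ℕ} (hq : 0 < q) (hy : 0 < y) (h : y ^ q ≤ t) :
    t ^ (-(1 / (q : ℝ))) ≤ 1 / y := by
  have h1 : (y ^ q) ^ (-(1 / (q : ℝ))) = 1 / y := by
    rw [← Real.rpow_natCast, ← Real.rpow_mul hy.le]
    have hq' : (q : ℝ) ≠ 0 := by exact_mod_cast hq.ne'
    have h2 : (q : ℝ) * (-(1 / (q : ℝ))) = -1 := by
      field_simp
    rw [h2, Real.rpow_neg_one, one_div]
  rw [← h1]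
  refine Real.rpow_le_rpow_of_nonpos (by positivity) h ?_
  have : (0 : ℝ) ≤ 1 / (q : ℝ) := by positivity
  linarith

/-- the error in the comparison theorem -/
theorem err_bd {C B α a x s t : ℝ} {k : ℕ} (hC : 1 ≤ C) (hB : 0 ≤ B) (hα : 0 < α) (ha : 0 < a)
    (hx : x = 1 / a) (hs : 1 ≤ s) (hsx : s ^ 64 ≤ x) (ht : s ^ 32 * x ^ 100 ≤ t)
    (hk1 : x ^ 4 ≤ k) (hk2 : (k : ℝ) ≤ 2 * x ^ 4) :
    C * (B / a * Real.sqrt (2 / (α / 2 * a)) * (t ^ (-(1 / 32) : ℝ) + 1 / Real.sqrt k) +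
      k * t ^ (-(1 / 16) : ℝ)) ≤ C * (B * (4 / Real.sqrt α) + 2) / s := by
  have hs0 : 0 < s := by linarith
  have hx1 : 1 ≤ x := (one_le_pow₀ hs).trans hsx
  have hx0 : 0 < x := by linarith
  have hsx3 : (s * x ^ 3) ^ 32 ≤ t := by
    refine le_trans ?_ ht
    rw [mul_pow, ← pow_mul]
    exact mul_le_mul_of_nonneg_left (pow_le_pow_right₀ hx1 (by norm_num)) (by positivity)
  have e1 : t ^ (-(1 / 32) : ℝ) ≤ 1 / (s * x ^ 3) := by
    have h1 := rpow_bd (q := 32) (by norm_num) (by positivity) hsx3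
    exact_mod_cast h1
  have e2 : t ^ (-(1 / 16) : ℝ) ≤ 1 / (s * x ^ 3) ^ 2 := by
    have h2 : ((s * x ^ 3) ^ 2) ^ 16 ≤ t := by
      rw [← pow_mul]
      exact hsx3
    have h1 := rpow_bd (q := 16) (by norm_num) (by positivity) h2
    exact_mod_cast h1
  have e3 : 1 / Real.sqrt k ≤ 1 / x ^ 2 := by
    refine one_div_le_one_div_of_le (by positivity) ?_
    refine Real.le_sqrt_of_sq_le ?_
    rw [← pow_mul]
    exact hk1
  have e4 : B / a = B * x := by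
    rw [hx]
    ring
  have e5 : Real.sqrt (2 / (α / 2 * a)) = 2 / Real.sqrt α * Real.sqrt x := by
    have h1 : 2 / (α / 2 * a) = 2 ^ 2 * x / α := by
      rw [hx]
      field_simp
    rw [h1, Real.sqrt_div' _ hα.le, Real.sqrt_mul (by positivity), Real.sqrt_sq (by norm_num)]
    ring
  have hsq : s ≤ Real.sqrt x := by
    refine Real.le_sqrt_of_sq_le ((pow_le_pow_right₀ hs (by norm_num)).trans hsx)
  have hsx0 : 0 < Real.sqrt x := Real.sqrt_pos.2 hx0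
  have hsxx : Real.sqrt x * Real.sqrt x = x := Real.mul_self_sqrt hx0.le
  have hsx1 : Real.sqrt x ≤ x := by
    rw [Real.sqrt_le_left (by linarith)]
    nlinarith
  have e6 : x * Real.sqrt x * (1 / (s * x ^ 3)) ≤ 1 / s := by
    rw [mul_one_div, div_le_div_iff₀ (by positivity) hs0]
    have h1 : x * Real.sqrt x ≤ x ^ 3 := by
      calc x * Real.sqrt x ≤ x * x := by gcongr
        _ = x ^ 2 := by ring
        _ ≤ x ^ 3 := pow_le_pow_right₀ hx1 (by norm_num)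
    nlinarith
  have e7 : x * Real.sqrt x * (1 / x ^ 2) ≤ 1 / s := by
    rw [mul_one_div, div_le_div_iff₀ (by positivity) hs0]
    have h1 : Real.sqrt x * s ≤ x := by
      calc Real.sqrt x * s ≤ Real.sqrt x * Real.sqrt x := by gcongr
        _ = x := hsxx
    nlinarith
  have e8 : (k : ℝ) * t ^ (-(1 / 16) : ℝ) ≤ 2 / s := by
    have ht0 : 0 ≤ t ^ (-(1 / 16) : ℝ) := Real.rpow_nonneg (by
      refine le_trans ?_ ht
      positivity) _
    calc (k : ℝ) * t ^ (-(1 / 16) : ℝ) ≤ (2 * x ^ 4) * (1 / (s * x ^ 3) ^ 2) := by gcongr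
      _ ≤ 2 / s := by
        rw [mul_one_div, div_le_div_iff₀ (by positivity) hs0]
        have h1 : x ^ 4 * s ≤ (s * x ^ 3) ^ 2 := by
          have h2 : (s * x ^ 3) ^ 2 = (x ^ 4 * s) * (s * x ^ 2) := by ring
          rw [h2]
          have h3 : 1 ≤ s * x ^ 2 := by
            have h4 : 1 ≤ x ^ 2 := one_le_pow₀ hx1
            nlinarith
          have h5 : 0 ≤ x ^ 4 * s := by positivity
          nlinarith
        nlinarith
  have hsα : 0 < Real.sqrt α := Real.sqrt_pos.2 hα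
  have e9 : B / a * Real.sqrt (2 / (α / 2 * a)) * (t ^ (-(1 / 32) : ℝ) + 1 / Real.sqrt k) ≤
      B * (4 / Real.sqrt α) / s := by
    rw [e4, e5]
    calc B * x * (2 / Real.sqrt α * Real.sqrt x) * (t ^ (-(1 / 32) : ℝ) + 1 / Real.sqrt k)
        ≤ B * x * (2 / Real.sqrt α * Real.sqrt x) * (1 / (s * x ^ 3) + 1 / x ^ 2) := by gcongr
      _ = B * (2 / Real.sqrt α) * (x * Real.sqrt x * (1 / (s * x ^ 3)) +
          x * Real.sqrt x * (1 / x ^ 2)) := by ring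
      _ ≤ B * (2 / Real.sqrt α) * (1 / s + 1 / s) := by gcongr
      _ = B * (4 / Real.sqrt α) / s := by ring
  rw [mul_div_assoc]
  refine mul_le_mul_of_nonneg_left ?_ (by linarith)
  rw [add_div]
  exact add_le_add e9 e8

theorem kS_nonneg {V : Type} [Fintype V] [DecidableEq V] {h : ℝ → ℝ} (hh : ∀ u, 0 ≤ h u) (n : ℝ)
    (g : Perm V) : 0 ≤ kS h n g := by
  unfold kS
  exact Finset.sum_nonneg fun C _ => hh _

/-- the function `Ψ` -/
noncomputable def Ps (x : ℝ) : ℝ := Real.exp (-max x 0)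

theorem Ps_of_nonneg {x : ℝ} (hx : 0 ≤ x) : Ps x = Real.exp (-x) := by
  unfold Ps
  rw [max_eq_left hx]

theorem Ps_abs (x : ℝ) : |Ps x| ≤ 1 := by
  unfold Ps
  rw [abs_of_pos (Real.exp_pos _), Real.exp_le_one_iff]
  have := le_max_right x 0
  linarith

theorem exp_lip {u v : ℝ} (hu : 0 ≤ u) (huv : u ≤ v) : Real.exp (-u) - Real.exp (-v) ≤ v - u := by
  have h1 : Real.exp (-v) = Real.exp (-u) * Real.exp (-(v - u)) := by
    rw [← Real.exp_add]
    ring_nf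
  have h2 := Real.add_one_le_exp (-(v - u))
  have h3 : Real.exp (-u) ≤ 1 := by
    rw [Real.exp_le_one_iff]
    linarith
  have h4 := Real.exp_pos (-u)
  have h5 : Real.exp (-u) - Real.exp (-v) = Real.exp (-u) * (1 - Real.exp (-(v - u))) := by
    rw [h1]
    ring
  rw [h5]
  have h6 : 1 - Real.exp (-(v - u)) ≤ v - u := by linarith
  have h7 : 0 ≤ v - u := by linarith
  calc Real.exp (-u) * (1 - Real.exp (-(v - u))) ≤ Real.exp (-u) * (v - u) := by gcongr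
    _ ≤ 1 * (v - u) := by gcongr
    _ = v - u := one_mul _

theorem Ps_lip (x y : ℝ) : |Ps x - Ps y| ≤ |x - y| := by
  have h1 : |max x 0 - max y 0| ≤ |x - y| := abs_max_sub_max_le_abs x y 0
  refine le_trans ?_ h1
  unfold Ps
  have hx := le_max_right x 0
  have hy := le_max_right y 0
  rcases le_total (max x 0) (max y 0) with h | h
  · have h2 := exp_lip hx h
    have h3 : Real.exp (-max y 0) ≤ Real.exp (-max x 0) := Real.exp_le_exp.2 (by linarith)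
    rw [abs_of_nonneg (by linarith), abs_of_nonpos (by linarith)]
    linarith
  · have h2 := exp_lip hy h
    have h3 : Real.exp (-max x 0) ≤ Real.exp (-max y 0) := Real.exp_le_exp.2 (by linarith)
    rw [abs_of_nonpos (by linarith), abs_of_nonneg (by linarith)]
    linarith

/-- **GAPP** -/
theorem gapp (hMESO : S_MESO) (hCMP : S_CMP) : S_GAPP := by
  intro d hd p
  obtain ⟨m₀, hm₀, hM⟩ := hMESO d hd
  obtain ⟨C, mc, L₀, hC, hK⟩ := hCMP d (by omega)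
  refine ⟨200 * (p + 1) + mc, by omega, ?_⟩
  intro h α β B hh hα hαβ hsupp hB hlip ε hε
  have hcont : Continuous h := by
    have h1 : LipschitzWith B.toNNReal h := LipschitzWith.of_dist_le_mul fun x y => by
      rw [Real.dist_eq, Real.dist_eq, Real.coe_toNNReal B hB]
      exact hlip x y
    exact h1.continuous
  obtain ⟨T₀, hT₀, hM2⟩ := hM h hcont hh ⟨α, β, hα, hαβ, hsupp⟩ (ε / 3) (by linarith)
  obtain ⟨X, hX2, hX⟩ := exists_L (max m₀ mc)
  set E₀ : ℝ := C * (B * (4 / Real.sqrt α) + 2) with hE₀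
  have hE₀pos : 0 < E₀ := by
    have : 0 ≤ B * (4 / Real.sqrt α) := by positivity
    rw [hE₀]
    have h1 : 0 < B * (4 / Real.sqrt α) + 2 := by linarith
    have h2 : 0 < C := by linarith
    positivity
  -- the number `s`
  set s : ℝ := max (max X T₀) (max (L₀ + 1) (3 * E₀ / ε)) with hs
  have hsX : X ≤ s := (le_max_left _ _).trans (le_max_left _ _)
  have hsT : T₀ ≤ s := (le_max_right _ _).trans (le_max_left _ _)
  have hsL : (L₀ : ℝ) + 1 ≤ s := (le_max_left _ _).trans (le_max_right _ _)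
  have hsE : 3 * E₀ / ε ≤ s := (le_max_right _ _).trans (le_max_right _ _)
  have hs2 : 2 ≤ s := hX2.trans hsX
  have hs3 : 3 ≤ s := hT₀.trans hsT
  have hs1 : 1 ≤ s := by linarith
  have hs0 : 0 < s := by linarith
  have hss : s ≤ s ^ 64 := le_self_pow₀ hs1 (by norm_num)
  have hEs : E₀ / s ≤ ε / 3 := by
    rw [div_le_iff₀ hs0]
    rw [div_le_iff₀ hε] at hsE
    linarith
  refine ⟨s ^ 64, hs3.trans hss, ?_⟩
  intro L _ t n hL ht htm htL hn hn1 hn2
  have hL3 : (3 : ℝ) ≤ (L : ℝ) := by exact_mod_cast hL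
  have hlog1 : 1 ≤ Real.log L := by
    rw [Real.le_log_iff_exp_le (by linarith)]
    exact (Real.exp_one_lt_d9.le.trans (by norm_num)).trans hL3
  have hLd : 0 < (L : ℝ) ^ d := by positivity
  -- `a` and `x`
  obtain ⟨a, ha⟩ : ∃ a : ℝ, a = n / (L : ℝ) ^ d := ⟨_, rfl⟩
  have ha0 : 0 < a := by
    rw [ha]
    positivity
  obtain ⟨x, hx⟩ : ∃ x : ℝ, x = 1 / a := ⟨_, rfl⟩
  have hxe : x = (L : ℝ) ^ d / n := by
    rw [hx, ha, one_div_div]
  have hxs : s ^ 64 ≤ x := by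
    rw [hxe, le_div_iff₀ hn]
    exact hn2
  have hxp : x ≤ (Real.log L) ^ p := by
    rw [hxe, div_le_iff₀ hn]
    exact hn1
  have hx1 : 1 ≤ x := (one_le_pow₀ hs1).trans hxs
  have hx0 : 0 < x := by linarith
  have hsx : s ≤ x := hss.trans hxs
  have hax : a = 1 / x := by
    rw [hx, one_div_one_div]
  have ha1 : a ≤ 1 := by
    rw [hax, div_le_one hx0]
    exact hx1
  have hna : a * (L : ℝ) ^ d = n := by
    rw [ha, div_mul_cancel₀ _ hLd.ne']
  -- `k`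
  set k : ℕ := ⌈x ^ 4⌉₊ with hk
  have hx4 : 1 ≤ x ^ 4 := one_le_pow₀ hx1
  have hk1 : x ^ 4 ≤ (k : ℝ) := Nat.le_ceil _
  have hk2 : (k : ℝ) ≤ 2 * x ^ 4 := by
    have h3 := (Nat.ceil_lt_add_one (show (0 : ℝ) ≤ x ^ 4 by positivity)).le
    linarith
  have hkpos : 1 ≤ k := by
    have : (1 : ℝ) ≤ (k : ℝ) := hx4.trans hk1
    exact_mod_cast this
  have hk16 : ∀ t : ℝ, s ^ 32 * x ^ 100 ≤ t → (k : ℝ) ^ 16 ≤ t := by
    intro t ht
    refine le_trans ?_ ht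
    calc (k : ℝ) ^ 16 ≤ (2 * x ^ 4) ^ 16 := by gcongr
      _ = 2 ^ 16 * x ^ 64 := by ring
      _ ≤ s ^ 16 * x ^ 64 := by gcongr
      _ ≤ s ^ 32 * x ^ 100 :=
        mul_le_mul (pow_le_pow_right₀ hs1 (by norm_num)) (pow_le_pow_right₀ hx1 (by norm_num))
          (by positivity) (by positivity)
  have hκ : ∀ u, u ≤ α / 2 → h u = 0 := fun u hu => hsupp u (Or.inl (by linarith))
  -- the comparison, for any torus
  have key : ∀ (L' : ℕ) [NeZero L'] (t' : ℝ), L₀ ≤ L' → (Real.log L') ^ mc ≤ t' →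
      t' ^ 4 ≤ (L' : ℝ) ^ 7 → s ^ 32 * x ^ 100 ≤ t' →
      |stirExp (nnRate d L') t' (fun g => Real.exp (-kS h (a * (L' : ℝ) ^ d) g)) -
        (∑ π : Perm (Fin k), Ps (kS h (a * k) π)) / (k.factorial : ℝ)| ≤ ε / 3 := by
    intro L' _ t' h1 h2 h3 h4
    have ht1 : 1 ≤ t' := by
      refine le_trans ?_ h4
      have h5 : (1 : ℝ) ≤ s ^ 32 := one_le_pow₀ hs1
      have h6 : (1 : ℝ) ≤ x ^ 100 := one_le_pow₀ hx1
      nlinarith
    have h5 := hK L' k t' a (α / 2) B h Ps h1 ht1 h2 h3 hkpos (hk16 t' h4) ha0 ha1 (by linarith)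
      hB hκ hlip Ps_lip Ps_abs
    have h6 : (fun g : Perm (Fin d → ZMod L') => Ps (kS h (a * (L' : ℝ) ^ d) g)) =
        fun g => Real.exp (-kS h (a * (L' : ℝ) ^ d) g) := by
      funext g
      exact Ps_of_nonneg (kS_nonneg hh _ g)
    rw [h6] at h5
    refine h5.trans (le_trans ?_ hEs)
    exact err_bd hC hB hα ha0 hx hs1 hxs h4 hk1 hk2
  -- first torus
  have hxt : x ^ 200 ≤ t := by
    calc x ^ 200 ≤ ((Real.log L) ^ p) ^ 200 := by gcongr
      _ = (Real.log L) ^ (p * 200) := (pow_mul _ _ _).symm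
      _ ≤ (Real.log L) ^ (200 * (p + 1) + mc) := pow_le_pow_right₀ hlog1 (by omega)
      _ ≤ t := htm
  have hts : s ^ 32 * x ^ 100 ≤ t := by
    have ht0 : 0 ≤ t := by
      refine le_trans ?_ ht
      positivity
    have h1 : (s ^ 32 * x ^ 100) ^ 2 ≤ t ^ 2 := by
      calc (s ^ 32 * x ^ 100) ^ 2 = s ^ 64 * x ^ 200 := by ring
        _ ≤ t * t := mul_le_mul ht hxt (by positivity) ht0
        _ = t ^ 2 := by ring
    exact (pow_le_pow_iff_left₀ (by positivity) ht0 (by norm_num)).1 h1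
  have hL0 : L₀ ≤ L := by
    by_contra hc
    push Not at hc
    have h1 : (L : ℝ) ≤ s := by
      have h2 : (L : ℝ) ≤ (L₀ : ℝ) := by exact_mod_cast hc.le
      linarith
    have h2 : s ^ 8 ≤ s ^ 7 := by
      calc s ^ 8 ≤ (s ^ 64) ^ 4 := by
            rw [← pow_mul]
            exact pow_le_pow_right₀ hs1 (by norm_num)
        _ ≤ t ^ 4 := by gcongr
        _ ≤ (L : ℝ) ^ 7 := htL
        _ ≤ s ^ 7 := by gcongr
    have h3 : s ^ 8 = s * s ^ 7 := by ring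
    have h4 : 0 < s ^ 7 := by positivity
    nlinarith
  have r1 := key L t hL0 (by
    refine le_trans ?_ htm
    exact pow_le_pow_right₀ hlog1 (by omega)) htL hts
  rw [hna] at r1
  -- second torus
  obtain ⟨L₂, hL1, hL2⟩ := hX x (hsX.trans hsx)
  have hxL : x ≤ (L₂ : ℝ) := (le_self_pow₀ hx1 (by norm_num)).trans hL1
  have hL23 : (3 : ℝ) ≤ (L₂ : ℝ) := hs3.trans (hsx.trans hxL)
  have hne : NeZero L₂ := ⟨by
    rintro rfl
    norm_num at hL23⟩
  have hL21 : (1 : ℝ) ≤ (L₂ : ℝ) := by linarith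
  have hL20 : (0 : ℝ) < (L₂ : ℝ) := by linarith
  have hlog2 : 1 ≤ Real.log L₂ := by
    rw [Real.le_log_iff_exp_le (by linarith)]
    exact (Real.exp_one_lt_d9.le.trans (by norm_num)).trans hL23
  have hl0 : (Real.log L₂) ^ m₀ ≤ x :=
    (pow_le_pow_right₀ hlog2 (le_max_left _ _)).trans hL2
  have hlc : (Real.log L₂) ^ mc ≤ x :=
    (pow_le_pow_right₀ hlog2 (le_max_right _ _)).trans hL2
  have r2 := key L₂ L₂ (by
      have h1 : (L₀ : ℝ) ≤ (L₂ : ℝ) := by linarith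
      exact_mod_cast h1) (hlc.trans hxL) (pow_le_pow_right₀ hL21 (by norm_num)) (by
    refine le_trans ?_ hL1
    calc s ^ 32 * x ^ 100 ≤ x ^ 32 * x ^ 100 := by gcongr
      _ = x ^ 132 := by ring
      _ ≤ x ^ 200 := pow_le_pow_right₀ hx1 (by norm_num))
  have hLd2 : (0 : ℝ) < (L₂ : ℝ) ^ d := by positivity
  have r3 := hM2 L₂ L₂ (a * (L₂ : ℝ) ^ d) (by exact_mod_cast hL23) (by linarith)
    (hl0.trans hxL) (le_self_pow₀ hL21 (by omega)) (by
      -- `T₀ (L₂^d L₂^(-d/2)) ≤ a L₂^d`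
      have h1 : (L₂ : ℝ) ^ (-(d / 2 : ℝ)) ≤ 1 / (L₂ : ℝ) := by
        rw [one_div, ← Real.rpow_neg_one]
        refine Real.rpow_le_rpow_of_exponent_le hL21 ?_
        have h2 : (3 : ℝ) ≤ d := by exact_mod_cast hd
        linarith
      have h3 : T₀ * (1 / (L₂ : ℝ)) ≤ a := by
        rw [hax, mul_one_div, div_le_div_iff₀ hL20 hx0, one_mul]
        calc T₀ * x ≤ x * x := by
              gcongr
              linarith
          _ = x ^ 2 := by ring
          _ ≤ x ^ 200 := pow_le_pow_right₀ hx1 (by norm_num)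
          _ ≤ (L₂ : ℝ) := hL1
      calc T₀ * ((L₂ : ℝ) ^ d * (L₂ : ℝ) ^ (-(d / 2 : ℝ)))
          ≤ T₀ * ((L₂ : ℝ) ^ d * (1 / (L₂ : ℝ))) := by gcongr
        _ = T₀ * (1 / (L₂ : ℝ)) * (L₂ : ℝ) ^ d := by ring
        _ ≤ a * (L₂ : ℝ) ^ d := by gcongr) (by
      have h1 : 1 + (L₂ : ℝ) ^ 2 / (L₂ : ℝ) ≤ 2 * (L₂ : ℝ) := by
        have h2 : (L₂ : ℝ) ^ 2 / (L₂ : ℝ) = L₂ := by
          field_simp
        rw [h2]
        linarith
      have h4 : (L₂ : ℝ) ^ 3 ≤ (L₂ : ℝ) ^ d := pow_le_pow_right₀ hL21 hd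
      calc (Real.log L₂) ^ m₀ * (1 + (L₂ : ℝ) ^ 2 / (L₂ : ℝ)) ≤ x * (2 * (L₂ : ℝ)) := by
            gcongr
        _ ≤ a * (L₂ : ℝ) ^ 3 := by
          rw [hax, one_div_mul_eq_div, le_div_iff₀ hx0]
          have h5 : 2 * x ^ 2 ≤ (L₂ : ℝ) ^ 2 := by
            calc 2 * x ^ 2 ≤ x * x ^ 2 := by
                  gcongr
                  linarith
              _ = x ^ 3 := by ring
              _ ≤ x ^ 200 := pow_le_pow_right₀ hx1 (by norm_num)
              _ ≤ (L₂ : ℝ) := hL1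
              _ ≤ (L₂ : ℝ) ^ 2 := le_self_pow₀ hL21 (by norm_num)
          calc x * (2 * (L₂ : ℝ)) * x = 2 * x ^ 2 * (L₂ : ℝ) := by ring
            _ ≤ (L₂ : ℝ) ^ 2 * (L₂ : ℝ) := by gcongr
            _ = (L₂ : ℝ) ^ 3 := by ring
        _ ≤ a * (L₂ : ℝ) ^ d := by gcongr) (by
      calc (Real.log L₂) ^ m₀ * (a * (L₂ : ℝ) ^ d) ≤ x * (a * (L₂ : ℝ) ^ d) := by gcongr
        _ = (L₂ : ℝ) ^ d := by
          rw [hax]
          field_simp)
  rw [abs_le] at r1 r2 r3 ⊢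
  constructor <;> linarith [r1.1, r1.2, r2.1, r2.2, r3.1, r3.2]

end Pool.Agent.H961.T3.Gapph
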