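import Pool.Agent.H961.T3.Stm2

/-!
# Project MS: the moments at scale `n`
-/

set_option autoImplicit false
set_option linter.unusedSectionVars false
set_option linter.unusedVariables false

namespace Pool.Agent.H961.T3

open Finset Equiv Matrix Q292.LC Pool.Agent.H961.T2 Filter Topology
open Pool.Agent.Y998.ST (stirExp nnRate cycleLen stirLaw nn_nonneg exp_mono exp_sum exp_const)
open Pool.Agent.Q297.LC (stir_smul card_cyc)

theorem inv_exp_bd (x : ℝ) (hx : 0 < x) : 1 / x ≤ 1 / (1 - Real.exp (-x)) ∧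
    1 / (1 - Real.exp (-x)) ≤ 1 / x * (1 + x) := by
  have h1 : 0 < 1 - Real.exp (-x) := by
    have : Real.exp (-x) < 1 := Real.exp_lt_one_iff.2 (by linarith)
    linarith
  have h2 : 1 - Real.exp (-x) ≤ x := by
    have := Real.add_one_le_exp (-x)
    linarith
  refine ⟨one_div_le_one_div_of_le h1 h2, ?_⟩
  have h3 : 1 / x * (1 + x) = (1 + x) / x := by ring
  rw [h3, div_le_div_iff₀ h1 hx]
  have h4 : (1 + x) * Real.exp (-x) ≤ 1 := by
    have h5 := Real.add_one_le_exp x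
    have h6 : Real.exp x * Real.exp (-x) = 1 := by rw [← Real.exp_add]; simp
    have h7 := mul_le_mul_of_nonneg_right h5 (Real.exp_pos (-x)).le
    linarith
  linarith

theorem prod_bd (n : ℝ) (M : ℕ) (hn : 0 < n) (ls : List ℕ) (h : ∀ l ∈ ls, 1 ≤ l ∧ l ≤ M) :
    0 ≤ (ls.map fun l : ℕ => n / (l : ℝ)).prod ∧ (ls.map fun l : ℕ => n / (l : ℝ)).prod ≤ n ^ ls.length ∧
    (ls.map fun l : ℕ => n / (l : ℝ)).prod ≤
      ((ls.map fun l : ℕ => Real.exp (-((l : ℝ) / n))).map fun v => 1 / (1 - v)).prod ∧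
    ((ls.map fun l : ℕ => Real.exp (-((l : ℝ) / n))).map fun v => 1 / (1 - v)).prod ≤
      (1 + M / n) ^ ls.length * (ls.map fun l : ℕ => n / (l : ℝ)).prod := by
  induction ls with
  | nil => simp
  | cons l ls ih =>
    obtain ⟨i1, i2, i3, i4⟩ := ih fun l' hl' => h l' (List.mem_cons_of_mem _ hl')
    obtain ⟨hl1, hlM⟩ := h l List.mem_cons_self
    have hl0 : (0 : ℝ) < l := by exact_mod_cast hl1
    have hl1' : (1 : ℝ) ≤ l := by exact_mod_cast hl1
    have hlM' : (l : ℝ) ≤ M := by exact_mod_cast hlM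
    simp only [List.map_cons, List.prod_cons, List.length_cons]
    have e1 : 0 < n / (l : ℝ) := div_pos hn hl0
    have e2 : n / (l : ℝ) ≤ n := div_le_self hn.le hl1'
    obtain ⟨j1, j2⟩ := inv_exp_bd ((l : ℝ) / n) (div_pos hl0 hn)
    rw [one_div_div] at j1 j2
    have e3 : n / (l : ℝ) * (1 + (l : ℝ) / n) ≤ n / l * (1 + M / n) := by
      refine mul_le_mul_of_nonneg_left ?_ e1.le
      have := div_le_div_of_nonneg_right hlM' hn.le
      linarith
    have e4 : 0 ≤ (1 + (M : ℝ) / n) := by positivity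
    refine ⟨mul_nonneg e1.le i1, ?_, ?_, ?_⟩
    · rw [pow_succ, mul_comm (n ^ _)]
      exact mul_le_mul e2 i2 i1 hn.le
    · exact mul_le_mul j1 i3 i1 (e1.le.trans j1)
    · calc _ ≤ (n / (l : ℝ) * (1 + M / n)) * ((1 + M / n) ^ ls.length *
            (ls.map fun l : ℕ => n / (l : ℝ)).prod) :=
            mul_le_mul (j2.trans e3) i4 (i1.trans i3) (mul_nonneg e1.le e4)
        _ = _ := by rw [pow_succ]; ring

theorem pow_near (J : ℕ) (M η : ℝ) (hM : 0 ≤ M) (hη : 0 < η) : ∃ X : ℝ, 1 ≤ X ∧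
    ∀ n : ℝ, X ≤ n → ∀ k ≤ J, (1 + M / n) ^ k ≤ 1 + η := by
  have h1 : Tendsto (fun n : ℝ => (1 + M / n) ^ J) atTop (𝓝 ((1 + 0) ^ J)) :=
    (tendsto_const_nhds.add (tendsto_const_nhds.div_atTop tendsto_id)).pow J
  rw [add_zero, one_pow] at h1
  obtain ⟨X, hX⟩ := eventually_atTop.1 (h1.eventually_le_const (show (1 : ℝ) < 1 + η by linarith))
  refine ⟨max X 1, le_max_right _ _, fun n hn k hk => ?_⟩
  have hn1 : 1 ≤ n := (le_max_right _ _).trans hn
  have h2 : 1 ≤ 1 + M / n := by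
    have : 0 ≤ M / n := by positivity
    linarith
  exact (pow_le_pow_right₀ h2 hk).trans (hX n ((le_max_left _ _).trans hn))

/-- the moments at scale `n` -/
theorem moments (hSTIR : S_STIR) (d : ℕ) (hd : 3 ≤ d) : ∃ m : ℕ, 1 ≤ m ∧
    ∀ (J M : ℕ) (η X : ℝ), 0 < η → ∃ T : ℝ, 3 ≤ T ∧ ∀ (L : ℕ) [NeZero L] (t n : ℝ), 3 ≤ L →
    T ≤ t → (Real.log L) ^ m ≤ t → t ≤ (L : ℝ) ^ d →
    T * ((L : ℝ) ^ d * t ^ (-(d / 2 : ℝ))) ≤ n → (Real.log L) ^ m * (1 + (L : ℝ) ^ 2 / t) ≤ n →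
    (Real.log L) ^ m * n ≤ (L : ℝ) ^ d → X ≤ n ∧ X ≤ Real.log L ∧
    ∀ ls : List ℕ, ls.length ≤ J → (∀ l ∈ ls, 1 ≤ l ∧ l ≤ M) →
      |stirExp (nnRate d L) t (fun g => ph (ι := Finset (Fin d → ZMod L)) card
        (ls.map fun l : ℕ => Real.exp (-((l : ℝ) / n))) (cycs g)) -
        (ls.map fun l : ℕ => n / (l : ℝ)).prod| ≤ η * n ^ ls.length := by
  obtain ⟨m, hm⟩ := hSTIR d hd
  refine ⟨m + 1, by omega, fun J M η X hη => ?_⟩
  obtain ⟨e, he⟩ : ∃ e : ℝ, e = min (η / 4) 1 := ⟨_, rfl⟩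
  have he0 : 0 < e := by rw [he]; exact lt_min (by linarith) one_pos
  have he1 : e ≤ 1 := by rw [he]; exact min_le_right _ _
  have he2 : e ≤ η / 4 := by rw [he]; exact min_le_left _ _
  obtain ⟨X₁, hX₁, hpn⟩ := pow_near J M e (Nat.cast_nonneg M) he0
  choose Tk hTk1 hTk using fun k => hm k e he0
  obtain ⟨T₁, hT₁⟩ : ∃ T₁ : ℝ, T₁ = ∑ k ∈ range (J + 1), Tk k := ⟨_, rfl⟩
  have hkT : ∀ k ≤ J, Tk k ≤ T₁ := by
    intro k hk
    rw [hT₁]
    exact single_le_sum (f := Tk) (fun i _ => by linarith [hTk1 i]) (mem_range.2 (by omega))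
  have hT₁1 : 1 ≤ T₁ := (hTk1 0).trans (hkT 0 (Nat.zero_le _))
  obtain ⟨Y, hY⟩ : ∃ Y : ℝ, Y = |X| + X₁ + M + 2 := ⟨_, rfl⟩
  have hMr : (0 : ℝ) ≤ M := Nat.cast_nonneg M
  have hXa := abs_nonneg X
  have hXX := le_abs_self X
  have hd0 : (0 : ℝ) < d := by
    have : 0 < d := by omega
    exact_mod_cast this
  obtain ⟨T, hT⟩ : ∃ T : ℝ, T = (M + 1) * T₁ + Real.exp (d * Y) + 3 := ⟨_, rfl⟩
  have hexp := Real.exp_pos (d * Y)
  have hMT : 0 ≤ (M + 1) * T₁ := by positivity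
  refine ⟨T, by rw [hT]; linarith, ?_⟩
  intro L _ t n hL htT hlogt htL hn1 hn2 hn3
  have hL0 : (0 : ℝ) < L := by exact_mod_cast Nat.pos_of_ne_zero (NeZero.ne L)
  have hLd : (0 : ℝ) < (L : ℝ) ^ d := pow_pos hL0 d
  have ht0 : 0 < t := by
    have : 0 < T := by rw [hT]; linarith
    linarith
  -- the logarithm is large
  have hlogL : Y ≤ Real.log L := by
    have h1 : Real.exp (d * Y) ≤ (L : ℝ) ^ d := by
      refine le_trans ?_ htL
      refine le_trans ?_ htT
      rw [hT]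
      linarith
    have h2 := Real.log_le_log (Real.exp_pos _) h1
    rw [Real.log_exp, Real.log_pow] at h2
    exact le_of_mul_le_mul_left h2 hd0
  have hlog1 : 1 ≤ Real.log L := by linarith
  have hlog0 : 0 ≤ Real.log L := by linarith
  have hlm : 1 ≤ (Real.log L) ^ m := one_le_pow₀ hlog1
  have hLt : 0 ≤ (L : ℝ) ^ 2 / t := by positivity
  have hnY : Y ≤ n := by
    refine le_trans ?_ hn2
    rw [pow_succ (Real.log L) m]
    have u1 : 0 ≤ (Real.log L) ^ m * Real.log L := mul_nonneg (by linarith) hlog0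
    have u2 : Real.log L ≤ (Real.log L) ^ m * Real.log L := le_mul_of_one_le_left hlog0 hlm
    have u3 := mul_nonneg u1 hLt
    linarith
  have hn0 : 0 < n := by linarith
  refine ⟨by linarith, by linarith, fun ls hls hlsM => ?_⟩
  obtain ⟨p1, p2, p3, p4⟩ := prod_bd n M hn0 ls hlsM
  have hlen : (ls.map fun l : ℕ => Real.exp (-((l : ℝ) / n))).length = ls.length :=
    List.length_map _
  have hTls := hkT ls.length hls
  have hcond : ∀ v ∈ (ls.map fun l : ℕ => Real.exp (-((l : ℝ) / n))), 0 ≤ v ∧ v < 1 ∧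
      Tk ls.length * ((L : ℝ) ^ d * t ^ (-(d / 2 : ℝ))) ≤ 1 / (1 - v) ∧
      (Real.log L) ^ m * (1 + (L : ℝ) ^ 2 / t) ≤ 1 / (1 - v) ∧
      (Real.log L) ^ m ≤ (L : ℝ) ^ d * (1 - v) := by
    intro v hv
    obtain ⟨l, hl, rfl⟩ := List.mem_map.1 hv
    obtain ⟨hl1, hlM⟩ := hlsM l hl
    have hl0 : (0 : ℝ) < l := by exact_mod_cast hl1
    have hlM' : (l : ℝ) ≤ M := by exact_mod_cast hlM
    have hM0 : (0 : ℝ) < M := hl0.trans_le hlM'
    have hx : 0 < (l : ℝ) / n := div_pos hl0 hn0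
    have q1 : Real.exp (-((l : ℝ) / n)) < 1 := Real.exp_lt_one_iff.2 (by linarith)
    obtain ⟨j1, -⟩ := inv_exp_bd ((l : ℝ) / n) hx
    rw [one_div_div] at j1
    have j2 : n / M ≤ n / (l : ℝ) := div_le_div_of_nonneg_left hn0.le hl0 hlM'
    have hLt2 : 0 ≤ (L : ℝ) ^ d * t ^ (-(d / 2 : ℝ)) := by positivity
    refine ⟨(Real.exp_pos _).le, q1, ?_, ?_, ?_⟩
    · refine le_trans ?_ (j2.trans j1)
      rw [le_div_iff₀ hM0]
      refine le_trans ?_ hn1
      have e1 : Tk ls.length * M ≤ T := by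
        have e2 : Tk ls.length * M ≤ T₁ * M := mul_le_mul_of_nonneg_right hTls hMr
        have e3 : T₁ * M ≤ (M + 1) * T₁ := by nlinarith
        rw [hT]
        linarith
      calc Tk ls.length * ((L : ℝ) ^ d * t ^ (-(d / 2 : ℝ))) * M =
            (Tk ls.length * M) * ((L : ℝ) ^ d * t ^ (-(d / 2 : ℝ))) := by ring
        _ ≤ T * ((L : ℝ) ^ d * t ^ (-(d / 2 : ℝ))) := mul_le_mul_of_nonneg_right e1 hLt2
    · refine le_trans ?_ (j2.trans j1)
      rw [le_div_iff₀ hM0]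
      refine le_trans ?_ hn2
      have e1 : (M : ℝ) ≤ Real.log L := by linarith
      calc (Real.log L) ^ m * (1 + (L : ℝ) ^ 2 / t) * M =
            (Real.log L) ^ m * M * (1 + (L : ℝ) ^ 2 / t) := by ring
        _ ≤ (Real.log L) ^ (m + 1) * (1 + (L : ℝ) ^ 2 / t) := by
            rw [pow_succ (Real.log L) m]
            refine mul_le_mul_of_nonneg_right ?_ (by linarith)
            exact mul_le_mul_of_nonneg_left e1 (by linarith)
    · have e1 : 1 / (2 * n) ≤ 1 - Real.exp (-((l : ℝ) / n)) := by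
        have l1 : (1 : ℝ) ≤ l := by exact_mod_cast hl1
        have e2 : Real.exp (-((l : ℝ) / n)) ≤ Real.exp (-(1 / n)) := by
          refine Real.exp_le_exp.2 ?_
          have := div_le_div_of_nonneg_right l1 hn0.le
          linarith
        have e3 := (inv_exp_bd (1 / n) (by positivity)).2
        rw [one_div_one_div] at e3
        have e4 : n * (1 + 1 / n) ≤ 2 * n := by
          have : n * (1 + 1 / n) = n + 1 := by field_simp
          rw [this]
          linarith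
        have e5 : 0 < 1 - Real.exp (-(1 / n)) := by
          have : Real.exp (-(1 / n)) < 1 := Real.exp_lt_one_iff.2 (by
            have : 0 < 1 / n := by positivity
            linarith)
          linarith
        have e6 : 1 / (1 - Real.exp (-(1 / n))) ≤ 2 * n := e3.trans e4
        have e7 : 1 / (2 * n) ≤ 1 - Real.exp (-(1 / n)) := by
          rw [div_le_iff₀ e5] at e6
          rw [div_le_iff₀ (by positivity)]
          linarith
        linarith
      have e2 : (Real.log L) ^ m * (2 * n) ≤ (L : ℝ) ^ d := by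
        refine le_trans ?_ hn3
        rw [pow_succ (Real.log L) m]
        have e3 : 2 ≤ Real.log L := by linarith
        have e4 : 0 ≤ (Real.log L) ^ m * n := by positivity
        nlinarith
      calc (Real.log L) ^ m = (Real.log L) ^ m * (2 * n) * (1 / (2 * n)) := by field_simp
        _ ≤ (L : ℝ) ^ d * (1 / (2 * n)) := mul_le_mul_of_nonneg_right e2 (by positivity)
        _ ≤ (L : ℝ) ^ d * (1 - Real.exp (-((l : ℝ) / n))) := mul_le_mul_of_nonneg_left e1 hLd.le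
  have hlogm : (Real.log L) ^ m ≤ t := by
    refine le_trans ?_ hlogt
    rw [pow_succ (Real.log L) m]
    nlinarith
  have hTt : Tk ls.length ≤ t := by
    refine hTls.trans (le_trans ?_ htT)
    rw [hT]
    nlinarith
  have h := hTk ls.length L t (ls.map fun l : ℕ => Real.exp (-((l : ℝ) / n))) hlen hL hTt hlogm
    htL hcond
  have hX₁n : X₁ ≤ n := by linarith
  have p5 : ((ls.map fun l : ℕ => Real.exp (-((l : ℝ) / n))).map fun v => 1 / (1 - v)).prod ≤
      (1 + e) * (ls.map fun l : ℕ => n / (l : ℝ)).prod :=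
    p4.trans (mul_le_mul_of_nonneg_right (hpn n hX₁n _ hls) p1)
  obtain ⟨P, hP⟩ : ∃ P : ℝ, P = (ls.map fun l : ℕ => n / (l : ℝ)).prod := ⟨_, rfl⟩
  obtain ⟨Q, hQ⟩ : ∃ Q : ℝ, Q =
    ((ls.map fun l : ℕ => Real.exp (-((l : ℝ) / n))).map fun v => 1 / (1 - v)).prod := ⟨_, rfl⟩
  rw [← hQ] at h p5 p3
  rw [← hP] at p1 p2 p3 p5 ⊢
  have h1 : |Q - P| ≤ e * P := by
    rw [abs_of_nonneg (by linarith)]
    linarith
  have h2 : e * Q ≤ e * (2 * P) := mul_le_mul_of_nonneg_left (by nlinarith) he0.le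
  have h3 : e * P ≤ η / 4 * n ^ ls.length :=
    mul_le_mul he2 p2 p1 (by linarith)
  have h4 := abs_sub_le (stirExp (nnRate d L) t (fun g => ph (ι := Finset (Fin d → ZMod L)) card
    (ls.map fun l : ℕ => Real.exp (-((l : ℝ) / n))) (cycs g))) Q P
  have h5 : 0 ≤ η * n ^ ls.length := by positivity
  linarith

end Pool.Agent.H961.T3
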