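import Pool.Agent.H961.T3.StmA

/-! Project MS: from the moments to the Laplace functional (`S_BON → S_TEST`). -/

set_option autoImplicit false

namespace Pool.Agent.H961.T3.Testh

open Finset Pool.Agent.H961.T3 MeasureTheory

noncomputable section

section words

/-- sum over the words of length `k` over `{1, ..., M}`, weighted with `c` -/
def SW (c : ℕ → ℝ) (M : ℕ) : ℕ → (List ℕ → ℝ) → ℝ
  | 0, F => F []
  | k + 1, F => ∑ l ∈ Icc 1 M, c l * SW c M k (fun ls => F (l :: ls))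

variable {c : ℕ → ℝ} {M : ℕ}

theorem SW_mul (x : ℝ) (k : ℕ) : ∀ F : List ℕ → ℝ,
    SW c M k (fun ls => x * F ls) = x * SW c M k F := by
  induction k with
  | zero => intro F; rfl
  | succ k ih =>
    intro F
    simp only [SW, ih, mul_sum]
    refine sum_congr rfl fun l _ => by ring

theorem SW_sum {κ : Type} (t : Finset κ) (k : ℕ) : ∀ F : κ → List ℕ → ℝ,
    SW c M k (fun ls => ∑ i ∈ t, F i ls) = ∑ i ∈ t, SW c M k (F i) := by
  induction k with
  | zero => intro F; rfl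
  | succ k ih =>
    intro F
    simp only [SW, ih, mul_sum]
    exact sum_comm

theorem SW_bound {η : ℝ} (k : ℕ) : ∀ F G : List ℕ → ℝ,
    (∀ ls : List ℕ, ls.length = k → (∀ l ∈ ls, 1 ≤ l ∧ l ≤ M) → |F ls - G ls| ≤ η) →
    |SW c M k F - SW c M k G| ≤ (∑ l ∈ Icc 1 M, |c l|) ^ k * η := by
  induction k with
  | zero => intro F G h; simpa [SW] using h [] rfl (by simp)
  | succ k ih =>
    intro F G h
    simp only [SW]
    rw [← sum_sub_distrib]
    calc |∑ l ∈ Icc 1 M, (c l * SW c M k (fun ls => F (l :: ls)) -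
            c l * SW c M k (fun ls => G (l :: ls)))|
        ≤ ∑ l ∈ Icc 1 M, |c l * SW c M k (fun ls => F (l :: ls)) -
            c l * SW c M k (fun ls => G (l :: ls))| := abs_sum_le_sum_abs _ _
      _ ≤ ∑ l ∈ Icc 1 M, |c l| * ((∑ l ∈ Icc 1 M, |c l|) ^ k * η) := by
          refine sum_le_sum fun l hl => ?_
          rw [← mul_sub, abs_mul]
          refine mul_le_mul_of_nonneg_left (ih _ _ ?_) (abs_nonneg _)
          intro ls h1 h2
          refine h (l :: ls) (by simp [h1]) ?_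
          intro l' hl'
          rcases List.mem_cons.1 hl' with rfl | h3
          · exact mem_Icc.1 hl
          · exact h2 l' h3
      _ = (∑ l ∈ Icc 1 M, |c l|) ^ (k + 1) * η := by rw [← sum_mul, pow_succ]; ring

theorem SW_prod (g : ℕ → ℝ) (k : ℕ) :
    SW c M k (fun ls => (ls.map g).prod) = (∑ l ∈ Icc 1 M, c l * g l) ^ k := by
  induction k with
  | zero => simp [SW]
  | succ k ih =>
    simp only [SW, List.map_cons, List.prod_cons, SW_mul, ih]
    rw [pow_succ, mul_comm, sum_mul]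
    refine sum_congr rfl fun l _ => by ring

end words

section fmlem

variable {ι : Type} [DecidableEq ι]

theorem fm_nonneg {f : ι → ℝ} (hf : ∀ C, 0 ≤ f C) (k : ℕ) : ∀ s, 0 ≤ fm f k s := by
  induction k with
  | zero => intro s; simp [fm]
  | succ k ih => intro s; exact sum_nonneg fun C _ => mul_nonneg (hf C) (ih _)

theorem fm_abs_le {f g : ι → ℝ} (h : ∀ C, |f C| ≤ g C) (k : ℕ) : ∀ s, |fm f k s| ≤ fm g k s := by
  induction k with
  | zero => intro s; simp [fm]
  | succ k ih =>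
    intro s
    refine (abs_sum_le_sum_abs _ _).trans (sum_le_sum fun C _ => ?_)
    rw [abs_mul]
    exact mul_le_mul (h C) (ih _) (abs_nonneg _) ((abs_nonneg _).trans (h C))

theorem fm_smul (x : ℝ) (h : ι → ℝ) (k : ℕ) : ∀ s,
    fm (fun C => x * h C) k s = x ^ k * fm h k s := by
  induction k with
  | zero => intro s; simp [fm]
  | succ k ih =>
    intro s
    simp only [fm, ih, mul_sum]
    refine sum_congr rfl fun C _ => by ring

theorem fm_diff {f f' h : ι → ℝ} {K η₁ : ℝ} (hK : 1 ≤ K) (h0 : 0 ≤ η₁) (hh : ∀ C, 0 ≤ h C)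
    (h1 : ∀ C, |f C| ≤ K * h C) (h2 : ∀ C, |f' C| ≤ K * h C)
    (h3 : ∀ C, |f C - f' C| ≤ η₁ * h C) (k : ℕ) : ∀ s,
    |fm f k s - fm f' k s| ≤ k * η₁ * K ^ k * fm h k s := by
  induction k with
  | zero => intro s; simp [fm]
  | succ k ih =>
    intro s
    simp only [fm]
    rw [← sum_sub_distrib, mul_sum]
    refine (abs_sum_le_sum_abs _ _).trans (sum_le_sum fun C _ => ?_)
    have e1 : f C * fm f k (s.erase C) - f' C * fm f' k (s.erase C) =
        (f C - f' C) * fm f k (s.erase C) + f' C * (fm f k (s.erase C) - fm f' k (s.erase C)) := by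
      ring
    have h4 := ih (s.erase C)
    have h5 := fm_abs_le h1 k (s.erase C)
    rw [fm_smul] at h5
    have h6 := fm_nonneg hh k (s.erase C)
    have hK0 : (0:ℝ) ≤ K ^ k := by positivity
    have hKK : K ^ k ≤ K ^ (k + 1) := pow_le_pow_right₀ hK (Nat.le_succ k)
    have hhC := hh C
    rw [e1]
    calc |(f C - f' C) * fm f k (s.erase C) + f' C * (fm f k (s.erase C) - fm f' k (s.erase C))|
        ≤ |f C - f' C| * |fm f k (s.erase C)| +
          |f' C| * |fm f k (s.erase C) - fm f' k (s.erase C)| := by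
          rw [← abs_mul, ← abs_mul]; exact abs_add_le _ _
      _ ≤ (η₁ * h C) * (K ^ k * fm h k (s.erase C)) +
          (K * h C) * (k * η₁ * K ^ k * fm h k (s.erase C)) := by
          refine add_le_add (mul_le_mul (h3 C) h5 (abs_nonneg _) (by positivity))
            (mul_le_mul (h2 C) h4 (abs_nonneg _) (by positivity))
      _ ≤ (η₁ * h C) * (K ^ (k + 1) * fm h k (s.erase C)) +
          (K * h C) * (k * η₁ * K ^ k * fm h k (s.erase C)) := by
          gcongr
      _ = ((k + 1 : ℕ) : ℝ) * η₁ * K ^ (k + 1) * (h C * fm h k (s.erase C)) := by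
          push_cast; ring

theorem fm_eq (c : ℕ → ℝ) (M : ℕ) (a : ι → ℕ) (n : ℝ) (hn : 0 < n) (k : ℕ) : ∀ s : Finset ι,
    fm (fun C => ∑ l ∈ Icc 1 M, c l * ((a C / n) * Real.exp (-(l / n)) ^ a C)) k s =
      (n ^ k)⁻¹ * SW c M k (fun ls => ph a (ls.map fun l : ℕ => Real.exp (-((l : ℝ) / n))) s) := by
  induction k with
  | zero => intro s; simp [fm, SW, ph]
  | succ k ih =>
    intro s
    simp only [fm, SW, List.map_cons, ph, ih, SW_sum, SW_mul]
    simp only [sum_mul, mul_sum]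
    rw [sum_comm]
    refine sum_congr rfl fun l _ => sum_congr rfl fun C _ => ?_
    rw [pow_succ, mul_inv]
    field_simp

/-- the coercion of lists used in `S_TEST` -/
theorem coe_list (ls : List ℕ) : (do let a ← ls; pure (a : ℝ) : List ℝ) =
    ls.map fun a : ℕ => (a : ℝ) := by
  show ls.flatMap (fun a : ℕ => [(a : ℝ)]) = _
  induction ls with
  | nil => rfl
  | cons a ls ih => rw [List.flatMap_cons, ih]; rfl

end fmlem

section analysis

theorem sum_Icc (F : ℕ → ℝ) (M : ℕ) : ∑ l ∈ Icc 1 M, F l = ∑ j ∈ range M, F (j + 1) := by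
  induction M with
  | zero => simp
  | succ M ih => rw [sum_Icc_succ_top (by omega), ih, sum_range_succ]

theorem exp_int (j : ℕ) : IntegrableOn (fun u : ℝ => Real.exp (-u) * Real.exp (-u) ^ j) (Set.Ioi 0) ∧
    ∫ u in Set.Ioi (0:ℝ), Real.exp (-u) * Real.exp (-u) ^ j = 1 / ((j + 1 : ℕ) : ℝ) := by
  have e1 : (fun u : ℝ => Real.exp (-u) * Real.exp (-u) ^ j) =
      fun u : ℝ => Real.exp ((-((j + 1 : ℕ) : ℝ)) * u) := by
    funext u
    rw [← Real.exp_nat_mul, ← Real.exp_add]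
    congr 1
    push_cast; ring
  have h1 : (-((j + 1 : ℕ) : ℝ)) < 0 := by
    have : (0:ℝ) < ((j + 1 : ℕ) : ℝ) := by positivity
    linarith
  rw [e1]
  refine ⟨integrableOn_exp_mul_Ioi h1 0, ?_⟩
  rw [integral_exp_mul_Ioi h1]
  rw [mul_zero, Real.exp_zero]
  rw [neg_div_neg_eq]

theorem weier (φ : ℝ → ℝ) (hc : Continuous φ) (h01 : ∀ u, 0 ≤ φ u ∧ φ u ≤ 1) (α β : ℝ)
    (hα : 0 < α) (hαβ : α ≤ β) (hs : ∀ u, (u < α ∨ β < u) → φ u = 0) (η₁ : ℝ) (hη : 0 < η₁) :
    ∃ (M : ℕ) (c : ℕ → ℝ), 1 ≤ M ∧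
      (∀ u, 0 ≤ u → |φ u - u * ∑ l ∈ Icc 1 M, c l * Real.exp (-u) ^ l| ≤
        η₁ * (u * Real.exp (-u))) ∧
      |∑ l ∈ Icc 1 M, c l / l - ∫ u in Set.Ioi (0:ℝ), φ u / u| ≤ η₁ := by
  set δ : ℝ := Real.exp (-(β + 1)) with hδ
  have hδ0 : 0 < δ := Real.exp_pos _
  let v : ℝ → ℝ := fun x => -Real.log (max x δ)
  have hv : Continuous v := by
    refine Continuous.neg (Continuous.log (continuous_id.max continuous_const) fun x => ?_)
    exact (lt_of_lt_of_le hδ0 (le_max_right _ _)).ne'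
  let G : ℝ → ℝ := fun x => φ (v x) / (max (v x) α * max x δ)
  have hG : Continuous G := by
    refine (hc.comp hv).div ((hv.max continuous_const).mul (continuous_id.max continuous_const)) ?_
    intro x
    exact (mul_pos (lt_of_lt_of_le hα (le_max_right _ _)) (lt_of_lt_of_le hδ0 (le_max_right _ _))).ne'
  have hGe : ∀ u : ℝ, 0 < u → G (Real.exp (-u)) = φ u / (u * Real.exp (-u)) := by
    intro u hu
    by_cases h1 : u ≤ β + 1
    · have h2 : max (Real.exp (-u)) δ = Real.exp (-u) := max_eq_left (Real.exp_le_exp.2 (by linarith))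
      have h3 : v (Real.exp (-u)) = u := by
        show -Real.log (max (Real.exp (-u)) δ) = u
        rw [h2, Real.log_exp, neg_neg]
      show φ (v (Real.exp (-u))) / (max (v (Real.exp (-u))) α * max (Real.exp (-u)) δ) = _
      rw [h3, h2]
      by_cases h4 : α ≤ u
      · rw [max_eq_left h4]
      · rw [hs u (Or.inl (not_le.1 h4)), zero_div, zero_div]
    · have h2 : max (Real.exp (-u)) δ = δ :=
        max_eq_right (Real.exp_le_exp.2 (by linarith [not_le.1 h1]))
      have h3 : v (Real.exp (-u)) = β + 1 := by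
        show -Real.log (max (Real.exp (-u)) δ) = β + 1
        rw [h2, hδ, Real.log_exp, neg_neg]
      show φ (v (Real.exp (-u))) / (max (v (Real.exp (-u))) α * max (Real.exp (-u)) δ) = _
      rw [h3, hs (β + 1) (Or.inr (by linarith)), hs u (Or.inr (by linarith [not_le.1 h1])),
        zero_div, zero_div]
  obtain ⟨Q, hQ⟩ := exists_polynomial_near_of_continuousOn 0 1 G hG.continuousOn η₁ hη
  have hQe : ∀ u : ℝ, 0 ≤ u → |G (Real.exp (-u)) - Q.eval (Real.exp (-u))| ≤ η₁ := by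
    intro u hu
    rw [abs_sub_comm]
    refine (hQ _ ⟨(Real.exp_pos _).le, ?_⟩).le
    rw [← Real.exp_zero]; exact Real.exp_le_exp.2 (by linarith)
  set M : ℕ := Q.natDegree + 1 with hM
  set c : ℕ → ℝ := fun l => Q.coeff (l - 1) with hcdef
  have hsum : ∀ x : ℝ, ∑ l ∈ Icc 1 M, c l * x ^ l = x * Q.eval x := by
    intro x
    rw [sum_Icc, Polynomial.eval_eq_sum_range, mul_sum]
    refine sum_congr rfl fun j _ => ?_
    rw [hcdef]
    simp only [Nat.add_sub_cancel]
    ring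
  refine ⟨M, c, by omega, ?_, ?_⟩
  · intro u hu
    rcases hu.lt_or_eq with hu0 | rfl
    · rw [hsum]
      have h1 := hQe u hu
      have he := Real.exp_pos (-u)
      have h2 : φ u = G (Real.exp (-u)) * (u * Real.exp (-u)) := by
        rw [hGe u hu0]; field_simp
      have h3 : φ u - u * (Real.exp (-u) * Q.eval (Real.exp (-u))) =
          (G (Real.exp (-u)) - Q.eval (Real.exp (-u))) * (u * Real.exp (-u)) := by
        rw [h2]; ring
      rw [h3, abs_mul, abs_of_nonneg (show 0 ≤ u * Real.exp (-u) by positivity)]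
      exact mul_le_mul_of_nonneg_right h1 (by positivity)
    · rw [hs 0 (Or.inl hα)]; simp
  · have i1 : IntegrableOn (fun u : ℝ => Real.exp (-u) * Q.eval (Real.exp (-u))) (Set.Ioi 0) ∧
        ∫ u in Set.Ioi (0:ℝ), Real.exp (-u) * Q.eval (Real.exp (-u)) = ∑ l ∈ Icc 1 M, c l / l := by
      have e1 : (fun u : ℝ => Real.exp (-u) * Q.eval (Real.exp (-u))) = fun u : ℝ =>
          ∑ j ∈ range (Q.natDegree + 1), Q.coeff j * (Real.exp (-u) * Real.exp (-u) ^ j) := by
        funext u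
        rw [Polynomial.eval_eq_sum_range, mul_sum]
        exact sum_congr rfl fun j _ => by ring
      constructor
      · rw [e1]
        exact integrable_finsetSum _ fun j _ => ((exp_int j).1.const_mul (Q.coeff j))
      · rw [e1, integral_finsetSum _ fun j _ => ((exp_int j).1.const_mul (Q.coeff j)), sum_Icc]
        refine sum_congr rfl fun j _ => ?_
        rw [integral_const_mul, (exp_int j).2]
        simp only [hcdef, Nat.add_sub_cancel]
        ring
    have i0 : IntegrableOn (fun u : ℝ => η₁ * Real.exp (-u)) (Set.Ioi 0) := by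
      have := (exp_int 0).1
      simp only [pow_zero, mul_one] at this
      exact this.const_mul η₁
    have i0' : ∫ u in Set.Ioi (0:ℝ), η₁ * Real.exp (-u) = η₁ := by
      have := (exp_int 0).2
      simp only [pow_zero, mul_one] at this
      rw [integral_const_mul, this]; simp
    have hb : ∀ u ∈ Set.Ioi (0:ℝ), ‖φ u / u - Real.exp (-u) * Q.eval (Real.exp (-u))‖ ≤
        η₁ * Real.exp (-u) := by
      intro u hu
      have hu0 : (0:ℝ) < u := hu
      have he := Real.exp_pos (-u)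
      have h2 : φ u / u = G (Real.exp (-u)) * Real.exp (-u) := by
        rw [hGe u hu0]; field_simp
      have h3 : φ u / u - Real.exp (-u) * Q.eval (Real.exp (-u)) =
          (G (Real.exp (-u)) - Q.eval (Real.exp (-u))) * Real.exp (-u) := by
        rw [h2]; ring
      rw [h3, norm_mul, Real.norm_eq_abs, Real.norm_eq_abs, abs_of_pos he]
      exact mul_le_mul_of_nonneg_right (hQe u hu0.le) he.le
    have i2 : IntegrableOn (fun u : ℝ => φ u / u - Real.exp (-u) * Q.eval (Real.exp (-u)))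
        (Set.Ioi 0) := by
      refine i0.mono' ?_ ?_
      · have m1 : Measurable (fun u : ℝ => φ u / u - Real.exp (-u) * Q.eval (Real.exp (-u))) := by
          refine (hc.measurable.div measurable_id).sub ?_
          refine (Real.continuous_exp.comp continuous_neg).measurable.mul ?_
          exact (Q.continuous.comp (Real.continuous_exp.comp continuous_neg)).measurable
        exact m1.aestronglyMeasurable
      · exact (ae_restrict_iff' measurableSet_Ioi).2 (Filter.Eventually.of_forall hb)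
    have e2 : (∫ u in Set.Ioi (0:ℝ), φ u / u) =
        (∫ u in Set.Ioi (0:ℝ), (φ u / u - Real.exp (-u) * Q.eval (Real.exp (-u)))) +
          ∑ l ∈ Icc 1 M, c l / l := by
      rw [← i1.2, ← integral_add i2 i1.1]
      congr 1
      funext u; ring
    rw [e2]
    have h4 : ‖∫ u in Set.Ioi (0:ℝ), (φ u / u - Real.exp (-u) * Q.eval (Real.exp (-u)))‖ ≤
        ∫ u in Set.Ioi (0:ℝ), η₁ * Real.exp (-u) :=
      norm_integral_le_of_norm_le i0
        ((ae_restrict_iff' measurableSet_Ioi).2 (Filter.Eventually.of_forall hb))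
    rw [i0', Real.norm_eq_abs] at h4
    rw [sub_add_cancel_right, abs_neg]
    exact h4

end analysis

section final

theorem moment {Ω ι : Type} [Fintype Ω] [DecidableEq ι] (P : Ω → ℝ)
    (s : Ω → Finset ι) (a : ι → ℕ) (n η : ℝ) (hn : 0 < n) (J M M' : ℕ) (hM : M ≤ M') (c : ℕ → ℝ)
    (hyp : ∀ ls : List ℕ, ls.length ≤ J → (∀ l ∈ ls, 1 ≤ l ∧ l ≤ M') →
      |∑ o, P o * ph a (ls.map fun l : ℕ => Real.exp (-((l : ℝ) / n))) (s o) -
        (ls.map fun l : ℕ => n / (l : ℝ)).prod| ≤ η * n ^ ls.length) (k : ℕ) (hk : k ≤ J) :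
    |∑ o, P o * fm (fun C => ∑ l ∈ Icc 1 M, c l * ((a C / n) * Real.exp (-(l / n)) ^ a C)) k (s o) -
      (∑ l ∈ Icc 1 M, c l / l) ^ k| ≤ (∑ l ∈ Icc 1 M, |c l|) ^ k * η := by
  have hnk : (0:ℝ) < n ^ k := by positivity
  have e1 : ∑ o, P o * fm (fun C => ∑ l ∈ Icc 1 M, c l * ((a C / n) *
      Real.exp (-(l / n)) ^ a C)) k (s o) = (n ^ k)⁻¹ * SW c M k (fun ls => ∑ o, P o *
        ph a (ls.map fun l : ℕ => Real.exp (-((l : ℝ) / n))) (s o)) := by
    rw [SW_sum univ k (fun o ls => P o * ph a (ls.map fun l : ℕ => Real.exp (-((l : ℝ) / n))) (s o)),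
      mul_sum]
    refine sum_congr rfl fun o _ => ?_
    rw [fm_eq c M a n hn k (s o), SW_mul]
    ring
  have e2 : (∑ l ∈ Icc 1 M, c l / l) ^ k = (n ^ k)⁻¹ *
      SW c M k (fun ls => (ls.map fun l : ℕ => n / (l : ℝ)).prod) := by
    rw [SW_prod (fun l : ℕ => n / (l : ℝ)) k]
    have : ∑ l ∈ Icc 1 M, c l * (n / (l : ℝ)) = n * ∑ l ∈ Icc 1 M, c l / l := by
      rw [mul_sum]
      exact sum_congr rfl fun l _ => by ring
    rw [this, mul_pow, inv_mul_cancel_left₀ hnk.ne']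
  rw [e1, e2, ← mul_sub, abs_mul, abs_of_pos (inv_pos.2 hnk)]
  have h3 := SW_bound (c := c) (M := M) (η := η * n ^ k) k (fun ls => ∑ o, P o *
        ph a (ls.map fun l : ℕ => Real.exp (-((l : ℝ) / n))) (s o))
      (fun ls => (ls.map fun l : ℕ => n / (l : ℝ)).prod) (by
        intro ls h1 h2
        have := hyp ls (h1 ▸ hk) (fun l hl => ⟨(h2 l hl).1, (h2 l hl).2.trans hM⟩)
        rwa [h1] at this)
  calc (n ^ k)⁻¹ * _ ≤ (n ^ k)⁻¹ * ((∑ l ∈ Icc 1 M, |c l|) ^ k * (η * n ^ k)) :=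
        mul_le_mul_of_nonneg_left h3 (inv_pos.2 hnk).le
    _ = (∑ l ∈ Icc 1 M, |c l|) ^ k * η := by field_simp

theorem test (hBON : S_BON) : S_TEST := by
  rintro φ hc h01 ⟨α, β, hα, hαβ, hs⟩ ε hε
  obtain ⟨lam, hlam⟩ : ∃ lam : ℝ, lam = ∫ u in Set.Ioi (0:ℝ), φ u / u := ⟨_, rfl⟩
  have hlam0 : 0 ≤ lam := by
    rw [hlam]
    exact setIntegral_nonneg measurableSet_Ioi fun u hu =>
      div_nonneg (h01 u).1 (le_of_lt hu)
  rw [← hlam]
  -- the degree
  have t1 : Filter.Tendsto (fun n : ℕ => lam ^ n / (n.factorial : ℝ)) Filter.atTop (nhds 0) :=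
    FloorSemiring.tendsto_pow_div_factorial_atTop lam
  have t2 : Filter.Tendsto (fun n : ℕ => ∑ j ∈ range n, (-lam) ^ j / (j.factorial : ℝ))
      Filter.atTop (nhds (Real.exp (-lam))) := by
    have := NormedSpace.expSeries_div_hasSum_exp (𝔸 := ℝ) (-lam)
    rw [← Real.exp_eq_exp_ℝ] at this
    exact this.tendsto_sum_nat
  obtain ⟨J, hJ1, hJ2, hJ3⟩ : ∃ J : ℕ, 1 ≤ J ∧ lam ^ J / (J.factorial : ℝ) ≤ ε / 4 ∧
      |∑ j ∈ range J, (-lam) ^ j / (j.factorial : ℝ) - Real.exp (-lam)| ≤ ε / 4 := by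
    have h1 := t1.eventually (eventually_le_nhds (show (0:ℝ) < ε / 4 by positivity))
    have h2 := (Metric.tendsto_nhds.1 t2) (ε / 4) (by positivity)
    obtain ⟨J, hJ⟩ := ((Filter.eventually_ge_atTop 1).and (h1.and h2)).exists
    exact ⟨J, hJ.1, hJ.2.1, hJ.2.2.le⟩
  obtain ⟨δ, hδ⟩ : ∃ δ : ℝ, δ = ε / (2 * (J + 1)) := ⟨_, rfl⟩
  have hJ0 : (0:ℝ) ≤ J := Nat.cast_nonneg J
  have hδ0 : 0 < δ := by rw [hδ]; positivity
  have hδJ : (J + 1) * δ = ε / 2 := by rw [hδ]; field_simp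
  obtain ⟨K, hK⟩ : ∃ K : ℝ, K = Real.exp β / α + 1 := ⟨_, rfl⟩
  have hK1 : 1 ≤ K := by
    rw [hK]; have : 0 < Real.exp β / α := by positivity
    linarith
  obtain ⟨δ', hδ'0, hδ'⟩ : ∃ δ' > 0, ∀ x : ℝ, |x - lam| < δ' → ∀ k ∈ range (J + 1),
      |x ^ k - lam ^ k| ≤ δ / 3 := by
    have h1 : ∀ᶠ x in nhds lam, ∀ k ∈ range (J + 1), |x ^ k - lam ^ k| ≤ δ / 3 := by
      rw [Filter.eventually_all_finset]
      intro k _
      have h2 : Filter.Tendsto (fun x : ℝ => |x ^ k - lam ^ k|) (nhds lam) (nhds |lam ^ k - lam ^ k|) :=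
        (((continuous_pow k).sub continuous_const).abs).tendsto lam
      rw [sub_self, abs_zero] at h2
      exact h2.eventually (eventually_le_nhds (show (0:ℝ) < δ / 3 by positivity))
    obtain ⟨δ', h3, h4⟩ := Metric.eventually_nhds_iff.1 h1
    exact ⟨δ', h3, fun x hx => h4 (by rwa [Real.dist_eq])⟩
  obtain ⟨η₁, hη₁⟩ : ∃ η₁ : ℝ, η₁ = min (min 1 (δ' / 2)) (δ / (6 * (J + 1) * K ^ J)) := ⟨_, rfl⟩
  have hKJ : (0:ℝ) < K ^ J := by positivity
  have hη₁0 : 0 < η₁ := by rw [hη₁]; positivity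
  have hη₁1 : η₁ ≤ 1 := by rw [hη₁]; exact (min_le_left _ _).trans (min_le_left _ _)
  have hη₁2 : η₁ ≤ δ' / 2 := by rw [hη₁]; exact (min_le_left _ _).trans (min_le_right _ _)
  have hη₁3 : η₁ * (6 * (J + 1) * K ^ J) ≤ δ := by
    have : η₁ ≤ δ / (6 * (J + 1) * K ^ J) := by rw [hη₁]; exact min_le_right _ _
    exact (le_div_iff₀ (by positivity)).1 this
  obtain ⟨M, c, hM1, hw1, hw2⟩ := weier φ hc h01 α β hα hαβ hs η₁ hη₁0
  rw [← hlam] at hw2
  obtain ⟨S, hS⟩ : ∃ S : ℝ, S = 1 + ∑ l ∈ Icc 1 M, |c l| := ⟨_, rfl⟩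
  have hS0 : 0 ≤ ∑ l ∈ Icc 1 M, |c l| := sum_nonneg fun _ _ => abs_nonneg _
  have hS1 : 1 ≤ S := by rw [hS]; linarith
  have hSJ : (0:ℝ) < S ^ J := by positivity
  obtain ⟨η, hη⟩ : ∃ η : ℝ, η = min 1 (δ / (3 * S ^ J)) := ⟨_, rfl⟩
  have hη0 : 0 < η := by rw [hη]; positivity
  have hη1 : η ≤ 1 := by rw [hη]; exact min_le_left _ _
  have hη2 : S ^ J * η ≤ δ / 3 := by
    have : η ≤ δ / (3 * S ^ J) := by rw [hη]; exact min_le_right _ _
    have := (le_div_iff₀ (by positivity)).1 this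
    linarith
  refine ⟨η, J, M, hη0, ?_⟩
  intro Ω ι _ _ P s a n hn hP hP1 hyp0
  have hyp : ∀ ls : List ℕ, ls.length ≤ J → (∀ l ∈ ls, 1 ≤ l ∧ l ≤ M) →
      |∑ o, P o * ph a (ls.map fun l : ℕ => Real.exp (-((l : ℝ) / n))) (s o) -
        (ls.map fun l : ℕ => n / (l : ℝ)).prod| ≤ η * n ^ ls.length := by
    intro ls h1 h2
    have h3 := hyp0 ls h1 h2
    rw [coe_list] at h3
    simp only [List.map_map, Function.comp_def] at h3
    exact h3
  set f : ι → ℝ := fun C => φ (a C / n) with hf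
  set h : ι → ℝ := fun C => (a C / n) * Real.exp (-(a C / n)) with hh
  set f' : ι → ℝ := fun C => ∑ l ∈ Icc 1 M, c l * ((a C / n) * Real.exp (-(l / n)) ^ a C) with hf'
  have hh0 : ∀ C, 0 ≤ h C := fun C => by rw [hh]; positivity
  have hexp : ∀ (l : ℕ) (C : ι), Real.exp (-(l / n)) ^ a C = Real.exp (-(a C / n)) ^ l := by
    intro l C
    rw [← Real.exp_nat_mul, ← Real.exp_nat_mul]
    congr 1; ring
  have b1 : ∀ C, |f C| ≤ (K - 1) * h C := by
    intro C
    have hu : (0:ℝ) ≤ a C / n := by positivity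
    show |φ (a C / n)| ≤ (K - 1) * ((a C / n) * Real.exp (-(a C / n)))
    rw [abs_of_nonneg (h01 _).1, hK, add_sub_cancel_right]
    generalize ha : (a C : ℝ) / n = u at *
    by_cases h1 : u < α ∨ β < u
    · rw [hs u h1]; positivity
    · push Not at h1
      have h2 : 1 ≤ Real.exp β * Real.exp (-u) := by
        rw [← Real.exp_add]; exact Real.one_le_exp (by linarith)
      have h3 : 1 ≤ u / α := (one_le_div hα).2 h1.1
      calc φ u ≤ 1 := (h01 u).2
        _ ≤ (Real.exp β * Real.exp (-u)) * (u / α) := one_le_mul_of_one_le_of_one_le h2 h3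
        _ = Real.exp β / α * (u * Real.exp (-u)) := by ring
  have b3 : ∀ C, |f C - f' C| ≤ η₁ * h C := by
    intro C
    have h1 := hw1 (a C / n) (by positivity)
    have h2 : f' C = (a C / n) * ∑ l ∈ Icc 1 M, c l * Real.exp (-(a C / n)) ^ l := by
      simp only [hf', mul_sum]
      refine sum_congr rfl fun l _ => ?_
      rw [hexp l C]; ring
    rw [h2]; exact h1
  have b1' : ∀ C, |f C| ≤ K * h C := fun C => (b1 C).trans (by nlinarith [hh0 C])
  have b2 : ∀ C, |f' C| ≤ K * h C := by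
    intro C
    have h1 := b1 C
    have h2 := b3 C
    have h3 : |f' C| ≤ |f C| + |f C - f' C| := by
      have := abs_sub (f C) (f C - f' C)
      rw [sub_sub_cancel] at this
      exact this
    have h4 : η₁ * h C ≤ 1 * h C := mul_le_mul_of_nonneg_right hη₁1 (hh0 C)
    linarith
  have mh : ∀ k ≤ J, ∑ o, P o * fm h k (s o) ≤ 2 := by
    intro k hk
    have h1 := moment P s a n η hn J 1 M hM1 (fun _ => 1) hyp k hk
    have h2 : (fun C : ι => ∑ l ∈ Icc 1 1, (fun _ => (1:ℝ)) l * ((a C / n) *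
        Real.exp (-((l : ℕ) / n)) ^ a C)) = h := by
      funext C
      rw [Icc_self, sum_singleton, hexp 1 C, hh]
      simp
    rw [h2] at h1
    simp only [Icc_self, sum_singleton, Nat.cast_one, div_one, one_pow, abs_one, one_mul] at h1
    have := (abs_le.1 h1).2
    linarith
  have mf : ∀ k ≤ J, |∑ o, P o * fm f k (s o) - lam ^ k| ≤ δ := by
    intro k hk
    have h1 := moment P s a n η hn J M M le_rfl c hyp k hk
    have h2 : |∑ o, P o * fm f k (s o) - ∑ o, P o * fm f' k (s o)| ≤ δ / 3 := by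
      rw [← sum_sub_distrib]
      have h3 : (k : ℝ) * η₁ * K ^ k ≤ δ / 6 := by
        have h4 : (k : ℝ) ≤ J + 1 := by
          have : (k : ℝ) ≤ J := by exact_mod_cast hk
          linarith
        have h5 : K ^ k ≤ K ^ J := pow_le_pow_right₀ hK1 hk
        calc (k : ℝ) * η₁ * K ^ k ≤ (J + 1) * η₁ * K ^ J := by gcongr
          _ ≤ δ / 6 := by linarith
      calc |∑ o, (P o * fm f k (s o) - P o * fm f' k (s o))|
          ≤ ∑ o, |P o * fm f k (s o) - P o * fm f' k (s o)| := abs_sum_le_sum_abs _ _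
        _ ≤ ∑ o, (k : ℝ) * η₁ * K ^ k * (P o * fm h k (s o)) := by
            refine sum_le_sum fun o _ => ?_
            rw [← mul_sub, abs_mul, abs_of_nonneg (hP o)]
            have := mul_le_mul_of_nonneg_left
              (fm_diff hK1 hη₁0.le hh0 b1' b2 b3 k (s o)) (hP o)
            linarith
        _ = (k : ℝ) * η₁ * K ^ k * ∑ o, P o * fm h k (s o) := by rw [mul_sum]
        _ ≤ δ / 6 * 2 := by
            refine mul_le_mul h3 (mh k hk) ?_ (by positivity)
            exact sum_nonneg fun o _ => mul_nonneg (hP o) (fm_nonneg hh0 k _)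
        _ = δ / 3 := by ring
    have h3 : |∑ o, P o * fm f' k (s o) - (∑ l ∈ Icc 1 M, c l / l) ^ k| ≤ δ / 3 := by
      refine h1.trans ?_
      have h4 : (∑ l ∈ Icc 1 M, |c l|) ^ k ≤ S ^ J := by
        calc (∑ l ∈ Icc 1 M, |c l|) ^ k ≤ S ^ k := by
              refine pow_le_pow_left₀ hS0 ?_ k
              rw [hS]; linarith
          _ ≤ S ^ J := pow_le_pow_right₀ hS1 hk
      exact (mul_le_mul_of_nonneg_right h4 hη0.le).trans hη2
    have h4 : |(∑ l ∈ Icc 1 M, c l / l) ^ k - lam ^ k| ≤ δ / 3 :=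
      hδ' _ (by linarith) k (mem_range.2 (by omega))
    have h5 := abs_le.1 h2
    have h6 := abs_le.1 h3
    have h7 := abs_le.1 h4
    exact abs_le.2 ⟨by linarith [h5.1, h6.1, h7.1], by linarith [h5.2, h6.2, h7.2]⟩
  -- Bonferroni
  obtain ⟨J', rfl⟩ : ∃ J' : ℕ, J = J' + 1 := ⟨J - 1, by omega⟩
  have hf01 : ∀ C, 0 ≤ f C ∧ f C ≤ 1 := fun C => h01 _
  have c1 : |∑ o, P o * ∏ C ∈ s o, (1 - f C) -
      ∑ j ∈ range (J' + 1), (-1) ^ j * (∑ o, P o * fm f j (s o)) / (j.factorial : ℝ)| ≤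
      (∑ o, P o * fm f (J' + 1) (s o)) / ((J' + 1).factorial : ℝ) := by
    have e1 : ∑ j ∈ range (J' + 1), (-1) ^ j * (∑ o, P o * fm f j (s o)) / (j.factorial : ℝ) =
        ∑ o, P o * ∑ j ∈ range (J' + 1), (-1) ^ j * fm f j (s o) / (j.factorial : ℝ) := by
      simp only [mul_sum, sum_div]
      rw [sum_comm]
      exact sum_congr rfl fun o _ => sum_congr rfl fun j _ => by ring
    rw [e1, ← sum_sub_distrib]
    refine (abs_sum_le_sum_abs _ _).trans ?_
    rw [sum_div]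
    refine sum_le_sum fun o _ => ?_
    rw [← mul_sub, abs_mul, abs_of_nonneg (hP o), mul_div_assoc]
    exact mul_le_mul_of_nonneg_left (hBON ι f (s o) hf01 J') (hP o)
  have c2 : |∑ j ∈ range (J' + 1), (-1) ^ j * (∑ o, P o * fm f j (s o)) / (j.factorial : ℝ) -
      ∑ j ∈ range (J' + 1), (-lam) ^ j / (j.factorial : ℝ)| ≤ (J' + 1) * δ := by
    rw [← sum_sub_distrib]
    refine (abs_sum_le_sum_abs _ _).trans ?_
    have : ((J' : ℝ) + 1) * δ = ∑ j ∈ range (J' + 1), δ := by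
      rw [sum_const, card_range, nsmul_eq_mul]; push_cast; ring
    rw [this]
    refine sum_le_sum fun j hj => ?_
    have hj' : j ≤ J' + 1 := (mem_range.1 hj).le
    have e2 : (-1) ^ j * (∑ o, P o * fm f j (s o)) / (j.factorial : ℝ) -
        (-lam) ^ j / (j.factorial : ℝ) =
        ((-1) ^ j * (∑ o, P o * fm f j (s o) - lam ^ j)) / (j.factorial : ℝ) := by
      rw [neg_pow lam j]; ring
    have hfac : (1:ℝ) ≤ (j.factorial : ℝ) := by exact_mod_cast Nat.one_le_iff_ne_zero.2 j.factorial_ne_zero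
    rw [e2, abs_div, abs_mul, abs_pow, abs_neg, abs_one, one_pow, one_mul,
      abs_of_pos (lt_of_lt_of_le one_pos hfac)]
    exact (div_le_self (abs_nonneg _) hfac).trans (mf j hj')
  have c3 : (∑ o, P o * fm f (J' + 1) (s o)) / ((J' + 1).factorial : ℝ) ≤ ε / 4 + δ := by
    have h1 := (abs_le.1 (mf (J' + 1) le_rfl)).2
    have hfac : (1:ℝ) ≤ ((J' + 1).factorial : ℝ) := by
      exact_mod_cast Nat.one_le_iff_ne_zero.2 (J' + 1).factorial_ne_zero
    have h2 : ∑ o, P o * fm f (J' + 1) (s o) ≤ lam ^ (J' + 1) + δ := by linarith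
    calc (∑ o, P o * fm f (J' + 1) (s o)) / ((J' + 1).factorial : ℝ) ≤
          (lam ^ (J' + 1) + δ) / ((J' + 1).factorial : ℝ) := by gcongr
      _ = lam ^ (J' + 1) / ((J' + 1).factorial : ℝ) + δ / ((J' + 1).factorial : ℝ) := add_div _ _ _
      _ ≤ ε / 4 + δ := add_le_add hJ2 (div_le_self hδ0.le hfac)
  have g1 := abs_le.1 c1
  have g2 := abs_le.1 c2
  have g3 := abs_le.1 hJ3
  push_cast at hδJ
  have hδJ' : (J' + 1) * δ + δ = ε / 2 := by linarith
  refine abs_le.2 ⟨?_, ?_⟩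
  · linarith [g1.1, g2.1, g3.1]
  · linarith [g1.2, g2.2, g3.2]

end final

end

end Pool.Agent.H961.T3.Testh
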