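import Pool.Agent.H961.T3.Stm4
import Pool.Agent.H961.T3.Mom
import Pool.Agent.H961.T3.Test

/-!
# Project MS: the Poisson law at mesoscopic scales
-/

set_option autoImplicit false
set_option linter.unusedSectionVars false
set_option linter.unusedVariables false

namespace Pool.Agent.H961.T3

open Finset Equiv Matrix Q292.LC Pool.Agent.H961.T2 Filter Topology
open Pool.Agent.Y998.ST (stirExp nnRate cycleLen stirLaw nn_nonneg exp_mono exp_sum exp_const
  law_nonneg)
open Pool.Agent.Y998.CN (law_sum)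

theorem kS_prod {V : Type} [Fintype V] [DecidableEq V] (h : ℝ → ℝ) (n : ℝ) (g : Perm V) :
    ∏ C ∈ cycs g, (1 - (1 - Real.exp (-h ((C.card : ℝ) / n)))) = Real.exp (-kS h n g) := by
  rw [kS, ← sum_neg_distrib, Real.exp_sum]
  exact prod_congr rfl fun C _ => by ring

theorem meso (hSTIR : S_STIR) (hTEST : S_TEST) : S_MESO := by
  intro d hd
  obtain ⟨m, hm1, hm⟩ := moments hSTIR d hd
  refine ⟨m, hm1, ?_⟩
  rintro h hc h0 ⟨α, β, hα, hαβ, hsupp⟩ ε hε
  obtain ⟨η, J, M, hη, H⟩ := hTEST (fun u => 1 - Real.exp (-h u))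
    (continuous_const.sub (Real.continuous_exp.comp hc.neg))
    (fun u => by
      have h1 := Real.exp_pos (-h u)
      have h2 : Real.exp (-h u) ≤ 1 := Real.exp_le_one_iff.2 (by linarith [h0 u])
      constructor <;> linarith)
    ⟨α, β, hα, hαβ, fun u hu => by simp [hsupp u hu]⟩ ε hε
  obtain ⟨T, hT3, hT⟩ := hm J M η 1 hη
  refine ⟨T, hT3, ?_⟩
  intro L _ t n hL htT hlog htL h1 h2 h3
  obtain ⟨hX, -, hmom⟩ := hT L t n hL htT hlog htL h1 h2 h3
  have ht0 : 0 ≤ t := by linarith
  have key := H (Perm (Fin d → ZMod L)) (Finset (Fin d → ZMod L)) (stirLaw (nnRate d L) t)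
    (fun g => cycs g) card n (by linarith) (law_nonneg (fun x y => nn_nonneg x y) ht0)
    (law_sum (nnRate d L) t) (by
      intro ls hl1 hl2
      have h4 := hmom ls hl1 hl2
      have h5 : (do let a ← ls; pure (a : ℝ) : List ℝ) = ls.map (fun l : ℕ => (l : ℝ)) :=
        Testh.coe_list ls
      rw [h5]
      simp only [List.map_map, Function.comp_def]
      exact h4)
  have h6 : stirExp (nnRate d L) t (fun g => Real.exp (-kS h n g)) =
      ∑ g, stirLaw (nnRate d L) t g * ∏ C ∈ cycs g,
        (1 - (1 - Real.exp (-h ((C.card : ℝ) / n)))) := by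
    unfold stirExp
    exact sum_congr rfl fun g _ => by rw [kS_prod]
  rw [h6]
  exact key

end Pool.Agent.H961.T3
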