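import Pool.Agent.H961.T3.One

/-!
# Project MS: the one-point law at all scales
-/

set_option autoImplicit false
set_option linter.unusedSectionVars false
set_option linter.unusedVariables false

namespace Pool.Agent.H961.T3

open Finset Equiv Matrix Q292.LC Pool.Agent.H961.T2 Filter Topology
open Pool.Agent.Y998.ST (stirExp nnRate cycleLen stirLaw nn_nonneg exp_mono exp_sum exp_const
  law_nonneg)
open Pool.Agent.Q297.LC (stir_smul card_cyc)

theorem pw_inv (t : ℝ) (d : ℕ) (ht : 0 < t) :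
    (4 * Real.pi * t) ^ (d / 2 : ℝ) * (4 * Real.pi * t) ^ (-(d / 2 : ℝ)) = 1 := by
  rw [← Real.rpow_add (by positivity)]
  simp

/-- `N t^(-d/2)` is large -/
theorem ratio_big (L t X : ℝ) (d : ℕ) (hd : 3 ≤ d) (hL : 0 < L) (ht : 0 < t) (hX : 1 ≤ X)
    (h : t * X ≤ L ^ 2) : X * t ^ (d / 2 : ℝ) ≤ L ^ d := by
  have h1 : X ≤ L ^ 2 / t := by rw [le_div_iff₀ ht]; linarith
  have h2 : 1 ≤ L ^ 2 / t := hX.trans h1
  have hd3 : (3 : ℝ) ≤ d := by exact_mod_cast hd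
  have h3 : L ^ 2 / t ≤ (L ^ 2 / t) ^ (d / 2 : ℝ) := by
    calc L ^ 2 / t = (L ^ 2 / t) ^ (1 : ℝ) := (Real.rpow_one _).symm
      _ ≤ _ := Real.rpow_le_rpow_of_exponent_le h2 (by linarith)
  have h4 : (L ^ 2 / t) ^ (d / 2 : ℝ) = L ^ d / t ^ (d / 2 : ℝ) := by
    rw [Real.div_rpow (by positivity) ht.le, ← Real.rpow_natCast L 2, ← Real.rpow_mul hL.le,
      ← Real.rpow_natCast L d]
    congr 2
    push_cast
    ring
  rw [h4] at h3
  have h5 := h1.trans h3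
  rwa [le_div_iff₀ (by positivity)] at h5

section torus

variable {d L : ℕ} [NeZero L]

theorem filter_nat (n : ℕ) (hn : n ≤ L ^ d) :
    (Icc 1 (L ^ d)).filter (fun ℓ : ℕ => (ℓ : ℝ) ≤ (n : ℝ)) = Icc 1 n := by
  ext ℓ
  simp only [mem_filter, mem_Icc, Nat.cast_le]
  omega

theorem exp_le_nat (t : ℝ) (n : ℕ) (hn : n ≤ L ^ d) (x : Fin d → ZMod L) :
    stirExp (nnRate d L) t (fun g => if ((cyc g x).card : ℝ) ≤ (n : ℝ) then 1 else 0) =
    ∑ ℓ ∈ Icc 1 n, stirExp (nnRate d L) t (fun g => if cycleLen g x = ℓ then 1 else 0) := by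
  rw [← filter_nat n hn, exp_sum]
  congr 1
  funext g
  exact (sum_ind g x n).symm

end torus

/-- the one-point law at all scales -/
theorem point_all (hONES : S_ONES) (hKAR : S_KAR) (hCYC : S_CYC) (hGAPO : S_GAPO) (d : ℕ)
    (hd : 3 ≤ d) : ∃ m : ℕ, 1 ≤ m ∧ ∀ ε : ℝ, 0 < ε → ∃ T : ℝ, 3 ≤ T ∧
    ∀ (L : ℕ) [NeZero L] (t : ℝ) (n : ℕ), 3 ≤ L →
    T ≤ t → (Real.log L) ^ m ≤ t → t * (Real.log L) ^ m ≤ (L : ℝ) ^ 2 → 1 ≤ n → n ≤ L ^ d →
    ((Real.log L) ^ m * n ≤ (L : ℝ) ^ d ∨ t ^ 4 ≤ (L : ℝ) ^ 7) → ∀ x : Fin d → ZMod L,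
    |stirExp (nnRate d L) t (fun g => if ((cyc g x).card : ℝ) ≤ n then 1 else 0) -
      (n / (L : ℝ) ^ d + (4 * Real.pi * t) ^ (-(d / 2 : ℝ)) *
        ∑ ℓ ∈ Icc 1 n, (ℓ : ℝ) ^ (-(d / 2 : ℝ)))| ≤
      ε * (n / (L : ℝ) ^ d + t ^ (-(d / 2 : ℝ))) := by
  obtain ⟨m₁, hm₁, hmid⟩ := point_mid hONES hKAR hCYC d hd
  obtain ⟨m₂, hm₂, hgap⟩ := hGAPO d (by omega) m₁
  obtain ⟨c₃, m₃, hc₃, hl1⟩ := main_l1 d hd
  refine ⟨m₁ + m₂ + m₃ + 1, by omega, fun ε hε => ?_⟩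
  have hR := rr0_ge d hd
  obtain ⟨k0, hk0⟩ := rr_tendsto d hd (ε / 2) (by linarith)
  obtain ⟨T₁, hT₁, hmid⟩ := hmid (ε / 2) (by linarith)
  obtain ⟨T₂, hT₂, hgap⟩ := hgap (ε / 2) (by linarith)
  obtain ⟨T₃, hT₃, hl1⟩ := hl1 (ε / 2) (by linarith)
  obtain ⟨T₀, hT₀⟩ : ∃ T₀ : ℝ, T₀ = T₁ + k0 := ⟨_, rfl⟩
  have hk00 : (0 : ℝ) ≤ k0 := Nat.cast_nonneg _
  obtain ⟨W, hW⟩ : ∃ W : ℝ, W = T₃ + T₃ * T₀ + 2 * T₀ / ε := ⟨_, rfl⟩
  have hT₀0 : 3 ≤ T₀ := by linarith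
  have hW1 : T₃ ≤ W := by
    have : 0 ≤ T₃ * T₀ := by positivity
    have : 0 ≤ 2 * T₀ / ε := by positivity
    linarith
  have hW2 : T₃ * T₀ ≤ W := by
    have : 0 ≤ 2 * T₀ / ε := by positivity
    linarith
  have hW3 : 2 * T₀ / ε ≤ W := by
    have : 0 ≤ T₃ * T₀ := by positivity
    linarith
  obtain ⟨T, hT⟩ : ∃ T : ℝ, T = T₁ + T₂ + T₃ + Real.exp (2 * W) + (2 * rr d 0 / ε) ^ 2 := ⟨_, rfl⟩
  have hexp := Real.exp_pos (2 * W)
  have hsq : 0 ≤ (2 * rr d 0 / ε) ^ 2 := by positivity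
  refine ⟨T, by rw [hT]; linarith, ?_⟩
  intro L _ t n hL htT hlogt htL hn1 hnL hcase x
  have hL0 : (0 : ℝ) < L := by exact_mod_cast Nat.pos_of_ne_zero (NeZero.ne L)
  have hL3 : (3 : ℝ) ≤ L := by exact_mod_cast hL
  have hLd : (0 : ℝ) < (L : ℝ) ^ d := pow_pos hL0 d
  have ht3 : 3 ≤ t := by
    have : 3 ≤ T := by rw [hT]; linarith
    linarith
  have ht0 : 0 < t := by linarith
  have hn0 : (0 : ℝ) < n := by exact_mod_cast hn1
  have hnL' : (n : ℝ) ≤ (L : ℝ) ^ d := by exact_mod_cast hnL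
  have hlog1 : 1 ≤ Real.log L := by
    have h2 : Real.exp 1 ≤ L := by
      have := Real.exp_one_lt_d9
      linarith
    have := Real.log_le_log (Real.exp_pos 1) h2
    rwa [Real.log_exp] at this
  have hpow : ∀ k : ℕ, k ≤ m₁ + m₂ + m₃ + 1 → (Real.log L) ^ k ≤
      (Real.log L) ^ (m₁ + m₂ + m₃ + 1) := fun k hk => pow_le_pow_right₀ hlog1 hk
  have hlm1 : 1 ≤ (Real.log L) ^ (m₁ + m₂ + m₃ + 1) := one_le_pow₀ hlog1
  have htL2 : t ≤ (L : ℝ) ^ 2 := by
    refine le_trans ?_ htL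
    exact le_mul_of_one_le_right ht0.le hlm1
  have hlogW : W ≤ Real.log L := by
    have h2 : Real.exp (2 * W) ≤ (L : ℝ) ^ 2 := by
      refine le_trans ?_ htL2
      refine le_trans ?_ htT
      rw [hT]
      linarith
    have h3 := Real.log_le_log (Real.exp_pos _) h2
    rw [Real.log_exp, Real.log_pow] at h3
    push_cast at h3
    linarith
  have hW0 : 1 ≤ W := by linarith
  have htW : t * W ≤ (L : ℝ) ^ 2 := by
    refine le_trans ?_ htL
    refine mul_le_mul_of_nonneg_left ?_ ht0.le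
    refine hlogW.trans ?_
    have := hpow 1 (by omega)
    rwa [pow_one] at this
  have hbig := ratio_big L t W d hd hL0 ht0 hW0 htW
  obtain ⟨Y, hY⟩ : ∃ Y : ℝ, Y = t ^ (-(d / 2 : ℝ)) := ⟨_, rfl⟩
  obtain ⟨Q, hQ⟩ : ∃ Q : ℝ, Q = (4 * Real.pi * t) ^ (-(d / 2 : ℝ)) := ⟨_, rfl⟩
  obtain ⟨S, hS⟩ : ∃ S : ℝ, S = ∑ ℓ ∈ Icc 1 n, (ℓ : ℝ) ^ (-(d / 2 : ℝ)) := ⟨_, rfl⟩
  obtain ⟨P, hP⟩ : ∃ P : ℝ, P = stirExp (nnRate d L) t
    (fun g => if ((cyc g x).card : ℝ) ≤ n then 1 else 0) := ⟨_, rfl⟩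
  have hY0 : 0 < Y := by rw [hY]; positivity
  have hQ0 : 0 < Q := by rw [hQ]; positivity
  have hQY : Q ≤ Y := by
    rw [hQ, hY, powp t d ht0]
    exact mul_le_of_le_one_left (by positivity) (pi_le d)
  have hS0 : 0 ≤ S := by rw [hS]; exact sum_nonneg fun ℓ _ => by positivity
  have hSR := rr_split d hd n
  rw [← hS] at hSR
  have hrn := rr_nonneg d n
  rw [← hY, ← hQ, ← hS, ← hP]
  by_cases hlow : (Real.log L) ^ m₁ * n ≤ (L : ℝ) ^ d
  · by_cases hnT : T₀ ≤ n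
    · have h1 := hmid L t n hL (by linarith) ((hpow m₁ (by omega)).trans hlogt)
        ((mul_le_mul_of_nonneg_left (hpow m₁ (by omega)) ht0.le).trans htL) (by linarith) hlow x
      rw [← hP, ← hQ, ← hY] at h1
      have h2 : rr d n ≤ ε / 2 := by
        refine (rr_anti d hd ?_).trans hk0
        have : (k0 : ℝ) ≤ n := by linarith
        exact_mod_cast this
      have h3 : |n / (L : ℝ) ^ d + Q * rr d 0 - (n / (L : ℝ) ^ d + Q * S)| ≤ ε / 2 * Y := by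
        rw [hSR]
        have : n / (L : ℝ) ^ d + Q * (S + rr d n) - (n / (L : ℝ) ^ d + Q * S) = Q * rr d n := by
          ring
        rw [this, abs_of_nonneg (by positivity)]
        calc Q * rr d n ≤ Y * (ε / 2) := mul_le_mul hQY h2 hrn hY0.le
          _ = _ := by ring
      have h4 := abs_sub_le P (n / (L : ℝ) ^ d + Q * rr d 0) (n / (L : ℝ) ^ d + Q * S)
      have h5 : 0 ≤ ε / 2 * (n / (L : ℝ) ^ d) := by positivity
      have h6 : ε / 2 * (n / (L : ℝ) ^ d + Y) = ε / 2 * (n / (L : ℝ) ^ d) + ε / 2 * Y := by ring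
      have h7 : ε * (n / (L : ℝ) ^ d + Y) = 2 * (ε / 2 * (n / (L : ℝ) ^ d)) + 2 * (ε / 2 * Y) := by
        ring
      rw [h6] at h1
      rw [h7]
      linarith
    · push Not at hnT
      have h1 := hl1 L t n (by linarith) (by
        calc T₃ * t ≤ W * t := mul_le_mul_of_nonneg_right hW1 ht0.le
          _ = t * W := by ring
          _ ≤ _ := htW) (Or.inr ((hpow m₃ (by omega)).trans hlogt)) (by
        calc T₃ * (n * t ^ (d / 2 : ℝ)) = (T₃ * n) * t ^ (d / 2 : ℝ) := by ring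
          _ ≤ W * t ^ (d / 2 : ℝ) := by
              refine mul_le_mul_of_nonneg_right ?_ (by positivity)
              refine le_trans ?_ hW2
              exact mul_le_mul_of_nonneg_left hnT.le (by linarith)
          _ ≤ _ := hbig)
      have h2 := one_point t _ ht0.le n x (ε / 2) h1
      rw [exp_le_nat t n hnL x] at hP
      have h3 : |P - Q * S| ≤ ε / 2 * Y := by
        have e1 : P - Q * S = Q * ∑ ℓ ∈ Icc 1 n, ((4 * Real.pi * t) ^ (d / 2 : ℝ) *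
            stirExp (nnRate d L) t (fun g => if cycleLen g x = ℓ then 1 else 0) -
            (ℓ : ℝ) ^ (-(d / 2 : ℝ))) := by
          rw [sum_sub_distrib, ← hS, ← mul_sum, ← hP, mul_sub, ← mul_assoc]
          have : Q * (4 * Real.pi * t) ^ (d / 2 : ℝ) = 1 := by
            rw [hQ, mul_comm]
            exact pw_inv t d ht0
          rw [this, one_mul]
        rw [e1, abs_mul, abs_of_pos hQ0]
        calc Q * |∑ ℓ ∈ Icc 1 n, ((4 * Real.pi * t) ^ (d / 2 : ℝ) *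
            stirExp (nnRate d L) t (fun g => if cycleLen g x = ℓ then 1 else 0) -
            (ℓ : ℝ) ^ (-(d / 2 : ℝ)))| ≤ Q * (ε / 2) :=
              mul_le_mul_of_nonneg_left ((abs_sum_le_sum_abs _ _).trans h2) hQ0.le
          _ ≤ Y * (ε / 2) := mul_le_mul_of_nonneg_right hQY (by linarith)
          _ = _ := by ring
      have h4 : n / (L : ℝ) ^ d ≤ ε / 2 * Y := by
        have e1 : 2 * T₀ / ε * t ^ (d / 2 : ℝ) ≤ (L : ℝ) ^ d :=
          (mul_le_mul_of_nonneg_right hW3 (by positivity)).trans hbig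
        rw [div_le_iff₀ hLd]
        have e2 : Y * t ^ (d / 2 : ℝ) = 1 := by
          rw [hY, ← Real.rpow_add ht0]
          simp
        calc (n : ℝ) ≤ T₀ := hnT.le
          _ = ε / 2 * Y * (2 * T₀ / ε * t ^ (d / 2 : ℝ)) := by
              have : ε / 2 * Y * (2 * T₀ / ε * t ^ (d / 2 : ℝ)) =
                T₀ * (Y * t ^ (d / 2 : ℝ)) := by field_simp
              rw [this, e2, mul_one]
          _ ≤ _ := mul_le_mul_of_nonneg_left e1 (by positivity)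
      have h5 : |P - (n / (L : ℝ) ^ d + Q * S)| ≤ |P - Q * S| + n / (L : ℝ) ^ d := by
        have e1 : P - (n / (L : ℝ) ^ d + Q * S) = (P - Q * S) - n / (L : ℝ) ^ d := by ring
        rw [e1]
        refine (abs_sub _ _).trans ?_
        rw [abs_of_nonneg (show 0 ≤ n / (L : ℝ) ^ d by positivity)]
      have h6 : 0 ≤ ε * (n / (L : ℝ) ^ d) := by positivity
      have h7 : ε * (n / (L : ℝ) ^ d + Y) = ε * (n / (L : ℝ) ^ d) + (ε / 2 * Y + ε / 2 * Y) := by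
        ring
      rw [h7]
      linarith
  · have hlow' : (L : ℝ) ^ d ≤ (Real.log L) ^ m₁ * n := (not_le.1 hlow).le
    have h47 : t ^ 4 ≤ (L : ℝ) ^ 7 := by
      rcases hcase with h | h
      · exfalso
        apply hlow
        refine le_trans ?_ h
        exact mul_le_mul_of_nonneg_right (hpow m₁ (by omega)) hn0.le
      · exact h
    have h1 := hgap L t n hL (by linarith) ((hpow m₂ (by omega)).trans hlogt) h47 hn0 hlow' hnL' x
    rw [← hP] at h1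
    have h2 : Q * S ≤ ε / 2 * (n / (L : ℝ) ^ d) := by
      have e1 : Q * S ≤ Y * rr d 0 := mul_le_mul hQY (by linarith) hS0 hY0.le
      refine e1.trans ?_
      have hd3 : (3 : ℝ) ≤ d := by exact_mod_cast hd
      have e2 : Y ≤ t⁻¹ * (Real.sqrt t)⁻¹ := by
        have u1 : t⁻¹ * (Real.sqrt t)⁻¹ = t ^ (-(3 / 2) : ℝ) := by
          rw [← Real.rpow_neg_one, Real.sqrt_eq_rpow, ← Real.rpow_neg ht0.le, ← Real.rpow_add ht0]
          norm_num
        rw [u1, hY]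
        exact Real.rpow_le_rpow_of_exponent_le (by linarith) (by linarith)
      have e3 : t⁻¹ ≤ n / (L : ℝ) ^ d := by
        rw [inv_eq_one_div, div_le_div_iff₀ ht0 hLd, one_mul]
        refine hlow'.trans ?_
        rw [mul_comm]
        exact mul_le_mul_of_nonneg_left ((hpow m₁ (by omega)).trans hlogt) hn0.le
      have e4 : (Real.sqrt t)⁻¹ * rr d 0 ≤ ε / 2 := by
        have u1 : 2 * rr d 0 / ε ≤ Real.sqrt t := by
          refine Real.le_sqrt_of_sq_le ?_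
          refine le_trans ?_ htT
          rw [hT]
          linarith
        have u2 : 0 < Real.sqrt t := Real.sqrt_pos.2 ht0
        rw [inv_mul_le_iff₀ u2]
        rw [div_le_iff₀ hε] at u1
        linarith
      have e5 : 0 < (Real.sqrt t)⁻¹ := inv_pos.2 (Real.sqrt_pos.2 ht0)
      calc Y * rr d 0 ≤ t⁻¹ * (Real.sqrt t)⁻¹ * rr d 0 :=
            mul_le_mul_of_nonneg_right e2 (by linarith)
        _ = t⁻¹ * ((Real.sqrt t)⁻¹ * rr d 0) := by ring
        _ ≤ n / (L : ℝ) ^ d * (ε / 2) := mul_le_mul e3 e4 (by positivity) (by positivity)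
        _ = _ := by ring
    have h3 : |P - (n / (L : ℝ) ^ d + Q * S)| ≤ |P - n / (L : ℝ) ^ d| + Q * S := by
      have e1 : P - (n / (L : ℝ) ^ d + Q * S) = (P - n / (L : ℝ) ^ d) - Q * S := by ring
      rw [e1]
      refine (abs_sub _ _).trans ?_
      rw [abs_of_nonneg (show 0 ≤ Q * S by positivity)]
    have h4 : 0 ≤ ε * Y := by positivity
    have h5 : ε * (n / (L : ℝ) ^ d + Y) = (ε / 2 * (n / (L : ℝ) ^ d) +
      ε / 2 * (n / (L : ℝ) ^ d)) + ε * Y := by ring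
    rw [h5]
    linarith

end Pool.Agent.H961.T3
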