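import Pool.Agent.H961.T3.Stm5
import Pool.Agent.H961.T3.Mom
import Pool.Agent.H961.T3.Test
import Pool.Agent.H961.T3.Meso
import Pool.Agent.H961.T3.Pt

/-!
# Project MS: the moments at scale `n`, all `d ≥ 2`
-/

set_option autoImplicit false
set_option linter.unusedSectionVars false
set_option linter.unusedVariables false

namespace Pool.Agent.H961.T3

open Finset Equiv Matrix Q292.LC Pool.Agent.H961.T2 Filter Topology
open Pool.Agent.Y998.ST (stirExp nnRate cycleLen stirLaw nn_nonneg exp_mono exp_sum exp_const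
  law_nonneg)
open Pool.Agent.Y998.CN (law_sum)
open Pool.Agent.Q297.LC (stir_smul card_cyc)

/-- the moments at scale `n` -/
theorem moments2 (hSTP : S_STP) (d : ℕ) (hd : 2 ≤ d) : ∃ m : ℕ, 1 ≤ m ∧
    ∀ (J M : ℕ) (η X : ℝ), 0 < η → ∃ T : ℝ, 3 ≤ T ∧ ∀ (L : ℕ) [NeZero L] (t n : ℝ), 3 ≤ L →
    T ≤ t → (Real.log L) ^ m ≤ t → t ≤ (L : ℝ) ^ d →
    (Real.log L) ^ m * (1 + (L : ℝ) ^ d / t) ≤ n →
    (Real.log L) ^ m * n ≤ (L : ℝ) ^ d → X ≤ n ∧ X ≤ Real.log L ∧
    ∀ ls : List ℕ, ls.length ≤ J → (∀ l ∈ ls, 1 ≤ l ∧ l ≤ M) →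
      |stirExp (nnRate d L) t (fun g => ph (ι := Finset (Fin d → ZMod L)) card
        (ls.map fun l : ℕ => Real.exp (-((l : ℝ) / n))) (cycs g)) -
        (ls.map fun l : ℕ => n / (l : ℝ)).prod| ≤ η * n ^ ls.length := by
  obtain ⟨m, hm⟩ := hSTP d hd
  refine ⟨m + 1, by omega, fun J M η X hη => ?_⟩
  obtain ⟨e, he⟩ : ∃ e : ℝ, e = min (η / 4) 1 := ⟨_, rfl⟩
  have he0 : 0 < e := by rw [he]; exact lt_min (by linarith) one_pos
  have he1 : e ≤ 1 := by rw [he]; exact min_le_right _ _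
  have he2 : e ≤ η / 4 := by rw [he]; exact min_le_left _ _
  obtain ⟨X₁, hX₁, hpn⟩ := pow_near J M e (Nat.cast_nonneg M) he0
  choose Tk hTk1 hTk using fun k => hm k e he0
  obtain ⟨T₁, hT₁⟩ : ∃ T₁ : ℝ, T₁ = ∑ k ∈ range (J + 1), Tk k := ⟨_, rfl⟩
  have hkT : ∀ k ≤ J, Tk k ≤ T₁ := by
    intro k hk
    rw [hT₁]
    exact single_le_sum (f := Tk) (fun i _ => by linarith [hTk1 i]) (mem_range.2 (by omega))
  have hT₁1 : 1 ≤ T₁ := (hTk1 0).trans (hkT 0 (Nat.zero_le _))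
  obtain ⟨Y, hY⟩ : ∃ Y : ℝ, Y = |X| + X₁ + M + 2 := ⟨_, rfl⟩
  have hMr : (0 : ℝ) ≤ M := Nat.cast_nonneg M
  have hXa := abs_nonneg X
  have hXX := le_abs_self X
  have hd0 : (0 : ℝ) < d := by
    have : 0 < d := by omega
    exact_mod_cast this
  obtain ⟨T, hT⟩ : ∃ T : ℝ, T = (M + 1) * T₁ + Real.exp (d * Y) + 3 := ⟨_, rfl⟩
  have hexp := Real.exp_pos (d * Y)
  have hMT : 0 ≤ (M + 1) * T₁ := by positivity
  refine ⟨T, by rw [hT]; linarith, ?_⟩
  intro L _ t n hL htT hlogt htL hn2 hn3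
  have hL0 : (0 : ℝ) < L := by exact_mod_cast Nat.pos_of_ne_zero (NeZero.ne L)
  have hLd : (0 : ℝ) < (L : ℝ) ^ d := pow_pos hL0 d
  have ht0 : 0 < t := by
    have : 0 < T := by rw [hT]; linarith
    linarith
  -- the logarithm is large
  have hlogL : Y ≤ Real.log L := by
    have h1 : Real.exp (d * Y) ≤ (L : ℝ) ^ d := by
      refine le_trans ?_ htL
      refine le_trans ?_ htT
      rw [hT]
      linarith
    have h2 := Real.log_le_log (Real.exp_pos _) h1
    rw [Real.log_exp, Real.log_pow] at h2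
    exact le_of_mul_le_mul_left h2 hd0
  have hlog1 : 1 ≤ Real.log L := by linarith
  have hlog0 : 0 ≤ Real.log L := by linarith
  have hlm : 1 ≤ (Real.log L) ^ m := one_le_pow₀ hlog1
  have hLt : 0 ≤ (L : ℝ) ^ d / t := by positivity
  have hnY : Y ≤ n := by
    refine le_trans ?_ hn2
    rw [pow_succ (Real.log L) m]
    have u1 : 0 ≤ (Real.log L) ^ m * Real.log L := mul_nonneg (by linarith) hlog0
    have u2 : Real.log L ≤ (Real.log L) ^ m * Real.log L := le_mul_of_one_le_left hlog0 hlm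
    have u3 := mul_nonneg u1 hLt
    linarith
  have hn0 : 0 < n := by linarith
  refine ⟨by linarith, by linarith, fun ls hls hlsM => ?_⟩
  obtain ⟨p1, p2, p3, p4⟩ := prod_bd n M hn0 ls hlsM
  have hlen : (ls.map fun l : ℕ => Real.exp (-((l : ℝ) / n))).length = ls.length :=
    List.length_map _
  have hTls := hkT ls.length hls
  have hcond : ∀ v ∈ (ls.map fun l : ℕ => Real.exp (-((l : ℝ) / n))), 0 ≤ v ∧ v < 1 ∧
      (Real.log L) ^ m * (1 + (L : ℝ) ^ d / t) ≤ 1 / (1 - v) ∧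
      (Real.log L) ^ m ≤ (L : ℝ) ^ d * (1 - v) := by
    intro v hv
    obtain ⟨l, hl, rfl⟩ := List.mem_map.1 hv
    obtain ⟨hl1, hlM⟩ := hlsM l hl
    have hl0 : (0 : ℝ) < l := by exact_mod_cast hl1
    have hlM' : (l : ℝ) ≤ M := by exact_mod_cast hlM
    have hM0 : (0 : ℝ) < M := hl0.trans_le hlM'
    have hx : 0 < (l : ℝ) / n := div_pos hl0 hn0
    have q1 : Real.exp (-((l : ℝ) / n)) < 1 := Real.exp_lt_one_iff.2 (by linarith)
    obtain ⟨j1, -⟩ := inv_exp_bd ((l : ℝ) / n) hx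
    rw [one_div_div] at j1
    have j2 : n / M ≤ n / (l : ℝ) := div_le_div_of_nonneg_left hn0.le hl0 hlM'
    refine ⟨(Real.exp_pos _).le, q1, ?_, ?_⟩
    · refine le_trans ?_ (j2.trans j1)
      rw [le_div_iff₀ hM0]
      refine le_trans ?_ hn2
      have e1 : (M : ℝ) ≤ Real.log L := by linarith
      calc (Real.log L) ^ m * (1 + (L : ℝ) ^ d / t) * M =
            (Real.log L) ^ m * M * (1 + (L : ℝ) ^ d / t) := by ring
        _ ≤ (Real.log L) ^ (m + 1) * (1 + (L : ℝ) ^ d / t) := by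
            rw [pow_succ (Real.log L) m]
            refine mul_le_mul_of_nonneg_right ?_ (by linarith)
            exact mul_le_mul_of_nonneg_left e1 (by linarith)
    · have e1 : 1 / (2 * n) ≤ 1 - Real.exp (-((l : ℝ) / n)) := by
        have l1 : (1 : ℝ) ≤ l := by exact_mod_cast hl1
        have e2 : Real.exp (-((l : ℝ) / n)) ≤ Real.exp (-(1 / n)) := by
          refine Real.exp_le_exp.2 ?_
          have := div_le_div_of_nonneg_right l1 hn0.le
          linarith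
        have e3 := (inv_exp_bd (1 / n) (by positivity)).2
        rw [one_div_one_div] at e3
        have e4 : n * (1 + 1 / n) ≤ 2 * n := by
          have : n * (1 + 1 / n) = n + 1 := by field_simp
          rw [this]
          linarith
        have e5 : 0 < 1 - Real.exp (-(1 / n)) := by
          have : Real.exp (-(1 / n)) < 1 := Real.exp_lt_one_iff.2 (by
            have : 0 < 1 / n := by positivity
            linarith)
          linarith
        have e6 : 1 / (1 - Real.exp (-(1 / n))) ≤ 2 * n := e3.trans e4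
        have e7 : 1 / (2 * n) ≤ 1 - Real.exp (-(1 / n)) := by
          rw [div_le_iff₀ e5] at e6
          rw [div_le_iff₀ (by positivity)]
          linarith
        linarith
      have e2 : (Real.log L) ^ m * (2 * n) ≤ (L : ℝ) ^ d := by
        refine le_trans ?_ hn3
        rw [pow_succ (Real.log L) m]
        have e3 : 2 ≤ Real.log L := by linarith
        have e4 : 0 ≤ (Real.log L) ^ m * n := by positivity
        nlinarith
      calc (Real.log L) ^ m = (Real.log L) ^ m * (2 * n) * (1 / (2 * n)) := by field_simp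
        _ ≤ (L : ℝ) ^ d * (1 / (2 * n)) := mul_le_mul_of_nonneg_right e2 (by positivity)
        _ ≤ (L : ℝ) ^ d * (1 - Real.exp (-((l : ℝ) / n))) := mul_le_mul_of_nonneg_left e1 hLd.le
  have hlogm : (Real.log L) ^ m ≤ t := by
    refine le_trans ?_ hlogt
    rw [pow_succ (Real.log L) m]
    nlinarith
  have hTt : Tk ls.length ≤ t := by
    refine hTls.trans (le_trans ?_ htT)
    rw [hT]
    nlinarith
  have h := hTk ls.length L t (ls.map fun l : ℕ => Real.exp (-((l : ℝ) / n))) hlen hL hTt hlogm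
    htL hcond
  have hX₁n : X₁ ≤ n := by linarith
  have p5 : ((ls.map fun l : ℕ => Real.exp (-((l : ℝ) / n))).map fun v => 1 / (1 - v)).prod ≤
      (1 + e) * (ls.map fun l : ℕ => n / (l : ℝ)).prod :=
    p4.trans (mul_le_mul_of_nonneg_right (hpn n hX₁n _ hls) p1)
  obtain ⟨P, hP⟩ : ∃ P : ℝ, P = (ls.map fun l : ℕ => n / (l : ℝ)).prod := ⟨_, rfl⟩
  obtain ⟨Q, hQ⟩ : ∃ Q : ℝ, Q =
    ((ls.map fun l : ℕ => Real.exp (-((l : ℝ) / n))).map fun v => 1 / (1 - v)).prod := ⟨_, rfl⟩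
  rw [← hQ] at h p5 p3
  rw [← hP] at p1 p2 p3 p5 ⊢
  have h1 : |Q - P| ≤ e * P := by
    rw [abs_of_nonneg (by linarith)]
    linarith
  have h2 : e * Q ≤ e * (2 * P) := mul_le_mul_of_nonneg_left (by nlinarith) he0.le
  have h3 : e * P ≤ η / 4 * n ^ ls.length :=
    mul_le_mul he2 p2 p1 (by linarith)
  have h4 := abs_sub_le (stirExp (nnRate d L) t (fun g => ph (ι := Finset (Fin d → ZMod L)) card
    (ls.map fun l : ℕ => Real.exp (-((l : ℝ) / n))) (cycs g))) Q P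
  have h5 : 0 ≤ η * n ^ ls.length := by positivity
  linarith

/-- MESP -/
theorem mesp (hSTP : S_STP) (hTEST : S_TEST) : S_MESP := by
  intro d hd
  obtain ⟨m, hm1, hm⟩ := moments2 hSTP d hd
  refine ⟨m, hm1, ?_⟩
  rintro h hc h0 ⟨α, β, hα, hαβ, hsupp⟩ ε hε
  obtain ⟨η, J, M, hη, H⟩ := hTEST (fun u => 1 - Real.exp (-h u))
    (continuous_const.sub (Real.continuous_exp.comp hc.neg))
    (fun u => by
      have h1 := Real.exp_pos (-h u)
      have h2 : Real.exp (-h u) ≤ 1 := Real.exp_le_one_iff.2 (by linarith [h0 u])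
      constructor <;> linarith)
    ⟨α, β, hα, hαβ, fun u hu => by simp [hsupp u hu]⟩ ε hε
  obtain ⟨T, hT3, hT⟩ := hm J M η 1 hη
  refine ⟨T, hT3, ?_⟩
  intro L _ t n hL htT hlog htL h2 h3
  obtain ⟨hX, -, hmom⟩ := hT L t n hL htT hlog htL h2 h3
  have ht0 : 0 ≤ t := by linarith
  have key := H (Perm (Fin d → ZMod L)) (Finset (Fin d → ZMod L)) (stirLaw (nnRate d L) t)
    (fun g => cycs g) card n (by linarith) (law_nonneg (fun x y => nn_nonneg x y) ht0)
    (law_sum (nnRate d L) t) (by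
      intro ls hl1 hl2
      have h4 := hmom ls hl1 hl2
      have h5 : (do let a ← ls; pure (a : ℝ) : List ℝ) = ls.map (fun l : ℕ => (l : ℝ)) :=
        Testh.coe_list ls
      rw [h5]
      simp only [List.map_map, Function.comp_def]
      exact h4)
  have h6 : stirExp (nnRate d L) t (fun g => Real.exp (-kS h n g)) =
      ∑ g, stirLaw (nnRate d L) t g * ∏ C ∈ cycs g,
        (1 - (1 - Real.exp (-h ((C.card : ℝ) / n)))) := by
    unfold stirExp
    exact sum_congr rfl fun g _ => by rw [kS_prod]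
  rw [h6]
  exact key

/-- the one-point law for mesoscopic scales, `d ≥ 2` -/
theorem point_mid2 (hSTP : S_STP) (hKAR : S_KAR) (hCYC : S_CYC) (d : ℕ) (hd : 2 ≤ d) :
    ∃ m : ℕ, 1 ≤ m ∧ ∀ ε : ℝ, 0 < ε → ∃ T : ℝ, 3 ≤ T ∧ ∀ (L : ℕ) [NeZero L] (t n : ℝ), 3 ≤ L →
    T ≤ t → (Real.log L) ^ m ≤ t → t ≤ (L : ℝ) ^ d →
    (Real.log L) ^ m * (1 + (L : ℝ) ^ d / t) ≤ n →
    (Real.log L) ^ m * n ≤ (L : ℝ) ^ d → ∀ x : Fin d → ZMod L,
    |stirExp (nnRate d L) t (fun g => if ((cyc g x).card : ℝ) ≤ n then 1 else 0) -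
      n / (L : ℝ) ^ d| ≤ ε * (n / (L : ℝ) ^ d) := by
  obtain ⟨m, hm1, hm⟩ := moments2 hSTP d hd
  refine ⟨m, hm1, fun ε hε => ?_⟩
  obtain ⟨η, M, hη, hK⟩ := hKAR ε hε
  obtain ⟨T, hT3, hT⟩ := hm 1 M η 1 hη
  refine ⟨T, hT3, ?_⟩
  intro L _ t n hL htT hlogt htL h2 h3 x
  obtain ⟨hX, -, hmom⟩ := hT L t n hL htT hlogt htL h2 h3
  have hL0 : (0 : ℝ) < L := by exact_mod_cast Nat.pos_of_ne_zero (NeZero.ne L)
  have hLd : (0 : ℝ) < (L : ℝ) ^ d := pow_pos hL0 d
  have ht0 : 0 ≤ t := by linarith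
  have hn0 : 0 < n := by linarith
  have hkar := hK n 1 0 hn0 zero_le_one le_rfl
    (Icc 1 (L ^ d)) (fun ℓ => (L : ℝ) ^ d *
      stirExp (nnRate d L) t (fun g => if cycleLen g x = ℓ then 1 else 0)) (fun ℓ => by
        have h2 := exp_mono (J := nnRate d L) (fun x y => nn_nonneg x y) (t := t) ht0
          (F := fun _ => (0 : ℝ)) (G := fun g => if cycleLen g x = ℓ then 1 else 0)
          (fun g => by split_ifs <;> norm_num)
        rw [exp_const] at h2
        positivity) (by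
      intro l hl1 hlM
      have h4 := hmom [l] (by simp) (by
        intro l' hl'
        rw [List.mem_singleton] at hl'
        rw [hl']
        exact ⟨hl1, hlM⟩)
      simp only [List.map_cons, List.map_nil, List.prod_cons, List.prod_nil, mul_one,
        List.length_cons, List.length_nil, zero_add, pow_one] at h4
      rw [exp_ph_one hCYC t _ x] at h4
      have h5 : ∀ ℓ : ℕ, Real.exp (-((l : ℝ) / n)) ^ ℓ = Real.exp (-(l * ℓ / n)) := fun ℓ => by
        rw [← Real.exp_nat_mul]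
        congr 1
        ring
      simp only [h5] at h4
      simp only [one_mul, add_zero]
      exact h4)
  rw [exp_le_one, one_mul, add_zero] at hkar
  obtain ⟨X, hX'⟩ : ∃ X : ℝ, X = stirExp (nnRate d L) t
    (fun g => if ((cyc g x).card : ℝ) ≤ n then 1 else 0) := ⟨_, rfl⟩
  rw [← hX'] at hkar ⊢
  have h6 : (L : ℝ) ^ d * X - n = (L : ℝ) ^ d * (X - n / (L : ℝ) ^ d) := by
    field_simp
  rw [h6, abs_mul, abs_of_pos hLd] at hkar
  have h7 : |X - n / (L : ℝ) ^ d| ≤ (ε * n) / (L : ℝ) ^ d := by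
    rw [le_div_iff₀ hLd]
    linarith
  refine h7.trans (le_of_eq ?_)
  ring

/-- the one-point law for all scales `n ≥ (log L)^m (1 + L^d / t)`, `d ≥ 2` -/
theorem point_all2 (hSTP : S_STP) (hKAR : S_KAR) (hCYC : S_CYC) (hGAPO : S_GAPO) (d : ℕ)
    (hd : 2 ≤ d) : ∃ m : ℕ, 1 ≤ m ∧ ∀ ε : ℝ, 0 < ε → ∃ T : ℝ, 3 ≤ T ∧
    ∀ (L : ℕ) [NeZero L] (t n : ℝ), 3 ≤ L → T ≤ t → (Real.log L) ^ m ≤ t → t ≤ (L : ℝ) ^ d →
    (Real.log L) ^ m * (1 + (L : ℝ) ^ d / t) ≤ n → n ≤ (L : ℝ) ^ d →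
    ((Real.log L) ^ m * n ≤ (L : ℝ) ^ d ∨ t ^ 4 ≤ (L : ℝ) ^ 7) → ∀ x : Fin d → ZMod L,
    |stirExp (nnRate d L) t (fun g => if ((cyc g x).card : ℝ) ≤ n then 1 else 0) -
      n / (L : ℝ) ^ d| ≤ ε * (n / (L : ℝ) ^ d) := by
  obtain ⟨m₁, hm₁, hmid⟩ := point_mid2 hSTP hKAR hCYC d hd
  obtain ⟨m₂, hm₂, hgap⟩ := hGAPO d hd m₁
  refine ⟨m₁ + m₂, by omega, fun ε hε => ?_⟩
  obtain ⟨T₁, hT₁, hmid⟩ := hmid ε hε
  obtain ⟨T₂, hT₂, hgap⟩ := hgap ε hε
  refine ⟨max T₁ T₂, hT₁.trans (le_max_left _ _), ?_⟩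
  intro L _ t n hL htT hlogt htL hn2 hnL hcase x
  have hL0 : (0 : ℝ) < L := by exact_mod_cast Nat.pos_of_ne_zero (NeZero.ne L)
  have hL3 : (3 : ℝ) ≤ L := by exact_mod_cast hL
  have hT1t : T₁ ≤ t := (le_max_left _ _).trans htT
  have hT2t : T₂ ≤ t := (le_max_right _ _).trans htT
  have ht0 : 0 < t := by linarith
  have hlog1 : 1 ≤ Real.log L := by
    have h2 : Real.exp 1 ≤ L := by
      have := Real.exp_one_lt_d9
      linarith
    have := Real.log_le_log (Real.exp_pos 1) h2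
    rwa [Real.log_exp] at this
  have hpow : ∀ k : ℕ, k ≤ m₁ + m₂ → (Real.log L) ^ k ≤ (Real.log L) ^ (m₁ + m₂) :=
    fun k hk => pow_le_pow_right₀ hlog1 hk
  have hn0 : 0 < n := by
    have : 0 < (Real.log L) ^ (m₁ + m₂) * (1 + (L : ℝ) ^ d / t) := by positivity
    linarith
  have e2 : (Real.log L) ^ m₁ * (1 + (L : ℝ) ^ d / t) ≤ n := by
    refine le_trans ?_ hn2
    exact mul_le_mul_of_nonneg_right (hpow m₁ (by omega)) (by positivity)
  by_cases hlow : (Real.log L) ^ m₁ * n ≤ (L : ℝ) ^ d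
  · exact hmid L t n hL hT1t ((hpow m₁ (by omega)).trans hlogt) htL e2 hlow x
  · have h47 : t ^ 4 ≤ (L : ℝ) ^ 7 := by
      rcases hcase with h3 | h3
      · exfalso
        apply hlow
        refine le_trans ?_ h3
        exact mul_le_mul_of_nonneg_right (hpow m₁ (by omega)) hn0.le
      · exact h3
    exact hgap L t n hL hT2t ((hpow m₂ (by omega)).trans hlogt) h47 hn0 (not_le.1 hlow).le hnL x

end Pool.Agent.H961.T3
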