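import Pool.Agent.H961.T3.Stm6

/-!
# Project MS: the central limit theorem for the number of long cycles (helper627)
-/

set_option autoImplicit false

namespace Pool.Agent.H961.T3.Clth

open Finset Equiv Matrix Q292.LC Pool.Agent.H961.T2 Pool.Agent.H961.T3
open Pool.Agent.Y998.ST (stirExp stirLaw nnRate cycleLen law_nonneg nn_nonneg)
open Pool.Agent.Y998.CN (law_sum)

theorem prod_diff {ι : Type} (s : Finset ι) (a b : ι → ℂ) (ha : ∀ i ∈ s, ‖a i‖ ≤ 1)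
    (hb : ∀ i ∈ s, ‖b i‖ ≤ 1) : ‖∏ i ∈ s, a i - ∏ i ∈ s, b i‖ ≤ ∑ i ∈ s, ‖a i - b i‖ := by
  classical
  induction s using Finset.induction_on with
  | empty => simp
  | insert i s hi ih =>
    rw [prod_insert hi, prod_insert hi, sum_insert hi]
    have h1 : a i * ∏ x ∈ s, a x - b i * ∏ x ∈ s, b x =
        (a i - b i) * ∏ x ∈ s, a x + b i * (∏ x ∈ s, a x - ∏ x ∈ s, b x) := by ring
    rw [h1]
    have h2 : ‖∏ x ∈ s, a x‖ ≤ 1 := by
      rw [norm_prod]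
      exact prod_le_one (fun i _ => norm_nonneg _) fun i hi' => ha i (mem_insert_of_mem hi')
    refine (norm_add_le _ _).trans (add_le_add ?_ ?_)
    · rw [norm_mul]
      exact mul_le_of_le_one_right (norm_nonneg _) h2
    · rw [norm_mul]
      exact (mul_le_of_le_one_left (norm_nonneg _) (hb i (mem_insert_self i s))).trans
        (ih (fun i hi' => ha i (mem_insert_of_mem hi')) fun i hi' => hb i (mem_insert_of_mem hi'))

theorem conv_norm {z : ℂ} (hz : ‖z‖ ≤ 1) {x : ℝ} (h0 : 0 ≤ x) (h1 : x ≤ 1) :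
    ‖1 + (z - 1) * (x : ℂ)‖ ≤ 1 := by
  have e : 1 + (z - 1) * (x : ℂ) = ((1 - x : ℝ) : ℂ) + (x : ℂ) * z := by
    push_cast
    ring
  rw [e]
  refine (norm_add_le _ _).trans ?_
  rw [norm_mul, Complex.norm_real, Complex.norm_real, Real.norm_eq_abs, Real.norm_eq_abs,
    abs_of_nonneg h0, abs_of_nonneg (by linarith)]
  nlinarith [norm_nonneg z]

theorem one_sub_exp {x : ℝ} (h0 : 0 < x) (h1 : x ≤ 1) :
    x / 2 ≤ 1 - Real.exp (-x) ∧ 1 - Real.exp (-x) ≤ x := by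
  have h2 := Real.add_one_le_exp x
  have h3 := Real.add_one_le_exp (-x)
  have h4 : Real.exp x * Real.exp (-x) = 1 := by
    rw [← Real.exp_add, add_neg_cancel, Real.exp_zero]
  have h5 := Real.exp_pos (-x)
  refine ⟨?_, by linarith⟩
  have h6 : (x + 1) * Real.exp (-x) ≤ 1 := by
    calc (x + 1) * Real.exp (-x) ≤ Real.exp x * Real.exp (-x) :=
          mul_le_mul_of_nonneg_right h2 h5.le
      _ = 1 := h4
  nlinarith

theorem expI_sub (x : ℝ) : ‖Complex.exp ((x : ℝ) * Complex.I) - 1‖ ≤ |x| := by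
  have := Real.norm_exp_I_mul_ofReal_sub_one_le (x := x)
  rw [mul_comm] at this
  rwa [Real.norm_eq_abs] at this

/-- the value of `Λ` -/
theorem lam_bd {n n₂ : ℝ} (hn : 1 ≤ n) (hn2 : n ≤ n₂) :
    |Real.log (Real.exp (-(1 / n₂)) * (1 - Real.exp (-(1 / n))) /
      (Real.exp (-(1 / n)) * (1 - Real.exp (-(1 / n₂))))) - Real.log (n₂ / n)| ≤ 2 := by
  have hn0 : 0 < n := by linarith
  have hn20 : 0 < n₂ := by linarith
  have hx : 0 < 1 / n := by positivity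
  have hx1 : 1 / n ≤ 1 := by
    rw [div_le_one hn0]
    exact hn
  have hx2 : 0 < 1 / n₂ := by positivity
  have hx21 : 1 / n₂ ≤ 1 := by
    rw [div_le_one hn20]
    linarith
  obtain ⟨a1, a2⟩ := one_sub_exp hx hx1
  obtain ⟨b1, b2⟩ := one_sub_exp hx2 hx21
  have hA : 0 < 1 - Real.exp (-(1 / n)) := by linarith
  have hB : 0 < 1 - Real.exp (-(1 / n₂)) := by linarith
  rw [Real.log_div (mul_pos (Real.exp_pos _) hA).ne' (mul_pos (Real.exp_pos _) hB).ne',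
    Real.log_mul (Real.exp_pos _).ne' hA.ne', Real.log_mul (Real.exp_pos _).ne' hB.ne',
    Real.log_exp, Real.log_exp, Real.log_div hn20.ne' hn0.ne']
  have c1 : Real.log (1 - Real.exp (-(1 / n))) ≤ -Real.log n := by
    rw [← Real.log_inv, ← one_div]
    exact Real.log_le_log hA a2
  have c2 : -Real.log n - Real.log 2 ≤ Real.log (1 - Real.exp (-(1 / n))) := by
    have : -Real.log n - Real.log 2 = Real.log (1 / n / 2) := by
      rw [Real.log_div hx.ne' two_ne_zero, one_div, Real.log_inv]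
    rw [this]
    exact Real.log_le_log (by positivity) a1
  have c3 : Real.log (1 - Real.exp (-(1 / n₂))) ≤ -Real.log n₂ := by
    rw [← Real.log_inv, ← one_div]
    exact Real.log_le_log hB b2
  have c4 : -Real.log n₂ - Real.log 2 ≤ Real.log (1 - Real.exp (-(1 / n₂))) := by
    have : -Real.log n₂ - Real.log 2 = Real.log (1 / n₂ / 2) := by
      rw [Real.log_div hx2.ne' two_ne_zero, one_div, Real.log_inv]
    rw [this]
    exact Real.log_le_log (by positivity) b1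
  have c5 : Real.log 2 ≤ 1 := by
    have := Real.log_le_sub_one_of_pos (show (0 : ℝ) < 2 by norm_num)
    linarith
  rw [abs_le]
  constructor <;> linarith

section comb

variable {V : Type} [Fintype V] [DecidableEq V]

open Classical in
theorem z_pow (n : ℝ) (g : Perm V) (z : ℂ) :
    z ^ nc n g = ∏ D ∈ cycs g, (1 + (z - 1) * ((if n < (D.card : ℝ) then 1 else 0 : ℝ) : ℂ)) := by
  unfold nc
  rw [← prod_filter_mul_prod_filter_not (cycs g) (fun D => n < (D.card : ℝ))]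
  have h1 : ∏ D ∈ (cycs g).filter (fun D => n < (D.card : ℝ)),
      (1 + (z - 1) * ((if n < (D.card : ℝ) then 1 else 0 : ℝ) : ℂ)) =
      ∏ D ∈ (cycs g).filter (fun D => n < (D.card : ℝ)), z := by
    refine prod_congr rfl fun D hD => ?_
    rw [if_pos (mem_filter.1 hD).2]
    push_cast
    ring
  have h2 : ∏ D ∈ (cycs g).filter (fun D => ¬ n < (D.card : ℝ)),
      (1 + (z - 1) * ((if n < (D.card : ℝ) then 1 else 0 : ℝ) : ℂ)) = 1 := by
    refine prod_eq_one fun D hD => ?_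
    rw [if_neg (mem_filter.1 hD).2]
    push_cast
    ring
  rw [h1, h2, mul_one, prod_const]

open Classical in
theorem nc_sum (n : ℝ) (g : Perm V) :
    (nc n g : ℝ) = ∑ D ∈ cycs g, (if n < (D.card : ℝ) then 1 else 0 : ℝ) := by
  unfold nc
  rw [sum_boole]

/-- the comparison for one permutation -/
theorem one_perm {n n₂ : ℝ} (hn : 0 < n) (hn2 : n ≤ n₂) (g : Perm V) {z : ℂ} (hz : ‖z‖ ≤ 1) :
    ‖z ^ nc n g - ∏ C ∈ cycs g, (1 + (z - 1) * (((Real.exp (-(1 / n₂)) : ℝ) : ℂ) ^ C.card -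
      ((Real.exp (-(1 / n)) : ℝ) : ℂ) ^ C.card))‖ ≤
    ‖z - 1‖ * ((∑ D ∈ cycs g, |Real.exp (-(D.card / n₂)) - Real.exp (-(D.card / n)) -
      (if n < (D.card : ℝ) ∧ (D.card : ℝ) ≤ n₂ then 1 else 0)|) + nc n₂ g) := by
  have hn20 : 0 < n₂ := by linarith
  have hf : ∀ C : Finset V, (((Real.exp (-(1 / n₂)) : ℝ) : ℂ) ^ C.card -
      ((Real.exp (-(1 / n)) : ℝ) : ℂ) ^ C.card) =
      ((Real.exp (-(C.card / n₂)) - Real.exp (-(C.card / n)) : ℝ) : ℂ) := by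
    intro C
    rw [← Complex.ofReal_pow, ← Complex.ofReal_pow, ← Real.exp_nat_mul, ← Real.exp_nat_mul,
      ← Complex.ofReal_sub]
    congr 3
    · ring
    · ring
  have hf0 : ∀ C : Finset V, 0 ≤ Real.exp (-(C.card / n₂)) - Real.exp (-(C.card / n)) := by
    intro C
    have : (C.card : ℝ) / n₂ ≤ C.card / n :=
      div_le_div_of_nonneg_left (Nat.cast_nonneg _) hn hn2
    have := Real.exp_le_exp.2 (neg_le_neg this)
    linarith
  have hf1 : ∀ C : Finset V, Real.exp (-(C.card / n₂)) - Real.exp (-(C.card / n)) ≤ 1 := by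
    intro C
    have h1 : Real.exp (-(C.card / n₂)) ≤ 1 := by
      rw [Real.exp_le_one_iff, neg_nonpos]
      positivity
    have h2 := Real.exp_pos (-((C.card : ℝ) / n))
    linarith
  have hp : ∏ C ∈ cycs g, (1 + (z - 1) * (((Real.exp (-(1 / n₂)) : ℝ) : ℂ) ^ C.card -
      ((Real.exp (-(1 / n)) : ℝ) : ℂ) ^ C.card)) = ∏ C ∈ cycs g, (1 + (z - 1) *
      ((Real.exp (-(C.card / n₂)) - Real.exp (-(C.card / n)) : ℝ) : ℂ)) :=
    prod_congr rfl fun C _ => by rw [hf C]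
  rw [z_pow, hp]
  refine (prod_diff _ _ _ (fun D _ => conv_norm hz (by split_ifs <;> norm_num)
    (by split_ifs <;> norm_num)) (fun D _ => conv_norm hz (hf0 D) (hf1 D))).trans ?_
  rw [nc_sum, ← sum_add_distrib, mul_sum]
  refine sum_le_sum fun D _ => ?_
  have h1 : (1 + (z - 1) * ((if n < (D.card : ℝ) then 1 else 0 : ℝ) : ℂ)) -
      (1 + (z - 1) * ((Real.exp (-(D.card / n₂)) - Real.exp (-(D.card / n)) : ℝ) : ℂ)) =
      (z - 1) * (((if n < (D.card : ℝ) then 1 else 0) -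
        (Real.exp (-(D.card / n₂)) - Real.exp (-(D.card / n))) : ℝ) : ℂ) := by
    push_cast
    ring
  rw [h1, norm_mul, Complex.norm_real, Real.norm_eq_abs]
  refine mul_le_mul_of_nonneg_left ?_ (norm_nonneg _)
  have h2 : (if n < (D.card : ℝ) then (1 : ℝ) else 0) =
      (if n < (D.card : ℝ) ∧ (D.card : ℝ) ≤ n₂ then 1 else 0) +
        (if n₂ < (D.card : ℝ) then 1 else 0) := by
    by_cases h3 : n₂ < (D.card : ℝ)
    · rw [if_pos h3, if_pos (lt_of_le_of_lt hn2 h3), if_neg (fun h => absurd h.2 (not_le.2 h3)),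
        zero_add]
    · rw [if_neg h3, add_zero]
      by_cases h4 : n < (D.card : ℝ)
      · rw [if_pos h4, if_pos ⟨h4, not_lt.1 h3⟩]
      · rw [if_neg h4, if_neg (fun h => h4 h.1)]
  rw [h2]
  have h3 : (0 : ℝ) ≤ if n₂ < (D.card : ℝ) then 1 else 0 := by split_ifs <;> norm_num
  have h4 := abs_add_le (-(Real.exp (-(D.card / n₂)) - Real.exp (-(D.card / n)) -
      (if n < (D.card : ℝ) ∧ (D.card : ℝ) ≤ n₂ then 1 else 0)))
      (if n₂ < (D.card : ℝ) then (1 : ℝ) else 0)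
  rw [abs_neg, abs_of_nonneg h3] at h4
  refine le_trans (le_of_eq ?_) h4
  congr 1
  ring

end comb

theorem er_ge (d L : ℕ) {t : ℝ} (ht : 0 < t) : 1 ≤ er d L t := by
  unfold er
  have h1 : 0 ≤ (L : ℝ) ^ 2 / t := by positivity
  have h2 : 0 ≤ (L : ℝ) ^ d * t ^ (-(d / 2 : ℝ)) := by positivity
  linarith

theorem le_sqrt_of {c e T : ℝ} (_ : 0 ≤ c) (he : 0 < e) (h : (c / e) ^ 2 ≤ T) :
    c ≤ e * Real.sqrt T := by
  have h1 : c / e ≤ Real.sqrt T := Real.le_sqrt_of_sq_le h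
  rw [div_le_iff₀ he] at h1
  linarith

/-- the characteristic function -/
theorem char_bd {V : Type} [Fintype V] [DecidableEq V] {P : Perm V → ℝ} (hP : ∀ g, 0 ≤ P g)
    {n n₂ lam C₂ C₃ R₁ η θ Lam : ℝ} (hn : 0 < n) (hn2 : n ≤ n₂) (hlam : 0 < lam)
    (hS : ∑ g, P g * (∑ D ∈ cycs g, |Real.exp (-(D.card / n₂)) - Real.exp (-(D.card / n)) -
      (if n < (D.card : ℝ) ∧ (D.card : ℝ) ≤ n₂ then 1 else 0)|) ≤ C₂)
    (hC : ∑ g, P g * (nc n₂ g : ℝ) ≤ C₃) (hθ : |θ| ≤ R₁)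
    (hR : R₁ * (C₂ + C₃) ≤ η / 4 * Real.sqrt lam)
    (hG : ‖∑ g : Perm V, (P g : ℂ) *
      ∏ C ∈ cycs g, (1 + (Complex.exp ((θ / Real.sqrt lam : ℝ) * Complex.I) - 1) *
        (((Real.exp (-(1 / n₂)) : ℝ) : ℂ) ^ C.card - ((Real.exp (-(1 / n)) : ℝ) : ℂ) ^ C.card)) -
      Complex.exp ((Complex.exp ((θ / Real.sqrt lam : ℝ) * Complex.I) - 1) * Lam)‖ ≤ η / 4)
    (hcalc : ‖Complex.exp ((Complex.exp ((θ / Real.sqrt lam : ℝ) * Complex.I) - 1) * Lam) *
      Complex.exp (-((θ * Real.sqrt lam : ℝ) : ℂ) * Complex.I) -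
      Complex.exp (-(θ : ℂ) ^ 2 / 2)‖ ≤ η / 2) :
    ‖∑ g, (P g : ℂ) * Complex.exp (θ * (((nc n g : ℝ) - lam) / Real.sqrt lam : ℝ) * Complex.I) -
      Complex.exp (-(θ : ℂ) ^ 2 / 2)‖ ≤ η := by
  have hsq : 0 < Real.sqrt lam := Real.sqrt_pos.2 hlam
  obtain ⟨z, hz⟩ : ∃ z : ℂ, z = Complex.exp ((θ / Real.sqrt lam : ℝ) * Complex.I) := ⟨_, rfl⟩
  rw [← hz] at hG hcalc
  have hz1 : ‖z‖ ≤ 1 := by
    rw [hz, Complex.norm_exp_ofReal_mul_I]
  have hz2 : ‖z - 1‖ ≤ R₁ / Real.sqrt lam := by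
    rw [hz]
    refine (expI_sub _).trans ?_
    rw [abs_div, abs_of_pos hsq]
    exact div_le_div_of_nonneg_right hθ hsq.le
  have hA : ‖∑ g, (P g : ℂ) * z ^ nc n g - ∑ g : Perm V, (P g : ℂ) *
      ∏ C ∈ cycs g, (1 + (z - 1) * (((Real.exp (-(1 / n₂)) : ℝ) : ℂ) ^ C.card -
        ((Real.exp (-(1 / n)) : ℝ) : ℂ) ^ C.card))‖ ≤ η / 4 := by
    rw [← sum_sub_distrib]
    refine (norm_sum_le _ _).trans ?_
    have h1 : ∀ g ∈ (univ : Finset (Perm V)), ‖(P g : ℂ) * z ^ nc n g - (P g : ℂ) *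
        ∏ C ∈ cycs g, (1 + (z - 1) * (((Real.exp (-(1 / n₂)) : ℝ) : ℂ) ^ C.card -
        ((Real.exp (-(1 / n)) : ℝ) : ℂ) ^ C.card))‖ ≤ ‖z - 1‖ * (P g * (∑ D ∈ cycs g,
          |Real.exp (-(D.card / n₂)) - Real.exp (-(D.card / n)) -
          (if n < (D.card : ℝ) ∧ (D.card : ℝ) ≤ n₂ then 1 else 0)|) + P g * nc n₂ g) := by
      intro g _
      rw [← mul_sub, norm_mul, Complex.norm_real, Real.norm_eq_abs, abs_of_nonneg (hP g)]
      have h2 := mul_le_mul_of_nonneg_left (one_perm hn hn2 g hz1) (hP g)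
      refine h2.trans (le_of_eq ?_)
      ring
    refine (sum_le_sum h1).trans ?_
    rw [← mul_sum, sum_add_distrib]
    have h3 : 0 ≤ C₂ + C₃ := by
      have a1 : 0 ≤ ∑ g, P g * (∑ D ∈ cycs g, |Real.exp (-(D.card / n₂)) -
          Real.exp (-(D.card / n)) -
          (if n < (D.card : ℝ) ∧ (D.card : ℝ) ≤ n₂ then 1 else 0)|) :=
        sum_nonneg fun g _ => mul_nonneg (hP g) (sum_nonneg fun _ _ => abs_nonneg _)
      have a2 : 0 ≤ ∑ g, P g * (nc n₂ g : ℝ) :=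
        sum_nonneg fun g _ => mul_nonneg (hP g) (Nat.cast_nonneg _)
      linarith
    calc _ ≤ R₁ / Real.sqrt lam * (C₂ + C₃) :=
          mul_le_mul hz2 (add_le_add hS hC) (add_nonneg
            (sum_nonneg fun g _ => mul_nonneg (hP g) (sum_nonneg fun _ _ => abs_nonneg _))
            (sum_nonneg fun g _ => mul_nonneg (hP g) (Nat.cast_nonneg _)))
            ((norm_nonneg _).trans hz2)
      _ ≤ η / 4 := by
          rw [div_mul_eq_mul_div, div_le_iff₀ hsq]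
          exact hR
  obtain ⟨u, hu⟩ : ∃ u : ℂ, u = Complex.exp (-((θ * Real.sqrt lam : ℝ) : ℂ) * Complex.I) :=
    ⟨_, rfl⟩
  have hu1 : ‖u‖ = 1 := by
    rw [hu, ← Complex.ofReal_neg, Complex.norm_exp_ofReal_mul_I]
  have hX : ∑ g, (P g : ℂ) * Complex.exp (θ * (((nc n g : ℝ) - lam) / Real.sqrt lam : ℝ) *
      Complex.I) = (∑ g, (P g : ℂ) * z ^ nc n g) * u := by
    rw [sum_mul]
    refine sum_congr rfl fun g _ => ?_
    rw [mul_assoc (P g : ℂ)]
    congr 1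
    rw [hz, hu, ← Complex.exp_nat_mul, ← Complex.exp_add]
    congr 1
    have h1 : ((nc n g : ℝ) - lam) / Real.sqrt lam = nc n g / Real.sqrt lam - Real.sqrt lam := by
      rw [sub_div]
      congr 1
      rw [div_eq_iff hsq.ne', Real.mul_self_sqrt hlam.le]
    rw [h1]
    push_cast
    ring
  rw [hX]
  rw [← hu] at hcalc
  have h4 : (∑ g, (P g : ℂ) * z ^ nc n g) * u - Complex.exp (-(θ : ℂ) ^ 2 / 2) =
      (∑ g, (P g : ℂ) * z ^ nc n g - ∑ g : Perm V, (P g : ℂ) *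
      ∏ C ∈ cycs g, (1 + (z - 1) * (((Real.exp (-(1 / n₂)) : ℝ) : ℂ) ^ C.card -
        ((Real.exp (-(1 / n)) : ℝ) : ℂ) ^ C.card))) * u +
      (∑ g : Perm V, (P g : ℂ) *
      ∏ C ∈ cycs g, (1 + (z - 1) * (((Real.exp (-(1 / n₂)) : ℝ) : ℂ) ^ C.card -
        ((Real.exp (-(1 / n)) : ℝ) : ℂ) ^ C.card)) - Complex.exp ((z - 1) * Lam)) * u +
      (Complex.exp ((z - 1) * Lam) * u - Complex.exp (-(θ : ℂ) ^ 2 / 2)) := by
    ring
  rw [h4]
  refine (norm_add_le _ _).trans ?_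
  refine (add_le_add (norm_add_le _ _) le_rfl).trans ?_
  rw [norm_mul, norm_mul, hu1, mul_one, mul_one]
  linarith

theorem ar1 {a b x : ℝ} (h5 : 0 ≤ a) (h2 : 2 ≤ x) (h4 : a * x ≤ b) : a ≤ b / 2 := by
  have := mul_le_mul_of_nonneg_left h2 h5
  linarith

theorem ar2 {x : ℝ} (h : 0 ≤ x) : 1 + x ≤ (1 + x) ^ 2 := by nlinarith

theorem ar3 {x y : ℝ} (hx : 0 ≤ x) (hy : 0 ≤ y) : 2 + y * x ≤ (y + 2) * (1 + x) := by nlinarith

theorem ar4 {a b x : ℝ} (ha : 0 ≤ a) (hx : 1 ≤ x) : a + b * x ≤ (a + b) * x := by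
  have := mul_le_mul_of_nonneg_left hx ha
  linarith

theorem ar5 {a b c : ℝ} (ha : 0 ≤ a) (h : 32 ≤ b * c) : 8 * a ≤ b * c / 4 * a := by
  have := mul_le_mul_of_nonneg_right h ha
  linarith

theorem fin_law {V : Type} [Fintype V] [DecidableEq V] (P : Perm V → ℝ) (n y : ℝ) {lam : ℝ}
    (hsq : 0 < Real.sqrt lam) :
    ∑ g, P g * (if (nc n g : ℝ) ≤ lam + y * Real.sqrt lam then 1 else 0) =
      ∑ g, P g * (if ((nc n g : ℝ) - lam) / Real.sqrt lam ≤ y then 1 else 0) := by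
  refine sum_congr rfl fun g _ => ?_
  have h1 : ((nc n g : ℝ) ≤ lam + y * Real.sqrt lam ↔
        ((nc n g : ℝ) - lam) / Real.sqrt lam ≤ y) := by
    rw [div_le_iff₀ hsq]
    constructor <;> intro h <;> linarith
  rw [if_congr h1 rfl rfl]

theorem clt (hGENF : S_GENF) (hNUM : S_NUM) (hNCL : S_NCL) (hCALC : S_CALC) (hLEVY : S_LEVY) :
    S_CLT := by
  intro d hd
  obtain ⟨m₁, T₁, hm₁, hT₁, hG⟩ := hGENF d hd
  obtain ⟨m₂, T₂, C₂, hm₂, hT₂, hC₂, hN⟩ := hNUM d hd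
  obtain ⟨M, hM⟩ : ∃ M : ℕ, M = max m₁ m₂ + 1 := ⟨_, rfl⟩
  obtain ⟨m₃, T₃, C₃, hm₃, hT₃, hC₃, hNC⟩ := hNCL d hd M
  obtain ⟨m, hm⟩ : ∃ m : ℕ, m = max M m₃ := ⟨_, rfl⟩
  refine ⟨m, fun ε hε => ?_⟩
  obtain ⟨η, R, hη, hlevy⟩ := hLEVY ε hε
  obtain ⟨R₁, hR₁⟩ : ∃ R₁ : ℝ, R₁ = max R 1 := ⟨_, rfl⟩
  have hR₁0 : 1 ≤ R₁ := by rw [hR₁]; exact le_max_right _ _
  obtain ⟨e, he, hcalc⟩ := hCALC R₁ (η / 2) (by positivity)
  obtain ⟨K₀, hK₀⟩ : ∃ K₀ : ℝ, K₀ = 2 * (32 / η + 2) := ⟨_, rfl⟩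
  have hK₀0 : 0 < K₀ := by rw [hK₀]; positivity
  obtain ⟨T, hT⟩ : ∃ T : ℝ, T = T₁ + T₂ + T₃ + (M + 2) + ((M + 2) / e) ^ 2 +
    (R₁ * (C₂ + C₃) / (η / 4)) ^ 2 + Real.exp K₀ := ⟨_, rfl⟩
  have q1 : 0 ≤ ((M + 2 : ℝ) / e) ^ 2 := by positivity
  have q2 : 0 ≤ (R₁ * (C₂ + C₃) / (η / 4)) ^ 2 := by positivity
  have q3 := Real.exp_pos K₀
  have q4 : (0 : ℝ) ≤ M := Nat.cast_nonneg M
  refine ⟨T, by rw [hT]; linarith, ?_⟩
  intro L _ t n hL hTt hlt ht4 hn hnN hlam y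
  obtain ⟨ℓ, hℓ⟩ : ∃ ℓ : ℝ, ℓ = Real.log L := ⟨_, rfl⟩
  obtain ⟨N, hNd⟩ : ∃ N : ℝ, N = (L : ℝ) ^ d := ⟨_, rfl⟩
  rw [← hℓ] at hlt hn hlam
  rw [← hNd] at hnN hlam ⊢
  obtain ⟨lam, hlamd⟩ : ∃ lam : ℝ, lam = Real.log (N / n) := ⟨_, rfl⟩
  rw [← hlamd] at hlam ⊢
  have ht0 : 0 < t := by
    have : 0 < T := by rw [hT]; linarith
    linarith
  have hL3 : (3 : ℝ) ≤ L := by exact_mod_cast hL
  have hL0 : (0 : ℝ) < L := by linarith
  -- `ℓ` is large
  have hℓ1 : 32 / η + 2 ≤ ℓ := by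
    have h1 : Real.log (t ^ 4) ≤ Real.log ((L : ℝ) ^ 7) := Real.log_le_log (by positivity) ht4
    rw [Real.log_pow, Real.log_pow, ← hℓ] at h1
    have h2 : K₀ ≤ Real.log t := by
      rw [Real.le_log_iff_exp_le ht0]
      refine le_trans ?_ hTt
      rw [hT]
      linarith
    push_cast at h1
    have h3 : 0 < 32 / η := by positivity
    rw [hK₀] at h2
    linarith
  have hηp : 0 < 32 / η := by positivity
  have hℓ2 : 2 ≤ ℓ := by linarith
  have hℓ0 : 0 < ℓ := by linarith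
  have hlogℓ : 0 ≤ Real.log ℓ := Real.log_nonneg (by linarith)
  have hpow : ∀ {a b : ℕ}, a ≤ b → ℓ ^ a ≤ ℓ ^ b := fun h =>
    pow_le_pow_right₀ (by linarith) h
  have her := er_ge d L ht0
  have hm1 : m₁ + 1 ≤ m := by
    have := le_max_left m₁ m₂
    have := le_max_left M m₃
    omega
  have hm2 : m₂ ≤ m := by
    have := le_max_right m₁ m₂
    have := le_max_left M m₃
    omega
  have hMm : M ≤ m := by
    have := le_max_left M m₃
    omega
  have hm3 : m₃ ≤ m := by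
    have := le_max_right M m₃
    omega
  have hM1 : m₁ + 1 ≤ M := by
    have := le_max_left m₁ m₂
    omega
  have hM2 : m₂ ≤ M := by
    have := le_max_right m₁ m₂
    omega
  have hn1 : ℓ ^ (m₁ + 1) * er d L t ≤ n :=
    (mul_le_mul_of_nonneg_right (hpow hm1) (by linarith)).trans hn
  have hn2' : 2 ≤ n := by
    have h1 : ℓ ^ 1 ≤ ℓ ^ (m₁ + 1) := hpow (by omega)
    rw [pow_one] at h1
    have h2 : ℓ * 1 ≤ ℓ ^ (m₁ + 1) * er d L t :=
      mul_le_mul h1 her zero_le_one (by positivity)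
    linarith
  have hn0 : 0 < n := by linarith
  have hN0 : 0 < N := by rw [hNd]; positivity
  obtain ⟨n₂, hn₂⟩ : ∃ n₂ : ℝ, n₂ = N / ℓ ^ M := ⟨_, rfl⟩
  have hℓM : 0 < ℓ ^ M := by positivity
  have hn₂0 : 0 < n₂ := by rw [hn₂]; positivity
  have hT0 : (M : ℝ) + 2 ≤ T := by rw [hT]; linarith
  have hlam1 : T * (1 + Real.log ℓ) ≤ lam := by
    refine le_trans ?_ hlam
    have h1 : (1 + Real.log ℓ) ≤ (1 + Real.log ℓ) ^ 2 := ar2 hlogℓ
    exact mul_le_mul_of_nonneg_left h1 (by linarith)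
  have hlam0 : 0 < lam := by
    have : 0 < T * (1 + Real.log ℓ) := mul_pos (by linarith) (by linarith)
    linarith
  have hnn₂ : n ≤ n₂ := by
    rw [hn₂, le_div_iff₀ hℓM, mul_comm, ← le_div_iff₀ hn0]
    have h1 : Real.log (ℓ ^ M) ≤ Real.log (N / n) := by
      rw [Real.log_pow, ← hlamd]
      refine le_trans ?_ hlam1
      exact mul_le_mul (by linarith) (by linarith) hlogℓ (by linarith)
    exact (Real.log_le_log_iff hℓM (by positivity)).1 h1
  have hn₂1 : 1 / n₂ ≤ 1 := by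
    rw [div_le_one hn₂0]
    linarith
  have htN : t ≤ (L : ℝ) ^ d := by
    have h1 : t ^ 4 ≤ ((L : ℝ) ^ 2) ^ 4 := by
      refine ht4.trans ?_
      rw [← pow_mul]
      exact pow_le_pow_right₀ (by linarith) (by norm_num)
    have h2 : t ≤ (L : ℝ) ^ 2 := le_of_pow_le_pow_left₀ (by norm_num) (by positivity) h1
    exact h2.trans (pow_le_pow_right₀ (by linarith) hd)
  have hPn : ∀ g, 0 ≤ stirLaw (nnRate d L) t g := fun g => law_nonneg nn_nonneg ht0.le g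
  -- the inputs
  have hw1 : 1 / 2 ≤ Real.exp (-(1 / n)) := by
    have h1 : 1 / n ≤ 1 / 2 := one_div_le_one_div_of_le (by norm_num) hn2'
    have := (one_sub_exp (x := 1 / n) (by positivity) (by linarith)).2
    linarith
  have hw1' : 1 - Real.exp (-(1 / n)) ≤ 1 / n := by
    have h1 : 1 / n ≤ 1 / 2 := one_div_le_one_div_of_le (by norm_num) hn2'
    exact (one_sub_exp (x := 1 / n) (by positivity) (by linarith)).2
  have hw12 : Real.exp (-(1 / n)) ≤ Real.exp (-(1 / n₂)) := by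
    rw [Real.exp_le_exp, neg_le_neg_iff]
    exact one_div_le_one_div_of_le hn0 hnn₂
  have hw2 : Real.exp (-(1 / n₂)) < 1 := by
    rw [Real.exp_lt_one_iff, neg_lt_zero]
    positivity
  have hw2' : ℓ ^ m₁ ≤ (L : ℝ) ^ d * (1 - Real.exp (-(1 / n₂))) := by
    have h1 := (one_sub_exp (x := 1 / n₂) (by positivity) hn₂1).1
    rw [← hNd]
    have h2 : N * (1 / n₂ / 2) = ℓ ^ M / 2 := by
      rw [hn₂]
      field_simp
    have h3 : ℓ ^ M / 2 ≤ N * (1 - Real.exp (-(1 / n₂))) := by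
      rw [← h2]
      exact mul_le_mul_of_nonneg_left h1 hN0.le
    refine le_trans ?_ h3
    have h4 : ℓ ^ (m₁ + 1) ≤ ℓ ^ M := hpow hM1
    rw [pow_succ] at h4
    have h5 : 0 < ℓ ^ m₁ := by positivity
    exact ar1 h5.le hℓ2 h4
  have hT₁t : T₁ ≤ t := by
    refine le_trans ?_ hTt
    rw [hT]; linarith
  have hT₂t : T₂ ≤ t := by
    refine le_trans ?_ hTt
    rw [hT]; linarith
  have hT₃t : T₃ ≤ t := by
    refine le_trans ?_ hTt
    rw [hT]; linarith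
  have hNUM' := hN L t n n₂ hL hT₂t (by rw [← hℓ]; exact (hpow hm2).trans hlt) htN
    (by
      rw [← hℓ]
      exact (mul_le_mul_of_nonneg_right (hpow hm2) (by linarith)).trans hn) hnn₂
    (by
      rw [← hℓ, ← hNd, hn₂, mul_div_assoc', div_le_iff₀ hℓM, mul_comm N]
      exact mul_le_mul_of_nonneg_right (hpow hM2) hN0.le)
  have hNCL' := hNC L t n₂ hL hT₃t (by rw [← hℓ]; exact (hpow hm3).trans hlt) ht4 hn₂0
    (by
      rw [← hℓ, ← hNd, hn₂, mul_div_cancel₀ _ hℓM.ne'])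
    (by
      rw [← hNd, hn₂, div_le_iff₀ hℓM]
      exact le_mul_of_one_le_right hN0.le (one_le_pow₀ (by linarith)))
  rw [← hℓ] at hNCL'
  -- square roots
  have hsqT : Real.sqrt T * (1 + Real.log ℓ) ≤ Real.sqrt lam := by
    have h1 : Real.sqrt T * (1 + Real.log ℓ) = Real.sqrt (T * (1 + Real.log ℓ) ^ 2) := by
      rw [Real.sqrt_mul (by linarith), Real.sqrt_sq (by linarith)]
    rw [h1]
    exact Real.sqrt_le_sqrt hlam
  have hsT1 : (M : ℝ) + 2 ≤ e * Real.sqrt T :=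
    le_sqrt_of (by linarith) he (by rw [hT]; linarith)
  have hsT2 : R₁ * (C₂ + C₃) ≤ η / 4 * Real.sqrt T :=
    le_sqrt_of (by positivity) (by positivity) (by rw [hT]; linarith)
  have hsT3 : Real.sqrt T ≤ Real.sqrt lam := by
    refine le_trans ?_ hsqT
    exact le_mul_of_one_le_right (Real.sqrt_nonneg _) (by linarith)
  obtain ⟨Lam, hLam⟩ : ∃ Lam : ℝ, Lam = Real.log (Real.exp (-(1 / n₂)) *
    (1 - Real.exp (-(1 / n))) / (Real.exp (-(1 / n)) * (1 - Real.exp (-(1 / n₂))))) := ⟨_, rfl⟩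
  have hLb : |Lam - lam| ≤ e * Real.sqrt lam := by
    have h1 := lam_bd (n := n) (n₂ := n₂) (by linarith) hnn₂
    rw [← hLam] at h1
    have h2 : Real.log (n₂ / n) = lam - M * Real.log ℓ := by
      rw [hlamd, hn₂, ← Real.log_pow, div_right_comm,
        Real.log_div (by positivity) hℓM.ne']
    rw [h2] at h1
    have h3 : |Lam - lam| ≤ 2 + M * Real.log ℓ := by
      have h4 : Lam - lam = (Lam - (lam - M * Real.log ℓ)) + -(M * Real.log ℓ) := by ring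
      rw [h4]
      refine (abs_add_le _ _).trans ?_
      rw [abs_neg, abs_of_nonneg (mul_nonneg q4 hlogℓ)]
      linarith
    refine h3.trans ?_
    have h5 : 2 + M * Real.log ℓ ≤ (M + 2) * (1 + Real.log ℓ) := ar3 hlogℓ q4
    refine h5.trans ?_
    calc (M + 2) * (1 + Real.log ℓ) ≤ e * Real.sqrt T * (1 + Real.log ℓ) :=
          mul_le_mul_of_nonneg_right hsT1 (by linarith)
      _ = e * (Real.sqrt T * (1 + Real.log ℓ)) := by ring
      _ ≤ e * Real.sqrt lam := mul_le_mul_of_nonneg_left hsqT he.le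
  have hfin := hlevy (Perm (Fin d → ZMod L)) (stirLaw (nnRate d L) t)
    (fun g => ((nc n g : ℝ) - lam) / Real.sqrt lam) hPn (law_sum _ _) ?_ y
  · have hsq : 0 < Real.sqrt lam := Real.sqrt_pos.2 hlam0
    unfold stirExp
    rw [fin_law (stirLaw (nnRate d L) t) n y hsq]
    exact hfin
  · intro θ hθ
    have hθ1 : |θ| ≤ R₁ := by
      rw [hR₁]
      exact hθ.trans (le_max_left _ _)
    refine char_bd hPn hn0 hnn₂ hlam0 (Lam := Lam) hNUM' hNCL' hθ1 ?_ ?_ ?_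
    · calc R₁ * (C₂ + C₃ * (1 + Real.log ℓ)) ≤ R₁ * (C₂ + C₃) * (1 + Real.log ℓ) := by
            have : C₂ + C₃ * (1 + Real.log ℓ) ≤ (C₂ + C₃) * (1 + Real.log ℓ) :=
              ar4 (by linarith) (by linarith)
            rw [mul_assoc]
            exact mul_le_mul_of_nonneg_left this (by linarith)
        _ ≤ η / 4 * Real.sqrt T * (1 + Real.log ℓ) :=
            mul_le_mul_of_nonneg_right hsT2 (by linarith)
        _ = η / 4 * (Real.sqrt T * (1 + Real.log ℓ)) := by ring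
        _ ≤ η / 4 * Real.sqrt lam := mul_le_mul_of_nonneg_left hsqT (by positivity)
    · have h1 := hG L t (Real.exp (-(1 / n))) (Real.exp (-(1 / n₂)))
        (Complex.exp ((θ / Real.sqrt lam : ℝ) * Complex.I)) hL hT₁t
        (by rw [← hℓ]; exact (hpow (by omega)).trans hlt) htN hw1 hw12 hw2
        (by rw [← hℓ]; exact hw2') (by rw [Complex.norm_exp_ofReal_mul_I])
      rw [← hLam, ← hℓ] at h1
      refine h1.trans ?_
      have h2 : 8 * (ℓ ^ m₁ * er d L t) * (1 - Real.exp (-(1 / n))) ≤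
          8 * (ℓ ^ m₁ * er d L t) * (1 / n) :=
        mul_le_mul_of_nonneg_left hw1' (by positivity)
      refine h2.trans ?_
      rw [mul_one_div, div_le_iff₀ hn0]
      have h3 : 32 ≤ η * ℓ := by
        have h4 : 32 / η ≤ ℓ := by linarith
        rw [div_le_iff₀ hη] at h4
        linarith
      rw [pow_succ] at hn1
      have h5 : 0 < ℓ ^ m₁ * er d L t := by positivity
      calc 8 * (ℓ ^ m₁ * er d L t) ≤ η * ℓ / 4 * (ℓ ^ m₁ * er d L t) := ar5 h5.le h3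
        _ = η / 4 * (ℓ ^ m₁ * ℓ * er d L t) := by ring
        _ ≤ η / 4 * n := mul_le_mul_of_nonneg_left hn1 (by positivity)
    · exact hcalc lam Lam θ hθ1 hlam0 (by
        have : 1 ≤ e * Real.sqrt T := by linarith
        exact this.trans (mul_le_mul_of_nonneg_left hsT3 he.le)) hLb

end Pool.Agent.H961.T3.Clth
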