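import Pool.Agent.H961.T3.Stm3
import Pool.Graph.R_pool_sql_team_seeded_3997aac3.Q26.L2.Pqt
import Pool.Graph.R_pool_sql_team_seeded_3997aac3.Q176.L2.Dvt
import Pool.Graph.R_pool_sql_team_seeded_3997aac3.Q14.PL.Lmt
import Pool.Graph.R_pool_sql_team_seeded_3997aac3.Q285.L2.Bxp
import Pool.Graph.R_pool_sql_team_seeded_3997aac3.Q295.PL.All

/-!
# Project MS, part DVS: boxes see the same fractions as the torus, for stirring
-/

set_option autoImplicit false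

namespace Pool.Agent.H961.T3.Dvsh

open Finset Equiv Matrix Q292.LC
open Pool.Agent.Q297.LC
open Pool.Agent.H961.T3
open Pool.Agent.Y998.ST (stirExp nnRate)

theorem dvs_of (hDVT : Q295.PL.S_DVT) : S_DVS := by
  intro d hd
  obtain ⟨m₁, L₀, hDVT⟩ := hDVT d hd
  refine ⟨m₁ + 1, max L₀ 8, ?_⟩
  intro L _ t hLM' ht1 hlog ht4
  have ht0 : (0 : ℝ) < t := by linarith
  have hts : 0 < t ^ (-(1 / 16) : ℝ) := Real.rpow_pos_of_pos ht0 _
  have hL8 : 8 ≤ L := (le_max_right _ _).trans hLM'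
  have hL8' : (8 : ℝ) ≤ L := by exact_mod_cast hL8
  have hlog2 : 2 ≤ Real.log L := by
    have h1 : Real.log 8 ≤ Real.log L := Real.log_le_log (by norm_num) hL8'
    have h2 : Real.log 8 = 3 * Real.log 2 := by
      rw [show (8 : ℝ) = 2 ^ 3 by norm_num, Real.log_pow]; norm_num
    have h3 := Real.log_two_gt_d9
    linarith
  have hpow : (Real.log L) ^ m₁ * 2 ≤ (Real.log L) ^ (m₁ + 1) := by
    rw [pow_succ]
    exact mul_le_mul_of_nonneg_left hlog2 (by positivity)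
  have hpow1 : 1 ≤ (Real.log L) ^ m₁ := one_le_pow₀ (by linarith)
  set K := ⌊t⌋₊ with hK
  have hKt : (K : ℝ) ≤ t := Nat.floor_le (by linarith)
  have hK1 : 1 ≤ K := Nat.le_floor (by rw [Nat.cast_one]; exact ht1)
  have hK1' : (1 : ℝ) ≤ K := by exact_mod_cast hK1
  have htK : t < K + 1 := Nat.lt_floor_add_one t
  have ht2K : t ≤ 2 * K := by linarith
  have hlogK : (Real.log L) ^ m₁ ≤ K := by linarith
  have hK4 : K ^ 4 ≤ L ^ 7 := by
    have h1 : (K : ℝ) ^ 4 ≤ (L : ℝ) ^ 7 := by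
      refine le_trans ?_ ht4
      exact pow_le_pow_left₀ (by linarith) hKt 4
    exact_mod_cast h1
  have hKp : (0 : ℝ) < K := by linarith
  -- the side of the box
  obtain ⟨y, hy⟩ : ∃ y : ℝ, y = (K : ℝ) ^ ((7 / 16 : ℝ)) := ⟨_, rfl⟩
  have hy16 : y ^ 16 = (K : ℝ) ^ 7 := by
    rw [hy, ← Real.rpow_natCast, ← Real.rpow_mul hKp.le, ← Real.rpow_natCast]
    norm_num
  have hy1 : 1 ≤ y := by
    rw [hy]
    exact Real.one_le_rpow hK1' (by norm_num)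
  set r := ⌊y⌋₊ with hr
  have hry : (r : ℝ) ≤ y := Nat.floor_le (by linarith)
  have hr1 : 1 ≤ r := Nat.le_floor (by rw [Nat.cast_one]; exact hy1)
  have hr1' : (1 : ℝ) ≤ r := by exact_mod_cast hr1
  have hyr : y < r + 1 := Nat.lt_floor_add_one y
  have hrKr : (r : ℝ) ^ 16 ≤ (K : ℝ) ^ 7 := by
    rw [← hy16]
    exact pow_le_pow_left₀ (by linarith) hry 16
  have hrK : r ^ 16 ≤ K ^ 7 := by exact_mod_cast hrKr
  have hKrr : (K : ℝ) ^ 7 ≤ (2 * (r : ℝ)) ^ 16 := by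
    rw [← hy16]
    exact pow_le_pow_left₀ (by linarith) (by linarith) 16
  have hKr : K ^ 7 ≤ (2 * r) ^ 16 := by exact_mod_cast hKrr
  have hrL : r ≤ L := by
    by_contra hcon
    push Not at hcon
    have h1 : L ^ 64 < r ^ 64 := Nat.pow_lt_pow_left hcon (by norm_num)
    have h2 : r ^ 64 ≤ K ^ 28 := by
      calc r ^ 64 = (r ^ 16) ^ 4 := by ring
        _ ≤ (K ^ 7) ^ 4 := Nat.pow_le_pow_left hrK 4
        _ = K ^ 28 := by ring
    have h3 : K ^ 28 ≤ L ^ 49 := by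
      calc K ^ 28 = (K ^ 4) ^ 7 := by ring
        _ ≤ (L ^ 7) ^ 7 := Nat.pow_le_pow_left hK4 7
        _ = L ^ 49 := by ring
    have h4 : L ^ 49 ≤ L ^ 64 := Nat.pow_le_pow_right (by omega) (by norm_num)
    omega
  obtain ⟨q₀, hq₀⟩ := hDVT L K r ((le_max_left _ _).trans hLM') hlogK hK4 hrK hKr
  have hF : ∀ g : Perm (Fin d → ZMod L), |Qb r g - Qv g| ≤ 1 := by
    intro g
    have a1 := Qb_nonneg r g
    have a2 := Qb_le hr1 hrL g
    have a3 := Qv_nonneg g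
    have a4 := Qv_le g
    rw [abs_le]; constructor <;> linarith
  have h1 : stirExp (nnRate d L) t (fun g => Qb r g - Qv g) ≤ (K : ℝ) ^ (-(1 / 16) : ℝ) := by
    refine stir_le_of_circuit (by omega) (by omega) hK1 hKt ht2K hF
      ⟨q₀, fun q hq σ hσ δ h1 h2 => ?_⟩
    exact hq₀ q hq σ hσ δ h1 h2
  have h3 : (K : ℝ) ^ (-(1 / 16) : ℝ) ≤ 2 * t ^ (-(1 / 16) : ℝ) := by
    have e1 : (K : ℝ) ^ (-(1 / 16) : ℝ) ≤ (t / 2) ^ (-(1 / 16) : ℝ) :=
      Real.rpow_le_rpow_of_nonpos (by linarith) (by linarith) (by norm_num)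
    have e2 : (t / 2) ^ (-(1 / 16) : ℝ) = (2 : ℝ) ^ ((1 / 16 : ℝ)) * t ^ (-(1 / 16) : ℝ) := by
      rw [Real.div_rpow (by linarith) (by norm_num), Real.rpow_neg (by norm_num : (0 : ℝ) ≤ 2)]
      rw [div_inv_eq_mul]; ring
    have e3 : (2 : ℝ) ^ ((1 / 16 : ℝ)) ≤ 2 := by
      calc (2 : ℝ) ^ ((1 / 16 : ℝ)) ≤ (2 : ℝ) ^ (1 : ℝ) :=
            Real.rpow_le_rpow_of_exponent_le (by norm_num) (by norm_num)
        _ = 2 := Real.rpow_one 2
    rw [e2] at e1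
    exact e1.trans (mul_le_mul_of_nonneg_right e3 hts.le)
  refine ⟨r, hr1, hrL, hrKr.trans (pow_le_pow_left₀ hKp.le hKt 7), ?_, h1.trans h3⟩
  calc t ^ 7 ≤ (2 * (K : ℝ)) ^ 7 := pow_le_pow_left₀ ht0.le ht2K 7
    _ = 2 ^ 7 * (K : ℝ) ^ 7 := by ring
    _ ≤ 2 ^ 16 * (2 * (r : ℝ)) ^ 16 :=
        mul_le_mul (by norm_num) hKrr (by positivity) (by norm_num)
    _ = (4 * (r : ℝ)) ^ 16 := by rw [← mul_pow]; norm_num [← mul_assoc]

theorem dvs : S_DVS :=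
  dvs_of (Pool.Agent.Q176.L2.Dvt.dvt Q295.PL.all_btt
    (Pool.Agent.Q14.PL.lmt Q295.PL.all_win Pool.Agent.Q285.L2.bxp))

end Pool.Agent.H961.T3.Dvsh
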