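import Pool.Agent.H961.T3.Stm3
import Pool.Agent.H961.T3.Env
import Pool.Agent.H961.T2.B5

/-!
# Project MS: the sum of the resolvent in a good environment with the short laps (ENV2)
-/

set_option autoImplicit false

namespace Pool.Agent.H961.T3.Env2h

open Finset Equiv Matrix Q292.LC Pool.Agent.H961.T2 Pool.Agent.H961.T3 Filter Topology
open Pool.Agent.Q68.LC (SS)
open Pool.Agent.H961.T3.Envh (pow_zero_of pow_restrict unif_inv diag_close geo_sum compl_ne)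

/-- abstract sum with a cut off -/
theorem sum_bd2 (b : ℕ → ℝ) (C P Z a : ℝ) (d k₀ : ℕ) (hd : 3 ≤ d) (hC : 0 ≤ C) (hP : 0 ≤ P)
    (ha : 0 < a) (hZ : 0 ≤ Z) (hb0 : ∀ j, 0 ≤ b j)
    (hb1 : ∀ j : ℕ, b j ≤ C + P * ((j : ℝ) + 1) ^ (-(d / 2 : ℝ)))
    (hb2 : ∀ j : ℕ, b j ≤ Real.exp Z * Real.exp (-(((j : ℝ) + 1) * a))) (M : ℕ) :
    ∑ j ∈ range M, (if j < k₀ then 0 else b j) ≤ C * (Z / a + 1) + P * rr d k₀ + 1 / a := by
  obtain ⟨k1, hk1⟩ : ∃ k1 : ℕ, k1 = ⌈Z / a⌉₊ := ⟨_, rfl⟩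
  have hk2 : Z / a ≤ k1 := by rw [hk1]; exact Nat.le_ceil _
  have hk3 : (k1 : ℝ) ≤ Z / a + 1 := by
    rw [hk1]
    exact (Nat.ceil_lt_add_one (by positivity)).le
  have hZk : Z ≤ k1 * a := by rwa [div_le_iff₀ ha] at hk2
  have hc0 : ∀ j, 0 ≤ (if j < k₀ then 0 else b j) := by
    intro j
    split_ifs
    · exact le_rfl
    · exact hb0 j
  have h1 : ∑ j ∈ range M, (if j < k₀ then 0 else b j) ≤
      ∑ j ∈ range (k1 + M), (if j < k₀ then 0 else b j) :=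
    sum_le_sum_of_subset_of_nonneg (range_subset_range.2 (by omega)) fun k _ _ => hc0 k
  rw [sum_range_add] at h1
  have hnn : ∀ j : ℕ, 0 ≤ P * ((j : ℝ) + 1) ^ (-(d / 2 : ℝ)) := fun j =>
    mul_nonneg hP (Real.rpow_nonneg (by positivity) _)
  have h2 : ∑ j ∈ range k1, (if j < k₀ then 0 else b j) ≤ k1 * C + P * rr d k₀ := by
    have i1 : ∀ j ∈ range k1, (if j < k₀ then 0 else b j) ≤
        C + (if j < k₀ then 0 else P * ((j : ℝ) + 1) ^ (-(d / 2 : ℝ))) := by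
      intro j _
      by_cases h : j < k₀
      · rw [if_pos h, if_pos h, add_zero]
        exact hC
      · rw [if_neg h, if_neg h]
        exact hb1 j
    refine (sum_le_sum i1).trans ?_
    rw [sum_add_distrib, sum_const, card_range, nsmul_eq_mul]
    refine add_le_add le_rfl ?_
    have i2 : ∑ j ∈ range k1, (if j < k₀ then 0 else P * ((j : ℝ) + 1) ^ (-(d / 2 : ℝ))) ≤
        ∑ j ∈ range (k₀ + k1), (if j < k₀ then 0 else P * ((j : ℝ) + 1) ^ (-(d / 2 : ℝ))) := by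
      refine sum_le_sum_of_subset_of_nonneg (range_subset_range.2 (by omega)) fun k _ _ => ?_
      split_ifs
      · exact le_rfl
      · exact hnn k
    rw [sum_range_add] at i2
    have i3 : ∑ j ∈ range k₀, (if j < k₀ then 0 else P * ((j : ℝ) + 1) ^ (-(d / 2 : ℝ))) = 0 :=
      sum_eq_zero fun j hj => by rw [if_pos (mem_range.1 hj)]
    have i4 : ∑ i ∈ range k1, (if k₀ + i < k₀ then 0 else
        P * (((k₀ + i : ℕ) : ℝ) + 1) ^ (-(d / 2 : ℝ))) =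
        P * ∑ i ∈ range k1, ((i : ℝ) + k₀ + 1) ^ (-(d / 2 : ℝ)) := by
      rw [mul_sum]
      refine sum_congr rfl fun i _ => ?_
      rw [if_neg (by omega)]
      push_cast
      rw [add_comm (k₀ : ℝ) (i : ℝ)]
    rw [i3, i4, zero_add] at i2
    have e3 : ∑ i ∈ range k1, ((i : ℝ) + k₀ + 1) ^ (-(d / 2 : ℝ)) ≤ rr d k₀ :=
      (rr_summable d k₀ hd).sum_le_tsum (range k1) (fun k _ => by positivity)
    exact i2.trans (mul_le_mul_of_nonneg_left e3 hP)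
  have h3 : ∑ i ∈ range M, (if k1 + i < k₀ then 0 else b (k1 + i)) ≤ 1 / a := by
    refine le_trans (sum_le_sum fun i _ => ?_) (geo_sum M a ha)
    have h4 : (if k1 + i < k₀ then 0 else b (k1 + i)) ≤ b (k1 + i) := by
      split_ifs
      · exact hb0 _
      · exact le_rfl
    refine h4.trans ((hb2 (k1 + i)).trans ?_)
    rw [← Real.exp_add]
    apply Real.exp_le_exp.2
    push_cast
    nlinarith
  have h4 : (k1 : ℝ) * C ≤ C * (Z / a + 1) := by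
    rw [mul_comm]
    exact mul_le_mul_of_nonneg_left hk3 hC
  linarith

/-- the sum of the errors of the short laps -/
theorem sum_err (k₀ M : ℕ) (E : ℝ) (hE : 0 ≤ E) :
    ∑ k ∈ range M, (if k < k₀ then 1 + ((k : ℝ) + 1) * E else 0) ≤ k₀ + (k₀ : ℝ) ^ 2 * E := by
  have hnn : ∀ k : ℕ, 0 ≤ (if k < k₀ then 1 + ((k : ℝ) + 1) * E else 0) := by
    intro k
    split_ifs
    · positivity
    · exact le_rfl
  have h1 : ∑ k ∈ range M, (if k < k₀ then 1 + ((k : ℝ) + 1) * E else 0) ≤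
      ∑ k ∈ range (k₀ + M), (if k < k₀ then 1 + ((k : ℝ) + 1) * E else 0) :=
    sum_le_sum_of_subset_of_nonneg (range_subset_range.2 (by omega)) fun k _ _ => hnn k
  rw [sum_range_add] at h1
  have h2 : ∑ i ∈ range M, (if k₀ + i < k₀ then 1 + (((k₀ + i : ℕ) : ℝ) + 1) * E else 0) = 0 :=
    sum_eq_zero fun i _ => by rw [if_neg (by omega)]
  have h3 : ∑ k ∈ range k₀, (if k < k₀ then 1 + ((k : ℝ) + 1) * E else 0) ≤
      ∑ _k ∈ range k₀, (1 + (k₀ : ℝ) * E) := by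
    refine sum_le_sum fun k hk => ?_
    have hk' := mem_range.1 hk
    rw [if_pos hk']
    have : (k : ℝ) + 1 ≤ k₀ := by exact_mod_cast hk'
    have := mul_le_mul_of_nonneg_right this hE
    linarith
  rw [sum_const, card_range, nsmul_eq_mul] at h3
  rw [h2, add_zero] at h1
  refine h1.trans (h3.trans (le_of_eq ?_))
  ring

/-- **ENV2** -/
theorem env2 (hVAR : S_VAR) (hENVT : S_ENVT) : S_ENV2 := by
  intro d hd
  obtain ⟨C0, m0, hC0, hvar⟩ := hVAR d (by omega)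
  obtain ⟨C1, m1, c, hC1, hc, hker⟩ := ker2 d hd
  obtain ⟨C2, m2, hC2, hup⟩ := env_trace d hd
  obtain ⟨C3, m3, hC3, hlo⟩ := hENVT d hd
  obtain ⟨c5, hc5⟩ : ∃ c5 : ℝ, c5 = c ^ (-(d / 2 : ℝ)) := ⟨_, rfl⟩
  have hc50 : 0 ≤ c5 := by
    rw [hc5]
    exact Real.rpow_nonneg hc.le _
  refine ⟨C0 + 2 * C1 + 4 + d + ⌈c5⌉₊ + C2 + C3, m0 + m1 + m2 + m3 + 2, by omega, ?_⟩
  intro Z hZ L K lam r ρ κ₀ _ hlam hρ hκ hLd hr hL hK
  have hZ1 : 1 ≤ Z := by omega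
  have p0 : Z ^ m0 ≤ Z ^ (m0 + m1 + m2 + m3 + 2) := Nat.pow_le_pow_right hZ1 (by omega)
  have p1 : Z ^ m1 ≤ Z ^ (m0 + m1 + m2 + m3 + 2) := Nat.pow_le_pow_right hZ1 (by omega)
  have p1' : Z ^ m2 ≤ Z ^ (m0 + m1 + m2 + m3 + 2) := Nat.pow_le_pow_right hZ1 (by omega)
  have p1'' : Z ^ m3 ≤ Z ^ (m0 + m1 + m2 + m3 + 2) := Nat.pow_le_pow_right hZ1 (by omega)
  have p2 : Z ^ 2 ≤ Z ^ (m0 + m1 + m2 + m3 + 2) := Nat.pow_le_pow_right hZ1 (by omega)
  have p3 : Z ^ (m0 + 2) ≤ Z ^ (m0 + m1 + m2 + m3 + 2) := Nat.pow_le_pow_right hZ1 (by omega)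
  have hZZ : Z ≤ Z ^ 2 := Nat.le_self_pow (by norm_num) _
  obtain ⟨q1, hq1⟩ := hvar Z (by omega) L K lam r ρ κ₀ hlam hρ hκ (by omega) (by omega) (by omega)
  obtain ⟨q2, hq2⟩ := hker Z (by omega) L K lam r ρ κ₀ hlam hρ hκ hLd (by omega) (by omega)
    (by omega)
  obtain ⟨q3, hq3⟩ := hup Z (by omega) L K lam r ρ κ₀ hlam hρ hκ hLd (by omega) (by omega)
    (by omega)
  obtain ⟨q4, hq4⟩ := hlo Z (by omega) L K lam r ρ κ₀ hlam hρ hκ hLd (by omega) (by omega)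
    (by omega)
  refine ⟨q1 + q2 + q3 + q4 + 2, ?_⟩
  intro q hq σ hσ δ h1 h2 ω A hEv hinv w hw0 hw1 k₀
  have hqr : (2 : ℝ) ≤ q := by
    have : 2 ≤ q := by omega
    exact_mod_cast this
  have hδ : 0 < δ := by
    by_contra h
    push Not at h
    nlinarith
  have hδ1 : δ ≤ 1 := by nlinarith
  have hB := Pool.Agent.Q68.LC.bas2 _ (ed ∘ σ) ω A δ hδ.le hδ1
  obtain ⟨g, hg⟩ : ∃ g, g = gp (ed ∘ σ) ω (K * (q * ms d L)) := ⟨_, rfl⟩
  have hdec0 := hq1 q (by omega) σ hσ δ h1 h2 ω A hEv hinv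
  have hk1 := hq2 q (by omega) σ hσ δ h1 h2 ω A hEv (univ \ A)
  have hkup := hq3 q (by omega) σ hσ δ h1 h2 ω A hEv
  have hklo := hq4 q (by omega) σ hσ δ h1 h2 ω A hEv
  obtain ⟨T, hT⟩ : ∃ T, T = TT (ed ∘ σ) ω A δ (K * (q * ms d L)) := ⟨_, rfl⟩
  obtain ⟨tr, htr⟩ : ∃ tr : ℕ → ℝ, ∀ j, tr j =
    (PP (ed ∘ σ) δ (K * (q * ms d L)) ^ (j + 1)).trace := ⟨_, fun _ => rfl⟩
  rw [← hT] at hdec0 hk1 hkup hklo ⊢
  simp only [← htr] at hkup hklo ⊢
  rw [← hg] at hinv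
  have hT0 : ∀ x y, 0 ≤ T x y := by
    rw [hT]
    exact hB.1 _
  have hrow : ∀ x, ∑ y, T x y = 1 := by
    rw [hT]
    exact hB.2.1 _
  have hcol : ∀ y, ∑ x, T x y = 1 := by
    rw [hT]
    exact hB.2.2.1 _
  have hrowA : ∀ x ∈ A, ∀ y, T x y = if g x = y then 1 else 0 := by
    rw [hT, hg]
    exact hB.2.2.2.1 _
  have hgA : A.image g = A := by
    refine Finset.eq_of_subset_of_card_le ?_ ?_
    · intro y hy
      obtain ⟨a, ha, hay⟩ := mem_image.1 hy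
      rw [← hay]
      exact hinv a ha
    · rw [card_image_of_injective _ g.injective]
  have hz : ∀ a, a ∉ A → ∀ b ∈ A, T a b = 0 := by
    intro a ha b hb
    rw [hT]
    refine hB.2.2.2.2.1 _ a ha b ?_
    rw [← hg, hgA]
    exact hb
  have hSS : SS T := ⟨hT0, fun x => (hrow x).le⟩
  -- the complement is not empty
  have hU : (univ \ A).Nonempty := by
    refine compl_ne d L (by omega) A lam r Z hlam ?_ ?_ ?_
    · have e1 : d * Z ≤ Z * Z := Nat.mul_le_mul_right _ (by omega)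
      have e2 : Z * Z = Z ^ 2 := by ring
      omega
    · have : Z < 8 * Z ^ 2 := by omega
      omega
    · intro v
      have := hEv.1 0 (Nat.zero_le _) v
      rw [Nat.zero_mul] at this
      have e1 : A.image (gp (ed ∘ σ) ω 0) = A := by
        simp [gp]
      rwa [e1] at this
  have hK1 : 1 ≤ K := by
    have : 1 ≤ Z ^ (m0 + m1 + m2 + m3 + 2) := Nat.one_le_pow _ _ hZ1
    omega
  have hL1 : 1 ≤ L := by
    have : 1 ≤ Z ^ (m0 + m1 + m2 + m3 + 2) := Nat.one_le_pow _ _ hZ1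
    omega
  have hK0 : (0 : ℝ) < K := by exact_mod_cast hK1
  have hL0 : (0 : ℝ) < L := by exact_mod_cast hL1
  have hZ0 : (0 : ℝ) < Z := by exact_mod_cast hZ1
  have hLd0 : (0 : ℝ) < (L : ℝ) ^ d := by positivity
  obtain ⟨a, ha⟩ : ∃ a : ℝ, a = K / (2 * ((Z : ℝ) ^ m0 * (L : ℝ) ^ 2)) := ⟨_, rfl⟩
  have ha0 : 0 < a := by rw [ha]; positivity
  -- the diagonal entries
  have hdiag : ∀ (j : ℕ) (x : Fin d → ZMod L), x ∉ A →
      |(T ^ (j + 1)) x x - 1 / ((univ \ A).card : ℝ)| ≤ Real.exp (-(((j : ℝ) + 1) * a)) := by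
    intro j x hx
    refine diag_close T A g hinv hcol hrowA hz (j + 1) _ ?_ x hx
    intro f hf0 hf1
    have h3 := hdec0 f hf0 hf1 (j + 1)
    have e1 : -(((j + 1 : ℕ) : ℝ) * K / ((Z : ℝ) ^ m0 * (L : ℝ) ^ 2)) =
        -(2 * (((j : ℝ) + 1) * a)) := by
      rw [ha]
      push_cast
      field_simp
    rw [e1] at h3
    exact h3
  have hcardU : ((univ \ A).card : ℝ) ≤ (L : ℝ) ^ d := by
    have e1 : (univ \ A).card ≤ (univ : Finset (Fin d → ZMod L)).card :=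
      card_le_card (subset_univ _)
    rw [card_univ, Fintype.card_fun, ZMod.card, Fintype.card_fin] at e1
    exact_mod_cast e1
  have hUpos : (0 : ℝ) < ((univ \ A).card : ℝ) := by
    exact_mod_cast card_pos.2 hU
  obtain ⟨s, hs⟩ : ∃ s : ℕ → ℝ, ∀ j, s j = ∑ x ∈ univ \ A, (T ^ (j + 1)) x x := ⟨_, fun _ => rfl⟩
  have hs0 : ∀ j, 0 ≤ s j := by
    intro j
    rw [hs]
    exact sum_nonneg fun x _ => (Pool.Agent.Q68.LC.SS_pow hSS (j + 1)).nn x x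
  have hpow : ∀ (j : ℕ) (x : Fin d → ZMod L), x ∈ univ \ A →
      (T * (dg (univ \ A) * T) ^ j) x x = (T ^ (j + 1)) x x := fun j x hx =>
    pow_restrict T A hz x (mem_sdiff.1 hx).2 j x
  have hsT : ∀ j, ∑ x ∈ univ \ A, (T * (dg (univ \ A) * T) ^ j) x x = s j := by
    intro j
    rw [hs]
    exact sum_congr rfl fun x hx => hpow j x hx
  have hUA : Disjoint (univ \ A) A := sdiff_disjoint
  -- comparison with the traces
  obtain ⟨W, hW⟩ : ∃ W : ℝ, W = ((K : ℝ) ^ (-(d / 2 : ℝ)) + 1 / (L : ℝ) ^ d) * (Z * K * A.card) :=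
    ⟨_, rfl⟩
  have hW0 : 0 ≤ W := by
    rw [hW]
    have : 0 ≤ (K : ℝ) ^ (-(d / 2 : ℝ)) := Real.rpow_nonneg hK0.le _
    positivity
  obtain ⟨CC, hCC⟩ : ∃ CC : ℕ, CC = C0 + 2 * C1 + 4 + d + ⌈c5⌉₊ + C2 + C3 := ⟨_, rfl⟩
  have hCC2 : (C2 : ℝ) ≤ CC := by
    have : C2 ≤ CC := by omega
    exact_mod_cast this
  have hCC3 : (C3 : ℝ) ≤ CC := by
    have : C3 ≤ CC := by omega
    exact_mod_cast this
  have hCC5 : c5 ≤ CC := by
    have h3 := Nat.le_ceil c5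
    have h4 : (⌈c5⌉₊ : ℝ) ≤ (CC : ℝ) := by
      have : ⌈c5⌉₊ ≤ CC := by omega
      exact_mod_cast this
    exact h3.trans h4
  have hcmp : ∀ j : ℕ, |s j - tr j| ≤ ((j : ℝ) + 1) * (CC * W) := by
    intro j
    have e1 := hkup j
    have e2 := hklo j
    rw [hsT] at e1 e2
    have e3 : ((j : ℝ) + 1) * (C2 * ((K : ℝ) ^ (-(d / 2 : ℝ)) + 1 / (L : ℝ) ^ d) *
        (Z * K * A.card)) ≤ ((j : ℝ) + 1) * (CC * W) := by
      rw [mul_assoc (C2 : ℝ), ← hW]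
      exact mul_le_mul_of_nonneg_left (mul_le_mul_of_nonneg_right hCC2 hW0) (by positivity)
    have e4 : ((j : ℝ) + 1) * (C3 * ((K : ℝ) ^ (-(d / 2 : ℝ)) + 1 / (L : ℝ) ^ d) *
        (Z * K * A.card)) ≤ ((j : ℝ) + 1) * (CC * W) := by
      rw [mul_assoc (C3 : ℝ), ← hW]
      exact mul_le_mul_of_nonneg_left (mul_le_mul_of_nonneg_right hCC3 hW0) (by positivity)
    rw [abs_le]
    constructor <;> linarith
  -- first bound
  obtain ⟨P, hP⟩ : ∃ P : ℝ, P = (L : ℝ) ^ d * (c * K) ^ (-(d / 2 : ℝ)) := ⟨_, rfl⟩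
  have hP0 : 0 ≤ P := by
    rw [hP]
    exact mul_nonneg hLd0.le (Real.rpow_nonneg (by positivity) _)
  have b1 : ∀ j : ℕ, |s j - 1| ≤ ((C1 : ℝ) + 1) + P * ((j : ℝ) + 1) ^ (-(d / 2 : ℝ)) := by
    intro j
    have e1 : s j ≤ (C1 : ℝ) + P * ((j : ℝ) + 1) ^ (-(d / 2 : ℝ)) := by
      have e0 : 0 ≤ C1 / (L : ℝ) ^ d + (c * K * ((j : ℝ) + 1)) ^ (-(d / 2 : ℝ)) := by positivity
      rw [hs]
      calc ∑ x ∈ univ \ A, (T ^ (j + 1)) x x ≤
            ∑ x ∈ univ \ A, (C1 / (L : ℝ) ^ d + (c * K * ((j : ℝ) + 1)) ^ (-(d / 2 : ℝ))) := by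
            refine sum_le_sum fun x hx => ?_
            rw [← hpow j x hx]
            exact hk1 x x hUA (mem_sdiff.1 hx).2 j
        _ = (univ \ A).card * (C1 / (L : ℝ) ^ d + (c * K * ((j : ℝ) + 1)) ^ (-(d / 2 : ℝ))) := by
            rw [sum_const, nsmul_eq_mul]
        _ ≤ (L : ℝ) ^ d * (C1 / (L : ℝ) ^ d + (c * K * ((j : ℝ) + 1)) ^ (-(d / 2 : ℝ))) :=
            mul_le_mul_of_nonneg_right hcardU e0
        _ = _ := by
            rw [Real.mul_rpow (by positivity) (by positivity), hP]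
            field_simp
    have e2 : 0 ≤ P * ((j : ℝ) + 1) ^ (-(d / 2 : ℝ)) :=
      mul_nonneg hP0 (Real.rpow_nonneg (by positivity) _)
    have e3 := hs0 j
    have e4 : (0 : ℝ) ≤ C1 := Nat.cast_nonneg _
    rw [abs_le]
    constructor <;> linarith
  -- second bound
  have b2 : ∀ j : ℕ, |s j - 1| ≤ Real.exp Z * Real.exp (-(((j : ℝ) + 1) * a)) := by
    intro j
    have e1 : s j - 1 = ∑ x ∈ univ \ A, ((T ^ (j + 1)) x x - 1 / ((univ \ A).card : ℝ)) := by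
      rw [sum_sub_distrib, hs, sum_const, nsmul_eq_mul]
      field_simp
    rw [e1]
    refine (abs_sum_le_sum_abs _ _).trans ?_
    refine (sum_le_sum fun x hx => hdiag j x (mem_sdiff.1 hx).2).trans ?_
    rw [sum_const, nsmul_eq_mul]
    exact mul_le_mul_of_nonneg_right (hcardU.trans hLd) (Real.exp_pos _).le
  obtain ⟨Bd, hBd⟩ : ∃ Bd : ℝ, Bd = ((C1 : ℝ) + 1) * (Z / a + 1) + P * rr d k₀ + 1 / a :=
    ⟨_, rfl⟩
  have hsum : ∀ M : ℕ, ∑ j ∈ range M, (if j < k₀ then 0 else |s j - 1|) ≤ Bd := by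
    intro M
    rw [hBd]
    exact sum_bd2 (fun j => |s j - 1|) (C1 + 1) P Z a d k₀ hd (by positivity) hP0 ha0 hZ0.le
      (fun j => abs_nonneg _) b1 b2 M
  -- the limits
  have l1 : Tendsto (fun M : ℕ => ∑ x ∈ univ \ A, ∑ k ∈ range M,
      w ^ (k + 1) * (T * (dg (univ \ A) * T) ^ k) x x) atTop
      (𝓝 (∑ x ∈ univ \ A, Gx w (univ \ A) T x)) :=
    tendsto_finsetSum _ fun x hx => Gx_tendsto w (univ \ A) T x hSS hw0 hw1 hx
  have l1' : ∀ M : ℕ, ∑ x ∈ univ \ A, ∑ k ∈ range M,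
      w ^ (k + 1) * (T * (dg (univ \ A) * T) ^ k) x x = ∑ k ∈ range M, w ^ (k + 1) * s k := by
    intro M
    rw [sum_comm]
    refine sum_congr rfl fun k _ => ?_
    rw [hs, mul_sum]
    exact sum_congr rfl fun x hx => by rw [hpow k x hx]
  have l2 : Tendsto (fun M : ℕ => ∑ k ∈ range M, w ^ (k + 1)) atTop (𝓝 (w * (1 - w)⁻¹)) := by
    have h3 := ((hasSum_geometric_of_lt_one hw0 hw1).tendsto_sum_nat).const_mul w
    refine h3.congr fun M => ?_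
    rw [mul_sum]
    exact sum_congr rfl fun k _ => by rw [pow_succ]; ring
  obtain ⟨S0, hS0⟩ : ∃ S0 : ℝ, S0 = ∑ k ∈ range k₀, w ^ (k + 1) * tr k := ⟨_, rfl⟩
  have l3 : Tendsto (fun M : ℕ => |(∑ k ∈ range M, w ^ (k + 1) * s k) -
      (∑ k ∈ range M, w ^ (k + 1)) - (1 + S0)|) atTop
      (𝓝 |(∑ x ∈ univ \ A, Gx w (univ \ A) T x) - w * (1 - w)⁻¹ - (1 + S0)|) := by
    refine Tendsto.abs ?_
    refine ((l1.congr l1').sub l2).sub_const (1 + S0)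
  have hw1' : (1 - w) ≠ 0 := by linarith
  have e5 : (∑ x ∈ univ \ A, Gx w (univ \ A) T x) - (1 / (1 - w) + S0) =
      (∑ x ∈ univ \ A, Gx w (univ \ A) T x) - w * (1 - w)⁻¹ - (1 + S0) := by
    field_simp
    ring
  have hE0 : 0 ≤ (CC : ℝ) * W := mul_nonneg (Nat.cast_nonneg _) hW0
  have e6 : |(∑ x ∈ univ \ A, Gx w (univ \ A) T x) - (1 / (1 - w) + S0)| ≤
      (k₀ + (k₀ : ℝ) ^ 2 * (CC * W)) + Bd + 1 := by
    rw [e5]
    refine le_of_tendsto l3 ?_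
    filter_upwards [eventually_ge_atTop k₀] with M hM
    have e8 : ∑ k ∈ range M, (if k < k₀ then w ^ (k + 1) * tr k else 0) = S0 := by
      rw [hS0, ← sum_filter]
      refine sum_congr ?_ fun _ _ => rfl
      ext k
      rw [mem_filter, mem_range, mem_range]
      omega
    have e7 : (∑ k ∈ range M, w ^ (k + 1) * s k) - (∑ k ∈ range M, w ^ (k + 1)) - (1 + S0) =
        (∑ k ∈ range M, (w ^ (k + 1) * (s k - 1) -
          (if k < k₀ then w ^ (k + 1) * tr k else 0))) + (-1) := by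
      rw [sum_sub_distrib, e8]
      have : ∀ k ∈ range M, w ^ (k + 1) * (s k - 1) = w ^ (k + 1) * s k - w ^ (k + 1) :=
        fun k _ => by ring
      rw [sum_congr rfl this, sum_sub_distrib]
      ring
    rw [e7]
    refine (abs_add_le _ _).trans ?_
    rw [abs_neg, abs_one]
    refine add_le_add ?_ le_rfl
    refine (abs_sum_le_sum_abs _ _).trans ?_
    have e9 : ∀ k ∈ range M, |w ^ (k + 1) * (s k - 1) -
        (if k < k₀ then w ^ (k + 1) * tr k else 0)| ≤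
        (if k < k₀ then 1 + ((k : ℝ) + 1) * (CC * W) else 0) +
        (if k < k₀ then 0 else |s k - 1|) := by
      intro k _
      have hwk0 : 0 ≤ w ^ (k + 1) := pow_nonneg hw0 _
      have hwk1 : w ^ (k + 1) ≤ 1 := pow_le_one₀ hw0 hw1.le
      by_cases h : k < k₀
      · rw [if_pos h, if_pos h, if_pos h, add_zero]
        have e10 : w ^ (k + 1) * (s k - 1) - w ^ (k + 1) * tr k =
            w ^ (k + 1) * (s k - tr k) + (-(w ^ (k + 1))) := by ring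
        rw [e10]
        refine (abs_add_le _ _).trans ?_
        rw [abs_neg, abs_of_nonneg hwk0, abs_mul, abs_of_nonneg hwk0, add_comm (1 : ℝ)]
        refine add_le_add ?_ hwk1
        exact (mul_le_of_le_one_left (abs_nonneg _) hwk1).trans (hcmp k)
      · rw [if_neg h, if_neg h, if_neg h, sub_zero, zero_add, abs_mul, abs_of_nonneg hwk0]
        exact mul_le_of_le_one_left (abs_nonneg _) hwk1
    refine (sum_le_sum e9).trans ?_
    rw [sum_add_distrib]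
    exact add_le_add (sum_err k₀ M (CC * W) hE0) (hsum M)
  rw [← hS0, ← hCC]
  refine e6.trans ?_
  -- arithmetic
  obtain ⟨X, hX⟩ : ∃ X : ℝ, X = (L : ℝ) ^ 2 / K := ⟨_, rfl⟩
  have hX0 : 0 ≤ X := by rw [hX]; positivity
  have ea : 1 / a = 2 * ((Z : ℝ) ^ m0 * X) := by
    rw [ha, hX]
    field_simp
  have eZa : Z / a = 2 * ((Z : ℝ) ^ (m0 + 1) * X) := by
    rw [div_eq_mul_one_div, ea, pow_succ]
    ring
  have eP : P * rr d k₀ = c5 * ((L : ℝ) ^ d * (K : ℝ) ^ (-(d / 2 : ℝ)) * rr d k₀) := by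
    rw [hP, hc5, Real.mul_rpow hc.le hK0.le]
    ring
  have hY0 : 0 ≤ (L : ℝ) ^ d * (K : ℝ) ^ (-(d / 2 : ℝ)) * rr d k₀ :=
    mul_nonneg (mul_nonneg hLd0.le (Real.rpow_nonneg hK0.le _)) (rr_nonneg d k₀)
  have i1 := mul_le_mul_of_nonneg_right hCC5 hY0
  have hZr : 2 * (C1 : ℝ) + 4 ≤ Z := by
    have : 2 * C1 + 4 ≤ Z := by omega
    exact_mod_cast this
  have hC1r : (0 : ℝ) ≤ C1 := Nat.cast_nonneg _
  have hZ1r : (1 : ℝ) ≤ Z := by exact_mod_cast hZ1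
  obtain ⟨Y, hY⟩ : ∃ Y : ℝ, Y = (Z : ℝ) ^ (m0 + 1) := ⟨_, rfl⟩
  have hY1 : 1 ≤ Y := by rw [hY]; exact one_le_pow₀ hZ1r
  have hZm : (Z : ℝ) ^ m0 ≤ Y := by rw [hY]; exact pow_le_pow_right₀ hZ1r (by omega)
  have hbig : (2 * (C1 : ℝ) + 4) * Y ≤ (Z : ℝ) ^ (m0 + m1 + m2 + m3 + 2) := by
    calc (2 * (C1 : ℝ) + 4) * Y ≤ Z * Y := mul_le_mul_of_nonneg_right hZr (by linarith)
      _ = (Z : ℝ) ^ (m0 + 2) := by rw [hY]; ring
      _ ≤ _ := pow_le_pow_right₀ hZ1r (by omega)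
  have eW : (k₀ : ℝ) ^ 2 * (CC * W) =
      (k₀ : ℝ) ^ 2 * (CC * ((K : ℝ) ^ (-(d / 2 : ℝ)) + 1 / (L : ℝ) ^ d) * (Z * K)) * A.card := by
    rw [hW]
    ring
  rw [hBd, eP, ea, eZa, ← hY, ← hX, ← eW]
  have i2 : ((C1 : ℝ) + 1) * (2 * (Y * X) + 1) + 2 * ((Z : ℝ) ^ m0 * X) + 1 ≤
      (2 * (C1 : ℝ) + 4) * Y * (1 + X) := by
    have j1 : (Z : ℝ) ^ m0 * X ≤ Y * X := mul_le_mul_of_nonneg_right hZm hX0
    have j2 : 0 ≤ Y * X := by positivity
    nlinarith [mul_nonneg hC1r (by linarith : 0 ≤ Y - 1)]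
  have i3 : (2 * (C1 : ℝ) + 4) * Y * (1 + X) ≤ (Z : ℝ) ^ (m0 + m1 + m2 + m3 + 2) * (1 + X) :=
    mul_le_mul_of_nonneg_right hbig (by linarith)
  linarith

end Pool.Agent.H961.T3.Env2h
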