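import Pool.Agent.H961.T3.StmA

/-!
# Karamata's Tauberian theorem, finite form (job KAR of helper961; helper230)
-/

set_option autoImplicit false

namespace Pool.Agent.H961.T3.Karh

open Finset Polynomial

theorem poly_up {h : ℝ → ℝ} (hc : Continuous h) {ε : ℝ} (hε : 0 < ε) :
    ∃ P : ℝ[X], ∀ x ∈ Set.Icc (0 : ℝ) 1, h x ≤ P.eval x ∧ P.eval x ≤ h x + ε := by
  obtain ⟨P, hP⟩ := exists_polynomial_near_of_continuousOn 0 1 (fun x => h x + ε / 2)
    (by fun_prop) (ε / 2) (by linarith)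
  refine ⟨P, fun x hx => ?_⟩
  have := abs_lt.1 (hP x hx)
  constructor <;> linarith [this.1, this.2]

theorem int_poly (P : ℝ[X]) :
    ∫ x in (0 : ℝ)..1, P.eval x = ∑ i ∈ range (P.natDegree + 1), P.coeff i * (1 / ((i : ℝ) + 1)) := by
  have e : (fun x : ℝ => P.eval x) = fun x => ∑ i ∈ range (P.natDegree + 1), P.coeff i * x ^ i := by
    funext x
    exact eval_eq_sum_range x
  rw [e, intervalIntegral.integral_finsetSum]
  · refine sum_congr rfl fun i _ => ?_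
    rw [intervalIntegral.integral_const_mul, integral_pow]
    simp
  · intro i _
    exact (by fun_prop : Continuous fun x : ℝ => P.coeff i * x ^ i).intervalIntegrable _ _

theorem int_inv {a : ℝ} (ha : a = Real.exp (-1)) : ∫ x in a..1, x⁻¹ = 1 := by
  have h0 : 0 < a := ha ▸ Real.exp_pos _
  rw [integral_inv_of_pos h0 one_pos, ha, one_div, ← Real.exp_neg, neg_neg, Real.log_exp]

theorem up {a : ℝ} (ha : a = Real.exp (-1)) {ε : ℝ} (hε : 0 < ε) : ∃ P : ℝ[X],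
    (∀ s ∈ Set.Icc (0 : ℝ) 1, 0 ≤ P.eval s) ∧ (∀ s ∈ Set.Icc a 1, s⁻¹ ≤ P.eval s) ∧
    ∫ x in (0 : ℝ)..1, P.eval x ≤ 1 + ε ∧ P.eval 1 ≤ 1 + ε := by
  have h0 : 0 < a := ha ▸ Real.exp_pos _
  have h1 : a < 1 := by
    rw [ha, ← Real.exp_zero]
    exact Real.exp_lt_exp.2 (by norm_num)
  obtain ⟨k, hk⟩ := exists_nat_gt (2 / ε)
  have hk1 : 1 / ((k : ℝ) + 1) ≤ ε / 2 := by
    rw [div_lt_iff₀ hε] at hk
    rw [div_le_iff₀ (by positivity)]
    nlinarith
  let h : ℝ → ℝ := fun s => (max s a)⁻¹ * (min s a / a) ^ k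
  have hm : ∀ s : ℝ, max s a ≠ 0 := fun s => (lt_of_lt_of_le h0 (le_max_right s a)).ne'
  have hc : Continuous h := by
    refine Continuous.mul (Continuous.inv₀ (by fun_prop) hm) (by fun_prop)
  obtain ⟨P, hP⟩ := poly_up hc (half_pos hε)
  have hh1 : ∀ s ∈ Set.Icc a 1, h s = s⁻¹ := by
    intro s hs
    show (max s a)⁻¹ * (min s a / a) ^ k = s⁻¹
    rw [max_eq_left hs.1, min_eq_right hs.1, div_self h0.ne', one_pow, mul_one]
  have hh2 : ∀ s ∈ Set.Icc 0 a, h s = a⁻¹ * (s / a) ^ k := by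
    intro s hs
    show (max s a)⁻¹ * (min s a / a) ^ k = a⁻¹ * (s / a) ^ k
    rw [max_eq_right hs.2, min_eq_left hs.2]
  have hint : ∫ x in (0 : ℝ)..1, h x = 1 / ((k : ℝ) + 1) + 1 := by
    rw [← intervalIntegral.integral_add_adjacent_intervals (hc.intervalIntegrable 0 a)
      (hc.intervalIntegrable a 1)]
    congr 1
    · have e : ∫ x in (0 : ℝ)..a, h x = ∫ x in (0 : ℝ)..a, a⁻¹ * (a⁻¹ ^ k * x ^ k) := by
        refine intervalIntegral.integral_congr fun s hs => ?_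
        rw [Set.uIcc_of_le h0.le] at hs
        show h s = a⁻¹ * (a⁻¹ ^ k * s ^ k)
        rw [hh2 s hs, div_eq_inv_mul, mul_pow]
      rw [e, intervalIntegral.integral_const_mul, intervalIntegral.integral_const_mul,
        integral_pow, inv_pow]
      have : a ≠ 0 := h0.ne'
      field_simp
      ring
    · refine Eq.trans ?_ (int_inv ha)
      refine intervalIntegral.integral_congr fun s hs => ?_
      rw [Set.uIcc_of_le h1.le] at hs
      exact hh1 s hs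
  refine ⟨P, ?_, ?_, ?_, ?_⟩
  · intro s hs
    refine le_trans ?_ (hP s hs).1
    show 0 ≤ (max s a)⁻¹ * (min s a / a) ^ k
    have : 0 ≤ min s a := le_min hs.1 h0.le
    positivity
  · intro s hs
    rw [← hh1 s hs]
    exact (hP s ⟨h0.le.trans hs.1, hs.2⟩).1
  · have : ∫ x in (0 : ℝ)..1, P.eval x ≤ ∫ x in (0 : ℝ)..1, (h x + ε / 2) := by
      refine intervalIntegral.integral_mono_on zero_le_one (P.continuous.intervalIntegrable _ _)
        ((hc.add continuous_const).intervalIntegrable _ _) fun s hs => (hP s hs).2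
    rw [intervalIntegral.integral_add (hc.intervalIntegrable _ _)
      (continuous_const.intervalIntegrable _ _), hint, intervalIntegral.integral_const] at this
    simp only [sub_zero, smul_eq_mul, one_mul] at this
    linarith
  · have := (hP 1 ⟨zero_le_one, le_rfl⟩).2
    rw [hh1 1 ⟨h1.le, le_rfl⟩] at this
    rw [inv_one] at this
    linarith

theorem lo {a : ℝ} (ha : a = Real.exp (-1)) {ε : ℝ} (hε : 0 < ε) : ∃ P : ℝ[X],
    (∀ s ∈ Set.Icc (0 : ℝ) a, P.eval s ≤ 0) ∧ (∀ s ∈ Set.Icc a 1, P.eval s ≤ s⁻¹) ∧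
    1 - ε ≤ ∫ x in (0 : ℝ)..1, P.eval x ∧ 1 - ε ≤ P.eval 1 := by
  have h0 : 0 < a := ha ▸ Real.exp_pos _
  have h1 : a < 1 := by
    rw [ha, ← Real.exp_zero]
    exact Real.exp_lt_exp.2 (by norm_num)
  have h1a : 0 < 1 - a := by linarith
  obtain ⟨k, hk⟩ := exists_nat_gt (2 * a⁻¹ / ε)
  have hk1 : a⁻¹ * ((1 - a) * (1 / ((k : ℝ) + 1))) ≤ ε / 2 := by
    rw [div_lt_iff₀ hε] at hk
    have e : a⁻¹ * ((1 - a) * (1 / ((k : ℝ) + 1))) = a⁻¹ * (1 - a) / ((k : ℝ) + 1) := by ring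
    rw [e, div_le_iff₀ (by positivity)]
    have h2 : a⁻¹ * (1 - a) ≤ a⁻¹ := by
      have : 0 < a⁻¹ := inv_pos.2 h0
      nlinarith
    nlinarith
  have hk0 : k ≠ 0 := by
    rintro rfl
    have : 0 < 2 * a⁻¹ / ε := by positivity
    rw [Nat.cast_zero] at hk
    linarith
  let h : ℝ → ℝ := fun s => (max s a)⁻¹ - a⁻¹ * (min 1 ((1 - s) / (1 - a))) ^ k
  have hm : ∀ s : ℝ, max s a ≠ 0 := fun s => (lt_of_lt_of_le h0 (le_max_right s a)).ne'
  have hc : Continuous h := by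
    refine Continuous.sub (Continuous.inv₀ (by fun_prop) hm) (by fun_prop)
  obtain ⟨P, hP⟩ := poly_up hc.neg (half_pos hε)
  have hh1 : ∀ s ∈ Set.Icc a 1, h s = s⁻¹ - a⁻¹ * ((1 - a)⁻¹ ^ k * (1 - s) ^ k) := by
    intro s hs
    show (max s a)⁻¹ - a⁻¹ * (min 1 ((1 - s) / (1 - a))) ^ k = _
    have : (1 - s) / (1 - a) ≤ 1 := by
      rw [div_le_one h1a]
      linarith [hs.1]
    rw [max_eq_left hs.1, min_eq_right this, div_eq_inv_mul, mul_pow]
  have hh2 : ∀ s ∈ Set.Icc 0 a, h s = 0 := by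
    intro s hs
    show (max s a)⁻¹ - a⁻¹ * (min 1 ((1 - s) / (1 - a))) ^ k = 0
    have : 1 ≤ (1 - s) / (1 - a) := by
      rw [le_div_iff₀ h1a]
      linarith [hs.2]
    rw [max_eq_right hs.2, min_eq_left this, one_pow, mul_one, sub_self]
  have hint : ∫ x in (0 : ℝ)..1, h x = 1 - a⁻¹ * ((1 - a) * (1 / ((k : ℝ) + 1))) := by
    rw [← intervalIntegral.integral_add_adjacent_intervals (hc.intervalIntegrable 0 a)
      (hc.intervalIntegrable a 1)]
    have e1 : ∫ x in (0 : ℝ)..a, h x = 0 := by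
      have e : ∫ x in (0 : ℝ)..a, h x = ∫ x in (0 : ℝ)..a, (0 : ℝ) := by
        refine intervalIntegral.integral_congr fun s hs => ?_
        rw [Set.uIcc_of_le h0.le] at hs
        exact hh2 s hs
      rw [e, intervalIntegral.integral_zero]
    have e2 : ∫ x in a..1, h x = ∫ x in a..1, (x⁻¹ - a⁻¹ * ((1 - a)⁻¹ ^ k * (1 - x) ^ k)) := by
      refine intervalIntegral.integral_congr fun s hs => ?_
      rw [Set.uIcc_of_le h1.le] at hs
      exact hh1 s hs
    have i1 : IntervalIntegrable (fun x : ℝ => x⁻¹) MeasureTheory.volume a 1 := by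
      refine ContinuousOn.intervalIntegrable ?_
      rw [Set.uIcc_of_le h1.le]
      exact continuousOn_inv₀.mono fun x hx => (lt_of_lt_of_le h0 hx.1).ne'
    have e3 : ∫ x in a..1, (1 - x) ^ k = (1 - a) ^ (k + 1) / ((k : ℝ) + 1) := by
      rw [intervalIntegral.integral_comp_sub_left (fun x : ℝ => x ^ k) 1, integral_pow]
      simp
    rw [e1, e2, intervalIntegral.integral_sub i1
      ((by fun_prop : Continuous fun x : ℝ =>
        a⁻¹ * ((1 - a)⁻¹ ^ k * (1 - x) ^ k)).intervalIntegrable _ _), int_inv ha,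
      intervalIntegral.integral_const_mul, intervalIntegral.integral_const_mul, e3, inv_pow]
    have : (1 - a) ≠ 0 := h1a.ne'
    field_simp
    ring
  refine ⟨-P, ?_, ?_, ?_, ?_⟩
  · intro s hs
    have := (hP s ⟨hs.1, hs.2.trans h1.le⟩).1
    rw [Pi.neg_apply, hh2 s hs] at this
    rw [eval_neg]
    linarith
  · intro s hs
    have := (hP s ⟨h0.le.trans hs.1, hs.2⟩).1
    rw [Pi.neg_apply, hh1 s hs] at this
    rw [eval_neg]
    have h2 : 0 ≤ a⁻¹ * ((1 - a)⁻¹ ^ k * (1 - s) ^ k) := by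
      have : 0 ≤ 1 - s := by linarith [hs.2]
      positivity
    linarith
  · have : ∫ x in (0 : ℝ)..1, (h x - ε / 2) ≤ ∫ x in (0 : ℝ)..1, (-P).eval x := by
      refine intervalIntegral.integral_mono_on zero_le_one
        ((hc.sub continuous_const).intervalIntegrable _ _)
        ((-P).continuous.intervalIntegrable _ _) fun s hs => ?_
      have := (hP s hs).2
      rw [Pi.neg_apply] at this
      rw [eval_neg]
      linarith
    rw [intervalIntegral.integral_sub (hc.intervalIntegrable _ _)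
      (continuous_const.intervalIntegrable _ _), hint, intervalIntegral.integral_const] at this
    simp only [sub_zero, smul_eq_mul, one_mul] at this
    linarith
  · have := (hP 1 ⟨zero_le_one, le_rfl⟩).2
    rw [Pi.neg_apply, hh1 1 ⟨h1.le, le_rfl⟩, sub_self, zero_pow hk0, inv_one] at this
    rw [eval_neg]
    linarith

theorem lap (P : ℝ[X]) {n A B η : ℝ} (S : Finset ℕ) (p : ℕ → ℝ)
    (h : ∀ l : ℕ, 1 ≤ l → l ≤ P.natDegree + 1 →
      |∑ ℓ ∈ S, p ℓ * Real.exp (-(l * ℓ / n)) - (A * n / l + B)| ≤ η) :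
    |∑ ℓ ∈ S, p ℓ * (Real.exp (-(ℓ / n)) * P.eval (Real.exp (-(ℓ / n)))) -
      (A * n * (∫ x in (0 : ℝ)..1, P.eval x) + B * P.eval 1)| ≤
      (∑ i ∈ range (P.natDegree + 1), |P.coeff i|) * η := by
  have e1 : ∑ ℓ ∈ S, p ℓ * (Real.exp (-(ℓ / n)) * P.eval (Real.exp (-(ℓ / n)))) =
      ∑ i ∈ range (P.natDegree + 1), P.coeff i *
        ∑ ℓ ∈ S, p ℓ * Real.exp (-(((i + 1 : ℕ) : ℝ) * ℓ / n)) := by
    simp only [mul_sum]
    rw [sum_comm]
    refine sum_congr rfl fun ℓ _ => ?_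
    rw [eval_eq_sum_range, mul_sum, mul_sum]
    refine sum_congr rfl fun i _ => ?_
    have : Real.exp (-(((i + 1 : ℕ) : ℝ) * ℓ / n)) = Real.exp (-(ℓ / n)) ^ (i + 1) := by
      rw [← Real.exp_nat_mul]
      congr 1
      ring
    rw [this, pow_succ]
    ring
  have e2 : A * n * (∫ x in (0 : ℝ)..1, P.eval x) + B * P.eval 1 =
      ∑ i ∈ range (P.natDegree + 1), P.coeff i * (A * n / ((i + 1 : ℕ) : ℝ) + B) := by
    rw [int_poly, eval_eq_sum_range, mul_sum, mul_sum, ← sum_add_distrib]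
    refine sum_congr rfl fun i _ => ?_
    push_cast
    rw [one_pow]
    ring
  rw [e1, e2, ← sum_sub_distrib, sum_mul]
  refine (abs_sum_le_sum_abs _ _).trans (sum_le_sum fun i hi => ?_)
  rw [← mul_sub, abs_mul]
  refine mul_le_mul_of_nonneg_left ?_ (abs_nonneg _)
  exact h (i + 1) (by omega) (by have := mem_range.1 hi; omega)

theorem t_KAR : Pool.Agent.H961.T3.S_KAR := by
  intro ε hε
  obtain ⟨P, hP0, hP1, hPi, hPe⟩ := up (a := Real.exp (-1)) rfl (half_pos hε)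
  obtain ⟨Q, hQ0, hQ1, hQi, hQe⟩ := lo (a := Real.exp (-1)) rfl (half_pos hε)
  have hcP : 0 ≤ ∑ i ∈ range (P.natDegree + 1), |P.coeff i| := sum_nonneg fun _ _ => abs_nonneg _
  have hcQ : 0 ≤ ∑ i ∈ range (Q.natDegree + 1), |Q.coeff i| := sum_nonneg fun _ _ => abs_nonneg _
  let C : ℝ := 1 + (∑ i ∈ range (P.natDegree + 1), |P.coeff i|) +
    ∑ i ∈ range (Q.natDegree + 1), |Q.coeff i|
  have hC : 0 < C := by
    show 0 < 1 + (∑ i ∈ range (P.natDegree + 1), |P.coeff i|) +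
      ∑ i ∈ range (Q.natDegree + 1), |Q.coeff i|
    linarith
  refine ⟨ε / 2 / C, P.natDegree + Q.natDegree + 1, by positivity, ?_⟩
  intro n A B hn hA hB S p hp h
  have hT : 0 ≤ A * n + B := by positivity
  have kP := lap P S p (n := n) (A := A) (B := B) (fun l h1 h2 => h l h1 (by omega))
  have kQ := lap Q S p (n := n) (A := A) (B := B) (fun l h1 h2 => h l h1 (by omega))
  have bP : (∑ i ∈ range (P.natDegree + 1), |P.coeff i|) * (ε / 2 / C * (A * n + B)) ≤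
      ε / 2 * (A * n + B) := by
    have : (∑ i ∈ range (P.natDegree + 1), |P.coeff i|) ≤ C := by
      show _ ≤ 1 + (∑ i ∈ range (P.natDegree + 1), |P.coeff i|) +
        ∑ i ∈ range (Q.natDegree + 1), |Q.coeff i|
      linarith
    calc _ ≤ C * (ε / 2 / C * (A * n + B)) := by gcongr
      _ = _ := by field_simp
  have bQ : (∑ i ∈ range (Q.natDegree + 1), |Q.coeff i|) * (ε / 2 / C * (A * n + B)) ≤
      ε / 2 * (A * n + B) := by
    have : (∑ i ∈ range (Q.natDegree + 1), |Q.coeff i|) ≤ C := by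
      show _ ≤ 1 + (∑ i ∈ range (P.natDegree + 1), |P.coeff i|) +
        ∑ i ∈ range (Q.natDegree + 1), |Q.coeff i|
      linarith
    calc _ ≤ C * (ε / 2 / C * (A * n + B)) := by gcongr
      _ = _ := by field_simp
  -- the points `s_ℓ`
  have hs1 : ∀ ℓ : ℕ, Real.exp (-(ℓ / n)) ≤ 1 := fun ℓ => by
    rw [Real.exp_le_one_iff]
    have : (0 : ℝ) ≤ ℓ / n := by positivity
    linarith
  have hs2 : ∀ ℓ : ℕ, (ℓ : ℝ) ≤ n → Real.exp (-1) ≤ Real.exp (-(ℓ / n)) := fun ℓ hl => by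
    rw [Real.exp_le_exp, neg_le_neg_iff, div_le_one hn]
    exact hl
  have hs3 : ∀ ℓ : ℕ, ¬ (ℓ : ℝ) ≤ n → Real.exp (-(ℓ / n)) ≤ Real.exp (-1) := fun ℓ hl => by
    rw [Real.exp_le_exp, neg_le_neg_iff, one_le_div hn]
    exact (not_le.1 hl).le
  have u1 : ∑ ℓ ∈ S.filter (fun ℓ : ℕ => (ℓ : ℝ) ≤ n), p ℓ ≤
      ∑ ℓ ∈ S, p ℓ * (Real.exp (-(ℓ / n)) * P.eval (Real.exp (-(ℓ / n)))) := by
    rw [sum_filter]
    refine sum_le_sum fun ℓ _ => ?_
    have hpos := Real.exp_pos (-((ℓ : ℝ) / n))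
    split_ifs with hl
    · have h3 := hP1 _ ⟨hs2 ℓ hl, hs1 ℓ⟩
      have h4 : 1 ≤ Real.exp (-(ℓ / n)) * P.eval (Real.exp (-(ℓ / n))) := by
        calc (1 : ℝ) = Real.exp (-(ℓ / n)) * (Real.exp (-(ℓ / n)))⁻¹ :=
              (mul_inv_cancel₀ hpos.ne').symm
          _ ≤ _ := mul_le_mul_of_nonneg_left h3 hpos.le
      nlinarith [hp ℓ]
    · exact mul_nonneg (hp ℓ) (mul_nonneg hpos.le (hP0 _ ⟨hpos.le, hs1 ℓ⟩))
  have l1 : ∑ ℓ ∈ S, p ℓ * (Real.exp (-(ℓ / n)) * Q.eval (Real.exp (-(ℓ / n)))) ≤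
      ∑ ℓ ∈ S.filter (fun ℓ : ℕ => (ℓ : ℝ) ≤ n), p ℓ := by
    rw [sum_filter]
    refine sum_le_sum fun ℓ _ => ?_
    have hpos := Real.exp_pos (-((ℓ : ℝ) / n))
    split_ifs with hl
    · have h3 := hQ1 _ ⟨hs2 ℓ hl, hs1 ℓ⟩
      have h4 : Real.exp (-(ℓ / n)) * Q.eval (Real.exp (-(ℓ / n))) ≤ 1 := by
        calc _ ≤ Real.exp (-(ℓ / n)) * (Real.exp (-(ℓ / n)))⁻¹ :=
              mul_le_mul_of_nonneg_left h3 hpos.le
          _ = 1 := mul_inv_cancel₀ hpos.ne'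
      nlinarith [hp ℓ]
    · have h3 := hQ0 _ ⟨hpos.le, hs3 ℓ hl⟩
      exact mul_nonpos_of_nonneg_of_nonpos (hp ℓ) (mul_nonpos_of_nonneg_of_nonpos hpos.le h3)
  have tP : A * n * (∫ x in (0 : ℝ)..1, P.eval x) + B * P.eval 1 ≤ (1 + ε / 2) * (A * n + B) := by
    have : 0 ≤ A * n := by positivity
    nlinarith
  have tQ : (1 - ε / 2) * (A * n + B) ≤ A * n * (∫ x in (0 : ℝ)..1, Q.eval x) + B * Q.eval 1 := by
    have : 0 ≤ A * n := by positivity
    nlinarith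
  have kP' := abs_le.1 (kP.trans bP)
  have kQ' := abs_le.1 (kQ.trans bQ)
  rw [abs_le]
  constructor
  · linarith [kQ'.1]
  · linarith [kP'.2]

end Pool.Agent.H961.T3.Karh
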