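import Pool.Agent.H961.T3.Stm3
import Pool.Agent.H961.T3.Rec
import Pool.Agent.H961.T3.Cir

/-!
# MS ONEC: the mean of `∑_x w ^ |cycle of x|` for circuits (helper588)
-/

set_option autoImplicit false

namespace Pool.Agent.H961.T3.Onech

open Finset Equiv Matrix Q292.LC Pool.Agent.H961.T2 Pool.Agent.H961.T3
open Pool.Agent.Q297.LC (pow_exp)
open Pool.Agent.Q68.LC (EE_congr EE_const EE_add EE_smul EE_mono SS SS_dg SS_pow SS_le)

section gen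

variable {V : Type} [Fintype V] [DecidableEq V]

theorem biUnion_filter (g : Perm V) (A : Finset V) (hA : Inv g A) :
    ((cycs g).filter fun C => C ⊆ A).biUnion id = A := by
  ext x
  simp only [mem_biUnion, mem_filter, id]
  constructor
  · rintro ⟨C, ⟨-, hC⟩, hx⟩
    exact hC hx
  · intro hx
    exact ⟨cyc g x, ⟨mem_image_of_mem _ (mem_univ x), cyc_sub g A hA x hx⟩,
      (Pool.Agent.Q153.LC.mem_cyc g x x).2 (Equiv.Perm.SameCycle.refl g x)⟩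

/-- the identity with special cycles for one special cycle -/
theorem star_one (hSTAR : S_STAR) (hCYC : S_CYC) (e : ℕ → V × V) (n : ℕ) (δ w : ℝ) (hδ0 : 0 ≤ δ)
    (hδ1 : δ ≤ 1) (hw0 : 0 ≤ w) (hw1 : w < 1) :
    EE n δ (fun ω => ph (ι := Finset V) card [w] (cycs (gp e ω n))) =
      PE e n δ w (fun ω A => ∑ x ∈ univ \ A, Gx w (univ \ A) (TT e ω A δ n) x) := by
  classical
  rw [hSTAR V e n δ w [] hδ0 hδ1 hw0 hw1]
  unfold PE
  congr 1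
  funext ω
  refine sum_congr rfl fun A _ => ?_
  by_cases hi : Inv (gp e ω n) A
  · rw [if_pos hi, if_pos hi]
    obtain ⟨c1, c2, c3, c4, c5⟩ := hCYC V (gp e ω n)
    congr 2
    show ∏ C ∈ (cycs (gp e ω n)).filter (fun C => C ⊆ A), w ^ C.card = w ^ A.card
    rw [Finset.prod_pow_eq_pow_sum, ← c3 _ (filter_subset _ _), biUnion_filter _ _ hi]
  · rw [if_neg hi, if_neg hi]

open Classical in
theorem PE_card (hCYC : S_CYC) (e : ℕ → V × V) (n : ℕ) (δ w : ℝ) (hδ0 : 0 ≤ δ) (hδ1 : δ ≤ 1)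
    (hw0 : 0 ≤ w) (hw1 : w < 1) :
    PE e n δ w (fun _ A => (A.card : ℝ)) =
      EE n δ (fun ω => ph (ι := Finset V) card [w] (cycs (gp e ω n))) := by
  obtain ⟨p1, p2, p3, p4, p5, p6⟩ := Pool.Agent.Q277.LC.peb V e n δ w hδ0 hδ1 hw0 hw1
  have psum : ∀ (S : Finset V) (F : V → (ℕ → Bool) → Finset V → ℝ),
      PE e n δ w (fun ω A => ∑ x ∈ S, F x ω A) = ∑ x ∈ S, PE e n δ w (F x) := by
    intro S F
    induction S using Finset.induction_on with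
    | empty =>
      simp only [Finset.sum_empty]
      rw [p1 (fun _ => 0)]
      exact EE_const n δ 0
    | insert a S ha ih =>
      simp only [Finset.sum_insert ha]
      rw [p2, ih]
  have esum : ∀ (S : Finset V) (F : V → (ℕ → Bool) → ℝ),
      EE n δ (fun ω => ∑ x ∈ S, F x ω) = ∑ x ∈ S, EE n δ (F x) := by
    intro S F
    induction S using Finset.induction_on with
    | empty =>
      simp only [Finset.sum_empty]
      exact EE_const n δ 0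
    | insert a S ha ih =>
      simp only [Finset.sum_insert ha]
      rw [EE_add, ih]
  have h1 : (fun (_ : ℕ → Bool) (A : Finset V) => (A.card : ℝ)) =
      fun (_ : ℕ → Bool) (A : Finset V) => ∑ x : V, (if x ∈ A then (1 : ℝ) else 0) := by
    funext _ A
    rw [← sum_filter, sum_const, nsmul_eq_mul, mul_one]
    congr 2
    ext y
    simp
  rw [h1, psum]
  have h2 : ∀ x : V, PE e n δ w (fun _ A => if x ∈ A then (1 : ℝ) else 0) =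
      EE n δ (fun ω => w ^ (cyc (gp e ω n) x).card) := by
    intro x
    rw [← p6 x, ← p5 (fun _ A => x ∈ A)]
    congr 1
    funext _ A
    by_cases hx : x ∈ A
    · rw [if_pos hx, if_pos hx]
    · rw [if_neg hx, if_neg hx]
  simp only [h2]
  rw [← esum]
  congr 1
  funext ω
  obtain ⟨c1, c2, c3, c4, c5⟩ := hCYC V (gp e ω n)
  rw [c5 (fun C => w ^ C.card)]
  show _ = ∑ C ∈ cycs (gp e ω n), (C.card : ℝ) * w ^ C.card * 1
  simp only [mul_one]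

open Classical in
/-- the estimate of the mean from the estimate in good environments -/
theorem core (hSTAR : S_STAR) (hCYC : S_CYC) (e : ℕ → V × V) (n : ℕ) (δ w : ℝ) (hδ0 : 0 ≤ δ)
    (hδ1 : δ ≤ 1) (hw0 : 0 ≤ w) (hw1 : w < 1) (G : (ℕ → Bool) → Finset V → Prop)
    (M e₁ β D : ℝ) (hM : 0 ≤ M) (he : 0 ≤ e₁) (hβ : 0 ≤ β)
    (hG : ∀ ω A, G ω A → Inv (gp e ω n) A →
      |∑ x ∈ univ \ A, Gx w (univ \ A) (TT e ω A δ n) x - M| ≤ e₁ + β * A.card)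
    (hD : (Fintype.card V : ℝ) / (1 - w) + M ≤ D) (S : ℝ)
    (hS : S = EE n δ (fun ω => ph (ι := Finset V) card [w] (cycs (gp e ω n)))) :
    |S - M| ≤ e₁ + β * S + D * PW e n δ w (fun ω A => ¬ G ω A) := by
  obtain ⟨p1, p2, p3, p4, p5, p6⟩ := Pool.Agent.Q277.LC.peb V e n δ w hδ0 hδ1 hw0 hw1
  have hconst : ∀ c : ℝ, PE e n δ w (fun _ _ => c) = c := fun c => by
    rw [p1 (fun _ => c)]
    exact EE_const n δ c
  have hcard := PE_card hCYC e n δ w hδ0 hδ1 hw0 hw1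
  rw [← hS] at hcard
  have hstar := star_one hSTAR hCYC e n δ w hδ0 hδ1 hw0 hw1
  rw [← hS] at hstar
  have hpt : ∀ ω A, Inv (gp e ω n) A →
      |∑ x ∈ univ \ A, Gx w (univ \ A) (TT e ω A δ n) x - M| ≤
        (e₁ + β * A.card) + D * (if ¬ G ω A then 1 else 0) := by
    intro ω A hi
    have hc : 0 ≤ β * (A.card : ℝ) := mul_nonneg hβ (Nat.cast_nonneg _)
    by_cases hGA : G ω A
    · rw [if_neg (not_not.2 hGA), mul_zero, add_zero]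
      exact hG ω A hGA hi
    · rw [if_pos hGA, mul_one]
      obtain ⟨b1, b2, -⟩ := Pool.Agent.Q68.LC.bas2 V e ω A δ hδ0 hδ1
      obtain ⟨g1, g2⟩ := Pool.Agent.H961.T3.Rech.Gx_sum_bd w (univ \ A) (TT e ω A δ n)
        ⟨fun x y => b1 n x y, fun x => (b2 n x).le⟩ hw0 hw1
      rw [abs_le]
      constructor <;> linarith
  have h5 : PE e n δ w (fun ω A => if ¬ G ω A then 1 else 0) =
      PW e n δ w (fun ω A => ¬ G ω A) := by
    rw [← p5 (fun ω A => ¬ G ω A)]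
    congr 1
    funext ω A
    by_cases hx : G ω A
    · rw [if_neg (not_not.2 hx), if_neg (not_not.2 hx)]
    · rw [if_pos hx, if_pos hx]
  have hPD : PE e n δ w (fun ω A => (e₁ + β * A.card) + D * (if ¬ G ω A then 1 else 0)) =
      e₁ + β * S + D * PW e n δ w (fun ω A => ¬ G ω A) := by
    rw [p2 (fun _ A => e₁ + β * A.card) (fun ω A => D * (if ¬ G ω A then 1 else 0)),
      p2 (fun _ _ => e₁) (fun _ A => β * (A.card : ℝ)), hconst, p3 β, p3 D, hcard, h5]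
  have hsub : ∀ c : ℝ, PE e n δ w (fun ω A =>
      c * (∑ x ∈ univ \ A, Gx w (univ \ A) (TT e ω A δ n) x) + (-c) * M) = c * (S - M) := by
    intro c
    rw [p2 (fun ω A => c * (∑ x ∈ univ \ A, Gx w (univ \ A) (TT e ω A δ n) x))
      (fun _ _ => (-c) * M), p3 c, hconst, ← hstar]
    ring
  rw [← hPD, abs_le']
  constructor
  · have h1 := hsub 1
    rw [one_mul] at h1
    rw [← h1]
    refine p4 _ _ fun ω A hi => ?_
    have := (abs_le'.1 (hpt ω A hi)).1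
    linarith
  · have h1 := hsub (-1)
    have h2 : -(S - M) = -1 * (S - M) := by ring
    rw [h2, ← h1]
    refine p4 _ _ fun ω A hi => ?_
    have := (abs_le'.1 (hpt ω A hi)).2
    linarith

end gen

/-- the traces of the free kernel -/
theorem trace_bd (d : ℕ) (hd : 3 ≤ d) : ∃ (C m : ℕ) (c : ℝ), 3 ≤ C ∧ 0 < c ∧ ∀ Z : ℕ, C ≤ Z →
    ∀ (L K r : ℕ) [NeZero L], (L : ℝ) ^ d ≤ Real.exp Z →
    Z ^ m ≤ r → 8 * Z ^ m ≤ L → Z ^ m ≤ K → 1 ≤ K → ∃ q₀ : ℕ, ∀ q ≥ q₀,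
    ∀ σ : ℕ → (Fin d → ZMod L) × Fin d, Per σ → ∀ δ : ℝ, 1 ≤ δ * q → δ * q ≤ 2 → ∀ k : ℕ,
    (PP (ed ∘ σ) δ (K * (q * ms d L)) ^ (k + 1)).trace ≤
      C + c ^ (-(d / 2 : ℝ)) * ((L : ℝ) ^ d * (K : ℝ) ^ (-(d / 2 : ℝ))) := by
  obtain ⟨C, m, c, hC, hc, h⟩ := ker2 d hd
  refine ⟨C, m, c, hC, hc, ?_⟩
  intro Z hZ L K r _ hL hr hZL hZK hK1
  obtain ⟨q₀, hq₀⟩ := h Z hZ L K Z r Z Z le_rfl le_rfl le_rfl hL hr hZL hZK
  refine ⟨q₀, fun q hq σ hσ δ h1 h2 k => ?_⟩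
  have hLpos : (0 : ℝ) < L := by exact_mod_cast Nat.pos_of_ne_zero (NeZero.ne L)
  have hKpos : (0 : ℝ) < K := by exact_mod_cast hK1
  have hEv : Ev σ q K Z r Z Z (fun _ => false) (∅ : Finset (Fin d → ZMod L)) := by
    refine ⟨fun j _ v => ?_, fun j _ a ha => ?_, fun a ha => ?_⟩
    · simp
    · simp at ha
    · simp at ha
  have hent : ∀ x : Fin d → ZMod L, (PP (ed ∘ σ) δ (K * (q * ms d L)) ^ (k + 1)) x x ≤
      C / (L : ℝ) ^ d + c ^ (-(d / 2 : ℝ)) * (K : ℝ) ^ (-(d / 2 : ℝ)) := by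
    intro x
    have h3 := hq₀ q hq σ hσ δ h1 h2 (fun _ => false) ∅ hEv univ x x
      (Finset.disjoint_empty_right _) (Finset.notMem_empty _) k
    have h4 : dg (univ : Finset (Fin d → ZMod L)) = (1 : Matrix _ _ ℝ) := by
      unfold dg
      simp
    rw [h4, one_mul, ← pow_succ'] at h3
    refine h3.trans (add_le_add le_rfl ?_)
    rw [← Real.mul_rpow hc.le hKpos.le]
    refine Real.rpow_le_rpow_of_nonpos (by positivity) ?_ ?_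
    · have h5 : (1 : ℝ) ≤ (k : ℝ) + 1 := by
        have : (0 : ℝ) ≤ k := Nat.cast_nonneg _
        linarith
      exact le_mul_of_one_le_right (by positivity) h5
    · have : (0 : ℝ) ≤ d := Nat.cast_nonneg _
      linarith
  unfold Matrix.trace
  refine (Finset.sum_le_sum fun x _ => hent x).trans (le_of_eq ?_)
  rw [sum_const, card_univ, Fintype.card_fun, ZMod.card, Fintype.card_fin, nsmul_eq_mul]
  push_cast
  field_simp

/-- the final calculation -/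
theorem fin_calc (S M e₁ β DP x Y ε rrk C₂ C₃ c' k₀ Zm ρ : ℝ) (hx : 0 ≤ x) (hY : 0 ≤ Y)
    (hY1 : 1 ≤ Y) (hε : 0 < ε)
    (hrr : 0 ≤ rrk) (hC₂ : 0 ≤ C₂) (hC₃ : 0 ≤ C₃) (hk₀ : 0 ≤ k₀) (hβ0 : 0 ≤ β)
    (hβ1 : β ≤ 1 / 2) (hβ2 : β ≤ ε / 8) (hβ3 : β * (k₀ * (C₃ + c')) ≤ ε / 8)
    (h0 : |S - M| ≤ e₁ + β * S + DP) (hS0 : M ≤ x + k₀ * (C₃ + c' * Y))
    (he : e₁ = Zm * (1 + ρ) + k₀ + C₂ * (Y * rrk)) (h1 : Zm * (1 + ρ) ≤ ε / 8 * Y)
    (h2 : k₀ ≤ ε / 8 * Y) (h4 : DP ≤ ε / 8 * x) :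
    |S - M| ≤ (ε + 2 * C₂ * rrk) * (x + Y) := by
  have e1 : S ≤ M + |S - M| := by linarith [le_abs_self (S - M)]
  have e2 : β * S ≤ β * (M + |S - M|) := mul_le_mul_of_nonneg_left e1 hβ0
  have e3 : β * |S - M| ≤ 1 / 2 * |S - M| := mul_le_mul_of_nonneg_right hβ1 (abs_nonneg _)
  have e4 : β * M ≤ β * (x + k₀ * (C₃ + c' * Y)) := mul_le_mul_of_nonneg_left hS0 hβ0
  have e5 : β * x ≤ ε / 8 * x := mul_le_mul_of_nonneg_right hβ2 hx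
  have e6 : k₀ * (C₃ + c' * Y) ≤ k₀ * (C₃ + c') * Y := by
    have : C₃ ≤ C₃ * Y := le_mul_of_one_le_right hC₃ hY1
    nlinarith
  have e7 : β * (k₀ * (C₃ + c' * Y)) ≤ ε / 8 * Y := by
    calc β * (k₀ * (C₃ + c' * Y)) ≤ β * (k₀ * (C₃ + c') * Y) :=
          mul_le_mul_of_nonneg_left e6 hβ0
      _ = β * (k₀ * (C₃ + c')) * Y := by ring
      _ ≤ ε / 8 * Y := mul_le_mul_of_nonneg_right hβ3 hY
  have e8 : 0 ≤ ε * x := by positivity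
  have e9 : 0 ≤ ε * Y := by positivity
  have e10 : 0 ≤ C₂ * rrk * x := by positivity
  have e11 : 0 ≤ C₂ * rrk * Y := by positivity
  have e12 : |S - M| ≤ 2 * e₁ + 2 * (β * (x + k₀ * (C₃ + c' * Y))) + 2 * DP := by
    linarith
  rw [he] at e12
  nlinarith

/-- the return probability is large compared with `L² / K` -/
theorem Y_lower (d L K : ℕ) (hd : 3 ≤ d) (ℓ : ℝ) (a : ℕ) (hℓ : 1 ≤ ℓ) (hL : 1 ≤ L) (hK : 1 ≤ K)
    (h : K * ℓ ^ (2 * a) ≤ (L : ℝ) ^ 2) :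
    1 ≤ (L : ℝ) ^ 2 / K ∧
    (L : ℝ) ^ 2 / K * ℓ ^ a ≤ (L : ℝ) ^ d * (K : ℝ) ^ (-(d / 2 : ℝ)) := by
  have hKr : (0 : ℝ) < K := by exact_mod_cast hK
  have hLr : (0 : ℝ) < L := by exact_mod_cast hL
  have hd3 : (3 : ℝ) ≤ d := by exact_mod_cast hd
  obtain ⟨ρ, hρ⟩ : ∃ ρ : ℝ, ρ = (L : ℝ) ^ 2 / K := ⟨_, rfl⟩
  have h1 : (ℓ ^ a) ^ 2 ≤ ρ := by
    rw [hρ, le_div_iff₀ hKr, ← pow_mul, mul_comm a 2]
    linarith
  have h2 : 1 ≤ ℓ ^ a := one_le_pow₀ hℓ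
  have h3 : 1 ≤ ρ := by nlinarith
  have h4 : (L : ℝ) ^ d * (K : ℝ) ^ (-(d / 2 : ℝ)) = ρ ^ (d / 2 : ℝ) := by
    rw [hρ, Real.div_rpow (by positivity) hKr.le, Real.rpow_neg hKr.le, div_eq_mul_inv]
    congr 1
    rw [← Real.rpow_natCast, ← Real.rpow_natCast, ← Real.rpow_mul hLr.le]
    congr 1
    push_cast
    ring
  rw [h4, ← hρ]
  refine ⟨h3, ?_⟩
  have h5 : ρ ^ (3 / 2 : ℝ) ≤ ρ ^ (d / 2 : ℝ) :=
    Real.rpow_le_rpow_of_exponent_le h3 (by linarith)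
  refine le_trans ?_ h5
  have h6 : ρ ^ (3 / 2 : ℝ) = ρ * Real.sqrt ρ := by
    rw [Real.sqrt_eq_rpow, show (3 / 2 : ℝ) = 1 + 1 / 2 by norm_num,
      Real.rpow_add (by linarith), Real.rpow_one]
  rw [h6]
  refine mul_le_mul_of_nonneg_left ?_ (by linarith)
  exact Real.le_sqrt_of_sq_le h1

/-- ONEC -/
theorem onec (hENV2 : S_ENV2) (hSTAR : S_STAR) (hCYC : S_CYC) : S_ONEC := by
  intro d hd
  obtain ⟨C₁, m₁, hC₁, hB⟩ := all_btl d hd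
  obtain ⟨C₂, m₂, hC₂, hE⟩ := hENV2 d hd
  obtain ⟨C₃, m₃, c, hC₃, hc, hTr⟩ := trace_bd d hd
  obtain ⟨mm, hmm⟩ : ∃ mm : ℕ, mm = m₁ + m₂ + m₃ + 6 := ⟨_, rfl⟩
  obtain ⟨m, hmm1, hpar0⟩ := Pool.Agent.H961.T3.Cirh.params_cir d C₁ (C₂ + C₃) mm hd hC₁
  obtain ⟨T₀, hpar⟩ := hpar0 3
  have hC₂r : (3 : ℝ) ≤ C₂ := by exact_mod_cast hC₂
  have hC₃r : (3 : ℝ) ≤ C₃ := by exact_mod_cast hC₃
  refine ⟨2 * C₂, 2 * (m + 1), by linarith, ?_⟩
  intro k₀ ε hε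
  obtain ⟨c', hc'⟩ : ∃ c' : ℝ, c' = c ^ (-(d / 2 : ℝ)) := ⟨_, rfl⟩
  have hc'0 : 0 ≤ c' := by rw [hc']; exact Real.rpow_nonneg hc.le _
  have hk₀r : (0 : ℝ) ≤ k₀ := Nat.cast_nonneg _
  obtain ⟨Q, hQ⟩ : ∃ Q : ℝ, Q = (k₀ : ℝ) * (C₃ + c') := ⟨_, rfl⟩
  have hQ0 : 0 ≤ Q := by rw [hQ]; positivity
  obtain ⟨η, hη⟩ : ∃ η : ℝ, η = min (1 / 2) (min (ε / 8) (ε / 8 / (Q + 1))) := ⟨_, rfl⟩
  have hη0 : 0 < η := by
    rw [hη]
    refine lt_min (by norm_num) (lt_min (by positivity) (by positivity))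
  obtain ⟨Λ, hΛ⟩ : ∃ Λ : ℝ, Λ = 8 * (2 + k₀) / ε := ⟨_, rfl⟩
  have hΛ0 : 0 ≤ Λ := by rw [hΛ]; positivity
  obtain ⟨T₁, hT₁⟩ : ∃ T₁ : ℕ, T₁ = ⌈Real.exp (2 * Λ)⌉₊ := ⟨_, rfl⟩
  obtain ⟨T₂, hT₂⟩ : ∃ T₂ : ℕ, T₂ = ⌈(2 * C₂ * (k₀ : ℝ) ^ 2 / η) ^ 4⌉₊ := ⟨_, rfl⟩
  refine ⟨T₀ + T₁ + T₂ + 1, ?_⟩
  intro L K _ hL3 hTK hlogK hKL
  obtain ⟨ℓ, hℓ⟩ : ∃ ℓ : ℝ, ℓ = Real.log L := ⟨_, rfl⟩
  rw [← hℓ] at hlogK hKL
  have hL3r : (3 : ℝ) ≤ L := by exact_mod_cast hL3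
  have hLr : (0 : ℝ) < L := by linarith
  have hLpos : 1 ≤ L := by omega
  have hK1 : 1 ≤ K := by omega
  have hKr : (1 : ℝ) ≤ K := by exact_mod_cast hK1
  have hexpℓ : Real.exp ℓ = L := by rw [hℓ, Real.exp_log hLr]
  have hℓ1 : 1 ≤ ℓ := by
    rw [← Real.exp_le_exp, hexpℓ]
    have := Real.exp_one_lt_d9
    linarith
  have hℓL : ℓ ≤ L := by
    rw [← hexpℓ]
    linarith [Real.add_one_le_exp ℓ]
  have hKL2r : (K : ℝ) ≤ (L : ℝ) ^ 2 := by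
    refine le_trans ?_ hKL
    exact le_mul_of_one_le_right (by linarith) (one_le_pow₀ hℓ1)
  have hKL2 : K ≤ L ^ 2 := by exact_mod_cast hKL2r
  have hKLd : K ≤ L ^ d := hKL2.trans (Nat.pow_le_pow_right hLpos (by omega))
  have hℓΛ : Λ ≤ ℓ := by
    have h1 : Real.exp (2 * Λ) ≤ T₁ := by rw [hT₁]; exact Nat.le_ceil _
    have h2 : (T₁ : ℝ) ≤ K := by exact_mod_cast (by omega : T₁ ≤ K)
    have h3 : Real.exp (2 * Λ) ≤ Real.exp (2 * ℓ) := by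
      have h4 : Real.exp (2 * ℓ) = (L : ℝ) ^ 2 := by
        rw [← hexpℓ, ← Real.exp_nat_mul]
        norm_num
      rw [h4]
      linarith
    rw [Real.exp_le_exp] at h3
    linarith
  have hlogm : (Real.log L) ^ m ≤ K := by
    rw [← hℓ]
    exact (pow_le_pow_right₀ hℓ1 (by omega)).trans hlogK
  obtain ⟨Z, z1, z2, z3, z4, z5, z6, z7, hK1', z8⟩ := hpar L K (by omega) hKLd hlogm
  have w1 : Z ^ m₁ ≤ Z ^ mm := Nat.pow_le_pow_right (by omega) (by omega)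
  have w3 : Z ^ m₃ ≤ Z ^ mm := Nat.pow_le_pow_right (by omega) (by omega)
  have w4 : Z ^ 4 ≤ Z ^ mm := Nat.pow_le_pow_right (by omega) (by omega)
  have w2 : Z ^ m₂ + Z ≤ Z ^ mm := by
    have e1 : 1 ≤ Z ^ m₂ := Nat.one_le_pow _ _ (by omega)
    have e2 : Z ^ (m₂ + 2) ≤ Z ^ mm := Nat.pow_le_pow_right (by omega) (by omega)
    have e3 : Z ^ (m₂ + 2) = Z * (Z * Z ^ m₂) := by ring
    have e4 : Z ^ m₂ ≤ Z * Z ^ m₂ := Nat.le_mul_of_pos_left _ (by omega)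
    have e5 : Z ≤ Z * Z ^ m₂ := Nat.le_mul_of_pos_right _ (by omega)
    have e6 : 2 * (Z * Z ^ m₂) ≤ Z * (Z * Z ^ m₂) := Nat.mul_le_mul_right _ (by omega)
    omega
  obtain ⟨q1, hq1⟩ := hB Z (by omega) L K Z (Z ^ mm) Z ((Z - 1) / 2) le_rfl le_rfl (by omega) z3
    w1 (by omega) (by omega) hKLd
  obtain ⟨q2, hq2⟩ := hE Z (by omega) L K Z (Z ^ mm - Z) Z (2 * ((Z - 1) / 2) + 1) le_rfl le_rfl
    (by omega) z3 (by omega) (by omega) (by omega)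
  obtain ⟨q3, hq3⟩ := hTr Z (by omega) L K (Z ^ mm) z3 w3 (by omega) (by omega) hK1
  refine ⟨q1 + q2 + q3 + 2, fun q hq σ hσ δ h1 h2 w hw0 hw1 hwL => ?_⟩
  have hq' : (2 : ℝ) ≤ q := by
    have : 2 ≤ q := by omega
    exact_mod_cast this
  have hδ0 : 0 ≤ δ := by
    by_contra hcon
    push Not at hcon
    have e1 : δ * q ≤ 0 := mul_nonpos_of_nonpos_of_nonneg hcon.le (by linarith)
    linarith
  have hδ1 : δ ≤ 1 := by
    have e1 : δ * 2 ≤ δ * q := mul_le_mul_of_nonneg_left hq' hδ0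
    linarith
  have h1w : 0 < 1 - w := by linarith
  rw [← hℓ] at hwL
  have hwm : (Real.log L) ^ m ≤ (L : ℝ) ^ d * (1 - w) := by
    rw [← hℓ]
    exact (pow_le_pow_right₀ hℓ1 (by omega)).trans hwL
  obtain ⟨z9, z10⟩ := z8 w hw0 hw1 hwm _ rfl
  obtain ⟨b1, -⟩ := hq1 q (by omega) σ hσ δ h1 h2 w hw0 hw1 _ rfl z9
  have hfail := b1.trans z10
  -- notation
  obtain ⟨X, hX⟩ : ∃ X : ℝ, X = (K : ℝ) ^ (-(d / 2 : ℝ)) := ⟨_, rfl⟩
  have hX0 : 0 ≤ X := by rw [hX]; exact Real.rpow_nonneg (Nat.cast_nonneg _) _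
  obtain ⟨N, hN⟩ : ∃ N : ℝ, N = (L : ℝ) ^ d := ⟨_, rfl⟩
  have hNL : (L : ℝ) ≤ N := by
    rw [hN]
    exact le_self_pow₀ (by linarith) (by omega)
  have hN1 : 1 ≤ N := by linarith
  obtain ⟨Y, hY⟩ : ∃ Y : ℝ, Y = N * X := ⟨_, rfl⟩
  obtain ⟨ρ, hρ⟩ : ∃ ρ : ℝ, ρ = (L : ℝ) ^ 2 / K := ⟨_, rfl⟩
  obtain ⟨y1, y2⟩ := Y_lower d L K hd ℓ (m + 1) hℓ1 hLpos hK1 hKL
  rw [← hX, ← hρ, ← hN, ← hY] at y2
  rw [← hρ] at y1
  obtain ⟨M, hM⟩ : ∃ M : ℝ, M = 1 / (1 - w) + ∑ k ∈ range k₀, w ^ (k + 1) *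
      (PP (ed ∘ σ) δ (K * (q * ms d L)) ^ (k + 1)).trace := ⟨_, rfl⟩
  obtain ⟨e₁, he₁⟩ : ∃ e₁ : ℝ, e₁ = (Z : ℝ) ^ m₂ * (1 + ρ) + k₀ + C₂ * (Y * rr d k₀) := ⟨_, rfl⟩
  obtain ⟨β, hβ⟩ : ∃ β : ℝ, β = (k₀ : ℝ) ^ 2 * (C₂ * (X + 1 / N) * (Z * K)) := ⟨_, rfl⟩
  have hrr := rr_nonneg d k₀
  have hY0 : 0 ≤ Y := by rw [hY]; exact mul_nonneg (by linarith) hX0
  have hY1 : 1 ≤ Y := by
    refine le_trans ?_ y2
    have : 1 ≤ ℓ ^ (m + 1) := one_le_pow₀ hℓ1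
    exact one_le_mul_of_one_le_of_one_le y1 this
  have hYℓ : ℓ ≤ Y := by
    refine le_trans ?_ y2
    have e1 : ℓ ≤ ℓ ^ (m + 1) := le_self_pow₀ hℓ1 (by omega)
    calc ℓ ≤ ℓ ^ (m + 1) := e1
      _ ≤ ρ * ℓ ^ (m + 1) := le_mul_of_one_le_left (by linarith) y1
  have he0 : 0 ≤ e₁ := by
    rw [he₁]
    have e1 : 0 ≤ (Z : ℝ) ^ m₂ * (1 + ρ) := mul_nonneg (by positivity) (by linarith)
    have e2 : 0 ≤ (C₂ : ℝ) * (Y * rr d k₀) := by positivity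
    linarith
  have hβ0 : 0 ≤ β := by
    rw [hβ]
    have e1 : 0 ≤ 1 / N := by positivity
    have e2 : 0 ≤ X + 1 / N := by linarith
    positivity
  -- the trace
  have hPB : BS (PP (ed ∘ σ) δ (K * (q * ms d L))) := by
    unfold PP
    have h := Pool.Agent.Q68.LC.bas2 _ (ed ∘ σ) (fun _ => false) ∅ δ hδ0 hδ1
    exact ⟨h.1 _, fun x => (h.2.1 _ x).le, fun y => (h.2.2.1 _ y).le⟩
  have htr0 : ∀ k, 0 ≤ (PP (ed ∘ σ) δ (K * (q * ms d L)) ^ (k + 1)).trace := by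
    intro k
    unfold Matrix.trace
    exact sum_nonneg fun x _ => (BS_pow hPB (k + 1)).nn x x
  have hcardV : (Fintype.card (Fin d → ZMod L) : ℝ) = N := by
    rw [hN, Fintype.card_fun, ZMod.card, Fintype.card_fin]
    push_cast
    rfl
  have htrN : ∀ k, (PP (ed ∘ σ) δ (K * (q * ms d L)) ^ (k + 1)).trace ≤ N := by
    intro k
    have hb := BS_pow hPB (k + 1)
    unfold Matrix.trace
    have e1 : ∀ x : Fin d → ZMod L,
        (PP (ed ∘ σ) δ (K * (q * ms d L)) ^ (k + 1)) x x ≤ 1 := fun x =>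
      (Finset.single_le_sum (fun y _ => hb.nn x y) (mem_univ x)).trans (hb.row x)
    refine (Finset.sum_le_sum fun x _ => e1 x).trans (le_of_eq ?_)
    rw [sum_const, card_univ, nsmul_eq_mul, mul_one, hcardV]
  have hM0 : 0 ≤ M := by
    rw [hM]
    exact add_nonneg (by positivity) (sum_nonneg fun k _ => mul_nonneg (pow_nonneg hw0 _) (htr0 k))
  have hMx : M ≤ 1 / (1 - w) + k₀ * (C₃ + c' * Y) := by
    rw [hM]
    refine add_le_add le_rfl ?_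
    have e1 : ∀ k ∈ range k₀, w ^ (k + 1) *
        (PP (ed ∘ σ) δ (K * (q * ms d L)) ^ (k + 1)).trace ≤ C₃ + c' * Y := by
      intro k _
      have e2 := hq3 q (by omega) σ hσ δ h1 h2 k
      rw [← hc', ← hX, ← hN, ← hY] at e2
      exact (mul_le_of_le_one_left (htr0 k) (pow_le_one₀ hw0 hw1.le)).trans e2
    refine (Finset.sum_le_sum e1).trans (le_of_eq ?_)
    rw [sum_const, card_range, nsmul_eq_mul]
  have hMN : M ≤ 1 / (1 - w) + k₀ * N := by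
    rw [hM]
    refine add_le_add le_rfl ?_
    have e1 : ∀ k ∈ range k₀, w ^ (k + 1) *
        (PP (ed ∘ σ) δ (K * (q * ms d L)) ^ (k + 1)).trace ≤ N := fun k _ =>
      (mul_le_of_le_one_left (htr0 k) (pow_le_one₀ hw0 hw1.le)).trans (htrN k)
    refine (Finset.sum_le_sum e1).trans (le_of_eq ?_)
    rw [sum_const, card_range, nsmul_eq_mul]
  -- the good environments
  have hGE : ∀ ω A, Gd σ q K Z (Z ^ mm) Z (2 * ((Z - 1) / 2)) ω A →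
      Ev σ q K Z (Z ^ mm - Z) Z (2 * ((Z - 1) / 2) + 1) ω A := by
    intro ω A h
    refine Pool.Agent.Q277.LC.ge d L z6 σ hσ q K Z (Z ^ mm - Z) Z (2 * ((Z - 1) / 2)) ω A
      (by omega) hK1 ?_
    have : Z ^ mm - Z + Z = Z ^ mm := by omega
    rw [this]
    exact h
  obtain ⟨x, hx⟩ : ∃ x : ℝ, x = 1 / (1 - w) := ⟨_, rfl⟩
  have hx1 : 1 ≤ x := by
    rw [hx, le_div_iff₀ h1w]
    linarith
  obtain ⟨D, hD⟩ : ∃ D : ℝ, D = (2 + k₀) * N * x := ⟨_, rfl⟩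
  have hDD : (Fintype.card (Fin d → ZMod L) : ℝ) / (1 - w) + M ≤ D := by
    rw [hcardV, hD]
    have e1 : N / (1 - w) = N * x := by rw [hx]; ring
    rw [e1]
    rw [← hx] at hMN
    have e2 : x ≤ N * x := le_mul_of_one_le_left (by linarith) hN1
    have e3 : (k₀ : ℝ) * N ≤ k₀ * N * x := le_mul_of_one_le_right (by positivity) hx1
    have e4 : (2 + k₀) * N * x = N * x + N * x + k₀ * N * x := by ring
    rw [e4]
    linarith
  have hcore := core hSTAR hCYC (ed ∘ σ) (K * (q * ms d L)) δ w hδ0 hδ1 hw0 hw1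
    (fun ω A => Gd σ q K Z (Z ^ mm) Z (2 * ((Z - 1) / 2)) ω A) M e₁ β D hM0 he0 hβ0
    (by
      intro ω A hGA hi
      have e1 := hq2 q (by omega) σ hσ δ h1 h2 ω A (hGE ω A hGA) hi w hw0 hw1 k₀
      rw [← hM, ← hX, ← hN, ← hρ] at e1
      rw [he₁, hβ, hY]
      exact e1) hDD _ rfl
  rw [← hx] at hMx
  rw [← hM, ← hx, ← hX, ← hN, ← hY]
  have h2k : (2 : ℝ) + k₀ ≤ ε / 8 * ℓ := by
    rw [hΛ, div_le_iff₀ hε] at hℓΛ
    linarith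
  have hβη : β ≤ η := by
    have hbb := beta_bound d L K Z hd hK1 hLpos hKL2 (w4.trans z5)
    rw [← hX, ← hN] at hbb
    obtain ⟨B, hB'⟩ : ∃ B : ℝ, B = 2 * C₂ * (k₀ : ℝ) ^ 2 := ⟨_, rfl⟩
    have hB0 : 0 ≤ B := by rw [hB']; positivity
    have e1 : (B / η) ^ 4 ≤ K := by
      have e2 : (B / η) ^ 4 ≤ T₂ := by rw [hT₂, hB']; exact Nat.le_ceil _
      have e3 : (T₂ : ℝ) ≤ K := by exact_mod_cast (by omega : T₂ ≤ K)
      linarith
    have e4 : B / η ≤ (K : ℝ) ^ (1 / 4 : ℝ) := by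
      have e5 : B / η = ((B / η) ^ 4) ^ (1 / 4 : ℝ) := by
        rw [← Real.rpow_natCast, ← Real.rpow_mul (by positivity)]
        norm_num
      rw [e5]
      exact Real.rpow_le_rpow (by positivity) e1 (by norm_num)
    rw [div_le_iff₀ hη0] at e4
    have hK4 : 0 < (K : ℝ) ^ (1 / 4 : ℝ) := Real.rpow_pos_of_pos (by linarith) _
    have e6 : (K : ℝ) ^ (-(1 / 4) : ℝ) = ((K : ℝ) ^ (1 / 4 : ℝ))⁻¹ :=
      Real.rpow_neg (by linarith) _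
    have e7 : B * (K : ℝ) ^ (-(1 / 4) : ℝ) ≤ η := by
      rw [e6, ← div_eq_mul_inv, div_le_iff₀ hK4]
      linarith
    refine le_trans ?_ e7
    have e8 : β = (C₂ : ℝ) * (k₀ : ℝ) ^ 2 * ((X + 1 / N) * (Z * K)) := by rw [hβ]; ring
    have e9 : (0 : ℝ) ≤ C₂ * (k₀ : ℝ) ^ 2 := by positivity
    calc β ≤ (C₂ : ℝ) * (k₀ : ℝ) ^ 2 * (2 * (K : ℝ) ^ (-(1 / 4) : ℝ)) := by
          rw [e8]
          exact mul_le_mul_of_nonneg_left hbb e9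
      _ = B * (K : ℝ) ^ (-(1 / 4) : ℝ) := by rw [hB']; ring
  have hη1 : η ≤ 1 / 2 := by rw [hη]; exact min_le_left _ _
  have hη2 : η ≤ ε / 8 := by rw [hη]; exact (min_le_right _ _).trans (min_le_left _ _)
  have hη3 : η * (Q + 1) ≤ ε / 8 := by
    have e1 : η ≤ ε / 8 / (Q + 1) := by
      rw [hη]
      exact (min_le_right _ _).trans (min_le_right _ _)
    rwa [le_div_iff₀ (by linarith)] at e1
  have hZm : (Z : ℝ) ^ m₂ ≤ ℓ ^ m := by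
    rw [← hℓ] at z7
    refine le_trans ?_ z7
    have hZ1 : (1 : ℝ) ≤ Z := by
      have : 1 ≤ Z := by omega
      exact_mod_cast this
    exact pow_le_pow_right₀ hZ1 (by omega)
  refine fin_calc _ M e₁ β _ x Y ε (rr d k₀) C₂ C₃ c' k₀ ((Z : ℝ) ^ m₂) ρ (by linarith) hY0 hY1
    hε hrr (by linarith) (by linarith) hk₀r hβ0 ?_ ?_ ?_ hcore hMx he₁ ?_ ?_ ?_
  · exact hβη.trans hη1
  · exact hβη.trans hη2
  · rw [← hQ]
    calc β * Q ≤ η * Q := mul_le_mul_of_nonneg_right hβη hQ0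
      _ ≤ η * (Q + 1) := mul_le_mul_of_nonneg_left (by linarith) hη0.le
      _ ≤ ε / 8 := hη3
  · have e1 : 1 + ρ ≤ 2 * ρ := by linarith
    have e2 : (0 : ℝ) ≤ ℓ ^ m := by positivity
    have e3 : (2 : ℝ) ≤ ε / 8 * ℓ := by linarith
    calc (Z : ℝ) ^ m₂ * (1 + ρ) ≤ ℓ ^ m * (2 * ρ) :=
          mul_le_mul hZm e1 (by linarith) e2
      _ = 2 * (ρ * ℓ ^ m) := by ring
      _ ≤ ε / 8 * ℓ * (ρ * ℓ ^ m) := mul_le_mul_of_nonneg_right e3 (by positivity)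
      _ = ε / 8 * (ρ * ℓ ^ (m + 1)) := by ring
      _ ≤ ε / 8 * Y := mul_le_mul_of_nonneg_left y2 (by positivity)
  · have e1 : ε / 8 * ℓ ≤ ε / 8 * Y := mul_le_mul_of_nonneg_left hYℓ (by positivity)
    linarith
  · have hN0 : 0 < N := by linarith
    rw [← hN] at hfail
    have e1 : D * PW (ed ∘ σ) (K * (q * ms d L)) δ w
        (fun ω A => ¬ Gd σ q K Z (Z ^ mm) Z (2 * ((Z - 1) / 2)) ω A) ≤ D * (1 / N ^ 3) := by
      refine mul_le_mul_of_nonneg_left hfail ?_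
      rw [hD]
      positivity
    refine e1.trans ?_
    have e2 : D * (1 / N ^ 3) = (2 + k₀) / N ^ 2 * x := by
      rw [hD]
      field_simp
    rw [e2]
    refine mul_le_mul_of_nonneg_right ?_ (by linarith)
    rw [div_le_iff₀ (by positivity)]
    have e3 : ℓ ≤ N ^ 2 := (hℓL.trans hNL).trans (le_self_pow₀ hN1 (by norm_num))
    calc (2 : ℝ) + k₀ ≤ ε / 8 * ℓ := h2k
      _ ≤ ε / 8 * N ^ 2 := mul_le_mul_of_nonneg_left e3 (by positivity)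

end Pool.Agent.H961.T3.Onech
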