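import Pool.Agent.H961.T3.Stm3
import Pool.Agent.H961.T3.Stir

/-!
# MS ONES. The mean of the sum over `x` of `w` to the cycle length of `x`, from circuits to stirring
-/

set_option autoImplicit false
set_option linter.unusedSectionVars false
set_option linter.unusedVariables false

namespace Pool.Agent.H961.T3.Onesh

open Finset Equiv Matrix Q292.LC Pool.Agent.H961.T2 Pool.Agent.H961.T3
open Pool.Agent.Y998.ST (stirExp nnRate qq stirLaw totalRate hop cycleLen gk)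
open Pool.Agent.Q297.LC (exists_Per tro stir_smul)
open Pool.Agent.Helper47K9.SC (hop_diag)

/-- the limit of many sweeps per unit -/
theorem one_lim {d L : ℕ} [NeZero L] (hd : 1 ≤ d) (hL3 : 3 ≤ L) {K : ℕ} {t w : ℝ} (hK : 1 ≤ K)
    (hKt : (K : ℝ) ≤ t) (ht2K : t ≤ 2 * K) (hw0 : 0 ≤ w) (hw1 : w < 1) (k0 : ℕ) (a B : ℝ)
    (h : ∃ q₀ : ℕ, ∀ q ≥ q₀, ∀ σ : ℕ → (Fin d → ZMod L) × Fin d, Per σ → ∀ δ : ℝ,
      1 ≤ δ * q → δ * q ≤ 2 →
      |EE (K * (q * ms d L)) δ (fun ω => ph (ι := Finset (Fin d → ZMod L)) card [w]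
          (cycs (gp (ed ∘ σ) ω (K * (q * ms d L))))) -
        (a + ∑ k ∈ range k0, w ^ (k + 1) *
          (PP (ed ∘ σ) δ (K * (q * ms d L)) ^ (k + 1)).trace)| ≤ B) :
    |stirExp (nnRate d L) t (fun g => ph (ι := Finset (Fin d → ZMod L)) card [w] (cycs g)) -
      (a + ∑ k ∈ range k0, w ^ (k + 1) * ((L : ℝ) ^ d * gk L (((k : ℝ) + 1) * t) 0 ^ d))| ≤ B := by
  obtain ⟨q₀, hq₀⟩ := h
  obtain ⟨σ, hσ⟩ := exists_Per d L hd
  obtain ⟨C1, hC1⟩ := tro d L hd hL3 (k0 * K + K)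
  obtain ⟨N, hN⟩ : ∃ N : ℝ, N = (L : ℝ) ^ d := ⟨_, rfl⟩
  have hLp : 0 < L := by omega
  have hL0 : (0 : ℝ) < L := by exact_mod_cast hLp
  have hN0 : 0 < N := by rw [hN]; exact pow_pos hL0 d
  have hcard : (Fintype.card (Fin d → ZMod L) : ℝ) = N := by
    rw [Fintype.card_fun, ZMod.card, Fintype.card_fin, hN]
    push_cast
    rfl
  rw [← hN]
  have hK' : (0 : ℝ) < K := by exact_mod_cast hK
  refine lim_aux _ _ (N * |C1| + k0 * (N * |C1|)) q₀ fun q hq hq2 => ?_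
  have hq' : (0 : ℝ) < q := by
    have : 0 < q := by omega
    exact_mod_cast this
  have hq2' : (2 : ℝ) ≤ q := by exact_mod_cast hq2
  obtain ⟨δ, hδ⟩ : ∃ δ : ℝ, δ = t / (K * q) := ⟨_, rfl⟩
  have hδq : δ * q = t / K := by rw [hδ]; field_simp
  have h1 : 1 ≤ δ * q := by
    rw [hδq, le_div_iff₀ hK']; linarith
  have h2 : δ * q ≤ 2 := by
    rw [hδq, div_le_iff₀ hK']; linarith
  have h0 : 0 ≤ δ := by
    have : 0 ≤ t := hK'.le.trans hKt
    rw [hδ]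
    positivity
  have h3 : δ ≤ 1 := by nlinarith
  have key := hq₀ q hq σ hσ δ h1 h2
  have hKδ : ((K : ℝ) * q) * δ = t := by rw [hδ]; field_simp
  have hc0 : 0 ≤ |C1| / q := div_nonneg (abs_nonneg _) hq'.le
  have hc1 : C1 / q ≤ |C1| / q := div_le_div_of_nonneg_right (le_abs_self _) hq'.le
  -- the expectation
  have e1 : |EE (K * (q * ms d L)) δ (fun ω => ph (ι := Finset (Fin d → ZMod L)) card [w]
      (cycs (gp (ed ∘ σ) ω (K * (q * ms d L))))) -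
      stirExp (nnRate d L) t (fun g => ph (ι := Finset (Fin d → ZMod L)) card [w] (cycs g))| ≤
      N * (|C1| / q) := by
    have f1 := (hC1 q (by omega) σ hσ δ h0 h3 h2 (K * q)
      (Nat.mul_le_mul_right _ (by omega))).1
      (fun g => N⁻¹ * ph (ι := Finset (Fin d → ZMod L)) card [w] (cycs g)) (fun g => by
        obtain ⟨p1, p2⟩ := Stirh.ph_bound (ι := Finset (Fin d → ZMod L)) card [w]
          (fun v hv => by
            rw [List.mem_singleton] at hv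
            rw [hv]
            exact ⟨hw0, hw1.le⟩) (cycs g)
        have e1 : ∑ C ∈ cycs g, ((C.card : ℕ) : ℝ) = N := by
          rw [← Nat.cast_sum, Stirh.sum_cycs g, hcard]
        rw [e1, List.length_singleton, pow_one] at p2
        rw [abs_of_nonneg (mul_nonneg (inv_nonneg.2 hN0.le) p1), inv_mul_le_iff₀ hN0, mul_one]
        exact p2)
    have f2 : ((K * q : ℕ) : ℝ) * δ = t := by
      push_cast
      exact hKδ
    rw [f2, Nat.mul_assoc, stir_smul, Pool.Agent.Q68.LC.EE_smul (K * (q * ms d L)) δ N⁻¹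
      (fun ω => ph (ι := Finset (Fin d → ZMod L)) card [w]
        (cycs (gp (ed ∘ σ) ω (K * (q * ms d L))))), ← mul_sub, abs_mul,
      abs_of_pos (inv_pos.2 hN0), inv_mul_le_iff₀ hN0] at f1
    exact f1.trans (mul_le_mul_of_nonneg_left hc1 hN0.le)
  have e2 : ∀ k ∈ range k0, |w ^ (k + 1) * (PP (ed ∘ σ) δ (K * (q * ms d L)) ^ (k + 1)).trace -
      w ^ (k + 1) * (N * gk L (((k : ℝ) + 1) * t) 0 ^ d)| ≤ N * (|C1| / q) := by
    intro k hk
    have g1 : w ^ (k + 1) ≤ 1 := pow_le_one₀ hw0 hw1.le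
    have g2 : 0 ≤ w ^ (k + 1) := pow_nonneg hw0 _
    rw [← mul_sub, abs_mul, abs_of_nonneg g2]
    refine (mul_le_of_le_one_left (abs_nonneg _) g1).trans ?_
    rw [PP_pow hσ h0 h3]
    unfold Matrix.trace
    have g3 : N * gk L (((k : ℝ) + 1) * t) 0 ^ d =
        ∑ x : Fin d → ZMod L, gk L (((k : ℝ) + 1) * t) 0 ^ d := by
      rw [sum_const, card_univ, nsmul_eq_mul, hcard]
    rw [g3, ← sum_sub_distrib]
    refine (abs_sum_le_sum_abs _ _).trans ?_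
    have f0 : ∀ x ∈ (univ : Finset (Fin d → ZMod L)),
        |(PP (ed ∘ σ) δ ((k + 1) * K * (q * ms d L))).diag x -
          gk L (((k : ℝ) + 1) * t) 0 ^ d| ≤ |C1| / q := by
      intro x _
      have hk' : k + 1 ≤ k0 := mem_range.1 hk
      have g1 : (k + 1) * K * q ≤ (k0 * K + K) * q :=
        Nat.mul_le_mul_right _ ((Nat.mul_le_mul_right _ hk').trans (Nat.le_add_right _ _))
      have f1 := (hC1 q (by omega) σ hσ δ h0 h3 h2 ((k + 1) * K * q) g1).2 x x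
      have f2 : (((k + 1) * K * q : ℕ) : ℝ) * δ = ((k : ℝ) + 1) * t := by
        push_cast
        rw [← hKδ]
        ring
      rw [f2, Nat.mul_assoc ((k + 1) * K)] at f1
      have f5 : qq (nnRate d L) (((k : ℝ) + 1) * t) x x =
        hop (nnRate d L) (((k : ℝ) + 1) * t) x x := rfl
      rw [f5, hop_diag hL3] at f1
      rw [Matrix.diag_apply]
      exact f1.trans hc1
    refine (sum_le_sum f0).trans (le_of_eq ?_)
    rw [sum_const, card_univ, nsmul_eq_mul, hcard]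
  have e3 : |∑ k ∈ range k0, w ^ (k + 1) * (PP (ed ∘ σ) δ (K * (q * ms d L)) ^ (k + 1)).trace -
      ∑ k ∈ range k0, w ^ (k + 1) * (N * gk L (((k : ℝ) + 1) * t) 0 ^ d)| ≤
      k0 * (N * (|C1| / q)) := by
    rw [← sum_sub_distrib]
    refine (abs_sum_le_sum_abs _ _).trans ((sum_le_sum e2).trans (le_of_eq ?_))
    rw [sum_const, card_range, nsmul_eq_mul]
  have e6 : (N * |C1| + k0 * (N * |C1|)) / q =
      N * (|C1| / q) + k0 * (N * (|C1| / q)) := by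
    field_simp
  rw [e6]
  generalize stirExp (nnRate d L) t
    (fun g => ph (ι := Finset (Fin d → ZMod L)) card [w] (cycs g)) = S1 at *
  generalize EE (K * (q * ms d L)) δ (fun ω => ph (ι := Finset (Fin d → ZMod L)) card [w]
      (cycs (gp (ed ∘ σ) ω (K * (q * ms d L))))) = S2 at *
  generalize ∑ k ∈ range k0, w ^ (k + 1) *
    (PP (ed ∘ σ) δ (K * (q * ms d L)) ^ (k + 1)).trace = S3 at *
  generalize ∑ k ∈ range k0, w ^ (k + 1) * (N * gk L (((k : ℝ) + 1) * t) 0 ^ d) = S4 at *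
  rw [abs_le] at key e1 e3 ⊢
  obtain ⟨k1, k2⟩ := key
  obtain ⟨a1, a2⟩ := e1
  obtain ⟨b1, b2⟩ := e3
  constructor <;> linarith

/-- one short lap -/
theorem term_bd (d : ℕ) (k k0 : ℕ) (hk : k < k0) (t w e G : ℝ) (ht : 0 < t) (hw0 : 0 ≤ w)
    (hw1 : w < 1) (hG : |G * Real.sqrt (4 * Real.pi * (((k : ℝ) + 1) * t)) ^ d - 1| ≤ e) :
    |w ^ (k + 1) * G - ((k : ℝ) + 1) ^ (-(d / 2 : ℝ)) * (4 * Real.pi * t) ^ (-(d / 2 : ℝ))| ≤
      (e + k0 * (1 - w)) *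
        (((k : ℝ) + 1) ^ (-(d / 2 : ℝ)) * (4 * Real.pi * t) ^ (-(d / 2 : ℝ))) := by
  have hpi := Real.pi_pos
  have hk1 : (0 : ℝ) < (k : ℝ) + 1 := by positivity
  have hx : 0 < 4 * Real.pi * t := by positivity
  obtain ⟨H, hH⟩ : ∃ H : ℝ, H = ((k : ℝ) + 1) ^ (-(d / 2 : ℝ)) *
    (4 * Real.pi * t) ^ (-(d / 2 : ℝ)) := ⟨_, rfl⟩
  have hH0 : 0 < H := by rw [hH]; positivity
  have e1 : Real.sqrt (4 * Real.pi * (((k : ℝ) + 1) * t)) ^ d = H⁻¹ := by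
    rw [sqrt_pow_rpow d _ (by positivity), hH, ← Real.mul_rpow hk1.le hx.le,
      Real.rpow_neg (by positivity), inv_inv]
    congr 1
    ring
  rw [e1] at hG
  rw [← hH]
  have e2 : |G - H| ≤ e * H := by
    have : G * H⁻¹ - 1 = (G - H) * H⁻¹ := by field_simp
    rw [this, abs_mul, abs_of_pos (inv_pos.2 hH0), ← div_eq_mul_inv, div_le_iff₀ hH0] at hG
    exact hG
  have g1 : w ^ (k + 1) ≤ 1 := pow_le_one₀ hw0 hw1.le
  have g2 : 0 ≤ w ^ (k + 1) := pow_nonneg hw0 _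
  have g3 : 1 - w ^ (k + 1) ≤ k0 * (1 - w) := by
    have h4 : 1 + ((k + 1 : ℕ) : ℝ) * (-(1 - w)) ≤ (1 + -(1 - w)) ^ (k + 1) :=
      one_add_mul_le_pow (by linarith) (k + 1)
    have h5 : (1 + -(1 - w)) = w := by ring
    rw [h5] at h4
    have h6 : ((k + 1 : ℕ) : ℝ) ≤ k0 := by exact_mod_cast hk
    have h7 : ((k + 1 : ℕ) : ℝ) * (1 - w) ≤ k0 * (1 - w) :=
      mul_le_mul_of_nonneg_right h6 (by linarith)
    linarith
  have e3 : w ^ (k + 1) * G - H = w ^ (k + 1) * (G - H) - (1 - w ^ (k + 1)) * H := by ring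
  rw [e3]
  refine (abs_sub _ _).trans ?_
  rw [abs_mul, abs_mul, abs_of_nonneg g2, abs_of_nonneg (by linarith : 0 ≤ 1 - w ^ (k + 1)),
    abs_of_pos hH0]
  have e4 : w ^ (k + 1) * |G - H| ≤ e * H := (mul_le_of_le_one_left (abs_nonneg _) g1).trans e2
  have e5 : (1 - w ^ (k + 1)) * H ≤ k0 * (1 - w) * H := mul_le_mul_of_nonneg_right g3 hH0.le
  linarith

theorem main_sum (d : ℕ) (hd : 3 ≤ d) (k0 : ℕ) (t w e : ℝ) (G : ℕ → ℝ) (ht : 0 < t)
    (hw0 : 0 ≤ w) (hw1 : w < 1) (he : 0 ≤ e)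
    (hG : ∀ k < k0, |G k * Real.sqrt (4 * Real.pi * (((k : ℝ) + 1) * t)) ^ d - 1| ≤ e) :
    |∑ k ∈ range k0, w ^ (k + 1) * G k - (4 * Real.pi * t) ^ (-(d / 2 : ℝ)) * rr d 0| ≤
      (4 * Real.pi * t) ^ (-(d / 2 : ℝ)) * ((e + k0 * (1 - w)) * rr d 0 + rr d k0) := by
  have hpi := Real.pi_pos
  obtain ⟨X, hX⟩ : ∃ X : ℝ, X = (4 * Real.pi * t) ^ (-(d / 2 : ℝ)) := ⟨_, rfl⟩
  have hX0 : 0 ≤ X := by rw [hX]; positivity
  have hs : ∑ k ∈ range k0, ((k : ℝ) + 1) ^ (-(d / 2 : ℝ)) + rr d k0 = rr d 0 := by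
    have h1 := (rr_summable d 0 hd).sum_add_tsum_nat_add k0
    have h2 : ∑ i ∈ range k0, ((i : ℝ) + ((0 : ℕ) : ℝ) + 1) ^ (-(d / 2 : ℝ)) =
        ∑ k ∈ range k0, ((k : ℝ) + 1) ^ (-(d / 2 : ℝ)) :=
      sum_congr rfl fun i _ => by rw [Nat.cast_zero, add_zero]
    have h3 : ∑' i : ℕ, (((i + k0 : ℕ) : ℝ) + ((0 : ℕ) : ℝ) + 1) ^ (-(d / 2 : ℝ)) = rr d k0 := by
      unfold rr
      refine tsum_congr fun i => ?_
      push_cast
      rw [add_zero]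
    rw [h2, h3] at h1
    exact h1
  have hr := rr_nonneg d k0
  have hsn : 0 ≤ ∑ k ∈ range k0, ((k : ℝ) + 1) ^ (-(d / 2 : ℝ)) :=
    sum_nonneg fun k _ => by positivity
  have hE : 0 ≤ e + k0 * (1 - w) := add_nonneg he (mul_nonneg (Nat.cast_nonneg _) (by linarith))
  have h1 : |∑ k ∈ range k0, w ^ (k + 1) * G k -
      ∑ k ∈ range k0, ((k : ℝ) + 1) ^ (-(d / 2 : ℝ)) * X| ≤
      (e + k0 * (1 - w)) * (∑ k ∈ range k0, ((k : ℝ) + 1) ^ (-(d / 2 : ℝ)) * X) := by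
    rw [← sum_sub_distrib, mul_sum]
    refine (abs_sum_le_sum_abs _ _).trans (sum_le_sum fun k hk => ?_)
    rw [hX]
    exact term_bd d k k0 (mem_range.1 hk) t w e (G k) ht hw0 hw1 (hG k (mem_range.1 hk))
  rw [← hX]
  rw [← sum_mul] at h1
  obtain ⟨Sg, hSg⟩ : ∃ Sg : ℝ, Sg = ∑ k ∈ range k0, ((k : ℝ) + 1) ^ (-(d / 2 : ℝ)) := ⟨_, rfl⟩
  rw [← hSg] at h1 hs hsn
  have h2 : (e + k0 * (1 - w)) * (Sg * X) ≤ X * ((e + k0 * (1 - w)) * rr d 0) := by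
    have : Sg ≤ rr d 0 := by linarith
    have h3 : (e + k0 * (1 - w)) * (Sg * X) ≤ (e + k0 * (1 - w)) * (rr d 0 * X) :=
      mul_le_mul_of_nonneg_left (mul_le_mul_of_nonneg_right this hX0) hE
    linarith
  have h4 : X * rr d 0 = Sg * X + X * rr d k0 := by rw [← hs]; ring
  have h5 : 0 ≤ X * rr d k0 := mul_nonneg hX0 hr
  rw [abs_le] at h1 ⊢
  obtain ⟨a1, a2⟩ := h1
  rw [h4, mul_add X]
  constructor <;> linarith

/-- the final arithmetic -/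
theorem fin_arith (S a N Kp Y X Z P C η r Sm β : ℝ) (ha : 0 ≤ a) (hN : 0 ≤ N) (hY : 0 ≤ Y)
    (hX0 : 0 ≤ X) (hXY : X ≤ Y) (hKp : Kp ≤ P * Y) (hP : 1 ≤ P) (hZ : 0 ≤ Z) (hC : 0 ≤ C)
    (hη : 0 ≤ η) (hr : r ≤ η) (hβ : β ≤ η)
    (h1 : |S - (a + N * Sm)| ≤ (η + C * r) * (a + N * Kp)) (hKp0 : 0 ≤ Kp) (hr0 : 0 ≤ r)
    (h2 : |Sm - X * Z| ≤ X * ((η + β) * Z + r)) (hβ0 : 0 ≤ β) :
    |S - (a + N * (X * Z))| ≤ ((1 + C) * P + 2 * Z + 1) * η * (a + N * Y) := by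
  have e1 : (η + C * r) * (a + N * Kp) ≤ (η + C * η) * (a + N * (P * Y)) := by
    refine mul_le_mul ?_ ?_ ?_ ?_
    · have := mul_le_mul_of_nonneg_left hr hC
      linarith
    · have := mul_le_mul_of_nonneg_left hKp hN
      linarith
    · have := mul_nonneg hN hKp0
      linarith
    · have := mul_nonneg hC hη
      linarith
  have hNY : 0 ≤ N * Y := mul_nonneg hN hY
  have e2 : (η + C * η) * (a + N * (P * Y)) ≤ (1 + C) * P * η * (a + N * Y) := by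
    have f1 : a + N * (P * Y) ≤ P * (a + N * Y) := by
      have := mul_le_mul_of_nonneg_right hP ha
      nlinarith
    have f2 : 0 ≤ η + C * η := add_nonneg hη (mul_nonneg hC hη)
    calc (η + C * η) * (a + N * (P * Y)) ≤ (η + C * η) * (P * (a + N * Y)) :=
          mul_le_mul_of_nonneg_left f1 f2
      _ = (1 + C) * P * η * (a + N * Y) := by ring
  have e3 : N * |Sm - X * Z| ≤ N * (Y * ((2 * η) * Z + η)) := by
    refine mul_le_mul_of_nonneg_left (h2.trans ?_) hN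
    refine mul_le_mul hXY ?_ ?_ hY
    · have := mul_le_mul_of_nonneg_right (by linarith : η + β ≤ 2 * η) hZ
      linarith
    · have := mul_nonneg (add_nonneg hη hβ0) hZ
      linarith
  have e4 : N * (Y * ((2 * η) * Z + η)) ≤ (2 * Z + 1) * η * (a + N * Y) := by
    have f1 : 0 ≤ (2 * Z + 1) * η * a := by positivity
    have f2 : (2 * Z + 1) * η * (a + N * Y) = (2 * Z + 1) * η * a + N * (Y * ((2 * η) * Z + η)) := by
      ring
    rw [f2]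
    linarith
  have e5 : S - (a + N * (X * Z)) = (S - (a + N * Sm)) + N * (Sm - X * Z) := by ring
  rw [e5]
  refine (abs_add_le _ _).trans ?_
  rw [abs_mul, abs_of_nonneg hN]
  have e6 : ((1 + C) * P + 2 * Z + 1) * η * (a + N * Y) =
    (1 + C) * P * η * (a + N * Y) + (2 * Z + 1) * η * (a + N * Y) := by ring
  rw [e6]
  linarith

theorem ones (hONEC : S_ONEC) : S_ONES := by
  intro d hd
  obtain ⟨C, m, hC, h⟩ := hONEC d hd
  refine ⟨m + 1, fun ε hε => ?_⟩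
  obtain ⟨Z, hZ⟩ : ∃ Z : ℝ, Z = rr d 0 := ⟨_, rfl⟩
  have hZ0 : 0 ≤ Z := by rw [hZ]; exact rr_nonneg d 0
  obtain ⟨P, hP⟩ : ∃ P : ℝ, P = 2 ^ (d / 2 : ℝ) := ⟨_, rfl⟩
  have hP1 : 1 ≤ P := by
    rw [hP]
    exact Real.one_le_rpow (by norm_num) (by positivity)
  have hden : 0 < (1 + C) * P + 2 * Z + 1 := by nlinarith
  obtain ⟨η, hη⟩ : ∃ η : ℝ, η = ε / ((1 + C) * P + 2 * Z + 1) := ⟨_, rfl⟩
  have hη0 : 0 < η := by rw [hη]; exact div_pos hε hden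
  have hηε : ((1 + C) * P + 2 * Z + 1) * η = ε := by
    rw [hη]
    field_simp
  obtain ⟨k0, hk0⟩ := rr_tendsto d hd η hη0
  obtain ⟨T₁, h1⟩ := h k0 η hη0
  obtain ⟨T₂, hT₂, hret⟩ := ret_all d (by omega) k0 η hη0
  obtain ⟨T, hT⟩ : ∃ T : ℝ, T = 1 + T₁ + T₂ + 2 ^ (m + 1) + Real.exp (2 * T₂) + k0 / η :=
    ⟨_, rfl⟩
  have t1 : (0 : ℝ) ≤ T₁ := Nat.cast_nonneg _
  have t2 : (0 : ℝ) ≤ 2 ^ (m + 1) := by positivity
  have t3 : 0 ≤ Real.exp (2 * T₂) := (Real.exp_pos _).le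
  have t4 : 0 ≤ (k0 : ℝ) / η := by positivity
  refine ⟨T, by rw [hT]; linarith, ?_⟩
  intro L _ t w hL3 hTt hlog htlog hw0 hw1 hTw hNw
  have hT1 : 1 ≤ T := by rw [hT]; linarith
  have ht1 : 1 ≤ t := hT1.trans hTt
  have ht0 : 0 < t := by linarith
  have h1w : 0 < 1 - w := by linarith
  have hLp : 0 < L := by omega
  have hL0 : (0 : ℝ) < L := by exact_mod_cast hLp
  obtain ⟨ℓ, hℓ⟩ : ∃ ℓ : ℝ, ℓ = Real.log L := ⟨_, rfl⟩
  rw [← hℓ] at hlog htlog hNw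
  have hℓ1 : 1 ≤ ℓ := by
    rw [hℓ, Real.le_log_iff_exp_le hL0]
    have : (3 : ℝ) ≤ L := by exact_mod_cast hL3
    have h3 := Real.exp_one_lt_d9
    linarith
  have hℓp : 1 ≤ ℓ ^ (m + 1) := one_le_pow₀ hℓ1
  have htL : t ≤ (L : ℝ) ^ 2 := by nlinarith
  have hℓT : T₂ ≤ ℓ := by
    have e1 : Real.exp (2 * T₂) ≤ (L : ℝ) ^ 2 := by
      have : Real.exp (2 * T₂) ≤ T := by rw [hT]; linarith
      linarith
    have e2 : (L : ℝ) ^ 2 = Real.exp (2 * ℓ) := by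
      rw [hℓ, two_mul, Real.exp_add, Real.exp_log hL0]
      ring
    rw [e2, Real.exp_le_exp] at e1
    linarith
  have hℓle : ℓ ≤ ℓ ^ (m + 1) := by
    rw [pow_succ]
    exact le_mul_of_one_le_left (by linarith) (one_le_pow₀ hℓ1)
  have hT2L : T₂ * t ≤ (L : ℝ) ^ 2 := by
    have := mul_le_mul_of_nonneg_left (hℓT.trans hℓle) ht0.le
    linarith
  have hℓm : ℓ ^ m ≤ ℓ ^ (m + 1) := pow_le_pow_right₀ hℓ1 (by omega)
  obtain ⟨K, hK⟩ : ∃ K : ℕ, K = ⌊t⌋₊ := ⟨_, rfl⟩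
  have hKt : (K : ℝ) ≤ t := by rw [hK]; exact Nat.floor_le (by linarith)
  have hK1 : 1 ≤ K := by rw [hK]; exact Nat.le_floor (by rw [Nat.cast_one]; exact ht1)
  have hK1' : (1 : ℝ) ≤ K := by exact_mod_cast hK1
  have htK : t < K + 1 := by rw [hK]; exact Nat.lt_floor_add_one t
  have ht2K : t ≤ 2 * K := by linarith
  have hTK : T₁ ≤ K := by
    rw [hK]
    refine Nat.le_floor ?_
    have : (T₁ : ℝ) ≤ T := by rw [hT]; linarith
    linarith
  have hlogK : ℓ ^ m ≤ K := by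
    rcases le_total ℓ 2 with h | h
    · have e1 : ℓ ^ m ≤ 2 ^ m := pow_le_pow_left₀ (by linarith) h _
      have e2 : (2 : ℝ) ^ (m + 1) ≤ T := by rw [hT]; linarith
      rw [pow_succ] at e2
      linarith
    · have e2 : ℓ ^ m * 2 ≤ ℓ ^ (m + 1) := by
        rw [pow_succ]
        exact mul_le_mul_of_nonneg_left h (by positivity)
      linarith
  have hKlog : K * ℓ ^ m ≤ (L : ℝ) ^ 2 := by
    have : (K : ℝ) * ℓ ^ m ≤ t * ℓ ^ (m + 1) :=
      mul_le_mul hKt hℓm (by positivity) ht0.le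
    linarith
  obtain ⟨q₀, hq₀⟩ := h1 L K hL3 hTK (by rw [← hℓ]; exact hlogK) (by rw [← hℓ]; exact hKlog)
  have key := one_lim (d := d) (by omega) hL3 hK1 hKt ht2K hw0 hw1 k0 (1 / (1 - w))
    ((η + C * rr d k0) * (1 / (1 - w) + (L : ℝ) ^ d * (K : ℝ) ^ (-(d / 2 : ℝ))))
    ⟨q₀, fun q hq σ hσ δ h1 h2 => hq₀ q hq σ hσ δ h1 h2 w hw0 hw1 (by
      rw [← hℓ]
      exact hℓm.trans hNw)⟩
  have hms := main_sum d hd k0 t w η (fun k => gk L (((k : ℝ) + 1) * t) 0 ^ d) ht0 hw0 hw1 hη0.le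
    (fun k hk => by
      have e1 : T₂ ≤ t := by
        have : T₂ ≤ T := by rw [hT]; linarith
        linarith
      exact hret L hL3 t e1 hT2L k hk)
  have hKp : (K : ℝ) ^ (-(d / 2 : ℝ)) ≤ P * t ^ (-(d / 2 : ℝ)) := by
    rw [hP]
    exact pow_half K t (d / 2) (by linarith) ht0 ht2K (by positivity)
  have hXY : (4 * Real.pi * t) ^ (-(d / 2 : ℝ)) ≤ t ^ (-(d / 2 : ℝ)) := by
    refine Real.rpow_le_rpow_of_nonpos ht0 ?_ ?_
    · have := Real.pi_gt_three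
      nlinarith
    · have : (0 : ℝ) ≤ d / 2 := by positivity
      linarith
  have hβ : (k0 : ℝ) * (1 - w) ≤ η := by
    have e1 : (k0 : ℝ) / η ≤ T := by rw [hT]; linarith
    have e2 : T * (1 - w) ≤ 1 := by
      rw [le_div_iff₀ h1w] at hTw
      exact hTw
    have e3 : (k0 : ℝ) / η * (1 - w) ≤ 1 :=
      (mul_le_mul_of_nonneg_right e1 h1w.le).trans e2
    have e4 : (k0 : ℝ) / η * (1 - w) * η = k0 * (1 - w) := by field_simp
    rw [← e4]
    exact (mul_le_mul_of_nonneg_right e3 hη0.le).trans (le_of_eq (one_mul _))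
  have hsum : ∑ k ∈ range k0, w ^ (k + 1) * ((L : ℝ) ^ d * gk L (((k : ℝ) + 1) * t) 0 ^ d) =
      (L : ℝ) ^ d * ∑ k ∈ range k0, w ^ (k + 1) * gk L (((k : ℝ) + 1) * t) 0 ^ d := by
    rw [mul_sum]
    exact sum_congr rfl fun k _ => by ring
  rw [hsum] at key
  have hfin := fin_arith _ (1 / (1 - w)) ((L : ℝ) ^ d) ((K : ℝ) ^ (-(d / 2 : ℝ)))
    (t ^ (-(d / 2 : ℝ))) ((4 * Real.pi * t) ^ (-(d / 2 : ℝ))) (rr d 0) P C η (rr d k0)
    _ (k0 * (1 - w)) (div_nonneg zero_le_one h1w.le) (by positivity) (by positivity)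
    (by have := Real.pi_pos; positivity) hXY hKp hP1 (rr_nonneg d 0) (by linarith) hη0.le hk0 hβ
    key (by positivity) (rr_nonneg d k0) hms (by positivity)
  rw [← hZ, hηε] at hfin
  rw [← hZ]
  exact hfin

end Pool.Agent.H961.T3.Onesh
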