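import Pool.Agent.H961.T3.Pt

/-!
# Project MS: the Poisson law at all scales
-/

set_option autoImplicit false
set_option linter.unusedSectionVars false
set_option linter.unusedVariables false

namespace Pool.Agent.H961.T3

open Finset Equiv Matrix Q292.LC Pool.Agent.H961.T2 Filter Topology
open Pool.Agent.Y998.ST (stirExp nnRate cycleLen stirLaw nn_nonneg exp_mono exp_sum exp_const
  law_nonneg)
open Pool.Agent.Q297.LC (stir_smul card_cyc)

/-- the Poisson law at all scales -/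
theorem poisson_all (hMESO : S_MESO) (hGAPP : S_GAPP) (d : ℕ) (hd : 3 ≤ d) : ∃ m : ℕ, 1 ≤ m ∧
    ∀ (h : ℝ → ℝ) (α β B : ℝ),
    (∀ u, 0 ≤ h u) → 0 < α → α ≤ β → (∀ u, (u < α ∨ β < u) → h u = 0) → 0 ≤ B →
    (∀ x y, |h x - h y| ≤ B * |x - y|) → ∀ ε : ℝ, 0 < ε →
    ∃ T : ℝ, 3 ≤ T ∧ ∀ (L : ℕ) [NeZero L] (t n : ℝ), 3 ≤ L → T ≤ t → (Real.log L) ^ m ≤ t →
    t ≤ (L : ℝ) ^ d → T * ((L : ℝ) ^ d * t ^ (-(d / 2 : ℝ))) ≤ n →
    (Real.log L) ^ m * (1 + (L : ℝ) ^ 2 / t) ≤ n →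
    ((Real.log L) ^ m * n ≤ (L : ℝ) ^ d ∨ (t ^ 4 ≤ (L : ℝ) ^ 7 ∧ T * n ≤ (L : ℝ) ^ d)) →
    |stirExp (nnRate d L) t (fun g => Real.exp (-kS h n g)) -
      Real.exp (-∫ u in Set.Ioi (0 : ℝ), (1 - Real.exp (-h u)) / u)| ≤ ε := by
  obtain ⟨m₁, hm₁, h1⟩ := hMESO d hd
  obtain ⟨m₂, hm₂, h2⟩ := hGAPP d hd m₁
  refine ⟨m₁ + m₂, by omega, ?_⟩
  intro h α β B h0 hα hαβ hsupp hB hlip ε hε
  have hc : Continuous h := by
    have : LipschitzWith (Real.toNNReal B) h := LipschitzWith.of_dist_le_mul fun x y => by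
      rw [Real.dist_eq, Real.dist_eq, Real.coe_toNNReal B hB]
      exact hlip x y
    exact this.continuous
  obtain ⟨T₁, hT₁, h1⟩ := h1 h hc h0 ⟨α, β, hα, hαβ, hsupp⟩ ε hε
  obtain ⟨T₂, hT₂, h2⟩ := h2 h α β B h0 hα hαβ hsupp hB hlip ε hε
  refine ⟨max T₁ T₂, hT₁.trans (le_max_left _ _), ?_⟩
  intro L _ t n hL htT hlogt htL hn1 hn2 hcase
  have hL0 : (0 : ℝ) < L := by exact_mod_cast Nat.pos_of_ne_zero (NeZero.ne L)
  have hL3 : (3 : ℝ) ≤ L := by exact_mod_cast hL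
  have hT1t : T₁ ≤ t := (le_max_left _ _).trans htT
  have hT2t : T₂ ≤ t := (le_max_right _ _).trans htT
  have ht0 : 0 < t := by linarith
  have hlog1 : 1 ≤ Real.log L := by
    have h2 : Real.exp 1 ≤ L := by
      have := Real.exp_one_lt_d9
      linarith
    have := Real.log_le_log (Real.exp_pos 1) h2
    rwa [Real.log_exp] at this
  have hpow : ∀ k : ℕ, k ≤ m₁ + m₂ → (Real.log L) ^ k ≤ (Real.log L) ^ (m₁ + m₂) :=
    fun k hk => pow_le_pow_right₀ hlog1 hk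
  have hlm0 : 0 < (Real.log L) ^ (m₁ + m₂) := by positivity
  have hn0 : 0 < n := by
    have : 0 < (Real.log L) ^ (m₁ + m₂) * (1 + (L : ℝ) ^ 2 / t) := by positivity
    linarith
  have e1 : T₁ * ((L : ℝ) ^ d * t ^ (-(d / 2 : ℝ))) ≤ n := by
    refine le_trans ?_ hn1
    exact mul_le_mul_of_nonneg_right (le_max_left _ _) (by positivity)
  have e2 : (Real.log L) ^ m₁ * (1 + (L : ℝ) ^ 2 / t) ≤ n := by
    refine le_trans ?_ hn2
    exact mul_le_mul_of_nonneg_right (hpow m₁ (by omega)) (by positivity)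
  by_cases hlow : (Real.log L) ^ m₁ * n ≤ (L : ℝ) ^ d
  · exact h1 L t n hL hT1t ((hpow m₁ (by omega)).trans hlogt) htL e1 e2 hlow
  · rcases hcase with h3 | ⟨h3, h4⟩
    · exfalso
      apply hlow
      refine le_trans ?_ h3
      exact mul_le_mul_of_nonneg_right (hpow m₁ (by omega)) hn0.le
    · refine h2 L t n hL hT2t ((hpow m₂ (by omega)).trans hlogt) h3 hn0 (not_le.1 hlow).le ?_
      refine le_trans ?_ h4
      exact mul_le_mul_of_nonneg_right (le_max_right _ _) hn0.le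

section torus

variable {d L : ℕ} [NeZero L]

theorem sum_len (g : Perm (Fin d → ZMod L)) (F : ℕ → ℝ) :
    ∑ x, F (cycleLen g x) =
      ∑ ℓ ∈ Icc 1 (L ^ d), (ℓ : ℝ) * (g.partition.parts.count ℓ : ℝ) * F ℓ := by
  have hL0 : (0 : ℝ) < L := by exact_mod_cast Nat.pos_of_ne_zero (NeZero.ne L)
  have hN0 : (0 : ℝ) < (L : ℝ) ^ d := pow_pos hL0 d
  have h1 : ∀ x : Fin d → ZMod L, F (cycleLen g x) =
      ∑ ℓ ∈ Icc 1 (L ^ d), (if cycleLen g x = ℓ then F ℓ else 0) := fun x => by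
    rw [Finset.sum_ite_eq, if_pos (len_mem g x)]
  rw [sum_congr rfl fun x _ => h1 x, sum_comm]
  refine sum_congr rfl fun ℓ hℓ => ?_
  rw [← sum_filter, sum_const, nsmul_eq_mul]
  have h2 := frac_num g ℓ (mem_Icc.1 hℓ).1
  unfold frac at h2
  rw [div_left_inj' hN0.ne'] at h2
  rw [h2]

theorem kS_parts (hCYC : S_CYC) (h : ℝ → ℝ) (n : ℝ) (g : Perm (Fin d → ZMod L)) :
    kS h n g = (g.partition.parts.map fun l : ℕ => h ((l : ℝ) / n)).sum := by
  obtain ⟨-, -, -, -, h5⟩ := hCYC (Fin d → ZMod L) g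
  have h1 := h5 fun C => h ((C.card : ℝ) / n) / C.card
  simp only [card_cyc] at h1
  rw [sum_len g (fun ℓ => h ((ℓ : ℝ) / n) / ℓ)] at h1
  have h2 : kS h n g = ∑ C ∈ cycs g, (C.card : ℝ) * (h ((C.card : ℝ) / n) / C.card) := by
    unfold kS
    refine sum_congr rfl fun C hC => ?_
    obtain ⟨x, -, rfl⟩ := mem_image.1 hC
    have : (0 : ℝ) < ((cyc g x).card : ℝ) := by
      exact_mod_cast card_pos.2 ⟨x, Pool.Agent.Q153.LC.self_mem_cyc g x⟩
    field_simp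
  rw [h2, ← h1, Finset.sum_multiset_map_count]
  have h3 : g.partition.parts.toFinset ⊆ Icc 1 (L ^ d) := by
    intro a ha
    rw [Multiset.mem_toFinset] at ha
    rw [mem_Icc]
    refine ⟨g.partition.parts_pos ha, ?_⟩
    have h2 := Multiset.le_sum_of_mem ha
    rw [g.partition.parts_sum] at h2
    exact h2.trans (le_of_eq card_torus)
  rw [sum_subset h3 fun a _ ha => by
    rw [Multiset.mem_toFinset] at ha
    rw [Multiset.count_eq_zero_of_notMem ha, zero_smul]]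
  refine sum_congr rfl fun ℓ hℓ => ?_
  have : (0 : ℝ) < ℓ := by
    have := (mem_Icc.1 hℓ).1
    exact_mod_cast this
  rw [nsmul_eq_mul]
  field_simp

end torus

end Pool.Agent.H961.T3
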