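import Pool.Agent.H961.T3.Stm3

/-! The cycle length of a point in a uniform permutation (task UNI of helper961). -/

set_option autoImplicit false

namespace Pool.Agent.H961.T3.Unih

open Finset Equiv Q292.LC

theorem mem_cyc' {V : Type} [Fintype V] [DecidableEq V] (g : Perm V) (x y : V) :
    y ∈ cyc g x ↔ g.SameCycle x y := by
  unfold cyc
  rw [mem_filter]
  exact ⟨fun h => h.2, fun h => ⟨mem_univ y, h⟩⟩

theorem dec_succ {n : ℕ} (e : Perm (Fin n)) (i x : Fin n) :
    Equiv.Perm.decomposeFin.symm (i.succ, e) x.succ = if e x = i then 0 else (e x).succ := by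
  rw [Equiv.Perm.decomposeFin_symm_apply_succ]
  split_ifs with h
  · rw [h, Equiv.swap_apply_right]
  · exact Equiv.swap_apply_of_ne_of_ne (Fin.succ_ne_zero _) fun h2 => h (Fin.succ_injective _ h2)

theorem same1 {n : ℕ} (e : Perm (Fin n)) (i y : Fin n) (h : e.SameCycle i y) :
    (Equiv.Perm.decomposeFin.symm (i.succ, e)).SameCycle 0 y.succ := by
  obtain ⟨π, hπ⟩ : ∃ π : Perm (Fin (n + 1)), π = Equiv.Perm.decomposeFin.symm (i.succ, e) :=
    ⟨_, rfl⟩
  rw [← hπ]
  have h0 : π 0 = i.succ := by
    rw [hπ]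
    exact Equiv.Perm.decomposeFin_symm_apply_zero _ _
  have hs : ∀ x : Fin n, π x.succ = if e x = i then 0 else (e x).succ := by
    intro x
    rw [hπ]
    exact dec_succ e i x
  have hi : π.SameCycle 0 i.succ := by
    rw [← h0]
    exact (Equiv.Perm.SameCycle.refl π 0).apply_right
  have key : ∀ m : ℕ, π.SameCycle 0 ((e ^ m) i).succ := by
    intro m
    induction m with
    | zero => exact hi
    | succ m ih =>
      rw [pow_succ', Equiv.Perm.mul_apply]
      by_cases hz : e ((e ^ m) i) = i
      · rw [hz]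
        exact hi
      · have h1 := hs ((e ^ m) i)
        rw [if_neg hz] at h1
        rw [← h1]
        exact ih.apply_right
  obtain ⟨m, -, hm⟩ := h.exists_pow_eq'
  rw [← hm]
  exact key m

theorem same2 {n : ℕ} (e : Perm (Fin n)) (i y : Fin n)
    (h : (Equiv.Perm.decomposeFin.symm (i.succ, e)).SameCycle 0 y.succ) : e.SameCycle i y := by
  obtain ⟨π, hπ⟩ : ∃ π : Perm (Fin (n + 1)), π = Equiv.Perm.decomposeFin.symm (i.succ, e) :=
    ⟨_, rfl⟩
  rw [← hπ] at h
  have h0 : π 0 = i.succ := by
    rw [hπ]
    exact Equiv.Perm.decomposeFin_symm_apply_zero _ _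
  have hs : ∀ x : Fin n, π x.succ = if e x = i then 0 else (e x).succ := by
    intro x
    rw [hπ]
    exact dec_succ e i x
  have key : ∀ m : ℕ, ∀ z : Fin n, (π ^ m) 0 = z.succ → e.SameCycle i z := by
    intro m
    induction m with
    | zero =>
      intro z hz
      exact absurd hz.symm (Fin.succ_ne_zero z)
    | succ m ih =>
      intro z hz
      rw [pow_succ', Equiv.Perm.mul_apply] at hz
      rcases Fin.eq_zero_or_eq_succ ((π ^ m) 0) with h1 | ⟨w, h1⟩
      · rw [h1, h0] at hz
        rw [Fin.succ_injective _ hz]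
      · rw [h1, hs] at hz
        split_ifs at hz with h2
        · exact absurd hz.symm (Fin.succ_ne_zero z)
        · rw [← Fin.succ_injective _ hz]
          exact (ih w h1).apply_right
  obtain ⟨m, -, hm⟩ := h.exists_pow_eq'
  exact key m y hm

theorem card_succ {n : ℕ} (e : Perm (Fin n)) (i : Fin n) :
    (cyc (Equiv.Perm.decomposeFin.symm (i.succ, e)) 0).card = (cyc e i).card + 1 := by
  have h1 : cyc (Equiv.Perm.decomposeFin.symm (i.succ, e)) 0 =
      insert 0 ((cyc e i).map (Fin.succEmb n)) := by
    ext y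
    rw [mem_cyc', mem_insert, mem_map]
    constructor
    · intro h
      rcases Fin.eq_zero_or_eq_succ y with h2 | ⟨w, h2⟩
      · exact Or.inl h2
      · refine Or.inr ⟨w, ?_, h2.symm⟩
        rw [mem_cyc']
        rw [h2] at h
        exact same2 e i w h
    · rintro (h | ⟨w, hw, h⟩)
      · rw [h]
      · rw [mem_cyc'] at hw
        rw [← h]
        exact same1 e i w hw
  rw [h1, card_insert_of_notMem, card_map]
  rw [mem_map]
  rintro ⟨w, -, h⟩
  exact Fin.succ_ne_zero w h

theorem card_zero {n : ℕ} (e : Perm (Fin n)) :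
    (cyc (Equiv.Perm.decomposeFin.symm (0, e)) 0).card = 1 := by
  have h0 : Equiv.Perm.decomposeFin.symm (0, e) 0 = 0 :=
    Equiv.Perm.decomposeFin_symm_apply_zero _ _
  rw [card_eq_one]
  refine ⟨0, ?_⟩
  ext y
  rw [mem_cyc', mem_singleton]
  constructor
  · intro h
    exact (h.eq_of_left h0).symm
  · intro h
    rw [h]

theorem cyc_pos {V : Type} [Fintype V] [DecidableEq V] (g : Perm V) (x : V) :
    1 ≤ (cyc g x).card :=
  card_pos.2 ⟨x, (mem_cyc' g x x).2 (Equiv.Perm.SameCycle.refl g x)⟩

/-- conjugation -/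
theorem conj_card {V : Type} [Fintype V] [DecidableEq V] (g s : Perm V) (x : V) :
    (cyc (s * g * s⁻¹) (s x)).card = (cyc g x).card := by
  have e1 : ∀ z, s⁻¹ (s z) = z := fun z => s.symm_apply_apply z
  have e2 : ∀ z, s (s⁻¹ z) = z := fun z => s.apply_symm_apply z
  have h1 : cyc (s * g * s⁻¹) (s x) = (cyc g x).map s.toEmbedding := by
    ext y
    rw [mem_cyc', mem_map, Equiv.Perm.sameCycle_conj, e1]
    constructor
    · intro h
      exact ⟨s⁻¹ y, (mem_cyc' _ _ _).2 h, e2 y⟩
    · rintro ⟨w, hw, h⟩
      have h2 : s w = y := h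
      rw [← h2, e1]
      exact (mem_cyc' _ _ _).1 hw
  rw [h1, card_map]

theorem symm_count {V : Type} [Fintype V] [DecidableEq V] (x x' : V) (j : ℕ) :
    ((univ : Finset (Perm V)).filter fun π => (cyc π x).card = j).card =
      ((univ : Finset (Perm V)).filter fun π => (cyc π x').card = j).card := by
  obtain ⟨s, hs⟩ : ∃ s : Perm V, s x = x' := ⟨Equiv.swap x x', Equiv.swap_apply_left x x'⟩
  refine Finset.card_bij (fun π _ => s * π * s⁻¹) ?_ ?_ ?_
  · intro π hπ
    rw [mem_filter] at hπ ⊢
    refine ⟨mem_univ _, ?_⟩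
    rw [← hs, conj_card]
    exact hπ.2
  · intro π _ π' _ h
    have h1 : s * π = s * π' := mul_right_cancel h
    exact mul_left_cancel h1
  · intro π hπ
    rw [mem_filter] at hπ
    refine ⟨s⁻¹ * π * s, ?_, by group⟩
    rw [mem_filter]
    refine ⟨mem_univ _, ?_⟩
    have h1 := conj_card (s⁻¹ * π * s) s x
    rw [hs] at h1
    have h2 : s * (s⁻¹ * π * s) * s⁻¹ = π := by group
    rw [h2] at h1
    rw [← h1]
    exact hπ.2

theorem uni_aux : ∀ (k : ℕ) (x : Fin k) (j : ℕ), 1 ≤ j → j ≤ k →
    ((univ : Finset (Perm (Fin k))).filter fun π => (cyc π x).card = j).card =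
      (k - 1).factorial := by
  intro k
  induction k with
  | zero =>
    intro x
    exact x.elim0
  | succ n ih =>
    intro x j hj hjn
    rw [symm_count x 0 j, Nat.add_sub_cancel, card_filter,
      ← Equiv.sum_comp (Equiv.Perm.decomposeFin (n := n)).symm, Fintype.sum_prod_type,
      Fin.sum_univ_succ]
    simp only [card_zero, card_succ]
    rcases Nat.lt_or_ge 1 j with h | h
    · have e1 : ∀ i : Fin n, (∑ e : Perm (Fin n), if (cyc e i).card + 1 = j then 1 else 0) =
          (n - 1).factorial := by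
        intro i
        rw [← ih i (j - 1) (by omega) (by omega), card_filter]
        refine Finset.sum_congr rfl fun e _ => ?_
        have : ((cyc e i).card + 1 = j) ↔ ((cyc e i).card = j - 1) := by omega
        simp only [this]
      rw [if_neg (by omega), Finset.sum_const_zero, zero_add]
      simp only [e1]
      rw [Finset.sum_const, card_univ, Fintype.card_fin, smul_eq_mul]
      exact Nat.mul_factorial_pred (by omega)
    · have hj1 : j = 1 := by omega
      rw [if_pos hj1.symm, Finset.sum_const, card_univ, smul_eq_mul, mul_one,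
        Fintype.card_perm, Fintype.card_fin]
      have e2 : ∀ i : Fin n, (∑ e : Perm (Fin n), if (cyc e i).card + 1 = j then 1 else 0) = 0 := by
        intro i
        refine Finset.sum_eq_zero fun e _ => ?_
        have := cyc_pos e i
        rw [if_neg (by omega)]
      simp only [e2]
      rw [Finset.sum_const_zero, add_zero]

end Pool.Agent.H961.T3.Unih

namespace Pool.Agent.H961.T3

theorem uni : S_UNI := Unih.uni_aux

end Pool.Agent.H961.T3
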