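import Pool.Agent.H961.T3.Stm
import Pool.Graph.R_pool_sql_team_seeded_3997aac3.Q38.L2.Lpt
import Pool.Graph.R_pool_sql_team_seeded_3997aac3.Q285.L2.Bxp
import Pool.Graph.R_pool_sql_team_seeded_3997aac3.Q295.PL.All
import Pool.Graph.R_pool_sql_team_seeded_3997aac3.Q299.PL.NSH
import Pool.Graph.R_pool_sql_team_seeded_3997aac3.Q187.LC.Rev

/-! # Project MS (helper961), job VAR: decay of zero sum functions over many laps -/

set_option autoImplicit false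

namespace Pool.Agent.H961.T3.Varh

open Finset Equiv Matrix Q292.LC Q295.PL Pool.Agent.H961.T3
open Pool.Agent.Q257.LC (Aj fj fj_nonneg fj_sum fj_zero fj_add fj_mono sum_vecMul_sq_le sum_vecMul
  vecMul_nonneg bal_mono)
open Pool.Agent.Q38.L2 (WIRb numb)

/-- the sites off `A` have positive density -/
theorem card_off {d L : ℕ} [NeZero L] (A : Finset (Fin d → ZMod L)) (m : ℕ)
    (y : (Fin d → ZMod L) → (Fin d → ZMod L)) (hy : Ex A m y) :
    L ^ d ≤ (2 * m + 1) ^ d * (univ \ A).card := by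
  have h0 : (univ : Finset (Fin d → ZMod L)).card = L ^ d := by
    rw [card_univ, Fintype.card_fun, ZMod.card, Fintype.card_fin]
  have hmap : ∀ x ∈ (univ : Finset (Fin d → ZMod L)), y x ∈ univ \ A := fun x _ =>
    mem_sdiff.2 ⟨mem_univ _, (hy x).1⟩
  have h1 := card_eq_sum_card_fiberwise (f := y) (s := univ) (t := univ \ A) hmap
  rw [← h0, h1]
  have h2 : ∀ p ∈ univ \ A, (univ.filter fun x => y x = p).card ≤ (2 * m + 1) ^ d := by
    intro p _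
    refine (card_le_card ?_).trans (Q299.PL.card_bal_le p m)
    intro x hx
    rw [mem_filter] at hx
    unfold bal
    rw [mem_filter]
    refine ⟨mem_univ _, ?_⟩
    rw [Pool.Agent.Q257.LC.td_comm, ← hx.2]
    exact (hy x).2.1
  refine (sum_le_sum h2).trans ?_
  rw [sum_const, smul_eq_mul, mul_comm]

theorem pair_sum {V : Type} (U : Finset V) (g : V → ℝ) :
    ∑ x ∈ U, ∑ z ∈ U, (g x - g z) ^ 2 =
      2 * (U.card : ℝ) * ∑ x ∈ U, g x ^ 2 - 2 * (∑ x ∈ U, g x) ^ 2 := by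
  have h1 : ∀ x ∈ U, ∑ z ∈ U, (g x - g z) ^ 2 =
      (U.card : ℝ) * g x ^ 2 - 2 * g x * ∑ z ∈ U, g z + ∑ z ∈ U, g z ^ 2 := by
    intro x _
    rw [mul_sum]
    have : (U.card : ℝ) * g x ^ 2 = ∑ z ∈ U, g x ^ 2 := by
      rw [sum_const, nsmul_eq_mul]
    rw [this, ← sum_sub_distrib, ← sum_add_distrib]
    exact sum_congr rfl fun z _ => by ring
  rw [sum_congr rfl h1, sum_add_distrib, sum_sub_distrib, ← mul_sum, sum_const, nsmul_eq_mul,
    ← sum_mul, ← mul_sum]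
  ring

/-- Poincare inequality for a zero sum function which vanishes on a sparse set -/
theorem poin {d L : ℕ} [NeZero L] (hd : 1 ≤ d) (hL : 3 ≤ L) (A : Finset (Fin d → ZMod L)) (m : ℕ)
    (y : (Fin d → ZMod L) → (Fin d → ZMod L)) (g : (Fin d → ZMod L) → ℝ)
    (hgA : ∀ x ∈ A, g x = 0) (hg : ∑ x, g x = 0) (hy : Ex A m y) :
    ∑ x, g x ^ 2 ≤ (2 * (m : ℝ) + 1) ^ d * d * (L : ℝ) ^ 2 * gE (fun x => g (y x)) := by
  have hE : 0 ≤ gE (fun x => g (y x)) := Q299.PL.gE_nonneg _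
  have hL0 : (0 : ℝ) < L := by exact_mod_cast (by omega : 0 < L)
  have hcard : (L : ℝ) ^ d ≤ (2 * (m : ℝ) + 1) ^ d * ((univ \ A).card : ℝ) := by
    exact_mod_cast card_off A m y hy
  have hbox : box (0 : Fin d → ZMod L) L = univ := by
    unfold Q292.LC.box
    rw [filter_eq_self]
    intro x _ i
    exact ZMod.val_lt _
  have hB := Pool.Agent.Q285.L2.bxp d L hd hL 0 L (by omega) le_rfl fun x => g (y x)
  rw [hbox] at hB
  have hsub : ∑ x ∈ univ \ A, ∑ z ∈ univ \ A, (g x - g z) ^ 2 ≤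
      ∑ x, ∑ z, (g (y x) - g (y z)) ^ 2 := by
    have h1 : ∑ x ∈ univ \ A, ∑ z ∈ univ \ A, (g x - g z) ^ 2 =
        ∑ x ∈ univ \ A, ∑ z ∈ univ \ A, (g (y x) - g (y z)) ^ 2 := by
      refine sum_congr rfl fun x hx => sum_congr rfl fun z hz => ?_
      rw [(hy x).2.2 (mem_sdiff.1 hx).2, (hy z).2.2 (mem_sdiff.1 hz).2]
    rw [h1]
    refine le_trans (sum_le_sum fun x _ => sum_le_sum_of_subset_of_nonneg (subset_univ _)
      fun z _ _ => sq_nonneg _) ?_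
    exact sum_le_sum_of_subset_of_nonneg (subset_univ _)
      fun x _ _ => sum_nonneg fun z _ => sq_nonneg _
  have hs1 : ∑ x ∈ univ \ A, g x = 0 := by
    rw [← hg]
    refine sum_subset (subset_univ _) fun x _ hx => hgA x ?_
    by_contra h
    exact hx (mem_sdiff.2 ⟨mem_univ _, h⟩)
  have hs2 : ∑ x ∈ univ \ A, g x ^ 2 = ∑ x, g x ^ 2 := by
    refine sum_subset (subset_univ _) fun x _ hx => ?_
    have : g x = 0 := hgA x (by
      by_contra h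
      exact hx (mem_sdiff.2 ⟨mem_univ _, h⟩))
    rw [this]
    ring
  rw [pair_sum, hs1, hs2] at hsub
  have hS : 0 ≤ ∑ x, g x ^ 2 := sum_nonneg fun x _ => sq_nonneg _
  have h3 : 2 * ((univ \ A).card : ℝ) * ∑ x, g x ^ 2 ≤
      d * (L : ℝ) ^ (d + 2) * gE (fun x => g (y x)) := by
    have := hsub.trans hB
    linarith
  have hLd : (0 : ℝ) < (L : ℝ) ^ d := by positivity
  refine le_of_mul_le_mul_left ?_ hLd
  have hm : (0 : ℝ) ≤ (2 * (m : ℝ) + 1) ^ d := by positivity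
  calc (L : ℝ) ^ d * ∑ x, g x ^ 2
      ≤ (2 * (m : ℝ) + 1) ^ d * ((univ \ A).card : ℝ) * ∑ x, g x ^ 2 :=
        mul_le_mul_of_nonneg_right hcard hS
    _ ≤ (2 * (m : ℝ) + 1) ^ d * (2 * ((univ \ A).card : ℝ) * ∑ x, g x ^ 2) := by
        have h4 : 0 ≤ (2 * (m : ℝ) + 1) ^ d * ((univ \ A).card : ℝ) * ∑ x, g x ^ 2 := by positivity
        nlinarith
    _ ≤ (2 * (m : ℝ) + 1) ^ d * (d * (L : ℝ) ^ (d + 2) * gE (fun x => g (y x))) :=
        mul_le_mul_of_nonneg_left h3 hm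
    _ = (L : ℝ) ^ d * ((2 * (m : ℝ) + 1) ^ d * d * (L : ℝ) ^ 2 * gE (fun x => g (y x))) := by
        ring

/-- one window -/
theorem win0 {d : ℕ} (hd : 2 ≤ d) {C : ℕ} (hW : WIRb d C)
    {L : ℕ} [NeZero L] (hL : 3 ≤ L) {σ : ℕ → (Fin d → ZMod L) × Fin d} (hσ : Per σ)
    {q u lam r ρ κ₀ R Z : ℕ} {δ : ℝ} (hδ : 0 < δ) (hδ1 : δ ≤ 1) (hCδ : C * δ ≤ 1)
    (h1 : 1 ≤ δ * q) (h2 : δ * q ≤ 2) (hu : 1 ≤ u) (hlam : lam ≤ Z) (hlamr : lam ≤ r)
    (hlamL : lam < L) (h4 : 4 * lam ^ 2 * κ₀ ≤ u) (h5 : 4 * lam * ρ ≤ q)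
    (h6 : C * (lam + 1) * (ρ + 1) * u ≤ R) (h7 : 4 * R ≤ r) (ω : ℕ → Bool)
    (A : Finset (Fin d → ZMod L)) (hE : Ev σ q u lam r ρ κ₀ ω A)
    (f : (Fin d → ZMod L) → ℝ) (hfA : ∀ x ∈ A, f x = 0)
    (hf1 : ∑ x, f x = 0) :
    ∑ x, (vecMul f (TT (ed ∘ σ) ω A δ (u * (q * ms d L))) x) ^ 2 ≤
      (((2 * Z + 1) ^ d * d * (C * R ^ (d + 1)) : ℕ) : ℝ) * (L : ℝ) ^ 2 * (∑ x, (f x) ^ 2 -
        ∑ x, (vecMul f (TT (ed ∘ σ) ω A δ (u * (q * ms d L))) x) ^ 2) := by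
  have hB := Pool.Agent.Q68.LC.bas2 _ (ed ∘ σ) ω A δ hδ.le hδ1
  obtain ⟨y, hy⟩ := Pool.Agent.Q38.L2.ext d L (by omega)
    (A.image (gp (ed ∘ σ) ω (u * (q * ms d L)))) lam hlamL
    fun v => (card_le_card (inter_subset_inter_left (bal_mono v hlamr))).trans (hE.1 u le_rfl v)
  have hG := hW L hL σ hσ ω A δ q u lam r ρ κ₀ R y f hδ hCδ h1 h2 hu hE h4 h5 h6 h7 hy
  obtain ⟨g, hg⟩ : ∃ g, g = vecMul f (TT (ed ∘ σ) ω A δ (u * (q * ms d L))) := ⟨_, rfl⟩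
  have hgA : ∀ x ∈ A.image (gp (ed ∘ σ) ω (u * (q * ms d L))), g x = 0 := by
    intro x hx
    rw [hg]
    refine sum_eq_zero fun y _ => ?_
    by_cases hy : y ∈ A
    · rw [hfA y hy, zero_mul]
    · beta_reduce
      rw [hB.2.2.2.2.1 _ y hy x hx, mul_zero]
  have hgs : ∑ x, g x = 0 := by
    rw [hg, sum_vecMul _ _ (hB.2.1 _)]
    exact hf1
  rw [← hg] at hG ⊢
  have hP := poin (by omega) hL _ lam y g hgA hgs hy
  have h8 : (2 * (lam : ℝ) + 1) ^ d ≤ (2 * (Z : ℝ) + 1) ^ d := by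
    have : (lam : ℝ) ≤ Z := by exact_mod_cast hlam
    gcongr
  have hgE : 0 ≤ gE (fun x => g (y x)) := Q299.PL.gE_nonneg _
  calc ∑ x, g x ^ 2 ≤ (2 * (lam : ℝ) + 1) ^ d * d * (L : ℝ) ^ 2 * gE (fun x => g (y x)) := hP
    _ ≤ (2 * (Z : ℝ) + 1) ^ d * d * (L : ℝ) ^ 2 * gE (fun x => g (y x)) := by gcongr
    _ ≤ (2 * (Z : ℝ) + 1) ^ d * d * (L : ℝ) ^ 2 *
        (C * (R : ℝ) ^ (d + 1) * (∑ x, (f x) ^ 2 - ∑ x, (g x) ^ 2)) := by gcongr
    _ = (((2 * Z + 1) ^ d * d * (C * R ^ (d + 1)) : ℕ) : ℝ) * (L : ℝ) ^ 2 * (∑ x, (f x) ^ 2 -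
        ∑ x, (g x) ^ 2) := by
      push_cast
      ring

/-- from the window inequality to a contraction -/
theorem contr {a b B : ℝ} (hB : 1 ≤ B) (ha : 0 ≤ a) (_hb : 0 ≤ b) (h : b ≤ B * (a - b)) :
    b ≤ Real.exp (-(1 / (2 * B))) * a := by
  have hB0 : 0 < B := by linarith
  have hx0 : 0 < 1 / (2 * B) := by positivity
  have hx1 : 1 / (2 * B) ≤ 1 / 2 := by
    rw [div_le_div_iff₀ (by positivity) (by norm_num)]
    linarith
  -- `exp (-x) ≥ 1 - x`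
  have h1 : 1 - 1 / (2 * B) ≤ Real.exp (-(1 / (2 * B))) := by
    have := Real.add_one_le_exp (-(1 / (2 * B)))
    linarith
  have h2 : b * (1 + B) ≤ B * a := by nlinarith
  have h3 : b ≤ (1 - 1 / (2 * B)) * a := by
    have h4 : b ≤ B * a / (1 + B) := by
      rw [le_div_iff₀ (by linarith)]
      exact h2
    refine h4.trans ?_
    have h5 : B / (1 + B) ≤ 1 - 1 / (2 * B) := by
      rw [div_le_iff₀ (by linarith)]
      have : (1 - 1 / (2 * B)) * (1 + B) = 1 + B - 1 / (2 * B) - 1 / 2 := by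
        field_simp
        ring
      rw [this]
      linarith
    calc B * a / (1 + B) = B / (1 + B) * a := by ring
      _ ≤ (1 - 1 / (2 * B)) * a := mul_le_mul_of_nonneg_right h5 ha
  exact h3.trans (mul_le_mul_of_nonneg_right h1 ha)

/-- **VAR** -/
theorem var : S_VAR := by
  intro d hd
  obtain ⟨C, hC, hW'⟩ := Pool.Agent.Q38.L2.wir Pool.Agent.Q187.LC.Rev.rev Q295.PL.all_win d hd
  have hW : WIRb d C := fun L _ => hW' L
  refine ⟨C + d ^ 2 + 3, 14 * d + 25, by omega, ?_⟩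
  intro Z hZ L K lam r ρ κ₀ _ hlam hρ hκ hr hL hK
  refine ⟨4 * Z ^ 2 + 2 * C + 2, ?_⟩
  intro q hq σ hσ δ h1 h2 ω A hE hInv f hfA hf1 k
  have hZC : C ≤ Z := by omega
  have hZd : d ^ 2 ≤ Z := by omega
  have hZ3 : 3 ≤ Z := by omega
  obtain ⟨n1, -, n3, n4, n5⟩ := numb d C Z hZC hZd hZ3
  obtain ⟨u, hu⟩ : ∃ u, u = 4 * Z ^ 3 := ⟨_, rfl⟩
  obtain ⟨R, hR⟩ : ∃ R, R = C * (Z + 1) ^ 2 * u := ⟨_, rfl⟩
  obtain ⟨W, hWW⟩ : ∃ W, W = Z ^ (14 * d + 25) := ⟨_, rfl⟩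
  rw [← hu, ← hWW] at n1 n3 n4
  rw [← hR] at n1 n3
  rw [← hWW] at n5 hr hL hK
  have hu1 : 1 ≤ u := by
    rw [hu]
    have : 1 ≤ Z ^ 3 := Nat.one_le_pow _ _ (by omega)
    omega
  have hqr : ((4 * Z ^ 2 + 2 * C + 2 : ℕ) : ℝ) ≤ q := by exact_mod_cast hq
  push_cast at hqr
  have hC0 : (0 : ℝ) ≤ C := Nat.cast_nonneg _
  have hZ0 : (0 : ℝ) ≤ (Z : ℝ) ^ 2 := by positivity
  have hδ : 0 < δ := by
    by_contra h
    push Not at h
    nlinarith
  have hδ1 : δ ≤ 1 := by nlinarith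
  have hCδ : C * δ ≤ 1 := by nlinarith
  have hL3 : 3 ≤ L := by omega
  obtain ⟨J, hJ⟩ : ∃ J, J = K / u := ⟨_, rfl⟩
  have hJ1 : 1 ≤ J := by
    rw [hJ, Nat.one_le_div_iff (by omega)]
    omega
  have hJu : J * u ≤ K := by
    rw [hJ]
    exact Nat.div_mul_le_self K u
  have hKJ : K ≤ 2 * (J * u) := by
    have h3 : K < u * (K / u + 1) := Nat.lt_mul_div_succ K (by omega)
    rw [← hJ, mul_add, mul_one] at h3
    have h4 : 1 * u ≤ J * u := Nat.mul_le_mul_right _ hJ1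
    have h5 : u * J = J * u := Nat.mul_comm _ _
    omega
  have hq5 : 4 * lam * ρ ≤ q := by
    have : lam * ρ ≤ Z * Z := Nat.mul_le_mul hlam hρ
    nlinarith
  have hu4 : 4 * lam ^ 2 * κ₀ ≤ u := by
    rw [hu]
    calc 4 * lam ^ 2 * κ₀ ≤ 4 * Z ^ 2 * Z := by gcongr
      _ = 4 * Z ^ 3 := by ring
  have hR6 : C * (lam + 1) * (ρ + 1) * u ≤ R := by
    rw [hR]
    calc C * (lam + 1) * (ρ + 1) * u ≤ C * (Z + 1) * (Z + 1) * u := by gcongr
      _ = C * (Z + 1) ^ 2 * u := by ring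
  have hR1 : 1 ≤ R := by
    rw [hR]
    exact Nat.mul_pos (Nat.mul_pos (by omega) (by positivity)) (by omega)
  obtain ⟨M, hM⟩ : ∃ M, M = (2 * Z + 1) ^ d * d * (C * R ^ (d + 1)) := ⟨_, rfl⟩
  have hM1 : 1 ≤ M := by
    rw [hM]
    exact Nat.mul_pos (Nat.mul_pos (pow_pos (by omega) d) (by omega))
      (Nat.mul_pos (by omega) (pow_pos hR1 _))
  have hMW : 4 * M * u ≤ W := by
    refine le_trans ?_ n1
    have e1 : (2 * Z + 1) ^ d ≤ (2 * Z + 1) ^ (2 * d) := Nat.pow_le_pow_right (by omega) (by omega)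
    have e2 : d ≤ d ^ 2 := by nlinarith
    calc 4 * M * u = 4 * ((2 * Z + 1) ^ d * d * (C * R ^ (d + 1))) * u := by rw [hM]
      _ ≤ 4 * ((2 * Z + 1) ^ (2 * d) * d ^ 2 * (C * R ^ (d + 1))) * u := by gcongr
      _ ≤ 64 * 4 * ((2 * Z + 1) ^ (2 * d) * d ^ 2 * (C * R ^ (d + 1))) * u := by gcongr; norm_num
      _ = 64 * (2 * (2 * Z + 1) ^ (2 * d)) * (2 * d ^ 2 * (C * R ^ (d + 1))) * u := by ring
  have hB2 : S_BAS2 := Pool.Agent.Q68.LC.bas2
  obtain ⟨T, hT⟩ : ∃ T, T = TT (ed ∘ σ) ω A δ (K * (q * ms d L)) := ⟨_, rfl⟩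
  rw [← hT]
  have hLr : (0 : ℝ) < L := by exact_mod_cast (by omega : 0 < L)
  have hL1r : (1 : ℝ) ≤ L := by exact_mod_cast (by omega : 1 ≤ L)
  have hM1r : (1 : ℝ) ≤ M := by exact_mod_cast hM1
  obtain ⟨B, hBd⟩ : ∃ B : ℝ, B = (M : ℝ) * (L : ℝ) ^ 2 := ⟨_, rfl⟩
  have hBge : 1 ≤ B := by
    rw [hBd]
    have : (1 : ℝ) ≤ (L : ℝ) ^ 2 := one_le_pow₀ hL1r
    nlinarith
  obtain ⟨c, hc⟩ : ∃ c : ℝ, c = Real.exp (-(1 / (2 * B))) := ⟨_, rfl⟩
  have hc0 : 0 ≤ c := by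
    rw [hc]
    exact (Real.exp_pos _).le
  -- one lap
  have lap : ∀ s : (Fin d → ZMod L) → ℝ, (∀ x ∈ A, s x = 0) → ∑ x, s x = 0 →
      ∑ x, (vecMul s T x) ^ 2 ≤ c ^ J * ∑ x, (s x) ^ 2 := by
    intro s hsA hs1
    have hanti : Antitone fun j => ∑ x, fj σ q ω A δ s j x ^ 2 :=
      antitone_nat_of_succ_le fun j => fj_mono hB2 hσ q ω A hδ.le hδ1 s j
    have hwin : ∀ j ≤ J, ∑ x, fj σ q ω A δ s (j * u) x ^ 2 ≤ c ^ j * ∑ x, (s x) ^ 2 := by
      intro j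
      induction j with
      | zero =>
        intro _
        rw [zero_mul, pow_zero, one_mul]
        have e : fj σ q ω A δ s 0 = s := by
          unfold fj
          rw [zero_mul]
          exact Matrix.vecMul_one _
        rw [e]
      | succ j ih =>
        intro hj
        have ih' := ih (by omega)
        have e : (j + 1) * u = j * u + u := by ring
        have hju : j * u + u ≤ K := by
          rw [← e]
          exact (Nat.mul_le_mul_right _ hj).trans hJu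
        have hE' := (Pool.Agent.Q277.LC.sub d L hL3 σ hσ q K lam r ρ κ₀ ω A hE (j * u) u hju).2
        have hw := win0 (Z := Z) hd hW hL3 hσ hδ hδ1 hCδ h1 h2 hu1 hlam (by omega) (by omega) hu4
          hq5 hR6 (by omega) _ _ hE' (fj σ q ω A δ s (j * u))
          (fj_zero hB2 σ q ω A hδ.le hδ1 hsA (j * u)) (by
            rw [fj_sum hB2 σ q ω A hδ.le hδ1 s (j * u)]
            exact hs1)
        have hadd := fj_add hB2 hσ q ω A hδ.le hδ1 s (j * u) u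
        unfold Aj at hadd
        rw [← hM, ← hBd] at hw
        rw [e, hadd]
        have h3 := contr hBge (sum_nonneg fun x _ => sq_nonneg _)
          (sum_nonneg fun x _ => sq_nonneg _) hw
        rw [← hc] at h3
        refine h3.trans ?_
        calc c * ∑ x, fj σ q ω A δ s (j * u) x ^ 2 ≤ c * (c ^ j * ∑ x, (s x) ^ 2) :=
              mul_le_mul_of_nonneg_left ih' hc0
          _ = c ^ (j + 1) * ∑ x, (s x) ^ 2 := by ring
    have h3 : ∑ x, (vecMul s T x) ^ 2 ≤ ∑ x, fj σ q ω A δ s (J * u) x ^ 2 := by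
      rw [hT]
      exact hanti hJu
    exact h3.trans (hwin J le_rfl)
  -- the positions after a lap
  have himg : Aj σ q ω A K = A := by
    unfold Aj
    refine eq_of_subset_of_card_le (image_subset_iff.2 fun a ha => hInv a ha) ?_
    rw [card_image_of_injective _ (Equiv.injective _)]
  have hinvk : ∀ k : ℕ, (∀ x ∈ A, vecMul f (T ^ k) x = 0) ∧ ∑ x, vecMul f (T ^ k) x = 0 ∧
      ∑ x, (vecMul f (T ^ k) x) ^ 2 ≤ (c ^ J) ^ k * ∑ x, (f x) ^ 2 := by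
    intro k
    induction k with
    | zero =>
      rw [pow_zero, Matrix.vecMul_one, pow_zero, one_mul]
      exact ⟨hfA, hf1, le_rfl⟩
    | succ k ih =>
      have e : vecMul f (T ^ (k + 1)) = vecMul (vecMul f (T ^ k)) T := by
        rw [pow_succ, Matrix.vecMul_vecMul]
      rw [e]
      obtain ⟨i1, i2, i3⟩ := ih
      refine ⟨?_, ?_, ?_⟩
      · intro x hx
        have := fj_zero hB2 σ q ω A hδ.le hδ1 i1 K x (by rw [himg]; exact hx)
        rw [hT] at this ⊢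
        exact this
      · rw [hT]
        rw [hT] at i2
        rw [sum_vecMul _ _ ((hB2 _ (ed ∘ σ) ω A δ hδ.le hδ1).2.1 _)]
        exact i2
      · refine (lap _ i1 i2).trans ?_
        calc c ^ J * ∑ x, (vecMul f (T ^ k) x) ^ 2 ≤ c ^ J * ((c ^ J) ^ k * ∑ x, (f x) ^ 2) :=
              mul_le_mul_of_nonneg_left i3 (pow_nonneg hc0 _)
          _ = (c ^ J) ^ (k + 1) * ∑ x, (f x) ^ 2 := by ring
  refine (hinvk k).2.2.trans ?_
  refine mul_le_mul_of_nonneg_right ?_ (sum_nonneg fun x _ => sq_nonneg _)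
  rw [hc, ← Real.exp_nat_mul, ← Real.exp_nat_mul]
  apply Real.exp_le_exp.2
  have hWr : (4 : ℝ) * M * u ≤ (Z : ℝ) ^ (14 * d + 25) := by
    have : ((4 * M * u : ℕ) : ℝ) ≤ (W : ℝ) := by exact_mod_cast hMW
    rw [hWW] at this
    push_cast at this
    exact this
  have hKr : (K : ℝ) ≤ 2 * (J * u) := by exact_mod_cast hKJ
  have hur : (0 : ℝ) < u := by exact_mod_cast (by omega : 0 < u)
  have hk0 : (0 : ℝ) ≤ k := Nat.cast_nonneg _
  have hJ0 : (0 : ℝ) ≤ J := Nat.cast_nonneg _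
  have hgoal : (k : ℝ) * K / ((Z : ℝ) ^ (14 * d + 25) * (L : ℝ) ^ 2) ≤
      (k : ℝ) * ((J : ℝ) * (1 / (2 * B))) := by
    have h3 : (k : ℝ) * K / ((Z : ℝ) ^ (14 * d + 25) * (L : ℝ) ^ 2) ≤
        (k : ℝ) * (2 * (J * u)) / (4 * M * u * (L : ℝ) ^ 2) := by gcongr
    refine h3.trans (le_of_eq ?_)
    rw [hBd]
    have hM0 : (M : ℝ) ≠ 0 := by linarith
    field_simp
    ring
  linarith

end Pool.Agent.H961.T3.Varh
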