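import Pool.Agent.H961.T3.MassDom
import Pool.Agent.H961.T3.Bon
import Pool.Agent.H961.T3.Cyc
import Pool.Agent.H961.T3.Test
import Pool.Agent.H961.T3.Kar
import Pool.Agent.H961.T3.Star
import Pool.Agent.H961.T3.Rec
import Pool.Agent.H961.T3.Var
import Pool.Agent.H961.T3.Env
import Pool.Agent.H961.T3.Envt
import Pool.Agent.H961.T3.Cir
import Pool.Agent.H961.T3.Stir
import Pool.Agent.H961.T3.Env2
import Pool.Agent.H961.T3.Onec
import Pool.Agent.H961.T3.Ones
import Pool.Agent.H961.T3.Dvs
import Pool.Agent.H961.T3.SmpBig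
import Pool.Agent.H961.T3.Cmp
import Pool.Agent.H961.T3.Uni
import Pool.Agent.H961.T3.Gapp
import Pool.Agent.H961.T3.Gapo
import Pool.Agent.H961.T3.Meso
import Pool.Agent.H961.T3.Pa

/-!
# Project MS: assembly
-/

set_option autoImplicit false

namespace Pool.Agent.H961.T3

theorem all_cyc : S_CYC := Cych.t_CYC

theorem all_star : S_STAR := Starh.star_k MassDomh.mass all_cyc

theorem all_stir : S_STIR :=
  Stirh.stir (Rech.rec_k all_star all_cyc MassDomh.mass MassDomh.dom)
    (Cirh.cir (Envh.env Varh.var))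

theorem all_meso : S_MESO := meso all_stir (Testh.test Bonh.bon)

theorem all_cmp : S_CMP := Cmph.cmp Dvsh.dvs SmpBigh.smp SmpBigh.big all_cyc

theorem all_gapp : S_GAPP := Gapph.gapp all_meso all_cmp

theorem all_gapo : S_GAPO := Gapoh.gapo all_cmp uni all_cyc

theorem all_ones : S_ONES :=
  Onesh.ones (Onech.onec (Env2h.env2 Varh.var Envth.envt) all_star all_cyc)

end Pool.Agent.H961.T3
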