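import Pool.Agent.H961.T3.Pa

/-!
# Project MS: from Lipschitz to continuous test functions
-/

set_option autoImplicit false
set_option linter.unusedSectionVars false
set_option linter.unusedVariables false

namespace Pool.Agent.H961.T3

open Finset Equiv Matrix Q292.LC Pool.Agent.H961.T2 Filter Topology MeasureTheory
open Pool.Agent.Y998.ST (stirExp nnRate cycleLen stirLaw nn_nonneg exp_mono exp_sum exp_const
  law_nonneg)
open Pool.Agent.Q297.LC (stir_smul card_cyc)

/-- Lipschitz approximation from below -/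
theorem lip_approx (h : ℝ → ℝ) (α β : ℝ) (hc : Continuous h) (h0 : ∀ u, 0 ≤ h u)
    (hsupp : ∀ u, (u < α ∨ β < u) → h u = 0) (η : ℝ) (hη : 0 < η) :
    ∃ (k : ℝ → ℝ) (M : ℝ), 0 ≤ M ∧ (∀ u, 0 ≤ k u) ∧ (∀ u, k u ≤ h u) ∧ (∀ u, h u ≤ k u + η) ∧
      ∀ x y, |k x - k y| ≤ M * |x - y| := by
  have hcs : HasCompactSupport h := by
    refine HasCompactSupport.intro (isCompact_Icc (a := α) (b := β)) fun x hx => ?_
    rw [Set.mem_Icc, not_and_or] at hx
    refine hsupp x ?_
    rcases hx with hx | hx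
    · exact Or.inl (not_le.1 hx)
    · exact Or.inr (not_le.1 hx)
  have huc := hc.uniformContinuous_of_tendsto_cocompact (x := 0)
    (by
      have := hcs.is_zero_at_infty
      exact this)
  obtain ⟨δ, hδ, hδ2⟩ := Metric.uniformContinuous_iff.1 huc η hη
  obtain ⟨S, hS⟩ : ∃ S : ℝ, ∀ u, h u ≤ S := by
    obtain ⟨S, hS⟩ := hc.bounded_above_of_compact_support hcs
    exact ⟨S, fun u => (le_abs_self _).trans (hS u)⟩
  have hS0 : 0 ≤ S := (h0 0).trans (hS 0)
  obtain ⟨M, hM⟩ : ∃ M : ℝ, M = S / δ := ⟨_, rfl⟩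
  have hM0 : 0 ≤ M := by rw [hM]; positivity
  have hbdd : ∀ x, BddBelow (Set.range fun y => h y + M * |x - y|) := fun x =>
    ⟨0, by
      rintro _ ⟨y, rfl⟩
      have h1 := h0 y
      have : 0 ≤ M * |x - y| := by positivity
      show 0 ≤ h y + M * |x - y|
      linarith⟩
  refine ⟨fun x => ⨅ y, (h y + M * |x - y|), M, hM0, fun x => ?_, fun x => ?_, fun x => ?_, ?_⟩
  · refine le_ciInf fun y => ?_
    have h1 := h0 y
    have : 0 ≤ M * |x - y| := by positivity
    linarith
  · refine (ciInf_le (hbdd x) x).trans (le_of_eq ?_)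
    rw [sub_self, abs_zero, mul_zero, add_zero]
  · have h1 : h x - η ≤ ⨅ y, (h y + M * |x - y|) := by
      refine le_ciInf fun y => ?_
      rcases lt_or_ge |x - y| δ with h2 | h2
      · have h3 := hδ2 (a := x) (b := y) (by rwa [Real.dist_eq])
        rw [Real.dist_eq] at h3
        have h4 := le_abs_self (h x - h y)
        have : 0 ≤ M * |x - y| := by positivity
        linarith
      · have h3 : S ≤ M * |x - y| := by
          calc S = M * δ := by rw [hM]; field_simp
            _ ≤ _ := mul_le_mul_of_nonneg_left h2 hM0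
        have h4 := hS x
        have h5 := h0 y
        linarith
    linarith
  · have key : ∀ x y, (⨅ z, (h z + M * |x - z|)) ≤ (⨅ z, (h z + M * |y - z|)) + M * |x - y| := by
      intro x y
      rw [← sub_le_iff_le_add]
      refine le_ciInf fun z => ?_
      have h1 := ciInf_le (hbdd x) z
      have h2 : |x - z| ≤ |x - y| + |y - z| := abs_sub_le x y z
      have h3 := mul_le_mul_of_nonneg_left h2 hM0
      have h4 : (⨅ z, (h z + M * |x - z|)) ≤ h z + M * |x - z| := h1
      linarith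
    intro x y
    rw [abs_le]
    constructor
    · have h1 := key y x
      rw [abs_sub_comm y x] at h1
      linarith
    · have h1 := key x y
      linarith

/-- a Lipschitz cut-off -/
theorem cutoff (α β : ℝ) (hα : 0 < α) (hαβ : α ≤ β) :
    ∃ ψ : ℝ → ℝ, (∀ u, 0 ≤ ψ u ∧ ψ u ≤ 1) ∧ (∀ u, α ≤ u → u ≤ β → ψ u = 1) ∧
      (∀ u, (u < α / 2 ∨ 2 * β < u) → ψ u = 0) ∧
      ∀ x y, |ψ x - ψ y| ≤ (2 / α) * |x - y| := by
  have key : ∀ a b x y : ℝ, |max 0 (min 1 (min a b)) - max 0 (min 1 (min x y))| ≤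
      max |a - x| |b - y| := fun a b x y => by
    refine (abs_max_sub_max_le_max 0 _ 0 _).trans ?_
    rw [sub_self, abs_zero]
    refine max_le ((abs_nonneg _).trans (le_max_left _ _)) ?_
    refine (abs_min_sub_min_le_max 1 _ 1 _).trans ?_
    rw [sub_self, abs_zero]
    refine max_le ((abs_nonneg _).trans (le_max_left _ _)) ?_
    exact abs_min_sub_min_le_max _ _ _ _
  refine ⟨fun u => max 0 (min 1 (min ((2 / α) * u - 1) ((2 / α) * (2 * β - u)))), fun u => ?_,
    fun u h1 h2 => ?_, fun u hu => ?_, fun x y => ?_⟩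
  · exact ⟨le_max_left _ _, max_le zero_le_one (min_le_left _ _)⟩
  · have e1 : 1 ≤ (2 / α) * u - 1 := by
      have : 2 / α * α ≤ 2 / α * u := mul_le_mul_of_nonneg_left h1 (by positivity)
      have e2 : 2 / α * α = 2 := by field_simp
      linarith
    have e2 : 1 ≤ (2 / α) * (2 * β - u) := by
      have : 2 / α * α ≤ 2 / α * (2 * β - u) :=
        mul_le_mul_of_nonneg_left (by linarith) (by positivity)
      have e2 : 2 / α * α = 2 := by field_simp
      linarith
    show max 0 (min 1 (min ((2 / α) * u - 1) ((2 / α) * (2 * β - u)))) = 1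
    rw [min_eq_left (le_min e1 e2)]
    exact max_eq_right zero_le_one
  · show max 0 (min 1 (min ((2 / α) * u - 1) ((2 / α) * (2 * β - u)))) = 0
    refine max_eq_left ((min_le_right _ _).trans ?_)
    rcases hu with hu | hu
    · refine (min_le_left _ _).trans ?_
      have : 2 / α * u ≤ 2 / α * (α / 2) := mul_le_mul_of_nonneg_left hu.le (by positivity)
      have e2 : 2 / α * (α / 2) = 1 := by field_simp
      linarith
    · refine (min_le_right _ _).trans ?_
      refine mul_nonpos_of_nonneg_of_nonpos (by positivity) (by linarith)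
  · refine (key _ _ _ _).trans ?_
    have hα2 : 0 < 2 / α := by positivity
    refine max_le (le_of_eq ?_) (le_of_eq ?_)
    · have : 2 / α * x - 1 - (2 / α * y - 1) = 2 / α * (x - y) := by ring
      rw [this, abs_mul, abs_of_pos hα2]
    · have : 2 / α * (2 * β - x) - 2 / α * (2 * β - y) = 2 / α * (y - x) := by ring
      rw [this, abs_mul, abs_of_pos hα2, abs_sub_comm]

/-- integrals of functions supported in `[α, β]` -/
theorem int_bd (f : ℝ → ℝ) (α β η : ℝ) (hα : 0 < α) (hαβ : α ≤ β) (hf : ∀ u, 0 ≤ f u)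
    (hfη : ∀ u, f u ≤ η) (hsupp : ∀ u, (u < α ∨ β < u) → f u = 0) :
    0 ≤ ∫ u in Set.Ioi (0 : ℝ), f u / u ∧ ∫ u in Set.Ioi (0 : ℝ), f u / u ≤ η * (β / α) := by
  have hη : 0 ≤ η := (hf 0).trans (hfη 0)
  constructor
  · exact setIntegral_nonneg measurableSet_Ioi fun u hu => div_nonneg (hf u) (le_of_lt hu)
  · have h1 : ∀ u ∈ Set.Ioi (0 : ℝ), f u / u ≤ (Set.Icc α β).indicator (fun _ => η / α) u := by
      intro u hu
      by_cases hm : u ∈ Set.Icc α β
      · rw [Set.indicator_of_mem hm]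
        exact div_le_div₀ hη (hfη u) hα hm.1
      · rw [Set.indicator_of_notMem hm]
        rw [Set.mem_Icc, not_and_or, not_le, not_le] at hm
        rw [hsupp u hm, zero_div]
    have h2 : ∫ u in Set.Ioi (0 : ℝ), (Set.Icc α β).indicator (fun _ => η / α) u =
        (β - α) * (η / α) := by
      rw [setIntegral_indicator measurableSet_Icc]
      have : Set.Ioi (0 : ℝ) ∩ Set.Icc α β = Set.Icc α β :=
        Set.inter_eq_right.2 fun x hx => hα.trans_le hx.1
      rw [this, setIntegral_const, Real.volume_real_Icc_of_le hαβ, smul_eq_mul]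
    have h3 : IntegrableOn ((Set.Icc α β).indicator (fun _ : ℝ => η / α)) (Set.Ioi 0) := by
      rw [integrableOn_indicator_iff measurableSet_Icc]
      exact (integrableOn_const (by simp)).mono_set Set.inter_subset_left
    by_cases hi : IntegrableOn (fun u => f u / u) (Set.Ioi 0)
    · have h4 := setIntegral_mono_on hi h3 measurableSet_Ioi h1
      rw [h2] at h4
      refine h4.trans ?_
      have : (β - α) * (η / α) = η * (β / α) - η := by field_simp
      rw [this]
      linarith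
    · rw [integral_undef hi]
      have hβ : 0 < β := by linarith
      positivity

theorem int_ok (h : ℝ → ℝ) (α β : ℝ) (hc : Continuous h) (h0 : ∀ u, 0 ≤ h u) (hα : 0 < α)
    (hsupp : ∀ u, (u < α ∨ β < u) → h u = 0) :
    IntegrableOn (fun u => (1 - Real.exp (-h u)) / u) (Set.Ioi 0) := by
  have h3 : IntegrableOn ((Set.Icc α β).indicator (fun _ : ℝ => 1 / α)) (Set.Ioi 0) := by
    rw [integrableOn_indicator_iff measurableSet_Icc]
    exact (integrableOn_const (by simp)).mono_set Set.inter_subset_left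
  refine Integrable.mono' h3 ?_ ?_
  · refine Measurable.aestronglyMeasurable ?_
    exact (measurable_const.sub (Real.measurable_exp.comp hc.measurable.neg)).div measurable_id
  · refine (ae_restrict_iff' measurableSet_Ioi).2 (Eventually.of_forall fun u hu => ?_)
    have hu0 : 0 < u := hu
    have e1 : Real.exp (-h u) ≤ 1 := Real.exp_le_one_iff.2 (by linarith [h0 u])
    have e2 := Real.exp_pos (-h u)
    by_cases hm : u ∈ Set.Icc α β
    · rw [Set.indicator_of_mem hm, Real.norm_of_nonneg (div_nonneg (by linarith) hu0.le)]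
      exact div_le_div₀ zero_le_one (by linarith) hα hm.1
    · rw [Set.indicator_of_notMem hm]
      rw [Set.mem_Icc, not_and_or, not_le, not_le] at hm
      rw [hsupp u hm, neg_zero, Real.exp_zero, sub_self, zero_div, norm_zero]

/-- the Poisson law for continuous test functions -/
theorem poisson_cont (hMESO : S_MESO) (hGAPP : S_GAPP) (d : ℕ) (hd : 3 ≤ d) : ∃ m : ℕ, 1 ≤ m ∧
    ∀ (h : ℝ → ℝ) (α β : ℝ), Continuous h → (∀ u, 0 ≤ h u) → 0 < α →
    (∀ u, (u < α ∨ β < u) → h u = 0) → ∀ ε : ℝ, 0 < ε →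
    ∃ T : ℝ, 3 ≤ T ∧ ∀ (L : ℕ) [NeZero L] (t n : ℝ), T ≤ t → (Real.log L) ^ m ≤ t →
    t ≤ (L : ℝ) ^ d → T * ((L : ℝ) ^ d * t ^ (-(d / 2 : ℝ))) ≤ n →
    (Real.log L) ^ m * (1 + (L : ℝ) ^ 2 / t) ≤ n →
    ((Real.log L) ^ m * n ≤ (L : ℝ) ^ d ∨ (t ^ 4 ≤ (L : ℝ) ^ 7 ∧ T * n ≤ (L : ℝ) ^ d)) →
    |stirExp (nnRate d L) t (fun g => Real.exp (-kS h n g)) -
      Real.exp (-∫ u in Set.Ioi (0 : ℝ), (1 - Real.exp (-h u)) / u)| ≤ ε := by
  obtain ⟨m, hm, hpo⟩ := poisson_all hMESO hGAPP d hd
  refine ⟨m, hm, ?_⟩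
  intro h α β' hc h0 hα hsupp' ε hε
  obtain ⟨β, hβ⟩ : ∃ β : ℝ, β = max α β' := ⟨_, rfl⟩
  have hαβ : α ≤ β := by rw [hβ]; exact le_max_left _ _
  have hββ : β' ≤ β := by rw [hβ]; exact le_max_right _ _
  have hsupp : ∀ u, (u < α ∨ β < u) → h u = 0 := fun u hu => hsupp' u (by
    rcases hu with hu | hu
    · exact Or.inl hu
    · exact Or.inr (by linarith))
  have hβ0 : 0 < β := by linarith
  obtain ⟨η, hη⟩ : ∃ η : ℝ, η = ε / (16 * (β / α)) := ⟨_, rfl⟩
  have hη0 : 0 < η := by rw [hη]; positivity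
  have hηε : η * (β / α) = ε / 16 := by rw [hη]; field_simp
  obtain ⟨k, M, hM, hk0, hkh, hhk, hklip⟩ := lip_approx h α β hc h0 hsupp η hη0
  obtain ⟨ψ, hψ01, hψ1, hψ0, hψlip⟩ := cutoff α β hα hαβ
  have hksupp : ∀ u, (u < α ∨ β < u) → k u = 0 := fun u hu =>
    le_antisymm ((hkh u).trans (le_of_eq (hsupp u hu))) (hk0 u)
  have hψsupp : ∀ u, (u < α / 2 ∨ 2 * β < u) → η * ψ u = 0 := fun u hu => by
    rw [hψ0 u hu, mul_zero]
  have hψη : ∀ u, 0 ≤ η * ψ u := fun u => mul_nonneg hη0.le (hψ01 u).1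
  have hψlip' : ∀ x y, |η * ψ x - η * ψ y| ≤ (η * (2 / α)) * |x - y| := fun x y => by
    rw [← mul_sub, abs_mul, abs_of_pos hη0, mul_assoc]
    exact mul_le_mul_of_nonneg_left (hψlip x y) hη0.le
  obtain ⟨T₁, hT₁, h1⟩ := hpo k α β M hk0 hα hαβ hksupp hM hklip (ε / 4) (by linarith)
  obtain ⟨T₂, hT₂, h2⟩ := hpo (fun u => η * ψ u) (α / 2) (2 * β) (η * (2 / α)) hψη
    (by linarith) (by linarith) hψsupp (by positivity) hψlip' (ε / 4) (by linarith)
  refine ⟨max (max T₁ T₂) (3 ^ d), hT₁.trans ((le_max_left _ _).trans (le_max_left _ _)), ?_⟩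
  intro L _ t n htT hlogt htL hn1 hn2 hcase
  have hL0 : (0 : ℝ) < L := by exact_mod_cast Nat.pos_of_ne_zero (NeZero.ne L)
  have hT1t : T₁ ≤ t := ((le_max_left _ _).trans (le_max_left _ _)).trans htT
  have hT2t : T₂ ≤ t := ((le_max_right _ _).trans (le_max_left _ _)).trans htT
  have ht0 : 0 < t := by linarith
  have hL3 : 3 ≤ L := by
    have e1 : (3 : ℝ) ^ d ≤ (L : ℝ) ^ d := ((le_max_right _ _).trans htT).trans htL
    have e2 : (3 : ℝ) ≤ L :=
      (pow_le_pow_iff_left₀ (by norm_num) hL0.le (by omega)).1 e1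
    exact_mod_cast e2
  have hL3' : (3 : ℝ) ≤ L := by exact_mod_cast hL3
  have hlog0 : 0 < Real.log L := Real.log_pos (by linarith)
  have hn0 : 0 < n := by
    have : 0 < (Real.log L) ^ m * (1 + (L : ℝ) ^ 2 / t) := by positivity
    linarith
  have hY : 0 ≤ (L : ℝ) ^ d * t ^ (-(d / 2 : ℝ)) := by positivity
  have A1 := h1 L t n hL3 hT1t hlogt htL
    ((mul_le_mul_of_nonneg_right ((le_max_left _ _).trans (le_max_left _ _)) hY).trans hn1) hn2 (by
      rcases hcase with h3 | ⟨h3, h4⟩
      · exact Or.inl h3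
      · exact Or.inr ⟨h3, (mul_le_mul_of_nonneg_right
          ((le_max_left _ _).trans (le_max_left _ _)) hn0.le).trans h4⟩)
  have A2 := h2 L t n hL3 hT2t hlogt htL
    ((mul_le_mul_of_nonneg_right ((le_max_right _ _).trans (le_max_left _ _)) hY).trans hn1) hn2 (by
      rcases hcase with h3 | ⟨h3, h4⟩
      · exact Or.inl h3
      · exact Or.inr ⟨h3, (mul_le_mul_of_nonneg_right
          ((le_max_right _ _).trans (le_max_left _ _)) hn0.le).trans h4⟩)
  -- the test functions
  obtain ⟨D, hD⟩ : ∃ D : ℝ, D = stirExp (nnRate d L) t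
    (fun g => Real.exp (-kS (fun u => η * ψ u) n g)) := ⟨_, rfl⟩
  have B1 : 1 - (ε / 4 + ε / 4) ≤ D := by
    obtain ⟨i1, i2⟩ := int_bd (fun u => 1 - Real.exp (-(η * ψ u))) (α / 2) (2 * β) η
      (by linarith) (by linarith) (fun u => by
        have : Real.exp (-(η * ψ u)) ≤ 1 := Real.exp_le_one_iff.2 (by linarith [hψη u])
        linarith) (fun u => by
        have e1 := Real.add_one_le_exp (-(η * ψ u))
        have e2 : η * ψ u ≤ η := mul_le_of_le_one_right hη0.le (hψ01 u).2
        linarith) (fun u hu => by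
        rw [hψsupp u hu, neg_zero, Real.exp_zero, sub_self])
    have e1 : η * (2 * β / (α / 2)) = 4 * (η * (β / α)) := by field_simp; ring
    rw [e1, hηε] at i2
    have e2 := Real.add_one_le_exp
      (-∫ u in Set.Ioi (0 : ℝ), (1 - Real.exp (-(η * ψ u))) / u)
    have e3 := (abs_le.1 A2).1
    rw [← hD] at e3
    linarith
  have hpt : ∀ g : Perm (Fin d → ZMod L), Real.exp (-kS k n g) +
      (-1 + Real.exp (-kS (fun u => η * ψ u) n g)) ≤ Real.exp (-kS h n g) ∧
      Real.exp (-kS h n g) ≤ Real.exp (-kS k n g) := by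
    intro g
    have e1 : kS k n g ≤ kS h n g := sum_le_sum fun C _ => hkh _
    have e0 : 0 ≤ kS k n g := sum_nonneg fun C _ => hk0 _
    have e2 : kS h n g ≤ kS k n g + kS (fun u => η * ψ u) n g := by
      unfold kS
      rw [← sum_add_distrib]
      refine sum_le_sum fun C _ => ?_
      by_cases hm : (C.card : ℝ) / n < α ∨ β < (C.card : ℝ) / n
      · rw [hsupp _ hm]
        exact add_nonneg (hk0 _) (hψη _)
      · push Not at hm
        have e3 := hψ1 _ hm.1 hm.2
        show h _ ≤ k _ + η * ψ _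
        rw [e3, mul_one]
        exact hhk _
    constructor
    · have e3 : Real.exp (-kS k n g) * Real.exp (-kS (fun u => η * ψ u) n g) ≤
          Real.exp (-kS h n g) := by
        rw [← Real.exp_add]
        exact Real.exp_le_exp.2 (by linarith)
      have e4 : Real.exp (-kS k n g) ≤ 1 := Real.exp_le_one_iff.2 (by linarith)
      have e5 : Real.exp (-kS (fun u => η * ψ u) n g) ≤ 1 := Real.exp_le_one_iff.2 (by
        have : 0 ≤ kS (fun u => η * ψ u) n g := sum_nonneg fun C _ => hψη _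
        linarith)
      have e6 : 0 ≤ (1 - Real.exp (-kS k n g)) * (1 - Real.exp (-kS (fun u => η * ψ u) n g)) :=
        mul_nonneg (by linarith) (by linarith)
      nlinarith
    · exact Real.exp_le_exp.2 (by linarith)
  obtain ⟨X, hX⟩ : ∃ X : ℝ, X = stirExp (nnRate d L) t (fun g => Real.exp (-kS h n g)) :=
    ⟨_, rfl⟩
  obtain ⟨K, hK⟩ : ∃ K : ℝ, K = stirExp (nnRate d L) t (fun g => Real.exp (-kS k n g)) :=
    ⟨_, rfl⟩
  have B2 : K + (-1 + D) ≤ X := by
    have e1 := exp_mono (J := nnRate d L) (fun x y => nn_nonneg x y) (t := t) ht0.le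
      (fun g => (hpt g).1)
    rw [exp_add2, exp_add2, exp_const, ← hX, ← hK, ← hD] at e1
    exact e1
  have B3 : X ≤ K := by
    have e1 := exp_mono (J := nnRate d L) (fun x y => nn_nonneg x y) (t := t) ht0.le
      (fun g => (hpt g).2)
    rw [← hX, ← hK] at e1
    exact e1
  -- the limits
  have hck : Continuous k := by
    have : LipschitzWith (Real.toNNReal M) k := LipschitzWith.of_dist_le_mul fun x y => by
      rw [Real.dist_eq, Real.dist_eq, Real.coe_toNNReal M hM]
      exact hklip x y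
    exact this.continuous
  obtain ⟨I, hI⟩ : ∃ I : ℝ, I = ∫ u in Set.Ioi (0 : ℝ), (1 - Real.exp (-h u)) / u := ⟨_, rfl⟩
  obtain ⟨J, hJ⟩ : ∃ J : ℝ, J = ∫ u in Set.Ioi (0 : ℝ), (1 - Real.exp (-k u)) / u := ⟨_, rfl⟩
  have C1 : 0 ≤ I - J ∧ I - J ≤ ε / 16 := by
    have e1 : I - J = ∫ u in Set.Ioi (0 : ℝ), (Real.exp (-k u) - Real.exp (-h u)) / u := by
      rw [hI, hJ, ← integral_sub (int_ok h α β hc h0 hα hsupp) (int_ok k α β hck hk0 hα hksupp)]
      refine integral_congr_ae (Eventually.of_forall fun u => ?_)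
      show (1 - Real.exp (-h u)) / u - (1 - Real.exp (-k u)) / u =
        (Real.exp (-k u) - Real.exp (-h u)) / u
      ring
    obtain ⟨i1, i2⟩ := int_bd (fun u => Real.exp (-k u) - Real.exp (-h u)) α β η hα hαβ
      (fun u => by
        have : Real.exp (-h u) ≤ Real.exp (-k u) := Real.exp_le_exp.2 (by linarith [hkh u])
        linarith) (fun u => by
        have e1 := Real.add_one_le_exp (k u - h u)
        have e2 : Real.exp (-h u) = Real.exp (-k u) * Real.exp (k u - h u) := by
          rw [← Real.exp_add]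
          ring_nf
        have e3 : Real.exp (-k u) ≤ 1 := Real.exp_le_one_iff.2 (by linarith [hk0 u])
        have e4 := Real.exp_pos (-k u)
        have e5 : Real.exp (-k u) * (1 - η) ≤ Real.exp (-k u) * Real.exp (k u - h u) :=
          mul_le_mul_of_nonneg_left (by linarith [hhk u]) e4.le
        rw [← e2] at e5
        nlinarith) (fun u hu => by
        rw [hsupp u hu, hksupp u hu, sub_self])
    rw [hηε] at i2
    rw [e1]
    exact ⟨i1, i2⟩
  have hJ0 : 0 ≤ J := by
    rw [hJ]
    exact setIntegral_nonneg measurableSet_Ioi fun u hu => div_nonneg (by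
      have : Real.exp (-k u) ≤ 1 := Real.exp_le_one_iff.2 (by linarith [hk0 u])
      linarith) (le_of_lt hu)
  have C2 : Real.exp (-I) ≤ Real.exp (-J) := Real.exp_le_exp.2 (by linarith)
  have C3 : Real.exp (-J) - ε / 16 ≤ Real.exp (-I) := by
    have e1 := Real.add_one_le_exp (J - I)
    have e2 : Real.exp (-I) = Real.exp (-J) * Real.exp (J - I) := by
      rw [← Real.exp_add]
      ring_nf
    have e3 : Real.exp (-J) ≤ 1 := Real.exp_le_one_iff.2 (by linarith)
    have e4 := Real.exp_pos (-J)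
    have e5 : Real.exp (-J) * (1 - ε / 16) ≤ Real.exp (-J) * Real.exp (J - I) :=
      mul_le_mul_of_nonneg_left (by linarith) e4.le
    rw [← e2] at e5
    nlinarith
  rw [← hK, ← hJ] at A1
  rw [← hX, ← hI]
  have e1 := abs_le.1 A1
  rw [abs_le]
  constructor <;> linarith

end Pool.Agent.H961.T3
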