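import Pool.Agent.H961.T3.Stm5
import Pool.Agent.H961.T3.Cont

/-!
# Project MS: the Poisson law, `d ≥ 2`
-/

set_option autoImplicit false
set_option linter.unusedSectionVars false
set_option linter.unusedVariables false

namespace Pool.Agent.H961.T3

open Finset Equiv Matrix Q292.LC Pool.Agent.H961.T2 Filter Topology MeasureTheory
open Pool.Agent.Y998.ST (stirExp nnRate cycleLen stirLaw nn_nonneg exp_mono exp_sum exp_const
  law_nonneg)
open Pool.Agent.Q297.LC (stir_smul card_cyc)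

/-- the Poisson law at all scales -/
theorem poisson_all2 (hMESP : S_MESP) (hGAPQ : S_GAPQ) (d : ℕ) (hd : 2 ≤ d) : ∃ m : ℕ, 1 ≤ m ∧
    ∀ (h : ℝ → ℝ) (α β B : ℝ),
    (∀ u, 0 ≤ h u) → 0 < α → α ≤ β → (∀ u, (u < α ∨ β < u) → h u = 0) → 0 ≤ B →
    (∀ x y, |h x - h y| ≤ B * |x - y|) → ∀ ε : ℝ, 0 < ε →
    ∃ T : ℝ, 3 ≤ T ∧ ∀ (L : ℕ) [NeZero L] (t n : ℝ), 3 ≤ L → T ≤ t → (Real.log L) ^ m ≤ t →
    t ≤ (L : ℝ) ^ d → (Real.log L) ^ m * (1 + (L : ℝ) ^ d / t) ≤ n →
    ((Real.log L) ^ m * n ≤ (L : ℝ) ^ d ∨ (t ^ 4 ≤ (L : ℝ) ^ 7 ∧ T * n ≤ (L : ℝ) ^ d)) →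
    |stirExp (nnRate d L) t (fun g => Real.exp (-kS h n g)) -
      Real.exp (-∫ u in Set.Ioi (0 : ℝ), (1 - Real.exp (-h u)) / u)| ≤ ε := by
  obtain ⟨m₁, hm₁, h1⟩ := hMESP d hd
  obtain ⟨m₂, hm₂, h2⟩ := hGAPQ d hd m₁
  refine ⟨m₁ + m₂, by omega, ?_⟩
  intro h α β B h0 hα hαβ hsupp hB hlip ε hε
  have hc : Continuous h := by
    have : LipschitzWith (Real.toNNReal B) h := LipschitzWith.of_dist_le_mul fun x y => by
      rw [Real.dist_eq, Real.dist_eq, Real.coe_toNNReal B hB]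
      exact hlip x y
    exact this.continuous
  obtain ⟨T₁, hT₁, h1⟩ := h1 h hc h0 ⟨α, β, hα, hαβ, hsupp⟩ ε hε
  obtain ⟨T₂, hT₂, h2⟩ := h2 h α β B h0 hα hαβ hsupp hB hlip ε hε
  refine ⟨max T₁ T₂, hT₁.trans (le_max_left _ _), ?_⟩
  intro L _ t n hL htT hlogt htL hn2 hcase
  have hL0 : (0 : ℝ) < L := by exact_mod_cast Nat.pos_of_ne_zero (NeZero.ne L)
  have hL3 : (3 : ℝ) ≤ L := by exact_mod_cast hL
  have hT1t : T₁ ≤ t := (le_max_left _ _).trans htT
  have hT2t : T₂ ≤ t := (le_max_right _ _).trans htT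
  have ht0 : 0 < t := by linarith
  have hlog1 : 1 ≤ Real.log L := by
    have h2 : Real.exp 1 ≤ L := by
      have := Real.exp_one_lt_d9
      linarith
    have := Real.log_le_log (Real.exp_pos 1) h2
    rwa [Real.log_exp] at this
  have hpow : ∀ k : ℕ, k ≤ m₁ + m₂ → (Real.log L) ^ k ≤ (Real.log L) ^ (m₁ + m₂) :=
    fun k hk => pow_le_pow_right₀ hlog1 hk
  have hlm0 : 0 < (Real.log L) ^ (m₁ + m₂) := by positivity
  have hn0 : 0 < n := by
    have : 0 < (Real.log L) ^ (m₁ + m₂) * (1 + (L : ℝ) ^ d / t) := by positivity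
    linarith
  have e2 : (Real.log L) ^ m₁ * (1 + (L : ℝ) ^ d / t) ≤ n := by
    refine le_trans ?_ hn2
    exact mul_le_mul_of_nonneg_right (hpow m₁ (by omega)) (by positivity)
  by_cases hlow : (Real.log L) ^ m₁ * n ≤ (L : ℝ) ^ d
  · exact h1 L t n hL hT1t ((hpow m₁ (by omega)).trans hlogt) htL e2 hlow
  · rcases hcase with h3 | ⟨h3, h4⟩
    · exfalso
      apply hlow
      refine le_trans ?_ h3
      exact mul_le_mul_of_nonneg_right (hpow m₁ (by omega)) hn0.le
    · refine h2 L t n hL hT2t ((hpow m₂ (by omega)).trans hlogt) h3 hn0 (not_le.1 hlow).le ?_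
      refine le_trans ?_ h4
      exact mul_le_mul_of_nonneg_right (le_max_right _ _) hn0.le

/-- the Poisson law for continuous test functions -/
theorem poisson_cont2 (hMESP : S_MESP) (hGAPQ : S_GAPQ) (d : ℕ) (hd : 2 ≤ d) : ∃ m : ℕ, 1 ≤ m ∧
    ∀ (h : ℝ → ℝ) (α β : ℝ), Continuous h → (∀ u, 0 ≤ h u) → 0 < α →
    (∀ u, (u < α ∨ β < u) → h u = 0) → ∀ ε : ℝ, 0 < ε →
    ∃ T : ℝ, 3 ≤ T ∧ ∀ (L : ℕ) [NeZero L] (t n : ℝ), T ≤ t → (Real.log L) ^ m ≤ t →
    t ≤ (L : ℝ) ^ d → (Real.log L) ^ m * (1 + (L : ℝ) ^ d / t) ≤ n →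
    ((Real.log L) ^ m * n ≤ (L : ℝ) ^ d ∨ (t ^ 4 ≤ (L : ℝ) ^ 7 ∧ T * n ≤ (L : ℝ) ^ d)) →
    |stirExp (nnRate d L) t (fun g => Real.exp (-kS h n g)) -
      Real.exp (-∫ u in Set.Ioi (0 : ℝ), (1 - Real.exp (-h u)) / u)| ≤ ε := by
  obtain ⟨m, hm, hpo⟩ := poisson_all2 hMESP hGAPQ d hd
  refine ⟨m, hm, ?_⟩
  intro h α β' hc h0 hα hsupp' ε hε
  obtain ⟨β, hβ⟩ : ∃ β : ℝ, β = max α β' := ⟨_, rfl⟩
  have hαβ : α ≤ β := by rw [hβ]; exact le_max_left _ _
  have hββ : β' ≤ β := by rw [hβ]; exact le_max_right _ _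
  have hsupp : ∀ u, (u < α ∨ β < u) → h u = 0 := fun u hu => hsupp' u (by
    rcases hu with hu | hu
    · exact Or.inl hu
    · exact Or.inr (by linarith))
  have hβ0 : 0 < β := by linarith
  obtain ⟨η, hη⟩ : ∃ η : ℝ, η = ε / (16 * (β / α)) := ⟨_, rfl⟩
  have hη0 : 0 < η := by rw [hη]; positivity
  have hηε : η * (β / α) = ε / 16 := by rw [hη]; field_simp
  obtain ⟨k, M, hM, hk0, hkh, hhk, hklip⟩ := lip_approx h α β hc h0 hsupp η hη0
  obtain ⟨ψ, hψ01, hψ1, hψ0, hψlip⟩ := cutoff α β hα hαβ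
  have hksupp : ∀ u, (u < α ∨ β < u) → k u = 0 := fun u hu =>
    le_antisymm ((hkh u).trans (le_of_eq (hsupp u hu))) (hk0 u)
  have hψsupp : ∀ u, (u < α / 2 ∨ 2 * β < u) → η * ψ u = 0 := fun u hu => by
    rw [hψ0 u hu, mul_zero]
  have hψη : ∀ u, 0 ≤ η * ψ u := fun u => mul_nonneg hη0.le (hψ01 u).1
  have hψlip' : ∀ x y, |η * ψ x - η * ψ y| ≤ (η * (2 / α)) * |x - y| := fun x y => by
    rw [← mul_sub, abs_mul, abs_of_pos hη0, mul_assoc]
    exact mul_le_mul_of_nonneg_left (hψlip x y) hη0.le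
  obtain ⟨T₁, hT₁, h1⟩ := hpo k α β M hk0 hα hαβ hksupp hM hklip (ε / 4) (by linarith)
  obtain ⟨T₂, hT₂, h2⟩ := hpo (fun u => η * ψ u) (α / 2) (2 * β) (η * (2 / α)) hψη
    (by linarith) (by linarith) hψsupp (by positivity) hψlip' (ε / 4) (by linarith)
  refine ⟨max (max T₁ T₂) (3 ^ d), hT₁.trans ((le_max_left _ _).trans (le_max_left _ _)), ?_⟩
  intro L _ t n htT hlogt htL hn2 hcase
  have hL0 : (0 : ℝ) < L := by exact_mod_cast Nat.pos_of_ne_zero (NeZero.ne L)
  have hT1t : T₁ ≤ t := ((le_max_left _ _).trans (le_max_left _ _)).trans htT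
  have hT2t : T₂ ≤ t := ((le_max_right _ _).trans (le_max_left _ _)).trans htT
  have ht0 : 0 < t := by linarith
  have hL3 : 3 ≤ L := by
    have e1 : (3 : ℝ) ^ d ≤ (L : ℝ) ^ d := ((le_max_right _ _).trans htT).trans htL
    have e2 : (3 : ℝ) ≤ L :=
      (pow_le_pow_iff_left₀ (by norm_num) hL0.le (by omega)).1 e1
    exact_mod_cast e2
  have hL3' : (3 : ℝ) ≤ L := by exact_mod_cast hL3
  have hlog0 : 0 < Real.log L := Real.log_pos (by linarith)
  have hn0 : 0 < n := by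
    have : 0 < (Real.log L) ^ m * (1 + (L : ℝ) ^ d / t) := by positivity
    linarith
  have A1 := h1 L t n hL3 hT1t hlogt htL
    hn2 (by
      rcases hcase with h3 | ⟨h3, h4⟩
      · exact Or.inl h3
      · exact Or.inr ⟨h3, (mul_le_mul_of_nonneg_right
          ((le_max_left _ _).trans (le_max_left _ _)) hn0.le).trans h4⟩)
  have A2 := h2 L t n hL3 hT2t hlogt htL
    hn2 (by
      rcases hcase with h3 | ⟨h3, h4⟩
      · exact Or.inl h3
      · exact Or.inr ⟨h3, (mul_le_mul_of_nonneg_right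
          ((le_max_right _ _).trans (le_max_left _ _)) hn0.le).trans h4⟩)
  -- the test functions
  obtain ⟨D, hD⟩ : ∃ D : ℝ, D = stirExp (nnRate d L) t
    (fun g => Real.exp (-kS (fun u => η * ψ u) n g)) := ⟨_, rfl⟩
  have B1 : 1 - (ε / 4 + ε / 4) ≤ D := by
    obtain ⟨i1, i2⟩ := int_bd (fun u => 1 - Real.exp (-(η * ψ u))) (α / 2) (2 * β) η
      (by linarith) (by linarith) (fun u => by
        have : Real.exp (-(η * ψ u)) ≤ 1 := Real.exp_le_one_iff.2 (by linarith [hψη u])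
        linarith) (fun u => by
        have e1 := Real.add_one_le_exp (-(η * ψ u))
        have e2 : η * ψ u ≤ η := mul_le_of_le_one_right hη0.le (hψ01 u).2
        linarith) (fun u hu => by
        rw [hψsupp u hu, neg_zero, Real.exp_zero, sub_self])
    have e1 : η * (2 * β / (α / 2)) = 4 * (η * (β / α)) := by field_simp; ring
    rw [e1, hηε] at i2
    have e2 := Real.add_one_le_exp
      (-∫ u in Set.Ioi (0 : ℝ), (1 - Real.exp (-(η * ψ u))) / u)
    have e3 := (abs_le.1 A2).1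
    rw [← hD] at e3
    linarith
  have hpt : ∀ g : Perm (Fin d → ZMod L), Real.exp (-kS k n g) +
      (-1 + Real.exp (-kS (fun u => η * ψ u) n g)) ≤ Real.exp (-kS h n g) ∧
      Real.exp (-kS h n g) ≤ Real.exp (-kS k n g) := by
    intro g
    have e1 : kS k n g ≤ kS h n g := sum_le_sum fun C _ => hkh _
    have e0 : 0 ≤ kS k n g := sum_nonneg fun C _ => hk0 _
    have e2 : kS h n g ≤ kS k n g + kS (fun u => η * ψ u) n g := by
      unfold kS
      rw [← sum_add_distrib]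
      refine sum_le_sum fun C _ => ?_
      by_cases hm : (C.card : ℝ) / n < α ∨ β < (C.card : ℝ) / n
      · rw [hsupp _ hm]
        exact add_nonneg (hk0 _) (hψη _)
      · push Not at hm
        have e3 := hψ1 _ hm.1 hm.2
        show h _ ≤ k _ + η * ψ _
        rw [e3, mul_one]
        exact hhk _
    constructor
    · have e3 : Real.exp (-kS k n g) * Real.exp (-kS (fun u => η * ψ u) n g) ≤
          Real.exp (-kS h n g) := by
        rw [← Real.exp_add]
        exact Real.exp_le_exp.2 (by linarith)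
      have e4 : Real.exp (-kS k n g) ≤ 1 := Real.exp_le_one_iff.2 (by linarith)
      have e5 : Real.exp (-kS (fun u => η * ψ u) n g) ≤ 1 := Real.exp_le_one_iff.2 (by
        have : 0 ≤ kS (fun u => η * ψ u) n g := sum_nonneg fun C _ => hψη _
        linarith)
      have e6 : 0 ≤ (1 - Real.exp (-kS k n g)) * (1 - Real.exp (-kS (fun u => η * ψ u) n g)) :=
        mul_nonneg (by linarith) (by linarith)
      nlinarith
    · exact Real.exp_le_exp.2 (by linarith)
  obtain ⟨X, hX⟩ : ∃ X : ℝ, X = stirExp (nnRate d L) t (fun g => Real.exp (-kS h n g)) :=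
    ⟨_, rfl⟩
  obtain ⟨K, hK⟩ : ∃ K : ℝ, K = stirExp (nnRate d L) t (fun g => Real.exp (-kS k n g)) :=
    ⟨_, rfl⟩
  have B2 : K + (-1 + D) ≤ X := by
    have e1 := exp_mono (J := nnRate d L) (fun x y => nn_nonneg x y) (t := t) ht0.le
      (fun g => (hpt g).1)
    rw [exp_add2, exp_add2, exp_const, ← hX, ← hK, ← hD] at e1
    exact e1
  have B3 : X ≤ K := by
    have e1 := exp_mono (J := nnRate d L) (fun x y => nn_nonneg x y) (t := t) ht0.le
      (fun g => (hpt g).2)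
    rw [← hX, ← hK] at e1
    exact e1
  -- the limits
  have hck : Continuous k := by
    have : LipschitzWith (Real.toNNReal M) k := LipschitzWith.of_dist_le_mul fun x y => by
      rw [Real.dist_eq, Real.dist_eq, Real.coe_toNNReal M hM]
      exact hklip x y
    exact this.continuous
  obtain ⟨I, hI⟩ : ∃ I : ℝ, I = ∫ u in Set.Ioi (0 : ℝ), (1 - Real.exp (-h u)) / u := ⟨_, rfl⟩
  obtain ⟨J, hJ⟩ : ∃ J : ℝ, J = ∫ u in Set.Ioi (0 : ℝ), (1 - Real.exp (-k u)) / u := ⟨_, rfl⟩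
  have C1 : 0 ≤ I - J ∧ I - J ≤ ε / 16 := by
    have e1 : I - J = ∫ u in Set.Ioi (0 : ℝ), (Real.exp (-k u) - Real.exp (-h u)) / u := by
      rw [hI, hJ, ← integral_sub (int_ok h α β hc h0 hα hsupp) (int_ok k α β hck hk0 hα hksupp)]
      refine integral_congr_ae (Eventually.of_forall fun u => ?_)
      show (1 - Real.exp (-h u)) / u - (1 - Real.exp (-k u)) / u =
        (Real.exp (-k u) - Real.exp (-h u)) / u
      ring
    obtain ⟨i1, i2⟩ := int_bd (fun u => Real.exp (-k u) - Real.exp (-h u)) α β η hα hαβ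
      (fun u => by
        have : Real.exp (-h u) ≤ Real.exp (-k u) := Real.exp_le_exp.2 (by linarith [hkh u])
        linarith) (fun u => by
        have e1 := Real.add_one_le_exp (k u - h u)
        have e2 : Real.exp (-h u) = Real.exp (-k u) * Real.exp (k u - h u) := by
          rw [← Real.exp_add]
          ring_nf
        have e3 : Real.exp (-k u) ≤ 1 := Real.exp_le_one_iff.2 (by linarith [hk0 u])
        have e4 := Real.exp_pos (-k u)
        have e5 : Real.exp (-k u) * (1 - η) ≤ Real.exp (-k u) * Real.exp (k u - h u) :=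
          mul_le_mul_of_nonneg_left (by linarith [hhk u]) e4.le
        rw [← e2] at e5
        nlinarith) (fun u hu => by
        rw [hsupp u hu, hksupp u hu, sub_self])
    rw [hηε] at i2
    rw [e1]
    exact ⟨i1, i2⟩
  have hJ0 : 0 ≤ J := by
    rw [hJ]
    exact setIntegral_nonneg measurableSet_Ioi fun u hu => div_nonneg (by
      have : Real.exp (-k u) ≤ 1 := Real.exp_le_one_iff.2 (by linarith [hk0 u])
      linarith) (le_of_lt hu)
  have C2 : Real.exp (-I) ≤ Real.exp (-J) := Real.exp_le_exp.2 (by linarith)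
  have C3 : Real.exp (-J) - ε / 16 ≤ Real.exp (-I) := by
    have e1 := Real.add_one_le_exp (J - I)
    have e2 : Real.exp (-I) = Real.exp (-J) * Real.exp (J - I) := by
      rw [← Real.exp_add]
      ring_nf
    have e3 : Real.exp (-J) ≤ 1 := Real.exp_le_one_iff.2 (by linarith)
    have e4 := Real.exp_pos (-J)
    have e5 : Real.exp (-J) * (1 - ε / 16) ≤ Real.exp (-J) * Real.exp (J - I) :=
      mul_le_mul_of_nonneg_left (by linarith) e4.le
    rw [← e2] at e5
    nlinarith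
  rw [← hK, ← hJ] at A1
  rw [← hX, ← hI]
  have e1 := abs_le.1 A1
  rw [abs_le]
  constructor <;> linarith

end Pool.Agent.H961.T3
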