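import Pool.Agent.H961.T3.Stm5
import Pool.Agent.H961.T3.Env

/-!
# Project MS: the sum of the resolvent in a good environment, `d ≥ 2` (ENP, from VAR and KP)

By helper249 for helper961, after `Pool.Agent.H961.T3.Env`.
-/

set_option autoImplicit false

namespace Pool.Agent.H961.T3.Enph

open Finset Equiv Matrix Q292.LC Pool.Agent.H961.T2 Pool.Agent.H961.T3 Filter Topology
open Pool.Agent.Q68.LC (SS)
open Pool.Agent.H961.T3.Envh (pow_zero_of pow_restrict unif_inv diag_close geo_sum compl_ne)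

/-- harmonic sum -/
theorem har_sum (k : ℕ) (S : ℝ) (h0 : 0 ≤ S) (h : (k : ℝ) ≤ Real.exp S) :
    ∑ i ∈ range k, 1 / ((i : ℝ) + 1) ≤ 1 + S := by
  have h1 : ((harmonic k : ℚ) : ℝ) ≤ 1 + Real.log k := harmonic_le_one_add_log k
  have h2 : ((harmonic k : ℚ) : ℝ) = ∑ i ∈ range k, 1 / ((i : ℝ) + 1) := by
    unfold harmonic
    push_cast
    refine sum_congr rfl fun i _ => ?_
    rw [one_div]
  rw [← h2]
  refine h1.trans ?_
  have h3 : Real.log k ≤ S := by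
    rcases Nat.eq_zero_or_pos k with h4 | h4
    · rw [h4, Nat.cast_zero, Real.log_zero]
      exact h0
    · have h5 : (0 : ℝ) < k := by exact_mod_cast h4
      have h6 := Real.log_le_log h5 h
      rwa [Real.log_exp] at h6
  linarith

/-- abstract sum -/
theorem sum_bd (b : ℕ → ℝ) (C P Z a S : ℝ) (hC : 0 ≤ C) (hP : 0 ≤ P)
    (ha : 0 < a) (hZ : 0 ≤ Z) (hS : 0 ≤ S) (hZS : Z / a + 1 ≤ Real.exp S) (hb0 : ∀ j, 0 ≤ b j)
    (hb1 : ∀ j : ℕ, b j ≤ C + P * (1 / ((j : ℝ) + 1)))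
    (hb2 : ∀ j : ℕ, b j ≤ Real.exp Z * Real.exp (-(((j : ℝ) + 1) * a))) (M : ℕ) :
    ∑ j ∈ range M, b j ≤ C * (Z / a + 1) + P * (1 + S) + 1 / a := by
  obtain ⟨k1, hk1⟩ : ∃ k1 : ℕ, k1 = ⌈Z / a⌉₊ := ⟨_, rfl⟩
  have hk2 : Z / a ≤ k1 := by rw [hk1]; exact Nat.le_ceil _
  have hk3 : (k1 : ℝ) ≤ Z / a + 1 := by
    rw [hk1]
    exact (Nat.ceil_lt_add_one (by positivity)).le
  have hZk : Z ≤ k1 * a := by rwa [div_le_iff₀ ha] at hk2
  have h1 : ∑ j ∈ range M, b j ≤ ∑ j ∈ range (k1 + M), b j :=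
    sum_le_sum_of_subset_of_nonneg (range_subset_range.2 (by omega)) fun k _ _ => hb0 k
  rw [sum_range_add] at h1
  have h2 : ∑ j ∈ range k1, b j ≤ k1 * C + P * (1 + S) := by
    refine (sum_le_sum fun j _ => hb1 j).trans ?_
    rw [sum_add_distrib, sum_const, card_range, nsmul_eq_mul, ← mul_sum]
    exact add_le_add le_rfl (mul_le_mul_of_nonneg_left (har_sum k1 S hS (hk3.trans hZS)) hP)
  have h3 : ∑ i ∈ range M, b (k1 + i) ≤ 1 / a := by
    refine le_trans (sum_le_sum fun i _ => ?_) (geo_sum M a ha)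
    refine (hb2 (k1 + i)).trans ?_
    rw [← Real.exp_add]
    apply Real.exp_le_exp.2
    push_cast
    nlinarith
  have h4 : (k1 : ℝ) * C ≤ C * (Z / a + 1) := by
    rw [mul_comm]
    exact mul_le_mul_of_nonneg_left hk3 hC
  linarith

theorem enp (hVAR : S_VAR) (hKP : S_KP) : S_ENP := by
  intro d hd
  obtain ⟨C0, m0, hC0, hvar⟩ := hVAR d hd
  obtain ⟨C1, m1, hC1, hker⟩ := hKP d hd
  refine ⟨C0 + C1 + 11 + d, m0 + m1 + 2, by omega, ?_⟩
  intro Z hZ L K lam r ρ κ₀ _ hlam hρ hκ hLd hr hL hK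
  have hZ1 : 1 ≤ Z := by omega
  have p0 : Z ^ m0 ≤ Z ^ (m0 + m1 + 2) := Nat.pow_le_pow_right hZ1 (by omega)
  have p1 : Z ^ m1 ≤ Z ^ (m0 + m1 + 2) := Nat.pow_le_pow_right hZ1 (by omega)
  have p2 : Z ^ 2 ≤ Z ^ (m0 + m1 + 2) := Nat.pow_le_pow_right hZ1 (by omega)
  have p3 : Z ^ (m0 + 2) ≤ Z ^ (m0 + m1 + 2) := Nat.pow_le_pow_right hZ1 (by omega)
  have hZZ : Z ≤ Z ^ 2 := Nat.le_self_pow (by norm_num) _
  obtain ⟨q1, hq1⟩ := hvar Z (by omega) L K lam r ρ κ₀ hlam hρ hκ (by omega) (by omega) (by omega)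
  obtain ⟨q2, hq2⟩ := hker Z (by omega) L K lam r ρ κ₀ hlam hρ hκ (by omega) (by omega)
    (by omega)
  refine ⟨q1 + q2 + 2, ?_⟩
  intro q hq σ hσ δ h1 h2 ω A hEv hinv w hw0 hw1
  have hqr : (2 : ℝ) ≤ q := by
    have : 2 ≤ q := by omega
    exact_mod_cast this
  have hδ : 0 < δ := by
    by_contra h
    push Not at h
    nlinarith
  have hδ1 : δ ≤ 1 := by nlinarith
  have hB := Pool.Agent.Q68.LC.bas2 _ (ed ∘ σ) ω A δ hδ.le hδ1
  obtain ⟨g, hg⟩ : ∃ g, g = gp (ed ∘ σ) ω (K * (q * ms d L)) := ⟨_, rfl⟩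
  have hdec0 := hq1 q (by omega) σ hσ δ h1 h2 ω A hEv hinv
  have hk1 := hq2 q (by omega) σ hσ δ h1 h2 ω A hEv (univ \ A)
  obtain ⟨T, hT⟩ : ∃ T, T = TT (ed ∘ σ) ω A δ (K * (q * ms d L)) := ⟨_, rfl⟩
  rw [← hT] at hdec0 hk1 ⊢
  rw [← hg] at hinv
  have hT0 : ∀ x y, 0 ≤ T x y := by
    rw [hT]
    exact hB.1 _
  have hrow : ∀ x, ∑ y, T x y = 1 := by
    rw [hT]
    exact hB.2.1 _
  have hcol : ∀ y, ∑ x, T x y = 1 := by
    rw [hT]
    exact hB.2.2.1 _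
  have hrowA : ∀ x ∈ A, ∀ y, T x y = if g x = y then 1 else 0 := by
    rw [hT, hg]
    exact hB.2.2.2.1 _
  have hgA : A.image g = A := by
    refine Finset.eq_of_subset_of_card_le ?_ ?_
    · intro y hy
      obtain ⟨a, ha, hay⟩ := mem_image.1 hy
      rw [← hay]
      exact hinv a ha
    · rw [card_image_of_injective _ g.injective]
  have hz : ∀ a, a ∉ A → ∀ b ∈ A, T a b = 0 := by
    intro a ha b hb
    rw [hT]
    refine hB.2.2.2.2.1 _ a ha b ?_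
    rw [← hg, hgA]
    exact hb
  have hSS : SS T := ⟨hT0, fun x => (hrow x).le⟩
  -- the complement is not empty
  have hU : (univ \ A).Nonempty := by
    refine compl_ne d L (by omega) A lam r Z hlam ?_ ?_ ?_
    · have e1 : d * Z ≤ Z * Z := Nat.mul_le_mul_right _ (by omega)
      have e2 : Z * Z = Z ^ 2 := by ring
      omega
    · have : Z < 8 * Z ^ 2 := by omega
      omega
    · intro v
      have := hEv.1 0 (Nat.zero_le _) v
      rw [Nat.zero_mul] at this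
      have e1 : A.image (gp (ed ∘ σ) ω 0) = A := by
        simp [gp]
      rwa [e1] at this
  have hK1 : 1 ≤ K := by
    have : 1 ≤ Z ^ (m0 + m1 + 2) := Nat.one_le_pow _ _ hZ1
    omega
  have hL1 : 1 ≤ L := by
    have : 1 ≤ Z ^ (m0 + m1 + 2) := Nat.one_le_pow _ _ hZ1
    omega
  have hK0 : (0 : ℝ) < K := by exact_mod_cast hK1
  have hL0 : (0 : ℝ) < L := by exact_mod_cast hL1
  have hZ0 : (0 : ℝ) < Z := by exact_mod_cast hZ1
  have hLd0 : (0 : ℝ) < (L : ℝ) ^ d := by positivity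
  obtain ⟨a, ha⟩ : ∃ a : ℝ, a = K / (2 * ((Z : ℝ) ^ m0 * (L : ℝ) ^ 2)) := ⟨_, rfl⟩
  have ha0 : 0 < a := by rw [ha]; positivity
  -- the diagonal entries
  have hdiag : ∀ (j : ℕ) (x : Fin d → ZMod L), x ∉ A →
      |(T ^ (j + 1)) x x - 1 / ((univ \ A).card : ℝ)| ≤ Real.exp (-(((j : ℝ) + 1) * a)) := by
    intro j x hx
    refine diag_close T A g hinv hcol hrowA hz (j + 1) _ ?_ x hx
    intro f hf0 hf1
    have h3 := hdec0 f hf0 hf1 (j + 1)
    have e1 : -(((j + 1 : ℕ) : ℝ) * K / ((Z : ℝ) ^ m0 * (L : ℝ) ^ 2)) =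
        -(2 * (((j : ℝ) + 1) * a)) := by
      rw [ha]
      push_cast
      field_simp
    rw [e1] at h3
    exact h3
  have hcardU : ((univ \ A).card : ℝ) ≤ (L : ℝ) ^ d := by
    have e1 : (univ \ A).card ≤ (univ : Finset (Fin d → ZMod L)).card :=
      card_le_card (subset_univ _)
    rw [card_univ, Fintype.card_fun, ZMod.card, Fintype.card_fin] at e1
    exact_mod_cast e1
  have hUpos : (0 : ℝ) < ((univ \ A).card : ℝ) := by
    exact_mod_cast card_pos.2 hU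
  obtain ⟨s, hs⟩ : ∃ s : ℕ → ℝ, ∀ j, s j = ∑ x ∈ univ \ A, (T ^ (j + 1)) x x := ⟨_, fun _ => rfl⟩
  have hs0 : ∀ j, 0 ≤ s j := by
    intro j
    rw [hs]
    exact sum_nonneg fun x _ => (Pool.Agent.Q68.LC.SS_pow hSS (j + 1)).nn x x
  have hpow : ∀ (j : ℕ) (x : Fin d → ZMod L), x ∈ univ \ A →
      (T * (dg (univ \ A) * T) ^ j) x x = (T ^ (j + 1)) x x := fun j x hx =>
    pow_restrict T A hz x (mem_sdiff.1 hx).2 j x
  have hUA : Disjoint (univ \ A) A := sdiff_disjoint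
  -- first bound
  obtain ⟨X', hX'⟩ : ∃ X' : ℝ, X' = (L : ℝ) ^ d / K := ⟨_, rfl⟩
  have hX'0 : 0 ≤ X' := by rw [hX']; positivity
  obtain ⟨W, hW⟩ : ∃ W : ℝ, W = (Z : ℝ) ^ m1 := ⟨_, rfl⟩
  have hW0 : 0 ≤ W := by rw [hW]; positivity
  have b1 : ∀ j : ℕ, |s j - 1| ≤ (W + 1) + W * X' * (1 / ((j : ℝ) + 1)) := by
    intro j
    have hj0 : (0 : ℝ) < (j : ℝ) + 1 := by positivity
    have e1 : s j ≤ W + W * X' * (1 / ((j : ℝ) + 1)) := by
      have e0 : 0 ≤ W * (1 / (((j : ℝ) + 1) * K) + 1 / (L : ℝ) ^ d) := by positivity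
      rw [hs]
      calc ∑ x ∈ univ \ A, (T ^ (j + 1)) x x ≤
            ∑ x ∈ univ \ A, (W * (1 / (((j : ℝ) + 1) * K) + 1 / (L : ℝ) ^ d)) := by
            refine sum_le_sum fun x hx => ?_
            rw [← hpow j x hx, hW]
            exact hk1 x x hUA (mem_sdiff.1 hx).2 j
        _ = (univ \ A).card * (W * (1 / (((j : ℝ) + 1) * K) + 1 / (L : ℝ) ^ d)) := by
            rw [sum_const, nsmul_eq_mul]
        _ ≤ (L : ℝ) ^ d * (W * (1 / (((j : ℝ) + 1) * K) + 1 / (L : ℝ) ^ d)) :=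
            mul_le_mul_of_nonneg_right hcardU e0
        _ = _ := by
            rw [hX']
            field_simp
            ring
    have e2 : 0 ≤ W * X' * (1 / ((j : ℝ) + 1)) := by positivity
    have e3 := hs0 j
    rw [abs_le]
    constructor <;> linarith
  -- second bound
  have b2 : ∀ j : ℕ, |s j - 1| ≤ Real.exp Z * Real.exp (-(((j : ℝ) + 1) * a)) := by
    intro j
    have e1 : s j - 1 = ∑ x ∈ univ \ A, ((T ^ (j + 1)) x x - 1 / ((univ \ A).card : ℝ)) := by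
      rw [sum_sub_distrib, hs, sum_const, nsmul_eq_mul]
      field_simp
    rw [e1]
    refine (abs_sum_le_sum_abs _ _).trans ?_
    refine (sum_le_sum fun x hx => hdiag j x (mem_sdiff.1 hx).2).trans ?_
    rw [sum_const, nsmul_eq_mul]
    exact mul_le_mul_of_nonneg_right (hcardU.trans hLd) (Real.exp_pos _).le
  -- the numbers
  obtain ⟨X, hX⟩ : ∃ X : ℝ, X = (L : ℝ) ^ 2 / K := ⟨_, rfl⟩
  have hX0 : 0 ≤ X := by rw [hX]; positivity
  have hL1r : (1 : ℝ) ≤ L := by exact_mod_cast hL1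
  have hK1r : (1 : ℝ) ≤ K := by exact_mod_cast hK1
  have hXX : X ≤ X' := by
    rw [hX, hX']
    exact div_le_div_of_nonneg_right (pow_le_pow_right₀ hL1r hd) hK0.le
  have hXL : X ≤ (L : ℝ) ^ 2 := by
    rw [hX]
    exact div_le_self (by positivity) hK1r
  have ea : 1 / a = 2 * ((Z : ℝ) ^ m0 * X) := by
    rw [ha, hX]
    field_simp
  have eZa : Z / a = 2 * ((Z : ℝ) ^ (m0 + 1) * X) := by
    rw [div_eq_mul_one_div, ea, pow_succ]
    ring
  have hZL : 8 * (Z : ℝ) ^ (m0 + 1) ≤ L := by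
    have p4 : Z ^ (m0 + 1) ≤ Z ^ (m0 + m1 + 2) := Nat.pow_le_pow_right hZ1 (by omega)
    have p5 : 8 * Z ^ (m0 + 1) ≤ L := by omega
    exact_mod_cast p5
  have hS : (Z : ℝ) / a + 1 ≤ Real.exp (2 * Z) := by
    have hZ1r : (1 : ℝ) ≤ Z := by exact_mod_cast hZ1
    have g0 : (1 : ℝ) ≤ (Z : ℝ) ^ (m0 + 1) := one_le_pow₀ hZ1r
    have g1 : (8 : ℝ) ≤ L := by linarith
    have g2 : (L : ℝ) ^ 2 ≤ (L : ℝ) ^ d := pow_le_pow_right₀ hL1r hd
    have g3 : (L : ℝ) ^ 2 ≤ Real.exp Z := g2.trans hLd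
    have g4 : (L : ℝ) ^ 2 * (L : ℝ) ^ 2 ≤ Real.exp Z * Real.exp Z :=
      mul_le_mul g3 g3 (by positivity) (Real.exp_pos _).le
    have g5 : Real.exp (2 * Z) = Real.exp Z * Real.exp Z := by
      rw [← Real.exp_add]
      congr 1
      ring
    rw [eZa, g5]
    refine le_trans ?_ g4
    have g6 : (Z : ℝ) ^ (m0 + 1) * X ≤ L * (L : ℝ) ^ 2 :=
      mul_le_mul (by linarith) hXL hX0 (by linarith)
    have g7 : (1 : ℝ) ≤ L * (L : ℝ) ^ 2 := by
      have := one_le_pow₀ hL1r (n := 2)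
      nlinarith
    have g8 : 8 * (L * (L : ℝ) ^ 2) ≤ (L : ℝ) ^ 2 * (L : ℝ) ^ 2 := by
      have : (L : ℝ) ^ 2 * (L : ℝ) ^ 2 = L * (L * (L : ℝ) ^ 2) := by ring
      rw [this]
      exact mul_le_mul_of_nonneg_right g1 (by positivity)
    linarith
  obtain ⟨Bd, hBd⟩ : ∃ Bd : ℝ, Bd = (W + 1) * (Z / a + 1) + W * X' * (1 + 2 * Z) + 1 / a :=
    ⟨_, rfl⟩
  have hsum : ∀ M : ℕ, ∑ j ∈ range M, |s j - 1| ≤ Bd := by
    intro M
    rw [hBd]
    exact sum_bd (fun j => |s j - 1|) (W + 1) (W * X') Z a (2 * Z) (by positivity) (by positivity)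
      ha0 hZ0.le (by positivity) hS (fun j => abs_nonneg _) b1 b2 M
  -- the limits
  have l1 : Tendsto (fun M : ℕ => ∑ x ∈ univ \ A, ∑ k ∈ range M,
      w ^ (k + 1) * (T * (dg (univ \ A) * T) ^ k) x x) atTop
      (𝓝 (∑ x ∈ univ \ A, Gx w (univ \ A) T x)) :=
    tendsto_finsetSum _ fun x hx => Gx_tendsto w (univ \ A) T x hSS hw0 hw1 hx
  have l1' : ∀ M : ℕ, ∑ x ∈ univ \ A, ∑ k ∈ range M,
      w ^ (k + 1) * (T * (dg (univ \ A) * T) ^ k) x x = ∑ k ∈ range M, w ^ (k + 1) * s k := by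
    intro M
    rw [sum_comm]
    refine sum_congr rfl fun k _ => ?_
    rw [hs, mul_sum]
    exact sum_congr rfl fun x hx => by rw [hpow k x hx]
  have l2 : Tendsto (fun M : ℕ => ∑ k ∈ range M, w ^ (k + 1)) atTop (𝓝 (w * (1 - w)⁻¹)) := by
    have h3 := ((hasSum_geometric_of_lt_one hw0 hw1).tendsto_sum_nat).const_mul w
    refine h3.congr fun M => ?_
    rw [mul_sum]
    exact sum_congr rfl fun k _ => by rw [pow_succ]; ring
  have l3 : Tendsto (fun M : ℕ => |(∑ k ∈ range M, w ^ (k + 1) * s k) -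
      (∑ k ∈ range M, w ^ (k + 1)) - 1|) atTop
      (𝓝 |(∑ x ∈ univ \ A, Gx w (univ \ A) T x) - w * (1 - w)⁻¹ - 1|) := by
    refine Tendsto.abs ?_
    refine ((l1.congr l1').sub l2).sub_const 1
  have hw1' : (1 - w) ≠ 0 := by linarith
  have e5 : (∑ x ∈ univ \ A, Gx w (univ \ A) T x) - 1 / (1 - w) =
      (∑ x ∈ univ \ A, Gx w (univ \ A) T x) - w * (1 - w)⁻¹ - 1 := by
    field_simp
    ring
  have e6 : |(∑ x ∈ univ \ A, Gx w (univ \ A) T x) - 1 / (1 - w)| ≤ Bd + 1 := by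
    rw [e5]
    refine le_of_tendsto' l3 fun M => ?_
    have e7 : (∑ k ∈ range M, w ^ (k + 1) * s k) - (∑ k ∈ range M, w ^ (k + 1)) - 1 =
        (∑ k ∈ range M, w ^ (k + 1) * (s k - 1)) + (-1) := by
      rw [← sum_sub_distrib]
      have : ∀ k ∈ range M, w ^ (k + 1) * s k - w ^ (k + 1) = w ^ (k + 1) * (s k - 1) :=
        fun k _ => by ring
      rw [sum_congr rfl this]
      ring
    rw [e7]
    refine (abs_add_le _ _).trans ?_
    rw [abs_neg, abs_one]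
    refine add_le_add ?_ le_rfl
    refine (abs_sum_le_sum_abs _ _).trans (le_trans (sum_le_sum fun k _ => ?_) (hsum M))
    rw [abs_mul, abs_of_nonneg (pow_nonneg hw0 _)]
    exact mul_le_of_le_one_left (abs_nonneg _) (pow_le_one₀ hw0 hw1.le)
  refine e6.trans ?_
  -- arithmetic
  have hZ1r : (1 : ℝ) ≤ Z := by exact_mod_cast hZ1
  have hZ11 : (11 : ℝ) ≤ Z := by
    have : 11 ≤ Z := by omega
    exact_mod_cast this
  obtain ⟨Y, hY⟩ : ∃ Y : ℝ, Y = (Z : ℝ) ^ (m0 + m1 + 1) := ⟨_, rfl⟩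
  have hY1 : 1 ≤ Y := by rw [hY]; exact one_le_pow₀ hZ1r
  have hWY : W ≤ Y := by rw [hW, hY]; exact pow_le_pow_right₀ hZ1r (by omega)
  have hW1 : 1 ≤ W := by rw [hW]; exact one_le_pow₀ hZ1r
  have hZm : (Z : ℝ) ^ m0 ≤ Y := by rw [hY]; exact pow_le_pow_right₀ hZ1r (by omega)
  have hWZ : W * Z ≤ Y := by
    have : W * Z = (Z : ℝ) ^ (m1 + 1) := by rw [hW, pow_succ]
    rw [this, hY]
    exact pow_le_pow_right₀ hZ1r (by omega)
  have hWZm : W * (Z : ℝ) ^ (m0 + 1) = Y := by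
    rw [hW, hY, ← pow_add]
    congr 1
    omega
  have hbig : 11 * Y ≤ (Z : ℝ) ^ (m0 + m1 + 2) := by
    calc 11 * Y ≤ Z * Y := mul_le_mul_of_nonneg_right hZ11 (by linarith)
      _ = _ := by rw [hY]; ring
  obtain ⟨qq, hqq⟩ : ∃ qq : ℝ, qq = (Z : ℝ) ^ (m0 + 1) := ⟨_, rfl⟩
  have hqq0 : 0 ≤ qq := by rw [hqq]; positivity
  rw [hBd, ea, eZa, ← hX', ← hqq]
  rw [← hqq] at hWZm
  have k1 : (W + 1) * (2 * (qq * X) + 1) ≤ 4 * (Y * X') + 2 * Y := by
    have j1 : qq * X ≤ qq * X' := mul_le_mul_of_nonneg_left hXX hqq0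
    have j2 : (W + 1) * (2 * (qq * X) + 1) ≤ (2 * W) * (2 * (qq * X') + 1) :=
      mul_le_mul (by linarith) (by linarith) (by positivity) (by linarith)
    have j3 : (2 * W) * (2 * (qq * X') + 1) = 4 * ((W * qq) * X') + 2 * W := by ring
    rw [j3, hWZm] at j2
    linarith
  have k2 : W * X' * (1 + 2 * Z) ≤ 3 * (Y * X') := by
    have j1 : W * X' * (1 + 2 * Z) = (W + 2 * (W * Z)) * X' := by ring
    rw [j1]
    have j2 : (W + 2 * (W * Z)) * X' ≤ (3 * Y) * X' :=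
      mul_le_mul_of_nonneg_right (by linarith) hX'0
    linarith
  have k3 : 2 * ((Z : ℝ) ^ m0 * X) ≤ 2 * (Y * X') := by
    have j1 : (Z : ℝ) ^ m0 * X ≤ Y * X' := mul_le_mul hZm hXX hX0 (by linarith)
    linarith
  have k4 : 11 * Y * (1 + X') ≤ (Z : ℝ) ^ (m0 + m1 + 2) * (1 + X') :=
    mul_le_mul_of_nonneg_right hbig (by linarith)
  have k5 : 0 ≤ Y * X' := by positivity
  nlinarith

end Pool.Agent.H961.T3.Enph
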