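import Pool.Agent.H961.T3.Stm5
import Pool.Agent.H961.T3.Gapp

/-!
# Project MS, GAPQ: the scales between `L^d / (log L)^p` and `L^d / T`, `d ≥ 2`
-/

set_option autoImplicit false

namespace Pool.Agent.H961.T3.Gapqh

open Finset Equiv Matrix Q292.LC Pool.Agent.H961.T2 Pool.Agent.H961.T3
open Pool.Agent.H961.T3.Gapph
open Pool.Agent.Y998.ST (stirExp nnRate cycleLen)

/-- **GAPQ** -/
theorem gapq (hMESP : S_MESP) (hCMP : S_CMP) : S_GAPQ := by
  intro d hd p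
  obtain ⟨m₀, hm₀, hM⟩ := hMESP d hd
  obtain ⟨C, mc, L₀, hC, hK⟩ := hCMP d (by omega)
  refine ⟨200 * (p + 1) + mc, by omega, ?_⟩
  intro h α β B hh hα hαβ hsupp hB hlip ε hε
  have hcont : Continuous h := by
    have h1 : LipschitzWith B.toNNReal h := LipschitzWith.of_dist_le_mul fun x y => by
      rw [Real.dist_eq, Real.dist_eq, Real.coe_toNNReal B hB]
      exact hlip x y
    exact h1.continuous
  obtain ⟨T₀, hT₀, hM2⟩ := hM h hcont hh ⟨α, β, hα, hαβ, hsupp⟩ (ε / 3) (by linarith)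
  obtain ⟨X, hX2, hX⟩ := exists_L (max m₀ mc)
  set E₀ : ℝ := C * (B * (4 / Real.sqrt α) + 2) with hE₀
  have hE₀pos : 0 < E₀ := by
    have : 0 ≤ B * (4 / Real.sqrt α) := by positivity
    rw [hE₀]
    have h1 : 0 < B * (4 / Real.sqrt α) + 2 := by linarith
    have h2 : 0 < C := by linarith
    positivity
  -- the number `s`
  set s : ℝ := max (max X T₀) (max (L₀ + 1) (3 * E₀ / ε)) with hs
  have hsX : X ≤ s := (le_max_left _ _).trans (le_max_left _ _)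
  have hsT : T₀ ≤ s := (le_max_right _ _).trans (le_max_left _ _)
  have hsL : (L₀ : ℝ) + 1 ≤ s := (le_max_left _ _).trans (le_max_right _ _)
  have hsE : 3 * E₀ / ε ≤ s := (le_max_right _ _).trans (le_max_right _ _)
  have hs2 : 2 ≤ s := hX2.trans hsX
  have hs3 : 3 ≤ s := hT₀.trans hsT
  have hs1 : 1 ≤ s := by linarith
  have hs0 : 0 < s := by linarith
  have hss : s ≤ s ^ 64 := le_self_pow₀ hs1 (by norm_num)
  have hEs : E₀ / s ≤ ε / 3 := by
    rw [div_le_iff₀ hs0]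
    rw [div_le_iff₀ hε] at hsE
    linarith
  refine ⟨s ^ 64, hs3.trans hss, ?_⟩
  intro L _ t n hL ht htm htL hn hn1 hn2
  have hL3 : (3 : ℝ) ≤ (L : ℝ) := by exact_mod_cast hL
  have hlog1 : 1 ≤ Real.log L := by
    rw [Real.le_log_iff_exp_le (by linarith)]
    exact (Real.exp_one_lt_d9.le.trans (by norm_num)).trans hL3
  have hLd : 0 < (L : ℝ) ^ d := by positivity
  -- `a` and `x`
  obtain ⟨a, ha⟩ : ∃ a : ℝ, a = n / (L : ℝ) ^ d := ⟨_, rfl⟩
  have ha0 : 0 < a := by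
    rw [ha]
    positivity
  obtain ⟨x, hx⟩ : ∃ x : ℝ, x = 1 / a := ⟨_, rfl⟩
  have hxe : x = (L : ℝ) ^ d / n := by
    rw [hx, ha, one_div_div]
  have hxs : s ^ 64 ≤ x := by
    rw [hxe, le_div_iff₀ hn]
    exact hn2
  have hxp : x ≤ (Real.log L) ^ p := by
    rw [hxe, div_le_iff₀ hn]
    exact hn1
  have hx1 : 1 ≤ x := (one_le_pow₀ hs1).trans hxs
  have hx0 : 0 < x := by linarith
  have hsx : s ≤ x := hss.trans hxs
  have hax : a = 1 / x := by
    rw [hx, one_div_one_div]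
  have ha1 : a ≤ 1 := by
    rw [hax, div_le_one hx0]
    exact hx1
  have hna : a * (L : ℝ) ^ d = n := by
    rw [ha, div_mul_cancel₀ _ hLd.ne']
  -- `k`
  set k : ℕ := ⌈x ^ 4⌉₊ with hk
  have hx4 : 1 ≤ x ^ 4 := one_le_pow₀ hx1
  have hk1 : x ^ 4 ≤ (k : ℝ) := Nat.le_ceil _
  have hk2 : (k : ℝ) ≤ 2 * x ^ 4 := by
    have h3 := (Nat.ceil_lt_add_one (show (0 : ℝ) ≤ x ^ 4 by positivity)).le
    linarith
  have hkpos : 1 ≤ k := by
    have : (1 : ℝ) ≤ (k : ℝ) := hx4.trans hk1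
    exact_mod_cast this
  have hk16 : ∀ t : ℝ, s ^ 32 * x ^ 100 ≤ t → (k : ℝ) ^ 16 ≤ t := by
    intro t ht
    refine le_trans ?_ ht
    calc (k : ℝ) ^ 16 ≤ (2 * x ^ 4) ^ 16 := by gcongr
      _ = 2 ^ 16 * x ^ 64 := by ring
      _ ≤ s ^ 16 * x ^ 64 := by gcongr
      _ ≤ s ^ 32 * x ^ 100 :=
        mul_le_mul (pow_le_pow_right₀ hs1 (by norm_num)) (pow_le_pow_right₀ hx1 (by norm_num))
          (by positivity) (by positivity)
  have hκ : ∀ u, u ≤ α / 2 → h u = 0 := fun u hu => hsupp u (Or.inl (by linarith))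
  -- the comparison, for any torus
  have key : ∀ (L' : ℕ) [NeZero L'] (t' : ℝ), L₀ ≤ L' → (Real.log L') ^ mc ≤ t' →
      t' ^ 4 ≤ (L' : ℝ) ^ 7 → s ^ 32 * x ^ 100 ≤ t' →
      |stirExp (nnRate d L') t' (fun g => Real.exp (-kS h (a * (L' : ℝ) ^ d) g)) -
        (∑ π : Perm (Fin k), Ps (kS h (a * k) π)) / (k.factorial : ℝ)| ≤ ε / 3 := by
    intro L' _ t' h1 h2 h3 h4
    have ht1 : 1 ≤ t' := by
      refine le_trans ?_ h4
      have h5 : (1 : ℝ) ≤ s ^ 32 := one_le_pow₀ hs1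
      have h6 : (1 : ℝ) ≤ x ^ 100 := one_le_pow₀ hx1
      nlinarith
    have h5 := hK L' k t' a (α / 2) B h Ps h1 ht1 h2 h3 hkpos (hk16 t' h4) ha0 ha1 (by linarith)
      hB hκ hlip Ps_lip Ps_abs
    have h6 : (fun g : Perm (Fin d → ZMod L') => Ps (kS h (a * (L' : ℝ) ^ d) g)) =
        fun g => Real.exp (-kS h (a * (L' : ℝ) ^ d) g) := by
      funext g
      exact Ps_of_nonneg (kS_nonneg hh _ g)
    rw [h6] at h5
    refine h5.trans (le_trans ?_ hEs)
    exact err_bd hC hB hα ha0 hx hs1 hxs h4 hk1 hk2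
  -- first torus
  have hxt : x ^ 200 ≤ t := by
    calc x ^ 200 ≤ ((Real.log L) ^ p) ^ 200 := by gcongr
      _ = (Real.log L) ^ (p * 200) := (pow_mul _ _ _).symm
      _ ≤ (Real.log L) ^ (200 * (p + 1) + mc) := pow_le_pow_right₀ hlog1 (by omega)
      _ ≤ t := htm
  have hts : s ^ 32 * x ^ 100 ≤ t := by
    have ht0 : 0 ≤ t := by
      refine le_trans ?_ ht
      positivity
    have h1 : (s ^ 32 * x ^ 100) ^ 2 ≤ t ^ 2 := by
      calc (s ^ 32 * x ^ 100) ^ 2 = s ^ 64 * x ^ 200 := by ring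
        _ ≤ t * t := mul_le_mul ht hxt (by positivity) ht0
        _ = t ^ 2 := by ring
    exact (pow_le_pow_iff_left₀ (by positivity) ht0 (by norm_num)).1 h1
  have hL0 : L₀ ≤ L := by
    by_contra hc
    push Not at hc
    have h1 : (L : ℝ) ≤ s := by
      have h2 : (L : ℝ) ≤ (L₀ : ℝ) := by exact_mod_cast hc.le
      linarith
    have h2 : s ^ 8 ≤ s ^ 7 := by
      calc s ^ 8 ≤ (s ^ 64) ^ 4 := by
            rw [← pow_mul]
            exact pow_le_pow_right₀ hs1 (by norm_num)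
        _ ≤ t ^ 4 := by gcongr
        _ ≤ (L : ℝ) ^ 7 := htL
        _ ≤ s ^ 7 := by gcongr
    have h3 : s ^ 8 = s * s ^ 7 := by ring
    have h4 : 0 < s ^ 7 := by positivity
    nlinarith
  have r1 := key L t hL0 (by
    refine le_trans ?_ htm
    exact pow_le_pow_right₀ hlog1 (by omega)) htL hts
  rw [hna] at r1
  -- second torus
  obtain ⟨L₂, hL1, hL2⟩ := hX x (hsX.trans hsx)
  have hxL : x ≤ (L₂ : ℝ) := (le_self_pow₀ hx1 (by norm_num)).trans hL1
  have hL23 : (3 : ℝ) ≤ (L₂ : ℝ) := hs3.trans (hsx.trans hxL)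
  have hne : NeZero L₂ := ⟨by
    rintro rfl
    norm_num at hL23⟩
  have hL21 : (1 : ℝ) ≤ (L₂ : ℝ) := by linarith
  have hL20 : (0 : ℝ) < (L₂ : ℝ) := by linarith
  have hlog2 : 1 ≤ Real.log L₂ := by
    rw [Real.le_log_iff_exp_le (by linarith)]
    exact (Real.exp_one_lt_d9.le.trans (by norm_num)).trans hL23
  have hl0 : (Real.log L₂) ^ m₀ ≤ x :=
    (pow_le_pow_right₀ hlog2 (le_max_left _ _)).trans hL2
  have hlc : (Real.log L₂) ^ mc ≤ x :=
    (pow_le_pow_right₀ hlog2 (le_max_right _ _)).trans hL2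
  have r2 := key L₂ L₂ (by
      have h1 : (L₀ : ℝ) ≤ (L₂ : ℝ) := by linarith
      exact_mod_cast h1) (hlc.trans hxL) (pow_le_pow_right₀ hL21 (by norm_num)) (by
    refine le_trans ?_ hL1
    calc s ^ 32 * x ^ 100 ≤ x ^ 32 * x ^ 100 := by gcongr
      _ = x ^ 132 := by ring
      _ ≤ x ^ 200 := pow_le_pow_right₀ hx1 (by norm_num))
  have hLd2 : (0 : ℝ) < (L₂ : ℝ) ^ d := by positivity
  have r3 := hM2 L₂ L₂ (a * (L₂ : ℝ) ^ d) (by exact_mod_cast hL23) (by linarith)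
    (hl0.trans hxL) (le_self_pow₀ hL21 (by omega)) (by
      obtain ⟨Y, hY⟩ : ∃ Y : ℝ, Y = (L₂ : ℝ) ^ d / (L₂ : ℝ) := ⟨_, rfl⟩
      have hYe : (L₂ : ℝ) ^ d = Y * (L₂ : ℝ) := by
        rw [hY, div_mul_cancel₀ _ hL20.ne']
      have hY1 : 1 ≤ Y := by
        rw [hY, one_le_div hL20]
        exact le_self_pow₀ hL21 (by omega)
      have hY0 : 0 < Y := by linarith
      rw [← hY]
      calc (Real.log L₂) ^ m₀ * (1 + Y) ≤ x * (2 * Y) := by
            gcongr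
            linarith
        _ ≤ a * (L₂ : ℝ) ^ d := by
          rw [hax, one_div_mul_eq_div, le_div_iff₀ hx0, hYe]
          have h5 : 2 * x ^ 2 ≤ (L₂ : ℝ) := by
            calc 2 * x ^ 2 ≤ x * x ^ 2 := by
                  gcongr
                  linarith
              _ = x ^ 3 := by ring
              _ ≤ x ^ 200 := pow_le_pow_right₀ hx1 (by norm_num)
              _ ≤ (L₂ : ℝ) := hL1
          calc x * (2 * Y) * x = Y * (2 * x ^ 2) := by ring
            _ ≤ Y * (L₂ : ℝ) := by gcongr) (by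
      calc (Real.log L₂) ^ m₀ * (a * (L₂ : ℝ) ^ d) ≤ x * (a * (L₂ : ℝ) ^ d) := by gcongr
        _ = (L₂ : ℝ) ^ d := by
          rw [hax]
          field_simp)
  rw [abs_le] at r1 r2 r3 ⊢
  constructor <;> linarith [r1.1, r1.2, r2.1, r2.2, r3.1, r3.2]

end Pool.Agent.H961.T3.Gapqh
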