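import Pool.Agent.H961.T3.All
import Pool.Agent.H961.T3.Kp
import Pool.Agent.H961.T3.Enp
import Pool.Agent.H961.T3.Cip
import Pool.Agent.H961.T3.Stp
import Pool.Agent.H961.T3.Gapq
import Pool.Agent.H961.T3.Mom2
import Pool.Agent.H961.T3.Cont2

/-!
# Project MS: assembly, `d ≥ 2`
-/

set_option autoImplicit false

namespace Pool.Agent.H961.T3

theorem all_cir : S_CIR := Cirh.cir (Envh.env Varh.var)

theorem all_cip : S_CIP := Ciph.Cip.cip (Enph.enp Varh.var Kph.kp)

theorem all_stp : S_STP :=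
  Stph.stp (Rech.rec_k all_star all_cyc MassDomh.mass MassDomh.dom) all_cip

theorem all_mesp : S_MESP := mesp all_stp (Testh.test Bonh.bon)

theorem all_gapq : S_GAPQ := Gapqh.gapq all_mesp all_cmp

end Pool.Agent.H961.T3
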