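import Pool.Agent.H961.T3.Stm6A

set_option autoImplicit false

/-! # The calculus of the central limit theorem -/

namespace Pool.Agent.H961.T3.Calch

open Finset Pool.Agent.H961.T3

theorem calc0 : S_CALC := by
  intro R η hη
  obtain ⟨R', hR'⟩ : ∃ R' : ℝ, R' = max R 0 := ⟨_, rfl⟩
  have hR0 : 0 ≤ R' := by
    rw [hR']
    exact le_max_right _ _
  obtain ⟨M, hM⟩ : ∃ M : ℝ, M = R' ^ 3 + 2 * R' + 1 := ⟨_, rfl⟩
  have hM0 : 0 < M := by
    rw [hM]
    positivity
  obtain ⟨e, he⟩ : ∃ e : ℝ, e = min 1 η / (2 * M) := ⟨_, rfl⟩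
  have hm0 : 0 < min 1 η := lt_min one_pos hη
  have he0 : 0 < e := by
    rw [he]
    exact div_pos hm0 (by positivity)
  have heM : 2 * (M * e) = min 1 η := by
    rw [he]
    field_simp
  have hm1 : min 1 η ≤ 1 := min_le_left _ _
  have hm2 : min 1 η ≤ η := min_le_right _ _
  refine ⟨e, he0, ?_⟩
  intro lam Lam θ hθ hlam hs hL
  have hθ' : |θ| ≤ R' := by
    rw [hR']
    exact hθ.trans (le_max_left _ _)
  obtain ⟨s, hsdef⟩ : ∃ s : ℝ, s = Real.sqrt lam := ⟨_, rfl⟩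
  rw [← hsdef] at hs hL ⊢
  have hs0 : 0 < s := by
    rw [hsdef]
    exact Real.sqrt_pos.2 hlam
  have hss : s * s = lam := by
    rw [hsdef]
    exact Real.mul_self_sqrt hlam.le
  obtain ⟨x, hx⟩ : ∃ x : ℝ, x = θ / s := ⟨_, rfl⟩
  have hinv : 1 / s ≤ e := by
    rw [div_le_iff₀ hs0]
    exact hs
  have hxs : |x| = |θ| * (1 / s) := by
    rw [hx, abs_div, abs_of_pos hs0, div_eq_mul_one_div]
  have hxe : |x| ≤ R' * e := by
    rw [hxs]
    exact mul_le_mul hθ' hinv (by positivity) hR0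
  have hRe : R' * e ≤ M * e := by
    apply mul_le_mul_of_nonneg_right _ he0.le
    rw [hM]
    have : 0 ≤ R' ^ 3 := by positivity
    linarith
  have hx1 : |x| ≤ 1 := by linarith
  obtain ⟨y, hy⟩ : ∃ y : ℂ, y = (x : ℂ) * Complex.I := ⟨_, rfl⟩
  have hyn : ‖y‖ = |x| := by
    rw [hy, norm_mul, Complex.norm_I, mul_one, Complex.norm_real, Real.norm_eq_abs]
  have h3 : ‖Complex.exp y - 1 - y - y ^ 2 / 2‖ ≤ |x| ^ 3 := by
    have h := Complex.exp_bound (x := y) (by rw [hyn]; exact hx1) (n := 3) (by norm_num)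
    rw [hyn] at h
    have h4 : Complex.exp y - ∑ m ∈ Finset.range 3, y ^ m / (m.factorial : ℂ) =
        Complex.exp y - 1 - y - y ^ 2 / 2 := by
      rw [Finset.sum_range_succ, Finset.sum_range_succ, Finset.sum_range_succ,
        Finset.sum_range_zero]
      simp [Nat.factorial]
      ring
    rw [h4] at h
    refine h.trans ?_
    have h5 : 0 ≤ |x| ^ 3 := by positivity
    have h6 : ((Nat.succ 3 : ℕ) : ℝ) * (((Nat.factorial 3 : ℕ) : ℝ) * (3 : ℕ))⁻¹ ≤ 1 := by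
      norm_num [Nat.factorial]
    exact mul_le_of_le_one_right h5 h6
  have h1 : ‖Complex.exp y - 1‖ ≤ 2 * |x| := by
    have h := Complex.norm_exp_sub_one_le (x := y) (by rw [hyn]; exact hx1)
    rwa [hyn] at h
  have hsC : (s : ℂ) ≠ 0 := Complex.ofReal_ne_zero.2 hs0.ne'
  have hxC : (x : ℂ) * s = θ := by
    rw [← Complex.ofReal_mul, hx, div_mul_cancel₀ _ hs0.ne']
  have hlC : (lam : ℂ) = s * s := by
    rw [← Complex.ofReal_mul, hss]
  obtain ⟨w, hw⟩ : ∃ w : ℂ, w = (Complex.exp y - 1 - y - y ^ 2 / 2) * lam +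
    (Complex.exp y - 1) * ((Lam - lam : ℝ) : ℂ) := ⟨_, rfl⟩
  have hw2 : (Complex.exp y - 1) * Lam + -((θ * s : ℝ) : ℂ) * Complex.I =
      w + -(θ : ℂ) ^ 2 / 2 := by
    rw [hw, Complex.ofReal_sub, Complex.ofReal_mul, hlC, ← hxC]
    have e1 : y ^ 2 = -(x : ℂ) ^ 2 := by
      rw [hy, mul_pow, Complex.I_sq]
      ring
    rw [e1]
    have e2 : y * (s * s) = (x : ℂ) * s * s * Complex.I := by
      rw [hy]
      ring
    linear_combination (1 : ℂ) * e2
  have hwn : ‖w‖ ≤ (M - 1) * e := by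
    have h5 : ‖w‖ ≤ |x| ^ 3 * lam + 2 * |x| * |Lam - lam| := by
      rw [hw]
      refine (norm_add_le _ _).trans (add_le_add ?_ ?_)
      · rw [norm_mul, Complex.norm_real, Real.norm_eq_abs, abs_of_pos hlam]
        exact mul_le_mul_of_nonneg_right h3 hlam.le
      · rw [norm_mul, Complex.norm_real, Real.norm_eq_abs]
        exact mul_le_mul_of_nonneg_right h1 (abs_nonneg _)
    have h6 : |x| ^ 3 * lam = |θ| ^ 3 * (1 / s) := by
      rw [hxs, ← hss]
      field_simp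
    have h7 : |θ| ^ 3 * (1 / s) ≤ R' ^ 3 * e :=
      mul_le_mul (pow_le_pow_left₀ (abs_nonneg _) hθ' 3) hinv (by positivity) (by positivity)
    have h8 : 2 * |x| * |Lam - lam| ≤ 2 * R' * e := by
      have h9 : |x| * |Lam - lam| ≤ |x| * (e * s) :=
        mul_le_mul_of_nonneg_left hL (abs_nonneg _)
      have h10 : |x| * (e * s) = |θ| * e := by
        rw [hxs]
        field_simp
      have h11 : |θ| * e ≤ R' * e := mul_le_mul_of_nonneg_right hθ' he0.le
      linarith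
    have h12 : (M - 1) * e = R' ^ 3 * e + 2 * R' * e := by
      rw [hM]
      ring
    rw [h12]
    linarith
  have hw1 : ‖w‖ ≤ 1 := by linarith
  have h9 := Complex.norm_exp_sub_one_le (x := w) hw1
  have h10 : Complex.exp ((Complex.exp ((θ / s : ℝ) * Complex.I) - 1) * Lam) *
      Complex.exp (-((θ * s : ℝ) : ℂ) * Complex.I) - Complex.exp (-(θ : ℂ) ^ 2 / 2) =
      Complex.exp (-(θ : ℂ) ^ 2 / 2) * (Complex.exp w - 1) := by
    rw [← hx, ← hy, ← Complex.exp_add, hw2, Complex.exp_add]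
    ring
  rw [h10, norm_mul]
  have h11 : ‖Complex.exp (-(θ : ℂ) ^ 2 / 2)‖ ≤ 1 := by
    have h12 : (-(θ : ℂ) ^ 2 / 2) = ((-θ ^ 2 / 2 : ℝ) : ℂ) := by
      push_cast
      ring
    rw [h12, Complex.norm_exp, Complex.ofReal_re]
    apply Real.exp_le_one_iff.2
    have := sq_nonneg θ
    linarith
  have h12 : ‖Complex.exp w - 1‖ ≤ η := by linarith
  calc ‖Complex.exp (-(θ : ℂ) ^ 2 / 2)‖ * ‖Complex.exp w - 1‖ ≤ 1 * η :=
        mul_le_mul h11 h12 (norm_nonneg _) zero_le_one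
    _ = η := one_mul _

end Pool.Agent.H961.T3.Calch
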