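import Pool.Agent.H961.T3.Stm6

/-! Project MS (helper961): GENF (helper665). -/

set_option autoImplicit false

namespace Pool.Agent.H961.T3.Genfh

open Finset

/-- the differential equation -/
theorem ode {F F' : ℝ → ℂ} {z : ℂ} {w₁ w₂ R : ℝ} (hz : ‖z‖ ≤ 1) (h0 : 1 / 2 ≤ w₁) (h12 : w₁ ≤ w₂)
    (h2 : w₂ < 1) (hR : 0 ≤ R) (hF : ∀ w, HasDerivAt F (F' w) w) (h1 : F w₁ = 1)
    (hr : ∀ w, w₁ ≤ w → w ≤ w₂ → ‖(w : ℂ) * F' w - (z - 1) * (F w / (1 - w))‖ ≤ 4 * R) :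
    ‖F w₂ - Complex.exp ((z - 1) * Real.log (w₂ * (1 - w₁) / (w₁ * (1 - w₂))))‖ ≤
      8 * R * (1 - w₁) := by
  set c : ℝ := Real.log (1 - w₁) - Real.log w₁ with hc
  set Λ : ℝ → ℝ := fun w => Real.log w - Real.log (1 - w) + c with hΛ
  have hΛ1 : Λ w₁ = 0 := by simp only [hΛ, hc]; ring
  have hΛ2 : Real.log (w₂ * (1 - w₁) / (w₁ * (1 - w₂))) = Λ w₂ := by
    have a1 : w₂ ≠ 0 := by linarith
    have a2 : 1 - w₁ ≠ 0 := by linarith
    have a3 : w₁ ≠ 0 := by linarith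
    have a4 : 1 - w₂ ≠ 0 := by linarith
    rw [Real.log_div (mul_ne_zero a1 a2) (mul_ne_zero a3 a4), Real.log_mul a1 a2,
      Real.log_mul a3 a4]
    simp only [hΛ, hc]
    ring
  rw [hΛ2]
  have hdΛ : ∀ w, w₁ ≤ w → w ≤ w₂ → HasDerivAt Λ (1 / w + 1 / (1 - w)) w := by
    intro w hw1 hw2
    have b1 : w ≠ 0 := by linarith
    have b2 : 1 - w ≠ 0 := by linarith
    have d1 := Real.hasDerivAt_log b1
    have d2 : HasDerivAt (fun w : ℝ => Real.log (1 - w)) (-1 / (1 - w)) w :=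
      ((hasDerivAt_id w).const_sub 1).log b2
    have := (d1.sub d2).add_const c
    refine this.congr_deriv ?_
    rw [one_div, neg_div, sub_neg_eq_add]
  have hmono : ∀ w, w₁ ≤ w → w ≤ w₂ → Λ w ≤ Λ w₂ := by
    intro w hw1 hw2
    have e1 : Real.log w ≤ Real.log w₂ := Real.log_le_log (by linarith) hw2
    have e2 : Real.log (1 - w₂) ≤ Real.log (1 - w) := Real.log_le_log (by linarith) (by linarith)
    simp only [hΛ]
    linarith
  set G : ℝ → ℂ := fun w => F w * Complex.exp (-(z - 1) * (Λ w : ℂ)) with hG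
  set G' : ℝ → ℂ := fun w => F' w * Complex.exp (-(z - 1) * (Λ w : ℂ)) +
    F w * (Complex.exp (-(z - 1) * (Λ w : ℂ)) * (-(z - 1) * ((1 / w + 1 / (1 - w) : ℝ) : ℂ)))
    with hG'
  have hdG : ∀ w ∈ Set.Icc w₁ w₂, HasDerivWithinAt G (G' w) (Set.Icc w₁ w₂) w := by
    intro w hw
    have d1 : HasDerivAt (fun w => (Λ w : ℂ)) (((1 / w + 1 / (1 - w) : ℝ) : ℂ)) w :=
      (hdΛ w hw.1 hw.2).ofReal_comp
    have d2 := (d1.const_mul (-(z - 1))).cexp
    exact ((hF w).mul d2).hasDerivWithinAt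
  have hre : z.re ≤ 1 := (Complex.re_le_norm z).trans hz
  have hexp : ∀ w, ‖Complex.exp (-(z - 1) * (Λ w : ℂ))‖ = Real.exp ((1 - z.re) * Λ w) := by
    intro w
    rw [Complex.norm_exp]
    congr 1
    simp
  have hbd : ∀ w ∈ Set.Ico w₁ w₂, ‖G' w‖ ≤ 8 * R * Real.exp ((1 - z.re) * Λ w₂) := by
    intro w hw
    have b0 : (0 : ℝ) < w := by linarith [hw.1]
    have b1 : (w : ℂ) ≠ 0 := by exact_mod_cast b0.ne'
    have b3 : (1 - w : ℝ) ≠ 0 := by linarith [hw.2]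
    have b2 : (1 - w : ℂ) ≠ 0 := by exact_mod_cast b3
    have e1 : G' w = Complex.exp (-(z - 1) * (Λ w : ℂ)) *
        (((w : ℂ) * F' w - (z - 1) * (F w / (1 - w))) / w) := by
      simp only [hG']
      have e2 : (((1 / w + 1 / (1 - w) : ℝ)) : ℂ) = 1 / (w * (1 - w)) := by
        push_cast
        field_simp
        ring
      rw [e2]
      field_simp
      ring
    rw [e1, norm_mul, norm_div, hexp]
    have e3 : Real.exp ((1 - z.re) * Λ w) ≤ Real.exp ((1 - z.re) * Λ w₂) :=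
      Real.exp_le_exp.2 (mul_le_mul_of_nonneg_left (hmono w hw.1 hw.2.le) (by linarith))
    have e4 : ‖(w : ℂ) * F' w - (z - 1) * (F w / (1 - w))‖ / ‖(w : ℂ)‖ ≤ 8 * R := by
      rw [Complex.norm_real, Real.norm_eq_abs, abs_of_pos b0, div_le_iff₀ b0]
      refine (hr w hw.1 hw.2.le).trans ?_
      nlinarith [hw.1]
    calc Real.exp ((1 - z.re) * Λ w) *
        (‖(w : ℂ) * F' w - (z - 1) * (F w / (1 - w))‖ / ‖(w : ℂ)‖)
        ≤ Real.exp ((1 - z.re) * Λ w₂) * (8 * R) :=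
          mul_le_mul e3 e4 (by positivity) (by positivity)
      _ = _ := mul_comm _ _
  have hmv := norm_image_sub_le_of_norm_deriv_le_segment' hdG hbd w₂ ⟨h12, le_rfl⟩
  have hG1 : G w₁ = 1 := by
    simp only [hG]
    rw [hΛ1, h1]
    simp
  rw [hG1] at hmv
  have e5 : F w₂ - Complex.exp ((z - 1) * (Λ w₂ : ℂ)) =
      Complex.exp ((z - 1) * (Λ w₂ : ℂ)) * (G w₂ - 1) := by
    simp only [hG]
    rw [mul_sub, mul_one, mul_comm (F w₂), ← mul_assoc, ← Complex.exp_add]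
    have : (z - 1) * (Λ w₂ : ℂ) + -(z - 1) * (Λ w₂ : ℂ) = 0 := by ring
    rw [this, Complex.exp_zero, one_mul]
  rw [e5, norm_mul]
  have e6 : ‖Complex.exp ((z - 1) * (Λ w₂ : ℂ))‖ = (Real.exp ((1 - z.re) * Λ w₂))⁻¹ := by
    rw [Complex.norm_exp, ← Real.exp_neg]
    congr 1
    simp
    ring
  rw [e6]
  have hp : 0 < Real.exp ((1 - z.re) * Λ w₂) := Real.exp_pos _
  rw [inv_mul_le_iff₀ hp]
  refine hmv.trans ?_
  have e7 : w₂ - w₁ ≤ 1 - w₁ := by linarith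
  have : 8 * R * Real.exp ((1 - z.re) * Λ w₂) * (w₂ - w₁) ≤
      8 * R * Real.exp ((1 - z.re) * Λ w₂) * (1 - w₁) :=
    mul_le_mul_of_nonneg_left e7 (by positivity)
  linarith

/-- the marking expectation of a product -/
theorem prod_mark {ι : Type} [DecidableEq ι] (a : ι → ℕ) (w : ℝ) (s : Finset ι) (h : ι → ℂ) :
    ((∑ J ∈ s.powerset, (∏ C ∈ J, w ^ a C) * (∏ C ∈ s \ J, (1 - w ^ a C)) * (∏ C ∈ J, h C).re : ℝ) : ℂ)
    + ((∑ J ∈ s.powerset, (∏ C ∈ J, w ^ a C) * (∏ C ∈ s \ J, (1 - w ^ a C)) * (∏ C ∈ J, h C).im : ℝ) : ℂ)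
      * Complex.I = ∏ C ∈ s, ((w : ℂ) ^ a C * h C + (1 - (w : ℂ) ^ a C)) := by
  rw [Finset.prod_add]
  push_cast
  rw [Finset.sum_mul, ← Finset.sum_add_distrib]
  refine Finset.sum_congr rfl fun J _ => ?_
  rw [Finset.prod_mul_distrib]
  have e : (∏ C ∈ J, h C) = ((∏ C ∈ J, h C).re : ℂ) + ((∏ C ∈ J, h C).im : ℂ) * Complex.I :=
    (Complex.re_add_im _).symm
  generalize (∏ C ∈ J, h C) = q at e ⊢
  generalize (∏ C ∈ J, (w : ℂ) ^ a C) = p
  generalize (∏ C ∈ s \ J, (1 - (w : ℂ) ^ a C)) = r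
  calc p * r * (q.re : ℂ) + p * r * (q.im : ℂ) * Complex.I
      = p * r * ((q.re : ℂ) + (q.im : ℂ) * Complex.I) := by ring
    _ = p * q * r := by rw [← e]; ring

open Equiv Q292.LC Pool.Agent.H961.T2 Pool.Agent.H961.T3
open Pool.Agent.Y998.ST (stirExp stirLaw nnRate cycleLen)

theorem factor_norm {z : ℂ} (hz : ‖z‖ ≤ 1) {θ : ℝ} (h0 : 0 ≤ θ) (h1 : θ ≤ 1) :
    ‖z + (1 - z) * (θ : ℂ)‖ ≤ 1 := by
  have e : z + (1 - z) * (θ : ℂ) = ((1 - θ : ℝ) : ℂ) * z + (θ : ℂ) := by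
    push_cast
    ring
  rw [e]
  refine (norm_add_le _ _).trans ?_
  rw [norm_mul, Complex.norm_real, Complex.norm_real, Real.norm_eq_abs, Real.norm_eq_abs,
    abs_of_nonneg h0, abs_of_nonneg (by linarith : (0 : ℝ) ≤ 1 - θ)]
  nlinarith [norm_nonneg z]

theorem hasDerivAt_win {V : Type} [Fintype V] [DecidableEq V] (law : Perm V → ℝ) (z : ℂ) (w₁ : ℝ)
    (w : ℝ) :
    HasDerivAt (fun w : ℝ => ∑ g : Perm V, (law g : ℂ) *
      ∏ C ∈ cycs g, (1 + (z - 1) * ((w : ℂ) ^ C.card - (w₁ : ℂ) ^ C.card)))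
    (∑ g : Perm V, (law g : ℂ) * ∑ C ∈ cycs g,
      (∏ C' ∈ (cycs g).erase C, (1 + (z - 1) * ((w : ℂ) ^ C'.card - (w₁ : ℂ) ^ C'.card))) *
        ((z - 1) * (C.card * (w : ℂ) ^ (C.card - 1)))) w := by
  have hf : ∀ C : Finset V, HasDerivAt (fun w : ℝ => (1 + (z - 1) *
      ((w : ℂ) ^ C.card - (w₁ : ℂ) ^ C.card))) ((z - 1) * (C.card * (w : ℂ) ^ (C.card - 1))) w := by
    intro C
    have h1 : HasDerivAt (fun w : ℂ => (1 + (z - 1) * (w ^ C.card - (w₁ : ℂ) ^ C.card)))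
        ((z - 1) * (C.card * (w : ℂ) ^ (C.card - 1))) (w : ℂ) :=
      (((hasDerivAt_pow C.card (w : ℂ)).sub_const _).const_mul (z - 1)).const_add 1
    exact h1.comp_ofReal
  refine HasDerivAt.fun_sum fun g _ => ?_
  refine HasDerivAt.const_mul _ ?_
  have := HasDerivAt.fun_finset_prod (u := cycs g)
    (f := fun C (w : ℝ) => (1 + (z - 1) * ((w : ℂ) ^ C.card - (w₁ : ℂ) ^ C.card)))
    (f' := fun C => (z - 1) * (C.card * (w : ℂ) ^ (C.card - 1))) (x := w) (fun C _ => hf C)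
  exact this

/-- the complex version of one step -/
theorem step_complex {V : Type} [Fintype V] [DecidableEq V] (law : Perm V → ℝ) {z : ℂ}
    (hz : ‖z‖ ≤ 1) {w₁ w R : ℝ} (hw1 : 0 < w₁) (hw : w₁ ≤ w)
    (H : ∀ H : Finset (Finset V) → ℝ, (∀ J, |H J| ≤ 1) →
      |∑ g, law g * sb w H g - 1 / (1 - w) * ∑ g, law g * mk (ι := Finset V) card w (cycs g) H|
        ≤ R) :
    ‖(w : ℂ) * (∑ g : Perm V, (law g : ℂ) * ∑ C ∈ cycs g,
      (∏ C' ∈ (cycs g).erase C, (1 + (z - 1) * ((w : ℂ) ^ C'.card - (w₁ : ℂ) ^ C'.card))) *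
        ((z - 1) * (C.card * (w : ℂ) ^ (C.card - 1)))) -
      (z - 1) * ((∑ g : Perm V, (law g : ℂ) *
      ∏ C ∈ cycs g, (1 + (z - 1) * ((w : ℂ) ^ C.card - (w₁ : ℂ) ^ C.card))) / (1 - w))‖
      ≤ 4 * R := by
  have hw0 : 0 < w := hw1.trans_le hw
  set h : Finset V → ℂ := fun C => z + (1 - z) * (((w₁ / w) ^ C.card : ℝ) : ℂ) with hh
  have hθ0 : 0 ≤ w₁ / w := by positivity
  have hθ1 : w₁ / w ≤ 1 := (div_le_one hw0).2 hw
  have hn : ∀ J : Finset (Finset V), ‖∏ C ∈ J, h C‖ ≤ 1 := by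
    intro J
    rw [norm_prod]
    exact Finset.prod_le_one (fun _ _ => norm_nonneg _) fun C _ =>
      factor_norm hz (pow_nonneg hθ0 _) (pow_le_one₀ hθ0 hθ1)
  have A1 := H (fun J => (∏ C ∈ J, h C).re) (fun J => (Complex.abs_re_le_norm _).trans (hn J))
  have A2 := H (fun J => (∏ C ∈ J, h C).im) (fun J => (Complex.abs_im_le_norm _).trans (hn J))
  have hfac : ∀ C : Finset V, (w : ℂ) ^ C.card * h C + (1 - (w : ℂ) ^ C.card) =
      1 + (z - 1) * ((w : ℂ) ^ C.card - (w₁ : ℂ) ^ C.card) := by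
    intro C
    have e : (w : ℂ) ^ C.card * (((w₁ / w) ^ C.card : ℝ) : ℂ) = (w₁ : ℂ) ^ C.card := by
      rw [← Complex.ofReal_pow, ← Complex.ofReal_mul, ← mul_pow, mul_div_cancel₀ _ hw0.ne',
        Complex.ofReal_pow]
    simp only [hh]
    calc (w : ℂ) ^ C.card * (z + (1 - z) * (((w₁ / w) ^ C.card : ℝ) : ℂ)) + (1 - (w : ℂ) ^ C.card)
        = (w : ℂ) ^ C.card * z + (1 - z) * ((w : ℂ) ^ C.card * (((w₁ / w) ^ C.card : ℝ) : ℂ)) +
          (1 - (w : ℂ) ^ C.card) := by ring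
      _ = 1 + (z - 1) * ((w : ℂ) ^ C.card - (w₁ : ℂ) ^ C.card) := by rw [e]; ring
  have hmk : ∀ s : Finset (Finset V),
      ((mk (ι := Finset V) card w s (fun J => (∏ C ∈ J, h C).re) : ℝ) : ℂ) +
      ((mk (ι := Finset V) card w s (fun J => (∏ C ∈ J, h C).im) : ℝ) : ℂ) * Complex.I =
      ∏ C ∈ s, (1 + (z - 1) * ((w : ℂ) ^ C.card - (w₁ : ℂ) ^ C.card)) := by
    intro s
    have := prod_mark (ι := Finset V) card w s h
    rw [Finset.prod_congr rfl (fun C _ => hfac C)] at this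
    exact this
  have c2 : ((∑ g, law g * mk (ι := Finset V) card w (cycs g) (fun J => (∏ C ∈ J, h C).re) : ℝ) : ℂ)
      + ((∑ g, law g * mk (ι := Finset V) card w (cycs g) (fun J => (∏ C ∈ J, h C).im) : ℝ) : ℂ)
        * Complex.I = ∑ g : Perm V, (law g : ℂ) *
      ∏ C ∈ cycs g, (1 + (z - 1) * ((w : ℂ) ^ C.card - (w₁ : ℂ) ^ C.card)) := by
    rw [Complex.ofReal_sum, Complex.ofReal_sum, Finset.sum_mul, ← Finset.sum_add_distrib]
    refine Finset.sum_congr rfl fun g _ => ?_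
    rw [← hmk, Complex.ofReal_mul, Complex.ofReal_mul]
    ring
  have hsb : ∀ g : Perm V, ((sb w (fun J => (∏ C ∈ J, h C).re) g : ℝ) : ℂ) +
      ((sb w (fun J => (∏ C ∈ J, h C).im) g : ℝ) : ℂ) * Complex.I =
      ∑ C ∈ cycs g, (C.card : ℂ) * (w : ℂ) ^ C.card *
        ∏ C' ∈ (cycs g).erase C, (1 + (z - 1) * ((w : ℂ) ^ C'.card - (w₁ : ℂ) ^ C'.card)) := by
    intro g
    unfold sb
    rw [Complex.ofReal_sum, Complex.ofReal_sum, Finset.sum_mul, ← Finset.sum_add_distrib]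
    refine Finset.sum_congr rfl fun C _ => ?_
    rw [← hmk]
    push_cast
    ring
  have c1 : ((∑ g, law g * sb w (fun J => (∏ C ∈ J, h C).re) g : ℝ) : ℂ)
      + ((∑ g, law g * sb w (fun J => (∏ C ∈ J, h C).im) g : ℝ) : ℂ)
        * Complex.I = ∑ g : Perm V, (law g : ℂ) * ∑ C ∈ cycs g, (C.card : ℂ) * (w : ℂ) ^ C.card *
        ∏ C' ∈ (cycs g).erase C, (1 + (z - 1) * ((w : ℂ) ^ C'.card - (w₁ : ℂ) ^ C'.card)) := by
    rw [Complex.ofReal_sum, Complex.ofReal_sum, Finset.sum_mul, ← Finset.sum_add_distrib]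
    refine Finset.sum_congr rfl fun g _ => ?_
    rw [← hsb, Complex.ofReal_mul, Complex.ofReal_mul]
    ring
  have c3 : (w : ℂ) * (∑ g : Perm V, (law g : ℂ) * ∑ C ∈ cycs g,
      (∏ C' ∈ (cycs g).erase C, (1 + (z - 1) * ((w : ℂ) ^ C'.card - (w₁ : ℂ) ^ C'.card))) *
        ((z - 1) * (C.card * (w : ℂ) ^ (C.card - 1)))) =
      (z - 1) * ∑ g : Perm V, (law g : ℂ) * ∑ C ∈ cycs g, (C.card : ℂ) * (w : ℂ) ^ C.card *
        ∏ C' ∈ (cycs g).erase C, (1 + (z - 1) * ((w : ℂ) ^ C'.card - (w₁ : ℂ) ^ C'.card)) := by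
    rw [Finset.mul_sum, Finset.mul_sum]
    refine Finset.sum_congr rfl fun g _ => ?_
    rw [mul_left_comm, mul_left_comm (z - 1)]
    refine congrArg (fun x => (law g : ℂ) * x) ?_
    rw [Finset.mul_sum, Finset.mul_sum]
    refine Finset.sum_congr rfl fun C _ => ?_
    have e : (w : ℂ) * ((C.card : ℂ) * (w : ℂ) ^ (C.card - 1)) = (C.card : ℂ) * (w : ℂ) ^ C.card := by
      rcases Nat.eq_zero_or_pos C.card with h0 | h0
      · rw [h0]
        simp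
      · have : (w : ℂ) ^ C.card = (w : ℂ) ^ (C.card - 1) * w := by
          rw [← pow_succ, Nat.sub_add_cancel h0]
        rw [this]
        ring
    rw [← e]
    ring
  rw [c3, ← c1, ← c2]
  generalize (∑ g, law g * sb w (fun J => (∏ C ∈ J, h C).re) g) = a at A1 ⊢
  generalize (∑ g, law g * sb w (fun J => (∏ C ∈ J, h C).im) g) = b at A2 ⊢
  generalize (∑ g, law g * mk (ι := Finset V) card w (cycs g) (fun J => (∏ C ∈ J, h C).re)) = a'
    at A1 ⊢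
  generalize (∑ g, law g * mk (ι := Finset V) card w (cycs g) (fun J => (∏ C ∈ J, h C).im)) = b'
    at A2 ⊢
  have e : (z - 1) * ((a : ℂ) + (b : ℂ) * Complex.I) -
      (z - 1) * (((a' : ℂ) + (b' : ℂ) * Complex.I) / (1 - w)) =
      (z - 1) * (((a - 1 / (1 - w) * a' : ℝ) : ℂ) + ((b - 1 / (1 - w) * b' : ℝ) : ℂ) *
        Complex.I) := by
    push_cast
    ring
  rw [e, norm_mul]
  have n1 : ‖z - 1‖ ≤ 2 := by
    refine (norm_sub_le _ _).trans ?_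
    rw [norm_one]
    linarith
  have n2 : ‖((a - 1 / (1 - w) * a' : ℝ) : ℂ) + ((b - 1 / (1 - w) * b' : ℝ) : ℂ) *
        Complex.I‖ ≤ R + R := by
    refine (norm_add_le _ _).trans ?_
    rw [norm_mul, Complex.norm_I, mul_one, Complex.norm_real, Complex.norm_real,
      Real.norm_eq_abs, Real.norm_eq_abs]
    exact add_le_add A1 A2
  calc ‖z - 1‖ * _ ≤ 2 * (R + R) := mul_le_mul n1 n2 (norm_nonneg _) (by norm_num)
    _ = 4 * R := by ring

theorem genf (hSTG : S_STG) : S_GENF := by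
  intro d hd
  obtain ⟨m, T, hm, hT, H⟩ := hSTG d hd
  refine ⟨m, T, hm, hT, ?_⟩
  intro L _ t w₁ w₂ z hL hTt hlog ht hw1 hw12 hw2 hlw hz
  have ht0 : 0 < t := by linarith
  have hL0 : (0 : ℝ) ≤ Real.log L := Real.log_nonneg (by exact_mod_cast (by omega : 1 ≤ L))
  have hR : 0 ≤ (Real.log L) ^ m * er d L t := by
    unfold er
    positivity
  refine ode (F := fun w : ℝ => ∑ g : Perm (Fin d → ZMod L), (stirLaw (nnRate d L) t g : ℂ) *
      ∏ C ∈ cycs g, (1 + (z - 1) * ((w : ℂ) ^ C.card - (w₁ : ℂ) ^ C.card))) hz hw1 hw12 hw2 hR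
      (fun w => hasDerivAt_win (stirLaw (nnRate d L) t) z w₁ w) ?_ ?_
  · have h1 := Pool.Agent.Y998.ST.exp_const (nnRate d L) t 1
    unfold stirExp at h1
    simp only [sub_self, mul_zero, add_zero, Finset.prod_const_one, mul_one]
    simp only [mul_one] at h1
    exact_mod_cast h1
  · intro w hw hw'
    refine step_complex (stirLaw (nnRate d L) t) hz (by linarith) hw (fun Hf hHf => ?_)
    refine H L t w Hf hL hTt hlog ht (by linarith) (by linarith) (hlw.trans ?_) hHf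
    exact mul_le_mul_of_nonneg_left (by linarith) (by positivity)

end Pool.Agent.H961.T3.Genfh
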