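import Pool.Agent.H961.T3.Stm6A

/-!
# MS-LEVY (helper287, for helper961): from characteristic functions to distribution functions
-/

set_option autoImplicit false

namespace Pool.Agent.H961.T3.Levyh

open Finset MeasureTheory Filter Topology ProbabilityTheory
open Pool.Agent.H961.T3

/-- Pólya: pointwise convergence of distribution functions to a continuous one is uniform -/
theorem polya (Φ : ℝ → ℝ) (hc : Continuous Φ) (hm : Monotone Φ) (h0 : Tendsto Φ atBot (𝓝 0))
    (h1 : Tendsto Φ atTop (𝓝 1)) (F : ℕ → ℝ → ℝ) (hFm : ∀ k, Monotone (F k))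
    (hF0 : ∀ k y, 0 ≤ F k y) (hF1 : ∀ k y, F k y ≤ 1)
    (hF : ∀ y, Tendsto (fun k => F k y) atTop (𝓝 (Φ y))) (ε : ℝ) (hε : 0 < ε) :
    ∀ᶠ k in atTop, ∀ y, |F k y - Φ y| ≤ ε := by
  obtain ⟨N, hN⟩ := exists_nat_gt (4 / ε)
  have hNpos : (0 : ℝ) < N := lt_trans (by positivity) hN
  have h2N : 2 / (N : ℝ) ≤ ε / 2 := by
    rw [div_lt_iff₀ hε] at hN
    rw [div_le_iff₀ hNpos]
    linarith
  have hΦ0 : ∀ y, 0 ≤ Φ y := fun y => hm.le_of_tendsto h0 y
  have hΦ1 : ∀ y, Φ y ≤ 1 := fun y => hm.ge_of_tendsto h1 y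
  have hex : ∀ j : ℕ, ∃ a : ℝ, 1 ≤ j → j < N → Φ a = j / N := by
    intro j
    by_cases hj : 1 ≤ j ∧ j < N
    · have hj0 : (0 : ℝ) < (j : ℝ) / N := by
        have : (1 : ℝ) ≤ j := by exact_mod_cast hj.1
        positivity
      have hj1 : (j : ℝ) / N < 1 := by
        rw [div_lt_one hNpos]
        exact_mod_cast hj.2
      obtain ⟨u, hu⟩ := (h0.eventually (gt_mem_nhds hj0)).exists
      obtain ⟨v, hv⟩ := (h1.eventually (lt_mem_nhds hj1)).exists
      obtain ⟨a, ha⟩ := mem_range_of_exists_le_of_exists_ge hc ⟨u, hu.le⟩ ⟨v, hv.le⟩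
      exact ⟨a, fun _ _ => ha⟩
    · exact ⟨0, fun h h' => absurd ⟨h, h'⟩ hj⟩
  choose a ha using hex
  have hev : ∀ᶠ k in atTop, ∀ j ∈ range N, |F k (a j) - Φ (a j)| ≤ ε / 2 := by
    rw [Filter.eventually_all_finset]
    intro j _
    have h := (hF (a j)).eventually (Metric.closedBall_mem_nhds _ (half_pos hε))
    filter_upwards [h] with k hk
    rw [← Real.dist_eq]
    exact hk
  filter_upwards [hev] with k hk y
  set j : ℕ := ⌊(N : ℝ) * Φ y⌋₊ with hj
  have hNy : 0 ≤ (N : ℝ) * Φ y := mul_nonneg hNpos.le (hΦ0 y)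
  have hj1 : (j : ℝ) ≤ N * Φ y := Nat.floor_le hNy
  have hj2 : (N : ℝ) * Φ y < j + 1 := Nat.lt_floor_add_one _
  have hup : Φ y < (j + 1) / N := by
    rw [lt_div_iff₀ hNpos]
    linarith
  have hlo : (j : ℝ) / N ≤ Φ y := by
    rw [div_le_iff₀ hNpos]
    linarith
  have h1N : 1 / (N : ℝ) = (2 / N) / 2 := by ring
  rw [abs_le]
  constructor
  · -- lower bound
    by_cases h : 2 ≤ j
    · have hjN : j - 1 < N := by
        have h3 : (j : ℝ) ≤ N := by
          have := mul_le_mul_of_nonneg_left (hΦ1 y) hNpos.le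
          linarith
        have h4 : j ≤ N := by exact_mod_cast h3
        omega
      have h3 := ha (j - 1) (by omega) hjN
      have h4 : ((j - 1 : ℕ) : ℝ) = (j : ℝ) - 1 := by
        rw [Nat.cast_sub (by omega), Nat.cast_one]
      rw [h4] at h3
      have h5 : a (j - 1) ≤ y := by
        by_contra hcon
        have h6 := hm (not_le.1 hcon).le
        rw [h3] at h6
        have h7 : ((j : ℝ) - 1) / N = (j : ℝ) / N - 1 / N := by ring
        have h8 : 0 < 1 / (N : ℝ) := by positivity
        linarith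
      have h6 := hFm k h5
      have h7 := (abs_le.1 (hk (j - 1) (mem_range.2 hjN))).1
      rw [h3] at h7
      have h8 : ((j : ℝ) - 1) / N = ((j : ℝ) + 1) / N - 2 / N := by ring
      linarith
    · have h3 : (j : ℝ) ≤ 1 := by exact_mod_cast (by omega : j ≤ 1)
      have h4 : ((j : ℝ) + 1) / N ≤ 2 / N := by
        apply div_le_div_of_nonneg_right _ hNpos.le
        linarith
      have := hF0 k y
      linarith
  · -- upper bound
    by_cases h : j + 1 < N
    · have h3 := ha (j + 1) (by omega) h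
      push_cast at h3
      have h5 : y ≤ a (j + 1) := by
        by_contra hcon
        have h6 := hm (not_le.1 hcon).le
        rw [h3] at h6
        linarith
      have h6 := hFm k h5
      have h7 := (abs_le.1 (hk (j + 1) (mem_range.2 h))).2
      rw [h3] at h7
      have h8 : ((j : ℝ) + 1) / N = (j : ℝ) / N + 1 / N := by ring
      have h9 : 0 < 2 / (N : ℝ) := by positivity
      linarith
    · have h3 : (N : ℝ) ≤ (j : ℝ) + 1 := by exact_mod_cast (not_lt.1 h)
      have h4 : 1 ≤ ((j : ℝ) + 1) / N := by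
        rw [le_div_iff₀ hNpos]
        linarith
      have h8 : ((j : ℝ) + 1) / N = (j : ℝ) / N + 1 / N := by ring
      have h9 : 0 < 2 / (N : ℝ) := by positivity
      have := hF1 k y
      linarith

/-- the law of a finite random variable -/
noncomputable def law {Ω : Type} [Fintype Ω] (P X : Ω → ℝ) : Measure ℝ :=
  ∑ o, ENNReal.ofReal (P o) • Measure.dirac (X o)

theorem law_prob {Ω : Type} [Fintype Ω] (P X : Ω → ℝ) (hP : ∀ o, 0 ≤ P o) (h1 : ∑ o, P o = 1) :
    IsProbabilityMeasure (law P X) := by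
  constructor
  unfold law
  rw [Measure.finsetSum_apply]
  simp only [Measure.smul_apply, smul_eq_mul, measure_univ, mul_one]
  rw [← ENNReal.ofReal_sum_of_nonneg fun o _ => hP o, h1, ENNReal.ofReal_one]

theorem law_real {Ω : Type} [Fintype Ω] (P X : Ω → ℝ) (hP : ∀ o, 0 ≤ P o) (y : ℝ) :
    (law P X).real (Set.Iic y) = ∑ o, P o * (if X o ≤ y then 1 else 0) := by
  unfold law Measure.real
  rw [Measure.finsetSum_apply, ENNReal.toReal_sum]
  · refine sum_congr rfl fun o _ => ?_
    rw [Measure.smul_apply, smul_eq_mul, ENNReal.toReal_mul, ENNReal.toReal_ofReal (hP o),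
      Measure.dirac_apply' _ measurableSet_Iic]
    congr 1
    by_cases h : X o ≤ y
    · rw [if_pos h, Set.indicator_of_mem (Set.mem_Iic.2 h)]
      simp
    · rw [if_neg h, Set.indicator_of_notMem (fun h' => h (Set.mem_Iic.1 h'))]
      simp
  · intro o _
    rw [Measure.smul_apply, smul_eq_mul]
    exact ENNReal.mul_ne_top ENNReal.ofReal_ne_top (measure_ne_top _ _)

theorem law_charFun {Ω : Type} [Fintype Ω] (P X : Ω → ℝ) (hP : ∀ o, 0 ≤ P o) (θ : ℝ) :
    charFun (law P X) θ = ∑ o, (P o : ℂ) * Complex.exp (θ * X o * Complex.I) := by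
  rw [charFun_apply_real]
  unfold law
  have hint : ∀ o, Integrable (fun x : ℝ => Complex.exp (θ * x * Complex.I))
      (ENNReal.ofReal (P o) • Measure.dirac (X o)) := by
    intro o
    refine Integrable.smul_measure ?_ ENNReal.ofReal_ne_top
    refine Integrable.of_bound (C := 1) ?_ ?_
    · exact (by fun_prop : Continuous fun x : ℝ => Complex.exp (θ * x * Complex.I)).aestronglyMeasurable
    · exact Eventually.of_forall fun x => by
        rw [← Complex.ofReal_mul, Complex.norm_exp_ofReal_mul_I]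
  rw [integral_finsetSum_measure fun o _ => hint o]
  refine sum_congr rfl fun o _ => ?_
  rw [integral_smul_measure, integral_dirac, ENNReal.toReal_ofReal (hP o), Complex.real_smul]

theorem levy : S_LEVY := by
  by_contra hcon
  unfold S_LEVY at hcon
  push Not at hcon
  obtain ⟨ε, hε, hcon⟩ := hcon
  have hk : ∀ k : ℕ, ∃ μ : ProbabilityMeasure ℝ, (∀ θ : ℝ, |θ| ≤ k →
      ‖charFun (μ : Measure ℝ) θ - Complex.exp (-(θ : ℂ) ^ 2 / 2)‖ ≤ 1 / ((k : ℝ) + 1)) ∧
      ∃ y : ℝ, ε < |(μ : Measure ℝ).real (Set.Iic y) - (gaussianReal 0 1).real (Set.Iic y)| := by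
    intro k
    obtain ⟨Ω, _, P, X, hP, h1, hθ, y, hy⟩ := hcon (1 / ((k : ℝ) + 1)) k (by positivity)
    have hprob := law_prob P X hP h1
    refine ⟨⟨law P X, hprob⟩, ?_, y, ?_⟩
    · intro θ h
      have := hθ θ h
      rw [← law_charFun P X hP] at this
      exact this
    · rw [← law_real P X hP] at hy
      exact hy
  choose μ hμ hy using hk
  choose y hy using hy
  let μ₀ : ProbabilityMeasure ℝ := ⟨gaussianReal 0 1, inferInstance⟩
  have hchar : ∀ θ : ℝ, Tendsto (fun k => charFun (μ k : Measure ℝ) θ) atTop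
      (𝓝 (charFun (μ₀ : Measure ℝ) θ)) := by
    intro θ
    have h0 : charFun (μ₀ : Measure ℝ) θ = Complex.exp (-(θ : ℂ) ^ 2 / 2) := by
      have := charFun_gaussianReal (μ := 0) (v := 1) θ
      refine this.trans ?_
      congr 1
      push_cast
      ring
    rw [h0, tendsto_iff_norm_sub_tendsto_zero]
    refine squeeze_zero' (Eventually.of_forall fun k => norm_nonneg _) ?_
      tendsto_one_div_add_atTop_nhds_zero_nat
    filter_upwards [eventually_ge_atTop ⌈|θ|⌉₊] with k hk
    exact hμ k θ ((Nat.le_ceil _).trans (by exact_mod_cast hk))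
  have hweak : Tendsto μ atTop (𝓝 μ₀) := ProbabilityMeasure.tendsto_of_tendsto_charFun hchar
  have hatom : ∀ x : ℝ, (gaussianReal 0 1) {x} = 0 := by
    have := nullSingletonClass_gaussianReal (μ := 0) (v := 1) one_ne_zero
    exact fun x => measure_singleton x
  have hpt : ∀ y : ℝ, Tendsto (fun k => (μ k : Measure ℝ).real (Set.Iic y)) atTop
      (𝓝 ((gaussianReal 0 1).real (Set.Iic y))) := by
    intro y
    have h := ProbabilityMeasure.tendsto_measure_of_null_frontier_of_tendsto' hweak
      (E := Set.Iic y) (by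
        rw [frontier_Iic]
        exact hatom y)
    exact (ENNReal.tendsto_toReal (measure_ne_top _ _)).comp h
  have hcdf : ∀ (ν : Measure ℝ) [IsProbabilityMeasure ν], (fun y => ν.real (Set.Iic y)) = cdf ν := by
    intro ν _
    funext y
    exact (cdf_eq_real ν y).symm
  have hmono : ∀ (ν : Measure ℝ) [IsProbabilityMeasure ν], Monotone fun y => ν.real (Set.Iic y) := by
    intro ν _
    rw [hcdf ν]
    exact monotone_cdf ν
  have hcont : Continuous fun y => (gaussianReal 0 1).real (Set.Iic y) := by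
    rw [hcdf, continuous_iff_continuousAt]
    intro x
    rw [(monotone_cdf _).continuousAt_iff_leftLim_eq_rightLim, StieltjesFunction.rightLim_eq]
    have h := StieltjesFunction.measure_singleton (cdf (gaussianReal 0 1)) x
    rw [measure_cdf, hatom x] at h
    have h2 := ENNReal.ofReal_eq_zero.1 h.symm
    exact le_antisymm ((monotone_cdf _).leftLim_le le_rfl) (by linarith)
  have hfin := polya (fun y => (gaussianReal 0 1).real (Set.Iic y)) hcont (hmono _)
    (by rw [hcdf]; exact tendsto_cdf_atBot _) (by rw [hcdf]; exact tendsto_cdf_atTop _)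
    (fun k y => (μ k : Measure ℝ).real (Set.Iic y)) (fun k => hmono _)
    (fun k y => measureReal_nonneg) (fun k y => measureReal_le_one) hpt ε hε
  obtain ⟨k, hk⟩ := hfin.exists
  exact absurd (hk (y k)) (not_le.2 (hy k))

end Pool.Agent.H961.T3.Levyh
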