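import Pool.Agent.H961.T3.Stm6

/-!
# Project MS, part NCL: the mean number of cycles longer than `n`, `n` close to `L^d`
-/

set_option autoImplicit false

namespace Pool.Agent.H961.T3.Nclh

open Finset Equiv Matrix Q292.LC Pool.Agent.H961.T2 Pool.Agent.H961.T3
open Pool.Agent.Y998.ST (stirExp nnRate cycleLen exp_mono exp_const exp_sum nn_nonneg)

open Classical in
theorem nc_eq {V : Type} [Fintype V] [DecidableEq V] (hC : S_CYC) (n : ℝ) (g : Perm V) :
    (nc n g : ℝ) = ∑ x : V, (if n < ((cyc g x).card : ℝ) then 1 / ((cyc g x).card : ℝ) else 0) := by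
  have h := (hC V g).2.2.2.2 (fun C => if n < (C.card : ℝ) then 1 / (C.card : ℝ) else 0)
  rw [h]
  unfold nc
  rw [Finset.card_filter]
  push_cast
  refine Finset.sum_congr rfl fun C hC => ?_
  have h0 : (C.card : ℝ) ≠ 0 := by
    unfold cycs at hC
    rw [Finset.mem_image] at hC
    obtain ⟨x, -, rfl⟩ := hC
    have : x ∈ cyc g x := (Pool.Agent.Q153.LC.mem_cyc g x x).2 (Equiv.Perm.SameCycle.refl _ _)
    exact_mod_cast (Finset.card_pos.2 ⟨x, this⟩).ne'
  split_ifs
  · field_simp
  · ring

/-- dyadic decomposition -/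
theorem dyad {n N c : ℝ} {J : ℕ} (hn : 0 < n) (hJ : N ≤ 2 ^ J * n) (hc : c ≤ N) (hc0 : 0 < c) :
    (if n < c then 1 / c else 0) ≤
      ∑ j ∈ range J, (if c ≤ min (2 ^ (j + 1) * n) N then 1 else 0) / (2 ^ j * n) := by
  have hnn : ∀ j ∈ range J, (0 : ℝ) ≤
      (if c ≤ min (2 ^ (j + 1) * n) N then 1 else 0) / (2 ^ j * n) := by
    intro j _
    refine div_nonneg ?_ (by positivity)
    split_ifs <;> norm_num
  split_ifs with h
  · -- the largest `j` with `2 ^ j n < c`
    have hex : ∃ k : ℕ, c ≤ 2 ^ k * n := ⟨J, hc.trans hJ⟩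
    classical
    set k := Nat.find hex with hk
    have hk1 : c ≤ 2 ^ k * n := Nat.find_spec hex
    have hk0 : k ≠ 0 := by
      intro h0
      rw [h0, pow_zero, one_mul] at hk1
      linarith
    obtain ⟨j, hj⟩ := Nat.exists_eq_succ_of_ne_zero hk0
    have hj1 : 2 ^ j * n < c := by
      by_contra h1
      push Not at h1
      have := Nat.find_min' hex h1
      omega
    have hjJ : j < J := by
      have := Nat.find_min' hex (hc.trans hJ)
      omega
    refine le_trans ?_ (Finset.single_le_sum hnn (mem_range.2 hjJ))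
    rw [if_pos (le_min (by rw [hj] at hk1; exact hk1) hc)]
    exact one_div_le_one_div_of_le (by positivity) hj1.le
  · exact Finset.sum_nonneg hnn

theorem ncl (hGAPO : S_GAPO) (hCYC : S_CYC) : S_NCL := by
  intro d hd p
  obtain ⟨m, hm, hg⟩ := hGAPO d hd p
  obtain ⟨T, hT, hg⟩ := hg 1 one_pos
  refine ⟨m, T, 8 * p + 4, hm, hT, by
    have : (0 : ℝ) ≤ p := by positivity
    linarith, ?_⟩
  intro L _ t n hL hTt hlt ht4 hn hLn hnL
  have hL0 : (0 : ℝ) < L := by exact_mod_cast (by omega : 0 < L)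
  have ht0 : 0 < t := by linarith
  set N : ℝ := (L : ℝ) ^ d with hN
  have hN0 : 0 < N := by positivity
  have hL3 : (3 : ℝ) ≤ L := by exact_mod_cast hL
  have hlog1 : 1 < Real.log L := by
    rw [Real.lt_log_iff_exp_lt hL0]
    have := Real.exp_one_lt_d9
    linarith
  have hloglog : 0 < Real.log (Real.log L) := Real.log_pos hlog1
  have hcard : (Fintype.card (Fin d → ZMod L) : ℝ) = N := by
    rw [Fintype.card_fun, ZMod.card, Fintype.card_fin]
    push_cast
    rfl
  -- the number of dyadic scales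
  obtain ⟨J, hJ1, hJ2⟩ : ∃ J : ℕ, N ≤ 2 ^ J * n ∧ (J : ℝ) ≤ 2 * p * Real.log (Real.log L) + 1 := by
    refine ⟨⌈Real.logb 2 (N / n)⌉₊, ?_, ?_⟩
    · have h1 : N / n ≤ 2 ^ ⌈Real.logb 2 (N / n)⌉₊ := by
        rw [← Real.rpow_natCast, ← Real.logb_le_iff_le_rpow (by norm_num) (by positivity)]
        exact Nat.le_ceil _
      rwa [div_le_iff₀ hn] at h1
    · have h0 : 0 ≤ Real.logb 2 (N / n) := Real.logb_nonneg (by norm_num) (by
        rw [le_div_iff₀ hn, one_mul]; exact hnL)
      have h1 := (Nat.ceil_lt_add_one h0).le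
      have h2 : Real.logb 2 (N / n) ≤ 2 * p * Real.log (Real.log L) := by
        have h3 : Real.log (N / n) ≤ p * Real.log (Real.log L) := by
          rw [← Real.log_pow]
          refine Real.log_le_log (by positivity) ?_
          rw [div_le_iff₀ hn]
          exact hLn
        rw [Real.logb, div_le_iff₀ (Real.log_pos (by norm_num))]
        have h4 : (1 / 2 : ℝ) ≤ Real.log 2 := by
          have := Real.log_two_gt_d9; linarith
        have h5 : 0 ≤ 2 * p * Real.log (Real.log L) := by positivity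
        nlinarith
      linarith
  -- the expectation
  have hle : ∀ g : Perm (Fin d → ZMod L), (nc n g : ℝ) ≤ ∑ j ∈ range J, ∑ x : Fin d → ZMod L,
      1 / (2 ^ j * n) * (if ((cyc g x).card : ℝ) ≤ min (2 ^ (j + 1) * n) N then 1 else 0) := by
    intro g
    rw [nc_eq hCYC, Finset.sum_comm]
    refine Finset.sum_le_sum fun x _ => ?_
    have hx : x ∈ cyc g x := (Pool.Agent.Q153.LC.mem_cyc g x x).2 (Equiv.Perm.SameCycle.refl _ _)
    have h1 : (0 : ℝ) < (cyc g x).card := by exact_mod_cast Finset.card_pos.2 ⟨x, hx⟩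
    have h2 : ((cyc g x).card : ℝ) ≤ N := by
      rw [← hcard]
      exact_mod_cast Finset.card_le_univ _
    refine (dyad hn hJ1 h2 h1).trans (le_of_eq (Finset.sum_congr rfl fun j _ => ?_))
    ring
  refine (exp_mono (J := nnRate d L) (fun x y => nn_nonneg x y) ht0.le hle).trans ?_
  rw [← exp_sum]
  have hj : ∀ j ∈ range J, stirExp (nnRate d L) t (fun g => ∑ x : Fin d → ZMod L,
      1 / (2 ^ j * n) * (if ((cyc g x).card : ℝ) ≤ min (2 ^ (j + 1) * n) N then 1 else 0)) ≤ 4 := by
    intro j _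
    rw [← exp_sum]
    have hx : ∀ x ∈ (univ : Finset (Fin d → ZMod L)), stirExp (nnRate d L) t (fun g =>
        1 / (2 ^ j * n) * (if ((cyc g x).card : ℝ) ≤ min (2 ^ (j + 1) * n) N then 1 else 0)) ≤
        4 / N := by
      intro x _
      set y : ℝ := min (2 ^ (j + 1) * n) N with hy
      have h2j : (1 : ℝ) ≤ 2 ^ (j + 1) := one_le_pow₀ (by norm_num)
      have hny : n ≤ y := le_min (by nlinarith) hnL
      have h1 := hg L t y hL hTt hlt ht4 (hn.trans_le hny)
        (hLn.trans (mul_le_mul_of_nonneg_left hny (by positivity))) (min_le_right _ _) x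
      have h2 := (abs_le.1 h1).2
      have h3 : stirExp (nnRate d L) t (fun g =>
          1 / (2 ^ j * n) * (if ((cyc g x).card : ℝ) ≤ y then 1 else 0)) =
          1 / (2 ^ j * n) * stirExp (nnRate d L) t
            (fun g => if ((cyc g x).card : ℝ) ≤ y then 1 else 0) := by
        unfold stirExp
        rw [Finset.mul_sum]
        exact Finset.sum_congr rfl fun g _ => by ring
      rw [h3]
      have h4 : stirExp (nnRate d L) t (fun g => if ((cyc g x).card : ℝ) ≤ y then 1 else 0) ≤
          2 * (2 ^ (j + 1) * n) / N := by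
        have h5 : y / N ≤ 2 ^ (j + 1) * n / N :=
          div_le_div_of_nonneg_right (min_le_left _ _) hN0.le
        rw [mul_div_assoc]
        linarith
      calc _ ≤ 1 / (2 ^ j * n) * (2 * (2 ^ (j + 1) * n) / N) :=
            mul_le_mul_of_nonneg_left h4 (by positivity)
        _ = 4 / N := by rw [pow_succ]; field_simp; norm_num
    refine (Finset.sum_le_sum hx).trans ?_
    rw [Finset.sum_const, Finset.card_univ, nsmul_eq_mul, hcard]
    exact (le_of_eq (by field_simp))
  refine (Finset.sum_le_sum hj).trans ?_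
  rw [Finset.sum_const, Finset.card_range, nsmul_eq_mul]
  have hp0 : (0 : ℝ) ≤ p := by positivity
  nlinarith

end Pool.Agent.H961.T3.Nclh
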