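import Pool.Agent.H961.T3.Stm6

/-!
# Project MS, part NUM: sharp and smooth windows
-/

set_option autoImplicit false

namespace Pool.Agent.H961.T3.Numh

open Finset Equiv Matrix Q292.LC Pool.Agent.H961.T2 Pool.Agent.H961.T3
open Pool.Agent.Y998.ST (stirExp nnRate cycleLen exp_mono exp_const exp_sum nn_nonneg)

theorem mk_one {ι : Type} [DecidableEq ι] (a : ι → ℕ) (w : ℝ) (s : Finset ι) :
    Pool.Agent.H961.T3.mk a w s (fun _ => 1) = 1 := by
  unfold Pool.Agent.H961.T3.mk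
  have h := Finset.prod_add (fun C => w ^ a C) (fun C => 1 - w ^ a C) s
  have h1 : ∏ C ∈ s, (w ^ a C + (1 - w ^ a C)) = 1 := Finset.prod_eq_one fun C _ => by ring
  rw [h1] at h
  exact (Finset.sum_congr rfl fun J _ => mul_one _).trans h.symm

/-- pointwise estimate -/
theorem pt {a b : ℝ} (hb : 0 ≤ b) (hba : b ≤ a) :
    |Real.exp (-b) - Real.exp (-a) - (if 1 < a ∧ b ≤ 1 then 1 else 0)| ≤
      3 * (a * Real.exp (-a) + b * Real.exp (-b)) := by
  have ha : 0 ≤ a := hb.trans hba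
  have e1 : Real.exp (-a) ≤ Real.exp (-b) := Real.exp_le_exp.2 (by linarith)
  have ea := Real.exp_pos (-a)
  have eb := Real.exp_pos (-b)
  have key : ∀ x : ℝ, 0 ≤ x → x ≤ 1 → 1 - Real.exp (-x) ≤ 3 * (x * Real.exp (-x)) := by
    intro x hx0 hx1
    have h1 : 1 - x ≤ Real.exp (-x) := by
      have := Real.add_one_le_exp (-x); linarith
    have h2 : 1 ≤ 3 * Real.exp (-x) := by
      have h3 : Real.exp (-1) ≤ Real.exp (-x) := Real.exp_le_exp.2 (by linarith)
      have h4 : (1 : ℝ) ≤ 3 * Real.exp (-1) := by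
        rw [Real.exp_neg]
        have := Real.exp_one_lt_d9
        have h5 := Real.exp_pos 1
        rw [← div_eq_mul_inv, le_div_iff₀ h5]
        linarith
      linarith
    nlinarith
  by_cases h : 1 < a ∧ b ≤ 1
  · rw [if_pos h]
    have h1 := key b hb h.2
    have h2 : Real.exp (-a) ≤ a * Real.exp (-a) := le_mul_of_one_le_left ea.le h.1.le
    rw [abs_le]
    have h3 : Real.exp (-b) ≤ 1 := Real.exp_le_one_iff.2 (by linarith)
    constructor
    · nlinarith
    · nlinarith [mul_nonneg ha ea.le, mul_nonneg hb eb.le]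
  · rw [if_neg h, sub_zero, abs_of_nonneg (by linarith)]
    by_cases h1 : b ≤ 1
    · have h2 : a ≤ 1 := by
        by_contra h3
        exact h ⟨not_le.1 h3, h1⟩
      have h3 := key a ha h2
      have h4 : Real.exp (-b) ≤ 1 := Real.exp_le_one_iff.2 (by linarith)
      nlinarith [mul_nonneg hb eb.le]
    · push Not at h1
      have h2 : Real.exp (-b) ≤ b * Real.exp (-b) := le_mul_of_one_le_left eb.le h1.le
      nlinarith [mul_nonneg ha ea.le]

theorem one_sub {n : ℝ} (hn : 1 ≤ n) : 1 / (2 * n) ≤ 1 - Real.exp (-(1 / n)) := by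
  have h0 : 0 < n := by linarith
  set x : ℝ := 1 / n with hx
  have hx0 : 0 < x := by positivity
  have hx1 : x ≤ 1 := by rw [hx, div_le_one h0]; exact hn
  have h1 : Real.exp (-x) ≤ 1 / (1 + x) := by
    rw [Real.exp_neg, ← one_div]
    exact one_div_le_one_div_of_le (by linarith) (by linarith [Real.add_one_le_exp x])
  have h2 : 1 / (1 + x) ≤ 1 - x / 2 := by
    rw [div_le_iff₀ (by linarith)]
    nlinarith
  have h3 : 1 / (2 * n) = x / 2 := by rw [hx]; field_simp
  rw [h3]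
  linarith

variable {d L : ℕ} [NeZero L]

theorem phi_le {m₀ : ℕ} {t n : ℝ} (hn : 1 ≤ n) (h4 : (Real.log L) ^ m₀ * er d L t ≤ n)
    (hb : |stirExp (nnRate d L) t (fun g => sb (Real.exp (-(1 / n))) (fun _ => 1) g) -
      1 / (1 - Real.exp (-(1 / n))) * stirExp (nnRate d L) t (fun g =>
        mk (ι := Finset (Fin d → ZMod L)) card (Real.exp (-(1 / n))) (cycs g) (fun _ => 1))| ≤
      (Real.log L) ^ m₀ * er d L t) :
    stirExp (nnRate d L) t (fun g => ∑ C ∈ cycs g, (C.card : ℝ) * Real.exp (-(C.card / n))) ≤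
      3 * n := by
  have e1 : (fun g : Perm (Fin d → ZMod L) => ∑ C ∈ cycs g, (C.card : ℝ) * Real.exp (-(C.card / n))) =
      fun g => sb (Real.exp (-(1 / n))) (fun _ => 1) g := by
    funext g
    unfold sb
    refine Finset.sum_congr rfl fun C _ => ?_
    rw [mk_one, mul_one, ← Real.exp_nat_mul]
    congr 2
    ring
  rw [e1]
  have e2 : (fun g : Perm (Fin d → ZMod L) =>
      mk (ι := Finset (Fin d → ZMod L)) card (Real.exp (-(1 / n))) (cycs g) (fun _ => 1)) =
      fun _ => 1 := by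
    funext g
    exact mk_one _ _ _
  rw [e2, exp_const, mul_one] at hb
  have h5 := one_sub hn
  have h6 : 1 / (1 - Real.exp (-(1 / n))) ≤ 2 * n := by
    have h7 : 0 < 1 / (2 * n) := by positivity
    rw [div_le_iff₀ (by linarith)]
    have h8 : 2 * n * (1 / (2 * n)) = 1 := by field_simp
    nlinarith
  have := (abs_le.1 hb).2
  linarith

theorem num (hSTG : S_STG) (_hCYC : S_CYC) : S_NUM := by
  intro d hd
  obtain ⟨m₀, T₀, hm₀, hT₀, hstg⟩ := hSTG d hd
  refine ⟨m₀ + 1, max T₀ (Real.exp (2 * d)), 18, by omega, le_max_of_le_left hT₀, by norm_num, ?_⟩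
  intro L _ t n₁ n₂ hL hTt hlt htL hn1 hn12 hn2
  have hT0t : T₀ ≤ t := (le_max_left _ _).trans hTt
  have hL0 : (0 : ℝ) < L := by exact_mod_cast (by omega : 0 < L)
  have hlog : 2 ≤ Real.log L := by
    have h1 : Real.exp (2 * d) ≤ (L : ℝ) ^ d := ((le_max_right _ _).trans hTt).trans htL
    have h2 : (2 * d : ℝ) ≤ d * Real.log L := by
      rw [← Real.log_pow, Real.le_log_iff_exp_le (by positivity)]
      exact h1
    have hd0 : (0 : ℝ) < d := by exact_mod_cast (by omega : 0 < d)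
    nlinarith
  have hlp : (Real.log L) ^ m₀ ≤ (Real.log L) ^ (m₀ + 1) :=
    pow_le_pow_right₀ (by linarith) (by omega)
  have hl1 : 1 ≤ (Real.log L) ^ m₀ := one_le_pow₀ (by linarith)
  have ht0 : 0 < t := by linarith
  have her : 1 ≤ er d L t := by
    unfold er
    have h1 : 0 ≤ (L : ℝ) ^ 2 / t := by positivity
    have h2 : 0 ≤ (L : ℝ) ^ d * t ^ (-(d / 2 : ℝ)) := by positivity
    linarith
  have hle1 : (Real.log L) ^ m₀ * er d L t ≤ n₁ :=
    (mul_le_mul_of_nonneg_right hlp (by linarith)).trans hn1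
  have h1n : 1 ≤ n₁ := by nlinarith
  have h1n2 : 1 ≤ n₂ := h1n.trans hn12
  have hcond : ∀ n : ℝ, 1 ≤ n → n ≤ n₂ → (Real.log L) ^ m₀ ≤ (L : ℝ) ^ d * (1 - Real.exp (-(1 / n))) := by
    intro n hn hnn
    have h2 := one_sub hn
    have h3 : (Real.log L) ^ (m₀ + 1) * n ≤ (L : ℝ) ^ d :=
      (mul_le_mul_of_nonneg_left hnn (by positivity)).trans hn2
    have h4 : 2 * (Real.log L) ^ m₀ ≤ (Real.log L) ^ (m₀ + 1) := by
      rw [pow_succ]; nlinarith
    have h5 : 2 * n * (Real.log L) ^ m₀ ≤ (L : ℝ) ^ d := by nlinarith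
    calc (Real.log L) ^ m₀ = (2 * n * (Real.log L) ^ m₀) * (1 / (2 * n)) := by field_simp
      _ ≤ (L : ℝ) ^ d * (1 / (2 * n)) := mul_le_mul_of_nonneg_right h5 (by positivity)
      _ ≤ _ := mul_le_mul_of_nonneg_left h2 (by positivity)
  have hphi : ∀ n : ℝ, n₁ ≤ n → n ≤ n₂ →
      stirExp (nnRate d L) t (fun g => ∑ C ∈ cycs g, (C.card : ℝ) * Real.exp (-(C.card / n))) ≤
      3 * n := by
    intro n h3 h4
    have hn : 1 ≤ n := h1n.trans h3
    refine phi_le hn (hle1.trans h3) ?_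
    exact hstg L t (Real.exp (-(1 / n))) (fun _ => 1) hL hT0t (hlp.trans hlt) htL
      (Real.exp_pos _).le (by
        rw [Real.exp_lt_one_iff]
        have : 0 < 1 / n := by positivity
        linarith) (hcond n hn h4) (fun _ => by norm_num)
  have h1 := hphi n₁ le_rfl hn12
  have h2 := hphi n₂ hn12 le_rfl
  have hn1p : 0 < n₁ := by linarith
  have hn2p : 0 < n₂ := by linarith
  have hpt : ∀ g : Perm (Fin d → ZMod L), ∑ D ∈ cycs g,
      |Real.exp (-(D.card / n₂)) - Real.exp (-(D.card / n₁)) -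
        (if n₁ < (D.card : ℝ) ∧ (D.card : ℝ) ≤ n₂ then 1 else 0)| ≤
      3 / n₁ * ∑ C ∈ cycs g, (C.card : ℝ) * Real.exp (-(C.card / n₁)) +
      3 / n₂ * ∑ C ∈ cycs g, (C.card : ℝ) * Real.exp (-(C.card / n₂)) := by
    intro g
    rw [Finset.mul_sum, Finset.mul_sum, ← Finset.sum_add_distrib]
    refine Finset.sum_le_sum fun D _ => ?_
    have h3 := pt (a := D.card / n₁) (b := D.card / n₂) (by positivity)
      (div_le_div_of_nonneg_left (by positivity) hn1p hn12)
    have e1 : (1 < (D.card : ℝ) / n₁ ∧ (D.card : ℝ) / n₂ ≤ 1) ↔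
        (n₁ < (D.card : ℝ) ∧ (D.card : ℝ) ≤ n₂) := by
      rw [one_lt_div hn1p, div_le_one hn2p]
    simp only [e1] at h3
    refine h3.trans (le_of_eq ?_)
    ring
  refine (exp_mono (J := nnRate d L) (fun x y => nn_nonneg x y) ht0.le hpt).trans ?_
  have h3 : stirExp (nnRate d L) t (fun g =>
      3 / n₁ * ∑ C ∈ cycs g, (C.card : ℝ) * Real.exp (-(C.card / n₁)) +
      3 / n₂ * ∑ C ∈ cycs g, (C.card : ℝ) * Real.exp (-(C.card / n₂))) =
      3 / n₁ * stirExp (nnRate d L) t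
        (fun g => ∑ C ∈ cycs g, (C.card : ℝ) * Real.exp (-(C.card / n₁))) +
      3 / n₂ * stirExp (nnRate d L) t
        (fun g => ∑ C ∈ cycs g, (C.card : ℝ) * Real.exp (-(C.card / n₂))) := by
    unfold stirExp
    rw [Finset.mul_sum, Finset.mul_sum, ← Finset.sum_add_distrib]
    exact Finset.sum_congr rfl fun g _ => by ring
  rw [h3]
  have h4 : 3 / n₁ * stirExp (nnRate d L) t
        (fun g => ∑ C ∈ cycs g, (C.card : ℝ) * Real.exp (-(C.card / n₁))) ≤ 9 := by
    calc _ ≤ 3 / n₁ * (3 * n₁) := mul_le_mul_of_nonneg_left h1 (by positivity)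
      _ = 9 := by field_simp; norm_num
  have h5 : 3 / n₂ * stirExp (nnRate d L) t
        (fun g => ∑ C ∈ cycs g, (C.card : ℝ) * Real.exp (-(C.card / n₂))) ≤ 9 := by
    calc _ ≤ 3 / n₂ * (3 * n₂) := mul_le_mul_of_nonneg_left h2 (by positivity)
      _ = 9 := by field_simp; norm_num
  linarith

end Pool.Agent.H961.T3.Numh
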