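import Pool.Agent.H961.T3.Stm6
import Pool.Agent.H961.T3.Star

/-!
# Project MS: the exact identity with a special cycle and a function of the marked cycles
-/

set_option autoImplicit false
set_option linter.unusedSectionVars false
set_option linter.unusedVariables false

namespace Pool.Agent.H961.T3.Stargh

open Finset Equiv Matrix Q292.LC Pool.Agent.H961.T2 Pool.Agent.H961.T3
open Pool.Agent.H961.T3.Starh

variable {V : Type} [Fintype V] [DecidableEq V]

theorem theta_meas' (e : ℕ → V × V) (n : ℕ) (F : Finset (Finset V) → ℝ) (A : Finset V) :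
    Rmeas e n A (fun ω => if Inv (gp e ω n) A then
      F ((cycs (gp e ω n)).filter fun C => C ⊆ A) else (0 : ℝ)) := by
  intro ω ω' h
  obtain ⟨a1, -⟩ := Pool.Agent.Q68.LC.agree h
  have a2 := a1 n le_rfl
  have e1 : Inv (gp e ω n) A ↔ Inv (gp e ω' n) A := by
    unfold Q292.LC.Inv
    refine forall₂_congr fun a ha => ?_
    rw [a1 n le_rfl a ha]
  show (if Inv (gp e ω n) A then
      F ((cycs (gp e ω n)).filter fun C => C ⊆ A) else (0 : ℝ)) =
    (if Inv (gp e ω' n) A then
      F ((cycs (gp e ω' n)).filter fun C => C ⊆ A) else (0 : ℝ))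
  by_cases hA : Inv (gp e ω n) A
  · rw [if_pos hA, if_pos (e1.1 hA), filter_agree _ _ A hA a2]
  · rw [if_neg hA, if_neg (fun h' => hA (e1.2 h'))]

/-- the pointwise identity -/
theorem pointwise' (hCYC : S_CYC) (g : Perm V) (w : ℝ) (H : Finset (Finset V) → ℝ) :
    ∑ A : Finset V, (if Inv g A then ((∏ C ∈ (cycs g).filter (fun C => C ⊆ A), w ^ C.card) *
        H ((cycs g).filter fun C => C ⊆ A)) *
      ∑ x ∈ univ \ A, (dS w ((univ \ A).erase x) (pm g) - dS w (univ \ A) (pm g)) else 0) =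
    sb w H g := by
  obtain ⟨c1, c2, -, c4, c5⟩ := hCYC V g
  rw [c1 (fun A => ((∏ C ∈ (cycs g).filter (fun C => C ⊆ A), w ^ C.card) *
        H ((cycs g).filter fun C => C ⊆ A)) *
      ∑ x ∈ univ \ A, (dS w ((univ \ A).erase x) (pm g) - dS w (univ \ A) (pm g)))]
  have h1 : ∀ J ∈ (cycs g).powerset,
      (fun A => ((∏ C ∈ (cycs g).filter (fun C => C ⊆ A), w ^ C.card) *
        H ((cycs g).filter fun C => C ⊆ A)) *
      ∑ x ∈ univ \ A, (dS w ((univ \ A).erase x) (pm g) - dS w (univ \ A) (pm g)))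
        (J.biUnion id) =
      ∑ C ∈ cycs g, (if C ∈ J then 0 else (C.card : ℝ) * w ^ C.card *
        (((∏ C ∈ J, w ^ C.card) * H J) * ∏ C' ∈ cycs g \ insert C J, (1 - w ^ C'.card))) := by
    intro J hJ
    have hJ' := mem_powerset.1 hJ
    show ((∏ C ∈ (cycs g).filter (fun C => C ⊆ J.biUnion id), w ^ C.card) *
        H ((cycs g).filter fun C => C ⊆ J.biUnion id)) *
      ∑ x ∈ univ \ J.biUnion id, (dS w ((univ \ J.biUnion id).erase x) (pm g) -
        dS w (univ \ J.biUnion id) (pm g)) = _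
    rw [(c2 J hJ').1, sum_diff hCYC g w J hJ', mul_sum]
    refine sum_congr rfl fun C _ => ?_
    by_cases hC : C ∈ J
    · simp only [hC, if_true, mul_zero]
    · simp only [hC, if_false]
      ring
  rw [sum_congr rfl h1, sum_comm]
  unfold sb H961.T3.mk
  refine sum_congr rfl fun C hC => ?_
  rw [mul_sum]
  have hsub : ((cycs g).erase C).powerset ⊆ (cycs g).powerset :=
    powerset_mono.2 (erase_subset _ _)
  rw [← sum_subset hsub]
  · refine sum_congr rfl fun J hJ => ?_
    have hJ' := mem_powerset.1 hJ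
    have hCJ : C ∉ J := fun h => (notMem_erase C (cycs g)) (hJ' h)
    rw [if_neg hCJ]
    have h3 : cycs g \ insert C J = (cycs g).erase C \ J := by
      ext y
      simp only [mem_sdiff, mem_insert, mem_erase]
      tauto
    rw [h3]
    ring
  · intro J hJ hJn
    have hJ' := mem_powerset.1 hJ
    have hCJ : C ∈ J := by
      by_contra h
      exact hJn (mem_powerset.2 fun y hy => mem_erase.2 ⟨fun hyC => h (hyC ▸ hy), hJ' hy⟩)
    rw [if_pos hCJ]

theorem starg (hMASS : S_MASS) (hCYC : S_CYC) : S_STARG := by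
  intro V _ _ e n δ w H hδ0 hδ1 hw0 hw1
  have h1 : (fun ω => sb w H (gp e ω n)) =
      (fun ω => ∑ A : Finset V, ∑ x ∈ univ \ A, (if Inv (gp e ω n) A then
        ((∏ C ∈ (cycs (gp e ω n)).filter (fun C => C ⊆ A), w ^ C.card) *
          H ((cycs (gp e ω n)).filter fun C => C ⊆ A)) else (0 : ℝ)) *
        (dS w ((univ \ A).erase x) (pm (gp e ω n)) - dS w (univ \ A) (pm (gp e ω n)))) := by
    funext ω
    rw [← pointwise' hCYC (gp e ω n) w H]
    refine sum_congr rfl fun A _ => ?_
    rw [← mul_sum]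
    by_cases hA : Inv (gp e ω n) A
    · rw [if_pos hA, if_pos hA]
    · rw [if_neg hA, if_neg hA, zero_mul]
  have h2 : (fun ω => ∑ A : Finset V, if Inv (gp e ω n) A then
      (∏ C ∈ (cycs (gp e ω n)).filter (fun C => C ⊆ A), w ^ C.card) *
        H ((cycs (gp e ω n)).filter fun C => C ⊆ A) *
        dS w (univ \ A) (pm (gp e ω n)) *
        ∑ x ∈ univ \ A, Gx w (univ \ A) (TT e ω A δ n) x else 0) =
      (fun ω => ∑ A : Finset V, ∑ x ∈ univ \ A, ((if Inv (gp e ω n) A then
        ((∏ C ∈ (cycs (gp e ω n)).filter (fun C => C ⊆ A), w ^ C.card) *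
          H ((cycs (gp e ω n)).filter fun C => C ⊆ A)) else (0 : ℝ)) *
        Gx w (univ \ A) (TT e ω A δ n) x) * dS w (univ \ A) (pm (gp e ω n))) := by
    funext ω
    refine sum_congr rfl fun A _ => ?_
    by_cases hA : Inv (gp e ω n) A
    · rw [if_pos hA, mul_sum]
      refine sum_congr rfl fun x _ => ?_
      rw [if_pos hA]
      ring
    · rw [if_neg hA]
      symm
      refine sum_eq_zero fun x _ => ?_
      rw [if_neg hA]
      ring
  rw [h1]
  refine Eq.trans ?_ (congrArg (EE n δ) h2).symm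
  rw [Pool.Agent.Q277.LC.EE_sum, Pool.Agent.Q277.LC.EE_sum]
  refine sum_congr rfl fun A _ => ?_
  rw [Pool.Agent.Q277.LC.EE_sum, Pool.Agent.Q277.LC.EE_sum]
  refine sum_congr rfl fun x _ => ?_
  exact key_gen e n δ w hδ0 hδ1 hw0 hw1 A _ (theta_meas' e n
    (fun J => (∏ C ∈ J, w ^ C.card) * H J) A) x

end Pool.Agent.H961.T3.Stargh
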