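import Pool.Agent.H961.T3.Stm6
import Pool.Agent.H961.T3.Stir

/-!
# MS STG. One step for stirring with a general function of the marked cycles
-/

set_option autoImplicit false
set_option linter.unusedSectionVars false
set_option linter.unusedVariables false

namespace Pool.Agent.H961.T3.Stgh

open Finset Equiv Matrix Q292.LC Pool.Agent.H961.T2 Pool.Agent.H961.T3
open Pool.Agent.H961.T3.Stirh (sum_cycs stir_le)
open Pool.Agent.Y998.ST (stirExp nnRate cycleLen)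

theorem mk_one {ι : Type} [DecidableEq ι] (a : ι → ℕ) (w : ℝ) (s : Finset ι) :
    ∑ J ∈ s.powerset, (∏ C ∈ J, w ^ a C) * (∏ C ∈ s \ J, (1 - w ^ a C)) = 1 := by
  rw [← Finset.prod_add]
  simp

theorem mk_abs {ι : Type} [DecidableEq ι] (a : ι → ℕ) {w : ℝ} (h0 : 0 ≤ w) (h1 : w ≤ 1)
    (s : Finset ι) (H : Finset ι → ℝ) (hH : ∀ J, |H J| ≤ 1) : |mk a w s H| ≤ 1 := by
  unfold H961.T3.mk
  refine (abs_sum_le_sum_abs _ _).trans ?_
  refine le_trans ?_ (mk_one a w s).le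
  refine sum_le_sum fun J _ => ?_
  have e0 : 0 ≤ (∏ C ∈ J, w ^ a C) * (∏ C ∈ s \ J, (1 - w ^ a C)) :=
    mul_nonneg (prod_nonneg fun C _ => pow_nonneg h0 _)
      (prod_nonneg fun C _ => sub_nonneg.2 (pow_le_one₀ h0 h1))
  rw [abs_mul, abs_of_nonneg e0]
  exact mul_le_of_le_one_right e0 (hH J)

theorem sb_abs {V : Type} [Fintype V] [DecidableEq V] {w : ℝ} (h0 : 0 ≤ w) (h1 : w ≤ 1)
    (H : Finset (Finset V) → ℝ) (hH : ∀ J, |H J| ≤ 1) (g : Perm V) :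
    |sb w H g| ≤ Fintype.card V := by
  unfold sb
  refine (abs_sum_le_sum_abs _ _).trans ?_
  have e1 : (Fintype.card V : ℝ) = ∑ C ∈ cycs g, (C.card : ℝ) := by
    rw [← Nat.cast_sum, sum_cycs g]
  rw [e1]
  refine sum_le_sum fun C _ => ?_
  have e2 : (0 : ℝ) ≤ (C.card : ℝ) * w ^ C.card := mul_nonneg (Nat.cast_nonneg _) (pow_nonneg h0 _)
  rw [abs_mul, abs_of_nonneg e2]
  calc (C.card : ℝ) * w ^ C.card * |mk (ι := Finset V) card w ((cycs g).erase C) H|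
      ≤ (C.card : ℝ) * w ^ C.card * 1 :=
        mul_le_mul_of_nonneg_left (mk_abs _ h0 h1 _ _ hH) e2
    _ ≤ (C.card : ℝ) := by
        rw [mul_one]
        exact mul_le_of_le_one_right (Nat.cast_nonneg _) (pow_le_one₀ h0 h1)

theorem one_le_er (d L : ℕ) {t : ℝ} (ht : 0 < t) : 1 ≤ er d L t := by
  unfold er
  have e1 : 0 ≤ (L : ℝ) ^ 2 / t := by positivity
  have e2 : 0 ≤ (L : ℝ) ^ d * t ^ (-(d / 2 : ℝ)) :=
    mul_nonneg (by positivity) (Real.rpow_nonneg ht.le _)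
  linarith

theorem er_le {d : ℕ} (hd : 2 ≤ d) (L : ℕ) {t K : ℝ} (hK : 0 < K) (hKt : K ≤ t)
    (ht : t ≤ 2 * K) : er d L K ≤ 2 ^ (d / 2 : ℝ) * er d L t := by
  have ht0 : 0 < t := by linarith
  have hd' : (2 : ℝ) ≤ d := by exact_mod_cast hd
  have hc : (2 : ℝ) ≤ 2 ^ (d / 2 : ℝ) := by
    calc (2 : ℝ) = 2 ^ (1 : ℝ) := (Real.rpow_one 2).symm
      _ ≤ 2 ^ (d / 2 : ℝ) := Real.rpow_le_rpow_of_exponent_le (by norm_num) (by linarith)
  have e1 : (L : ℝ) ^ 2 / K ≤ 2 ^ (d / 2 : ℝ) * ((L : ℝ) ^ 2 / t) := by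
    have a1 : (L : ℝ) ^ 2 / K ≤ 2 * ((L : ℝ) ^ 2 / t) := by
      rw [← mul_div_assoc, div_le_div_iff₀ hK ht0]
      nlinarith [sq_nonneg (L : ℝ)]
    exact a1.trans (mul_le_mul_of_nonneg_right hc (by positivity))
  have e2 : K ^ (-(d / 2 : ℝ)) ≤ 2 ^ (d / 2 : ℝ) * t ^ (-(d / 2 : ℝ)) := by
    have b1 : (K : ℝ) ^ (-(d / 2 : ℝ)) ≤ (t / 2) ^ (-(d / 2 : ℝ)) :=
      Real.rpow_le_rpow_of_nonpos (by linarith) (by linarith) (by linarith)
    refine b1.trans (le_of_eq ?_)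
    rw [Real.div_rpow ht0.le (by norm_num), Real.rpow_neg (by norm_num : (0 : ℝ) ≤ 2),
      div_inv_eq_mul, mul_comm]
  have e3 : (L : ℝ) ^ d * K ^ (-(d / 2 : ℝ)) ≤
      2 ^ (d / 2 : ℝ) * ((L : ℝ) ^ d * t ^ (-(d / 2 : ℝ))) := by
    calc (L : ℝ) ^ d * K ^ (-(d / 2 : ℝ)) ≤
        (L : ℝ) ^ d * (2 ^ (d / 2 : ℝ) * t ^ (-(d / 2 : ℝ))) :=
          mul_le_mul_of_nonneg_left e2 (by positivity)
      _ = _ := by ring
  unfold er
  calc 1 + (L : ℝ) ^ 2 / K + (L : ℝ) ^ d * K ^ (-(d / 2 : ℝ))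
      ≤ 2 ^ (d / 2 : ℝ) + 2 ^ (d / 2 : ℝ) * ((L : ℝ) ^ 2 / t) +
        2 ^ (d / 2 : ℝ) * ((L : ℝ) ^ d * t ^ (-(d / 2 : ℝ))) := by linarith
    _ = _ := by ring

theorem stg (hRECG : S_RECG) (hCIG : S_CIG) : S_STG := by
  intro d hd
  obtain ⟨m₀, hcig0⟩ := hCIG d hd
  obtain ⟨Tc, hcig⟩ := hcig0 2
  obtain ⟨c, hc⟩ : ∃ c : ℝ, c = 2 ^ (d / 2 : ℝ) := ⟨_, rfl⟩
  have hc0 : 0 < c := by rw [hc]; exact Real.rpow_pos_of_pos (by norm_num) _
  obtain ⟨Λ, hΛ⟩ : ∃ Λ : ℝ, Λ = 2 + (c + 1) := ⟨_, rfl⟩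
  have hTc : (0 : ℝ) ≤ Tc := Nat.cast_nonneg _
  have hT4 : 0 < Real.exp (d * Λ) := Real.exp_pos _
  obtain ⟨T, hT⟩ : ∃ T : ℝ, T = 1 + Tc + Real.exp (d * Λ) := ⟨_, rfl⟩
  refine ⟨m₀ + 1, T, by omega, by rw [hT]; linarith, ?_⟩
  intro L _ t w H hL hTt hlogt htL hw0 hw1 hlogw hH
  have hd0 : (0 : ℝ) < d := by
    have : 0 < d := by omega
    exact_mod_cast this
  have hL1 : 1 ≤ L := by omega
  have hL0 : (0 : ℝ) < L := by exact_mod_cast hL1
  have hLd0 : (0 : ℝ) < (L : ℝ) ^ d := pow_pos hL0 d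
  have ht1 : 1 ≤ t := by
    have : 1 ≤ T := by rw [hT]; linarith
    linarith
  have ht0 : 0 < t := by linarith
  -- the logarithm
  obtain ⟨ℓ, hℓ⟩ : ∃ ℓ : ℝ, ℓ = Real.log L := ⟨_, rfl⟩
  have hℓΛ : Λ ≤ ℓ := by
    have h1 : Real.exp (d * Λ) ≤ (L : ℝ) ^ d := by
      have : Real.exp (d * Λ) ≤ T := by rw [hT]; linarith
      linarith
    rw [Pool.Agent.Q297.LC.pow_exp hL1, Real.exp_le_exp, ← hℓ] at h1
    exact le_of_mul_le_mul_left h1 hd0
  have hℓ2 : 2 ≤ ℓ := by rw [hΛ] at hℓΛ; linarith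
  have hℓc : c + 1 ≤ ℓ := by rw [hΛ] at hℓΛ; linarith
  rw [← hℓ] at hlogt hlogw ⊢
  -- the number of units
  obtain ⟨K, hK⟩ : ∃ K : ℕ, K = ⌊t⌋₊ := ⟨_, rfl⟩
  have hKt : (K : ℝ) ≤ t := by rw [hK]; exact Nat.floor_le (by linarith)
  have hK1 : 1 ≤ K := by rw [hK]; exact Nat.le_floor (by rw [Nat.cast_one]; exact ht1)
  have hK1' : (1 : ℝ) ≤ K := by exact_mod_cast hK1
  have htK : t < K + 1 := by rw [hK]; exact Nat.lt_floor_add_one t
  have ht2K : t ≤ 2 * K := by linarith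
  have hTcK : Tc ≤ K := by
    rw [hK]
    refine Nat.le_floor ?_
    have : (Tc : ℝ) ≤ T := by rw [hT]; linarith
    linarith
  have hKL : K ≤ L ^ d := by
    have : (K : ℝ) ≤ (L : ℝ) ^ d := hKt.trans htL
    exact_mod_cast this
  have hlogK : ℓ ^ m₀ ≤ K := by
    have h1 : ℓ ^ m₀ * 2 ≤ ℓ ^ (m₀ + 1) := by
      rw [pow_succ]
      exact mul_le_mul_of_nonneg_left hℓ2 (pow_nonneg (by linarith) _)
    linarith
  have hlogmono : ℓ ^ m₀ ≤ ℓ ^ (m₀ + 1) := pow_le_pow_right₀ (by linarith) (by omega)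
  have hlog1 : 1 ≤ ℓ ^ m₀ := one_le_pow₀ (by linarith)
  have hcard : (Fintype.card (Fin d → ZMod L) : ℝ) = (L : ℝ) ^ d := by
    rw [Fintype.card_fun, ZMod.card, Fintype.card_fin]
    push_cast
    rfl
  obtain ⟨N, hN⟩ : ∃ N : ℝ, N = (L : ℝ) ^ d := ⟨_, rfl⟩
  have h1w : 0 < 1 - w := by linarith
  obtain ⟨α, hα⟩ : ∃ α : ℝ, α = 1 / (1 - w) := ⟨_, rfl⟩
  have hα0 : 0 ≤ α := by rw [hα]; exact div_nonneg zero_le_one h1w.le
  have hN1 : 1 ≤ N := by rw [hN]; exact ht1.trans htL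
  have hαN : α ≤ N := by
    rw [hα, div_le_iff₀ h1w, hN]
    linarith
  -- the error
  have herr : ℓ ^ m₀ * er d L K + 1 ≤ ℓ ^ (m₀ + 1) * er d L t := by
    have a1 := er_le hd L (by linarith : (0 : ℝ) < K) hKt ht2K
    rw [← hc] at a1
    have a2 := one_le_er d L ht0
    have a3 : ℓ ^ m₀ * er d L K ≤ ℓ ^ m₀ * (c * er d L t) :=
      mul_le_mul_of_nonneg_left a1 (by linarith)
    have a4 : 1 ≤ ℓ ^ m₀ * er d L t := one_le_mul_of_one_le_of_one_le hlog1 a2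
    have a5 : (c + 1) * (ℓ ^ m₀ * er d L t) ≤ ℓ * (ℓ ^ m₀ * er d L t) :=
      mul_le_mul_of_nonneg_right hℓc (by linarith)
    have a6 : ℓ ^ (m₀ + 1) * er d L t = ℓ * (ℓ ^ m₀ * er d L t) := by rw [pow_succ]; ring
    rw [a6]
    nlinarith
  -- circuits
  have key : ∃ q₀ : ℕ, ∀ q ≥ q₀, ∀ σ : ℕ → (Fin d → ZMod L) × Fin d, Per σ → ∀ δ : ℝ,
      1 ≤ δ * q → δ * q ≤ 2 →
      |EE (K * (q * ms d L)) δ (fun ω => sb w H (gp (ed ∘ σ) ω (K * (q * ms d L)))) -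
        α * EE (K * (q * ms d L)) δ (fun ω => mk (ι := Finset (Fin d → ZMod L)) card w
          (cycs (gp (ed ∘ σ) ω (K * (q * ms d L)))) H)| ≤ ℓ ^ (m₀ + 1) * er d L t := by
    obtain ⟨q₀, hq₀⟩ := hcig L K hL hTcK hKL (by rw [← hℓ]; exact hlogK)
    refine ⟨q₀ + 2, fun q hq σ hσ δ h1 h2 => ?_⟩
    have hq' : (2 : ℝ) ≤ q := by
      have : 2 ≤ q := by omega
      exact_mod_cast this
    have hδ0 : 0 ≤ δ := by
      by_contra hcon
      push Not at hcon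
      nlinarith
    have hδ1 : δ ≤ 1 := by nlinarith
    obtain ⟨B, hB, hBG, hBP⟩ := hq₀ q (by omega) σ hσ δ h1 h2
    have hmain := hRECG (Fin d → ZMod L) (ed ∘ σ) (K * (q * ms d L)) δ w H B α
      (ℓ ^ m₀ * er d L K) hδ0 hδ1 hw0 hw1 hH hα0 (by
        rw [hcard, ← hN, hα]
        exact div_le_div_of_nonneg_right hN1 h1w.le) (by
        have := one_le_er d L (by linarith : (0 : ℝ) < K)
        exact mul_nonneg (by linarith) (by linarith)) (by
        intro ω A h3 h4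
        have := hBG ω A h3 h4 w hw0 hw1
        rw [← hℓ, ← hα] at this
        exact this)
    refine hmain.trans ?_
    refine le_trans ?_ herr
    have hPW := hBP w hw0 hw1 (by rw [← hℓ]; exact hlogmono.trans hlogw)
    rw [← hN] at hPW
    have e1 : (Fintype.card (Fin d → ZMod L) : ℝ) / (1 - w) *
        PW (ed ∘ σ) (K * (q * ms d L)) δ w (fun ω A => ¬ B ω A) ≤ 1 := by
      rw [hcard, ← hN]
      have e2 : N / (1 - w) = N * α := by rw [hα]; ring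
      rw [e2]
      calc N * α * PW (ed ∘ σ) (K * (q * ms d L)) δ w (fun ω A => ¬ B ω A)
          ≤ N * α * (1 / N ^ 2) :=
            mul_le_mul_of_nonneg_left hPW (mul_nonneg (by linarith) hα0)
        _ ≤ N * N * (1 / N ^ 2) :=
            mul_le_mul_of_nonneg_right (mul_le_mul_of_nonneg_left hαN (by linarith))
              (by positivity)
        _ = 1 := by
            have : N ≠ 0 := by linarith
            field_simp
    linarith
  -- the bound of the integrand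
  have hF : ∀ g : Perm (Fin d → ZMod L),
      |sb w H g - α * mk (ι := Finset (Fin d → ZMod L)) card w (cycs g) H| ≤ N + N := by
    intro g
    have e1 := sb_abs hw0 hw1.le H hH g
    rw [hcard, ← hN] at e1
    have e2 := mk_abs (ι := Finset (Fin d → ZMod L)) card hw0 hw1.le (cycs g) H hH
    have e3 : |α * mk (ι := Finset (Fin d → ZMod L)) card w (cycs g) H| ≤ N := by
      rw [abs_mul, abs_of_nonneg hα0]
      calc α * |mk (ι := Finset (Fin d → ZMod L)) card w (cycs g) H| ≤ α * 1 :=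
            mul_le_mul_of_nonneg_left e2 hα0
        _ ≤ N := by rw [mul_one]; exact hαN
    exact (abs_sub _ _).trans (add_le_add e1 e3)
  have hEE : ∀ (σ : ℕ → (Fin d → ZMod L) × Fin d) (n : ℕ) (δ : ℝ),
      EE n δ (fun ω => sb w H (gp (ed ∘ σ) ω n) -
        α * mk (ι := Finset (Fin d → ZMod L)) card w (cycs (gp (ed ∘ σ) ω n)) H) =
      EE n δ (fun ω => sb w H (gp (ed ∘ σ) ω n)) -
        α * EE n δ (fun ω => mk (ι := Finset (Fin d → ZMod L)) card w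
          (cycs (gp (ed ∘ σ) ω n)) H) := by
    intro σ n δ
    rw [← Pool.Agent.Q68.LC.EE_smul]
    unfold EE
    rw [← sum_sub_distrib]
    exact sum_congr rfl fun S _ => by ring
  have up : stirExp (nnRate d L) t
      (fun g => sb w H g - α * mk (ι := Finset (Fin d → ZMod L)) card w (cycs g) H) ≤
      ℓ ^ (m₀ + 1) * er d L t := by
    refine stir_le (by omega) hL hK1 hKt ht2K (by linarith : 0 < N + N) hF ?_
    obtain ⟨q₀, hq₀⟩ := key
    refine ⟨q₀, fun q hq σ hσ δ h1 h2 => ?_⟩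
    have := (abs_le.1 (hq₀ q hq σ hσ δ h1 h2)).2
    rw [hEE]
    exact this
  have low : stirExp (nnRate d L) t
      (fun g => -1 * (sb w H g - α * mk (ι := Finset (Fin d → ZMod L)) card w (cycs g) H)) ≤
      ℓ ^ (m₀ + 1) * er d L t := by
    refine stir_le (by omega) hL hK1 hKt ht2K (by linarith : 0 < N + N) (fun g => ?_) ?_
    · rw [neg_one_mul, abs_neg]
      exact hF g
    obtain ⟨q₀, hq₀⟩ := key
    refine ⟨q₀, fun q hq σ hσ δ h1 h2 => ?_⟩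
    have := (abs_le.1 (hq₀ q hq σ hσ δ h1 h2)).1
    rw [Pool.Agent.Q68.LC.EE_smul (K * (q * ms d L)) δ (-1)
      (fun ω => sb w H (gp (ed ∘ σ) ω (K * (q * ms d L))) -
        α * mk (ι := Finset (Fin d → ZMod L)) card w (cycs (gp (ed ∘ σ) ω (K * (q * ms d L)))) H),
      hEE]
    linarith
  have hneg : stirExp (nnRate d L) t
      (fun g => -1 * (sb w H g - α * mk (ι := Finset (Fin d → ZMod L)) card w (cycs g) H)) =
      -(stirExp (nnRate d L) t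
        (fun g => sb w H g - α * mk (ι := Finset (Fin d → ZMod L)) card w (cycs g) H)) := by
    unfold stirExp
    rw [← sum_neg_distrib]
    exact sum_congr rfl fun g _ => by ring
  have hlin : stirExp (nnRate d L) t
      (fun g => sb w H g - α * mk (ι := Finset (Fin d → ZMod L)) card w (cycs g) H) =
      stirExp (nnRate d L) t (fun g => sb w H g) - α * stirExp (nnRate d L) t
        (fun g => mk (ι := Finset (Fin d → ZMod L)) card w (cycs g) H) := by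
    unfold stirExp
    rw [mul_sum, ← sum_sub_distrib]
    exact sum_congr rfl fun g _ => by ring
  rw [hneg] at low
  rw [hlin] at up low
  rw [← hα, abs_le]
  constructor <;> linarith

end Pool.Agent.H961.T3.Stgh
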