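import Pool.Agent.H961.T3.All2
import Pool.Agent.H961.T3.Starg
import Pool.Agent.H961.T3.Recg
import Pool.Agent.H961.T3.Stg
import Pool.Agent.H961.T3.Cig
import Pool.Agent.H961.T3.Genf
import Pool.Agent.H961.T3.Num
import Pool.Agent.H961.T3.Ncl
import Pool.Agent.H961.T3.Calc
import Pool.Agent.H961.T3.Levy
import Pool.Agent.H961.T3.Clt

/-!
# Project MS: assembly, the central limit theorem
-/

set_option autoImplicit false

namespace Pool.Agent.H961.T3

open Finset Equiv Matrix Q292.LC Pool.Agent.H961.T2
open Pool.Agent.Y998.ST (stirExp stirLaw nnRate cycleLen)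

theorem all_stg : S_STG :=
  Stgh.stg (Recgh.recg (Stargh.starg MassDomh.mass all_cyc) all_cyc MassDomh.mass)
    (Cigh.cig all_cir all_cip)

theorem all_genf : S_GENF := Genfh.genf all_stg

theorem all_num : S_NUM := Numh.num all_stg all_cyc

theorem all_ncl : S_NCL := Nclh.ncl all_gapo all_cyc

theorem all_clt : S_CLT := Clth.clt all_genf all_num all_ncl Calch.calc0 Levyh.levy

section torus

variable {d L : ℕ} [NeZero L]

/-- the lengths of the cycles as a multiset -/
theorem cycs_parts (g : Perm (Fin d → ZMod L)) :
    (cycs g).val.map Finset.card = g.partition.parts := by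
  classical
  ext a
  have h1 := kS_parts all_cyc (fun u => if u = (a : ℝ) then 1 else 0) 1 g
  unfold kS at h1
  simp only [div_one, Nat.cast_inj] at h1
  have e1 : ∀ s : Multiset ℕ, ((Multiset.count a s : ℕ) : ℝ) =
      (s.map fun l : ℕ => if l = a then (1 : ℝ) else 0).sum := by
    intro s
    induction s using Multiset.induction_on with
    | empty => simp
    | cons b s ih =>
      rw [Multiset.count_cons, Multiset.map_cons, Multiset.sum_cons, ← ih]
      push_cast
      by_cases h : b = a
      · simp [h, add_comm]
      · have h' : ¬ a = b := fun h2 => h h2.symm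
        simp [h, h']
  have e2 : ((Multiset.count a ((cycs g).val.map Finset.card) : ℕ) : ℝ) =
      ((Multiset.count a g.partition.parts : ℕ) : ℝ) := by
    rw [e1, e1, ← h1, Multiset.map_map]
    rfl
  exact_mod_cast e2

theorem nc_parts (n : ℝ) (g : Perm (Fin d → ZMod L)) :
    nc n g = (g.partition.parts.filter fun l : ℕ => n < (l : ℝ)).card := by
  classical
  rw [← cycs_parts, Multiset.filter_map, Multiset.card_map]
  unfold nc
  rfl

theorem prod_parts (F : ℕ → ℂ) (g : Perm (Fin d → ZMod L)) :
    ∏ C ∈ cycs g, F C.card = (g.partition.parts.map F).prod := by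
  rw [← cycs_parts, Multiset.map_map]
  rfl

end torus

end Pool.Agent.H961.T3
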