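import Pool.Agent.H961.T3.StmA

/-!
# MASS and DOM (helper287, for helper961)
-/

set_option autoImplicit false

namespace Pool.Agent.H961.T3.MassDomh

open Pool.Agent.H961.T3

variable {ι : Type} [DecidableEq ι]

/-- exchange of the sums over `J ⊆ s`, `C ∈ J` -/
theorem exch (s : Finset ι) (g : ι → Finset ι → ℝ) :
    ∑ J ∈ s.powerset, ∑ C ∈ J, g C (J.erase C) = ∑ C ∈ s, ∑ J ∈ (s.erase C).powerset, g C J := by
  have h1 : ∑ J ∈ s.powerset, ∑ C ∈ J, g C (J.erase C) =
      ∑ C ∈ s, ∑ J ∈ s.powerset.filter (fun J => C ∈ J), g C (J.erase C) := by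
    refine Finset.sum_comm' fun J C => ?_
    rw [Finset.mem_filter, Finset.mem_powerset]
    constructor
    · rintro ⟨h1, h2⟩
      exact ⟨⟨h1, h2⟩, h1 h2⟩
    · rintro ⟨⟨h1, h2⟩, -⟩
      exact ⟨h1, h2⟩
  rw [h1]
  refine Finset.sum_congr rfl fun C hC => ?_
  refine Finset.sum_bij' (fun J _ => J.erase C) (fun J _ => insert C J) ?_ ?_ ?_ ?_ ?_
  · intro J hJ
    rw [Finset.mem_filter, Finset.mem_powerset] at hJ
    rw [Finset.mem_powerset]
    exact Finset.erase_subset_erase C hJ.1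
  · intro J hJ
    rw [Finset.mem_powerset] at hJ
    rw [Finset.mem_filter, Finset.mem_powerset]
    exact ⟨Finset.insert_subset hC (hJ.trans (Finset.erase_subset C s)), Finset.mem_insert_self C J⟩
  · intro J hJ
    exact Finset.insert_erase (Finset.mem_filter.1 hJ).2
  · intro J hJ
    exact Finset.erase_insert fun h => Finset.notMem_erase C s (Finset.mem_powerset.1 hJ h)
  · intro J _
    rfl

theorem sdiff_eq {s J : Finset ι} {C : ι} (hC : C ∈ J) : s \ J = s.erase C \ J.erase C := by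
  ext x
  simp only [Finset.mem_sdiff, Finset.mem_erase]
  constructor
  · rintro ⟨h1, h2⟩
    exact ⟨⟨fun h => h2 (h ▸ hC), h1⟩, fun h => h2 h.2⟩
  · rintro ⟨⟨h1, h2⟩, h3⟩
    exact ⟨h2, fun h => h3 ⟨h1, h⟩⟩

/-- expansion of the first special object -/
theorem th_cons_sum (a : ι → ℕ) (w v : ℝ) (ws : List ℝ) (s : Finset ι) (b : Finset ι → ℝ) :
    ∑ J ∈ s.powerset, th a w (v :: ws) J * (∏ C ∈ s \ J, (1 - w ^ a C)) * b J =
      ∑ C ∈ s, (a C : ℝ) * v ^ a C * ∑ J ∈ (s.erase C).powerset,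
        th a w ws J * (∏ D ∈ s.erase C \ J, (1 - w ^ a D)) * b (insert C J) := by
  have h := exch s fun C J => (a C : ℝ) * v ^ a C *
    (th a w ws J * (∏ D ∈ s.erase C \ J, (1 - w ^ a D)) * b (insert C J))
  have h1 : ∑ J ∈ s.powerset, th a w (v :: ws) J * (∏ C ∈ s \ J, (1 - w ^ a C)) * b J =
      ∑ J ∈ s.powerset, ∑ C ∈ J, (a C : ℝ) * v ^ a C * (th a w ws (J.erase C) *
        (∏ D ∈ s.erase C \ J.erase C, (1 - w ^ a D)) * b (insert C (J.erase C))) := by
    refine Finset.sum_congr rfl fun J _ => ?_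
    rw [th, Finset.sum_mul, Finset.sum_mul]
    refine Finset.sum_congr rfl fun C hC => ?_
    rw [Finset.insert_erase hC, ← sdiff_eq hC]
    ring
  rw [h1, h]
  refine Finset.sum_congr rfl fun C _ => ?_
  rw [Finset.mul_sum]

theorem mass : S_MASS := by
  intro ι _ a w ws
  induction ws with
  | nil =>
    intro s
    have h := Finset.prod_add (fun C => w ^ a C) (fun C => 1 - w ^ a C) s
    simp only [add_sub_cancel, Finset.prod_const_one] at h
    simp only [th, ph]
    exact h.symm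
  | cons v ws ih =>
    intro s
    have h := th_cons_sum a w v ws s (fun _ => 1)
    simp only [mul_one] at h
    rw [h, ph]
    refine Finset.sum_congr rfl fun C _ => ?_
    rw [ih (s.erase C)]

/-- splitting of the expectation at one element -/
theorem mk_insert (a : ι → ℕ) (w : ℝ) {s : Finset ι} {C : ι} (hC : C ∉ s) (b : Finset ι → ℝ) :
    mk a w (insert C s) b = w ^ a C * mk a w s (fun J => b (insert C J)) +
      (1 - w ^ a C) * mk a w s b := by
  unfold mk
  rw [Finset.sum_powerset_insert hC, Finset.mul_sum, Finset.mul_sum, add_comm]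
  congr 1
  · refine Finset.sum_congr rfl fun J hJ => ?_
    have hJ' := Finset.mem_powerset.1 hJ
    have hCJ : C ∉ J := fun h => hC (hJ' h)
    have h1 : insert C s \ insert C J = s \ J := by
      ext x
      simp only [Finset.mem_sdiff, Finset.mem_insert, not_or]
      constructor
      · rintro ⟨h1 | h1, h2, h3⟩
        · exact absurd h1 h2
        · exact ⟨h1, h3⟩
      · rintro ⟨h1, h2⟩
        exact ⟨Or.inr h1, fun h => hC (h ▸ h1), h2⟩
    rw [h1, Finset.prod_insert hCJ]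
    ring
  · refine Finset.sum_congr rfl fun J hJ => ?_
    have hJ' := Finset.mem_powerset.1 hJ
    have h1 : insert C s \ J = insert C (s \ J) :=
      Finset.insert_sdiff_of_notMem s fun h => hC (hJ' h)
    rw [h1, Finset.prod_insert fun h => hC (Finset.mem_sdiff.1 h).1]
    ring

theorem mk_nonneg (a : ι → ℕ) {w : ℝ} (h0 : 0 ≤ w) (h1 : w ≤ 1) (s : Finset ι)
    {b : Finset ι → ℝ} (hb : ∀ J, 0 ≤ b J) : 0 ≤ mk a w s b := by
  unfold mk
  refine Finset.sum_nonneg fun J _ => mul_nonneg (mul_nonneg ?_ ?_) (hb J)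
  · exact Finset.prod_nonneg fun C _ => pow_nonneg h0 _
  · exact Finset.prod_nonneg fun C _ => sub_nonneg.2 (pow_le_one₀ h0 h1)

theorem mk_le_mk (a : ι → ℕ) (w : ℝ) (h0 : 0 ≤ w) (h1 : w ≤ 1) (s : Finset ι)
    {b b' : Finset ι → ℝ} (hb : ∀ J, b J ≤ b' J) : mk a w s b ≤ mk a w s b' := by
  unfold mk
  refine Finset.sum_le_sum fun J _ => mul_le_mul_of_nonneg_left (hb J) (mul_nonneg ?_ ?_)
  · exact Finset.prod_nonneg fun C _ => pow_nonneg h0 _
  · exact Finset.prod_nonneg fun C _ => sub_nonneg.2 (pow_le_one₀ h0 h1)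

theorem dom0 (a : ι → ℕ) {w wb : ℝ} (h0 : 0 ≤ w) (hw : w ≤ wb) (h1 : wb ≤ 1) (s : Finset ι) :
    ∀ b : Finset ι → ℝ, (∀ J J', J ⊆ J' → b J ≤ b J') → mk a w s b ≤ mk a wb s b := by
  induction s using Finset.induction_on with
  | empty =>
    intro b _
    simp [mk]
  | insert C s hC ih =>
    intro b hb
    rw [mk_insert a w hC, mk_insert a wb hC]
    have hb1 : ∀ J J', J ⊆ J' → (fun J => b (insert C J)) J ≤ (fun J => b (insert C J)) J' :=
      fun J J' h => hb _ _ (Finset.insert_subset_insert C h)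
    have i1 := ih _ hb1
    have i2 := ih b hb
    have i3 : mk a wb s b ≤ mk a wb s (fun J => b (insert C J)) :=
      mk_le_mk a wb (h0.trans hw) h1 s fun J => hb _ _ (Finset.subset_insert C J)
    have p0 : 0 ≤ w ^ a C := pow_nonneg h0 _
    have p1 : w ^ a C ≤ wb ^ a C := pow_le_pow_left₀ h0 hw _
    have p2 : wb ^ a C ≤ 1 := pow_le_one₀ (h0.trans hw) h1
    nlinarith [mul_le_mul_of_nonneg_left i1 p0,
      mul_le_mul_of_nonneg_left i2 (sub_nonneg.2 (p1.trans p2)),
      mul_nonneg (sub_nonneg.2 p1) (sub_nonneg.2 i3)]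

theorem dom : S_DOM := by
  intro ι _ a w wb ws
  induction ws with
  | nil =>
    intro s b h0 hw h1 _ _ hb
    simp only [th, List.length_nil, pow_zero, one_mul]
    exact dom0 a h0 hw h1 s b hb
  | cons v ws ih =>
    intro s b h0 hw h1 hv hb0 hb
    rw [th_cons_sum, List.length_cons, pow_succ', mul_assoc, Finset.sum_mul]
    refine Finset.sum_le_sum fun C hC => ?_
    have hwb0 : 0 ≤ wb := h0.trans hw
    have hv' := hv v (List.mem_cons_self)
    have i1 := ih (s.erase C) (fun J => b (insert C J)) h0 hw h1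
      (fun v' h => hv v' (List.mem_cons_of_mem _ h)) (fun J => hb0 _)
      (fun J J' h => hb _ _ (Finset.insert_subset_insert C h))
    have hm0 : 0 ≤ mk a wb (s.erase C) (fun J => b (insert C J)) :=
      mk_nonneg a hwb0 h1 _ fun J => hb0 _
    have hs0 : (0 : ℝ) ≤ ∑ D ∈ s.erase C, (a D : ℝ) := Finset.sum_nonneg fun D _ => Nat.cast_nonneg _
    have hs1 : ∑ D ∈ s.erase C, (a D : ℝ) ≤ ∑ D ∈ s, (a D : ℝ) :=
      Finset.sum_le_sum_of_subset_of_nonneg (Finset.erase_subset C s) fun D _ _ => Nat.cast_nonneg _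
    have i2 : (∑ D ∈ s.erase C, (a D : ℝ)) ^ ws.length *
        mk a wb (s.erase C) (fun J => b (insert C J)) ≤
        (∑ D ∈ s, (a D : ℝ)) ^ ws.length * mk a wb (s.erase C) (fun J => b (insert C J)) :=
      mul_le_mul_of_nonneg_right (pow_le_pow_left₀ hs0 hs1 _) hm0
    have i3 := i1.trans i2
    have hvp : 0 ≤ v ^ a C := pow_nonneg hv'.1 _
    have hvw : v ^ a C ≤ wb ^ a C := pow_le_pow_left₀ hv'.1 hv'.2 _
    have i4 : v ^ a C * mk a wb (s.erase C) (fun J => b (insert C J)) ≤ mk a wb s b := by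
      have h2 := mk_insert a wb (Finset.notMem_erase C s) b
      rw [Finset.insert_erase hC] at h2
      rw [h2]
      have h3 : 0 ≤ (1 - wb ^ a C) * mk a wb (s.erase C) b :=
        mul_nonneg (sub_nonneg.2 (pow_le_one₀ hwb0 h1)) (mk_nonneg a hwb0 h1 _ hb0)
      have h4 := mul_le_mul_of_nonneg_right hvw hm0
      linarith
    have hS : (0 : ℝ) ≤ (∑ D ∈ s, (a D : ℝ)) ^ ws.length := pow_nonneg (hs0.trans hs1) _
    calc (a C : ℝ) * v ^ a C * ∑ J ∈ (s.erase C).powerset,
          th a w ws J * (∏ D ∈ s.erase C \ J, (1 - w ^ a D)) * b (insert C J)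
        ≤ (a C : ℝ) * v ^ a C * ((∑ D ∈ s, (a D : ℝ)) ^ ws.length *
          mk a wb (s.erase C) (fun J => b (insert C J))) :=
          mul_le_mul_of_nonneg_left i3 (mul_nonneg (Nat.cast_nonneg _) hvp)
      _ = (a C : ℝ) * ((∑ D ∈ s, (a D : ℝ)) ^ ws.length *
          (v ^ a C * mk a wb (s.erase C) (fun J => b (insert C J)))) := by ring
      _ ≤ (a C : ℝ) * ((∑ D ∈ s, (a D : ℝ)) ^ ws.length * mk a wb s b) := by
          gcongr

end Pool.Agent.H961.T3.MassDomh
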