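import Pool.Agent.H961.T3.Stm4
import Pool.Agent.H961.T3.Mom

/-!
# Project MS: the one-point law from the generating function
-/

set_option autoImplicit false
set_option linter.unusedSectionVars false
set_option linter.unusedVariables false

namespace Pool.Agent.H961.T3

open Finset Equiv Matrix Q292.LC Pool.Agent.H961.T2 Filter Topology
open Pool.Agent.Y998.ST (stirExp nnRate cycleLen stirLaw nn_nonneg exp_mono exp_sum exp_const
  law_nonneg)
open Pool.Agent.Q297.LC (stir_smul card_cyc)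

section torus

variable {d L : ℕ} [NeZero L]

theorem card_torus : Fintype.card (Fin d → ZMod L) = L ^ d := by
  rw [Fintype.card_fun, ZMod.card, Fintype.card_fin]

theorem len_mem (g : Perm (Fin d → ZMod L)) (x : Fin d → ZMod L) :
    cycleLen g x ∈ Icc 1 (L ^ d) := by
  rw [mem_Icc, ← card_cyc]
  refine ⟨card_pos.2 ⟨x, Pool.Agent.Q153.LC.self_mem_cyc g x⟩, ?_⟩
  rw [← card_torus (d := d) (L := L)]
  exact card_le_univ _

theorem sum_ind (g : Perm (Fin d → ZMod L)) (x : Fin d → ZMod L) (n : ℝ) :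
    ∑ ℓ ∈ (Icc 1 (L ^ d)).filter (fun ℓ : ℕ => (ℓ : ℝ) ≤ n),
      (if cycleLen g x = ℓ then (1 : ℝ) else 0) =
      if ((cyc g x).card : ℝ) ≤ n then 1 else 0 := by
  rw [Finset.sum_ite_eq, card_cyc]
  have h := len_mem g x
  by_cases hn : (cycleLen g x : ℝ) ≤ n
  · rw [if_pos hn, if_pos (mem_filter.2 ⟨h, hn⟩)]
  · have h2 : cycleLen g x ∉ (Icc 1 (L ^ d)).filter (fun ℓ : ℕ => (ℓ : ℝ) ≤ n) :=
      fun h1 => hn (mem_filter.1 h1).2
    rw [if_neg hn, if_neg h2]

theorem ph_one (hCYC : S_CYC) (g : Perm (Fin d → ZMod L)) (w : ℝ) :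
    ph (ι := Finset (Fin d → ZMod L)) card [w] (cycs g) = ∑ x, w ^ cycleLen g x := by
  obtain ⟨-, -, -, -, h5⟩ := hCYC (Fin d → ZMod L) g
  have h := h5 fun C => w ^ C.card
  simp only [card_cyc] at h
  rw [h]
  simp only [ph, mul_one]

theorem exp_ph_one (hCYC : S_CYC) (t w : ℝ) (x : Fin d → ZMod L) :
    stirExp (nnRate d L) t (fun g => ph (ι := Finset (Fin d → ZMod L)) card [w] (cycs g)) =
    ∑ ℓ ∈ Icc 1 (L ^ d), ((L : ℝ) ^ d *
      stirExp (nnRate d L) t (fun g => if cycleLen g x = ℓ then 1 else 0)) * w ^ ℓ := by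
  have h1 : ∀ g : Perm (Fin d → ZMod L), ph (ι := Finset (Fin d → ZMod L)) card [w] (cycs g) =
      ∑ y, w ^ (cyc g y).card := fun g => by
    rw [ph_one hCYC]
    simp only [card_cyc]
  simp only [h1]
  rw [← exp_sum]
  have h2 : ∀ y ∈ (univ : Finset (Fin d → ZMod L)),
      stirExp (nnRate d L) t (fun g => w ^ (cyc g y).card) =
      stirExp (nnRate d L) t (fun g => w ^ (cyc g x).card) := fun y _ => by
    rw [cyc_trans2 t (fun k => w ^ k) y, ← cyc_trans2 t (fun k => w ^ k) x]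
  rw [sum_congr rfl h2, sum_const, card_univ, card_torus, nsmul_eq_mul]
  push_cast
  have h3 : ∀ g : Perm (Fin d → ZMod L), w ^ (cyc g x).card =
      ∑ ℓ ∈ Icc 1 (L ^ d), w ^ ℓ * (if cycleLen g x = ℓ then (1 : ℝ) else 0) := fun g => by
    simp only [mul_ite, mul_one, mul_zero]
    rw [Finset.sum_ite_eq, if_pos (len_mem g x), card_cyc]
  simp only [h3]
  rw [← exp_sum, mul_sum]
  refine sum_congr rfl fun ℓ _ => ?_
  rw [stir_smul]
  ring

theorem exp_le_one (t n : ℝ) (x : Fin d → ZMod L) :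
    ∑ ℓ ∈ (Icc 1 (L ^ d)).filter (fun ℓ : ℕ => (ℓ : ℝ) ≤ n), ((L : ℝ) ^ d *
      stirExp (nnRate d L) t (fun g => if cycleLen g x = ℓ then 1 else 0)) =
    (L : ℝ) ^ d * stirExp (nnRate d L) t (fun g => if ((cyc g x).card : ℝ) ≤ n then 1 else 0) := by
  rw [← mul_sum]
  congr 1
  rw [exp_sum]
  congr 1
  funext g
  exact sum_ind g x n

end torus

theorem rr0_ge (d : ℕ) (hd : 3 ≤ d) : 1 ≤ rr d 0 := by
  have h := rr_split d hd 1
  have h2 := rr_nonneg d 1
  simp at h
  linarith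

theorem powp (t : ℝ) (d : ℕ) (ht : 0 < t) :
    (4 * Real.pi * t) ^ (-(d / 2 : ℝ)) = (4 * Real.pi) ^ (-(d / 2 : ℝ)) * t ^ (-(d / 2 : ℝ)) :=
  Real.mul_rpow (by positivity) ht.le

theorem pi_le (d : ℕ) : (4 * Real.pi) ^ (-(d / 2 : ℝ)) ≤ 1 := by
  refine Real.rpow_le_one_of_one_le_of_nonpos ?_ ?_
  · have := Real.pi_gt_three
    linarith
  · have : (0 : ℝ) ≤ d / 2 := by positivity
    linarith

/-- the one-point law for mesoscopic scales -/
theorem point_mid (hONES : S_ONES) (hKAR : S_KAR) (hCYC : S_CYC) (d : ℕ) (hd : 3 ≤ d) :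
    ∃ m : ℕ, 1 ≤ m ∧ ∀ ε : ℝ, 0 < ε → ∃ T : ℝ, 3 ≤ T ∧ ∀ (L : ℕ) [NeZero L] (t n : ℝ), 3 ≤ L →
    T ≤ t → (Real.log L) ^ m ≤ t → t * (Real.log L) ^ m ≤ (L : ℝ) ^ 2 → T ≤ n →
    (Real.log L) ^ m * n ≤ (L : ℝ) ^ d → ∀ x : Fin d → ZMod L,
    |stirExp (nnRate d L) t (fun g => if ((cyc g x).card : ℝ) ≤ n then 1 else 0) -
      (n / (L : ℝ) ^ d + (4 * Real.pi * t) ^ (-(d / 2 : ℝ)) * rr d 0)| ≤
      ε * (n / (L : ℝ) ^ d + t ^ (-(d / 2 : ℝ))) := by
  obtain ⟨m, hm⟩ := hONES d hd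
  refine ⟨m + 1, by omega, fun ε hε => ?_⟩
  have hR := rr0_ge d hd
  obtain ⟨R, hRdef⟩ : ∃ R : ℝ, R = rr d 0 := ⟨_, rfl⟩
  rw [← hRdef] at hR ⊢
  obtain ⟨P, hPdef⟩ : ∃ P : ℝ, P = (4 * Real.pi) ^ (-(d / 2 : ℝ)) := ⟨_, rfl⟩
  have hP0 : 0 < P := by rw [hPdef]; positivity
  have hP1 : P ≤ 1 := by rw [hPdef]; exact pi_le d
  obtain ⟨η, M, hη, hK⟩ := hKAR (ε / R) (by positivity)
  obtain ⟨e, he⟩ : ∃ e : ℝ, e = η * P / 4 := ⟨_, rfl⟩
  have he0 : 0 < e := by rw [he]; positivity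
  obtain ⟨T₁, hT₁, h1⟩ := hm e he0
  have hMr : (0 : ℝ) ≤ M := Nat.cast_nonneg M
  obtain ⟨T, hT⟩ : ∃ T : ℝ, T = (M + 1) * T₁ + 4 * (1 + e) / η + Real.exp (2 * (M + 2)) + 3 :=
    ⟨_, rfl⟩
  have hexp := Real.exp_pos (2 * (M + 2))
  have hb1 : 0 ≤ (M + 1) * T₁ := by positivity
  have hb2 : 0 ≤ 4 * (1 + e) / η := by positivity
  have hb3 : T₁ ≤ (M + 1) * T₁ := by nlinarith
  refine ⟨T, by rw [hT]; linarith, ?_⟩
  intro L _ t n hL htT hlogt htL hTn hn3 x
  have hL0 : (0 : ℝ) < L := by exact_mod_cast Nat.pos_of_ne_zero (NeZero.ne L)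
  have hL3 : (3 : ℝ) ≤ L := by exact_mod_cast hL
  have hLd : (0 : ℝ) < (L : ℝ) ^ d := pow_pos hL0 d
  have ht0 : 0 < t := by
    have : 0 < T := by rw [hT]; linarith
    linarith
  have hn0 : 0 < n := by
    have : 0 < T := by rw [hT]; linarith
    linarith
  have hlog1 : 1 ≤ Real.log L := by
    have h2 : Real.exp 1 ≤ L := by
      have := Real.exp_one_lt_d9
      linarith
    have := Real.log_le_log (Real.exp_pos 1) h2
    rwa [Real.log_exp] at this
  have hlm1 : 1 ≤ (Real.log L) ^ (m + 1) := one_le_pow₀ hlog1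
  have htL2 : t ≤ (L : ℝ) ^ 2 := by
    refine le_trans ?_ htL
    exact le_mul_of_one_le_right ht0.le hlm1
  have hlogM : (M : ℝ) + 2 ≤ Real.log L := by
    have h2 : Real.exp (2 * (M + 2)) ≤ (L : ℝ) ^ 2 := by
      refine le_trans ?_ htL2
      refine le_trans ?_ htT
      rw [hT]
      linarith
    have h3 := Real.log_le_log (Real.exp_pos _) h2
    rw [Real.log_exp, Real.log_pow] at h3
    push_cast at h3
    linarith
  have hlm : 1 ≤ (Real.log L) ^ m := one_le_pow₀ hlog1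
  have hlogm : (Real.log L) ^ m ≤ t := by
    refine le_trans ?_ hlogt
    rw [pow_succ]
    exact le_mul_of_one_le_right (by linarith) hlog1
  have htLm : t * (Real.log L) ^ m ≤ (L : ℝ) ^ 2 := by
    refine le_trans ?_ htL
    refine mul_le_mul_of_nonneg_left ?_ ht0.le
    rw [pow_succ]
    exact le_mul_of_one_le_right (by linarith) hlog1
  have hTt : T₁ ≤ t := by
    refine le_trans ?_ htT
    rw [hT]
    linarith
  obtain ⟨Y, hY⟩ : ∃ Y : ℝ, Y = t ^ (-(d / 2 : ℝ)) := ⟨_, rfl⟩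
  have hY0 : 0 < Y := by rw [hY]; positivity
  have hkar := hK n 1 ((L : ℝ) ^ d * (P * Y * R)) hn0 zero_le_one (by positivity)
    (Icc 1 (L ^ d)) (fun ℓ => (L : ℝ) ^ d *
      stirExp (nnRate d L) t (fun g => if cycleLen g x = ℓ then 1 else 0)) (fun ℓ => by
        have h2 := exp_mono (J := nnRate d L) (fun x y => nn_nonneg x y) (t := t) ht0.le
          (F := fun _ => (0 : ℝ)) (G := fun g => if cycleLen g x = ℓ then 1 else 0)
          (fun g => by split_ifs <;> norm_num)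
        rw [exp_const] at h2
        positivity) (by
      intro l hl1 hlM
      have hl0 : (0 : ℝ) < l := by exact_mod_cast hl1
      have hl1' : (1 : ℝ) ≤ l := by exact_mod_cast hl1
      have hlM' : (l : ℝ) ≤ M := by exact_mod_cast hlM
      have hM0 : (0 : ℝ) < M := hl0.trans_le hlM'
      obtain ⟨w, hw⟩ : ∃ w : ℝ, w = Real.exp (-((l : ℝ) / n)) := ⟨_, rfl⟩
      have hx : 0 < (l : ℝ) / n := div_pos hl0 hn0
      have q0 : 0 ≤ w := by rw [hw]; exact (Real.exp_pos _).le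
      have q1 : w < 1 := by rw [hw]; exact Real.exp_lt_one_iff.2 (by linarith)
      obtain ⟨j1, j2⟩ := inv_exp_bd ((l : ℝ) / n) hx
      rw [one_div_div, ← hw] at j1 j2
      have j3 : n / M ≤ n / (l : ℝ) := div_le_div_of_nonneg_left hn0.le hl0 hlM'
      have j4 : n / (l : ℝ) * (1 + (l : ℝ) / n) = n / l + 1 := by field_simp
      rw [j4] at j2
      have e1 : 1 / (2 * n) ≤ 1 - w := by
        have e2 : w ≤ Real.exp (-(1 / n)) := by
          rw [hw]
          refine Real.exp_le_exp.2 ?_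
          have := div_le_div_of_nonneg_right hl1' hn0.le
          linarith
        have e3 := (inv_exp_bd (1 / n) (by positivity)).2
        rw [one_div_one_div] at e3
        have hn1 : 1 ≤ n := by
          have : 1 ≤ T := by rw [hT]; linarith
          linarith
        have e4 : n * (1 + 1 / n) ≤ 2 * n := by
          have : n * (1 + 1 / n) = n + 1 := by field_simp
          rw [this]
          linarith
        have e5 : 0 < 1 - Real.exp (-(1 / n)) := by
          have : Real.exp (-(1 / n)) < 1 := Real.exp_lt_one_iff.2 (by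
            have : 0 < 1 / n := by positivity
            linarith)
          linarith
        have e6 : 1 / (1 - Real.exp (-(1 / n))) ≤ 2 * n := e3.trans e4
        have e7 : 1 / (2 * n) ≤ 1 - Real.exp (-(1 / n)) := by
          rw [div_le_iff₀ e5] at e6
          rw [div_le_iff₀ (by positivity)]
          linarith
        linarith
      have c1 : T₁ ≤ 1 / (1 - w) := by
        refine le_trans ?_ (j3.trans j1)
        rw [le_div_iff₀ hM0]
        refine le_trans ?_ hTn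
        have : T₁ * M ≤ (M + 1) * T₁ := by nlinarith
        rw [hT]
        linarith
      have c2 : (Real.log L) ^ m ≤ (L : ℝ) ^ d * (1 - w) := by
        have e2 : (Real.log L) ^ m * (2 * n) ≤ (L : ℝ) ^ d := by
          refine le_trans ?_ hn3
          rw [pow_succ (Real.log L) m]
          have e3 : 2 ≤ Real.log L := by linarith
          have e4 : 0 ≤ (Real.log L) ^ m * n := by positivity
          nlinarith
        calc (Real.log L) ^ m = (Real.log L) ^ m * (2 * n) * (1 / (2 * n)) := by field_simp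
          _ ≤ (L : ℝ) ^ d * (1 / (2 * n)) := mul_le_mul_of_nonneg_right e2 (by positivity)
          _ ≤ (L : ℝ) ^ d * (1 - w) := mul_le_mul_of_nonneg_left e1 hLd.le
      have h2 := h1 L t w hL hTt hlogm htLm q0 q1 c1 c2
      rw [exp_ph_one hCYC t w x, powp t d ht0, ← hPdef, ← hY, ← hRdef] at h2
      have h3 : ∀ ℓ : ℕ, w ^ ℓ = Real.exp (-(l * ℓ / n)) := fun ℓ => by
        rw [hw, ← Real.exp_nat_mul]
        congr 1
        ring
      simp only [h3] at h2
      obtain ⟨A, hA⟩ : ∃ A : ℝ, A = ∑ ℓ ∈ Icc 1 (L ^ d), (L : ℝ) ^ d *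
        stirExp (nnRate d L) t (fun g => if cycleLen g x = ℓ then 1 else 0) *
          Real.exp (-(l * ℓ / n)) := ⟨_, rfl⟩
      rw [← hA] at h2 ⊢
      rw [one_mul]
      have h4 : |1 / (1 - w) + (L : ℝ) ^ d * (P * Y * R) - (n / l + (L : ℝ) ^ d * (P * Y * R))| ≤
          1 := by
        rw [abs_le]
        constructor <;> linarith
      have h5 := abs_sub_le A (1 / (1 - w) + (L : ℝ) ^ d * (P * Y * R))
        (n / l + (L : ℝ) ^ d * (P * Y * R))
      have h6 : n / (l : ℝ) ≤ n := div_le_self hn0.le hl1'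
      have h7 : e * ((L : ℝ) ^ d * Y) ≤ η / 4 * ((L : ℝ) ^ d * (P * Y * R)) := by
        rw [he]
        have : η * P / 4 * ((L : ℝ) ^ d * Y) * 1 ≤ η * P / 4 * ((L : ℝ) ^ d * Y) * R :=
          mul_le_mul_of_nonneg_left hR (by positivity)
        calc η * P / 4 * ((L : ℝ) ^ d * Y) = η * P / 4 * ((L : ℝ) ^ d * Y) * 1 := by ring
          _ ≤ _ := this
          _ = _ := by ring
      have h8 : e ≤ η / 4 := by
        rw [he]
        nlinarith
      have h9 : 1 + e ≤ η / 4 * n := by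
        have u1 : 4 * (1 + e) / η ≤ n := by
          refine le_trans ?_ hTn
          rw [hT]
          linarith
        rw [div_le_iff₀ hη] at u1
        linarith
      have h10 : e * (1 / (1 - w)) ≤ e * n + e := by
        have : 1 / (1 - w) ≤ n + 1 := by linarith
        nlinarith
      have h11 : e * n ≤ η / 4 * n := mul_le_mul_of_nonneg_right h8 hn0.le
      have h12 : 0 ≤ η * ((L : ℝ) ^ d * (P * Y * R)) := by positivity
      have h13 : 0 ≤ η * n := by positivity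
      have h14 : e * (1 / (1 - w) + (L : ℝ) ^ d * Y) = e * (1 / (1 - w)) + e * ((L : ℝ) ^ d * Y) := by
        ring
      rw [h14] at h2
      have h15 : η * (n + (L : ℝ) ^ d * (P * Y * R)) = η * n + η * ((L : ℝ) ^ d * (P * Y * R)) := by
        ring
      rw [h15]
      linarith)
  rw [exp_le_one, one_mul] at hkar
  obtain ⟨X, hX⟩ : ∃ X : ℝ, X = stirExp (nnRate d L) t
    (fun g => if ((cyc g x).card : ℝ) ≤ n then 1 else 0) := ⟨_, rfl⟩
  rw [← hX] at hkar ⊢
  rw [powp t d ht0, ← hPdef, ← hY]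
  have h2 : (L : ℝ) ^ d * X - (n + (L : ℝ) ^ d * (P * Y * R)) =
      (L : ℝ) ^ d * (X - (n / (L : ℝ) ^ d + P * Y * R)) := by
    field_simp
  rw [h2, abs_mul, abs_of_pos hLd] at hkar
  have h3 : |X - (n / (L : ℝ) ^ d + P * Y * R)| ≤
      (ε / R * (n + (L : ℝ) ^ d * (P * Y * R))) / (L : ℝ) ^ d := by
    rw [le_div_iff₀ hLd]
    linarith
  refine h3.trans ?_
  have h4 : (ε / R * (n + (L : ℝ) ^ d * (P * Y * R))) / (L : ℝ) ^ d =
      ε * (1 / R * (n / (L : ℝ) ^ d) + P * Y) := by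
    field_simp
  rw [h4]
  refine mul_le_mul_of_nonneg_left ?_ hε.le
  have h5 : 1 / R ≤ 1 := by
    rw [div_le_one (by linarith)]
    exact hR
  have h6 : 0 ≤ n / (L : ℝ) ^ d := by positivity
  have h7 : 1 / R * (n / (L : ℝ) ^ d) ≤ 1 * (n / (L : ℝ) ^ d) := mul_le_mul_of_nonneg_right h5 h6
  have h8 : P * Y ≤ 1 * Y := mul_le_mul_of_nonneg_right hP1 hY0.le
  linarith

end Pool.Agent.H961.T3
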