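import Pool.Agent.H961.T3.Stm3

/-!
# SMP (sampling without repetition) and BIG (sums over the large cycles)
-/

set_option autoImplicit false
set_option linter.unusedSectionVars false

namespace Pool.Agent.H961.T3.SmpBigh

open Finset

variable {V : Type} [Fintype V] [DecidableEq V]

open Classical in
/-- the injective `k`-tuples of points of a set -/
def inj' (k : ℕ) (Q : Finset V) : Finset (Fin k → V) :=
  univ.filter fun b => Function.Injective b ∧ ∀ i, b i ∈ Q

theorem mem_inj' {k : ℕ} {Q : Finset V} {b : Fin k → V} :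
    b ∈ inj' k Q ↔ Function.Injective b ∧ ∀ i, b i ∈ Q := by
  unfold inj'
  rw [mem_filter]
  exact ⟨fun h => h.2, fun h => ⟨mem_univ _, h⟩⟩

theorem swap_mem {Q : Finset V} {x x' y : V} (hx : x ∈ Q) (hx' : x' ∈ Q) (hy : y ∈ Q) :
    Equiv.swap x x' y ∈ Q := by
  rw [Equiv.swap_apply_def]
  split_ifs <;> assumption

theorem swap_inj' {k : ℕ} {Q : Finset V} {x x' : V} (hx : x ∈ Q) (hx' : x' ∈ Q)
    {b : Fin k → V} (hb : b ∈ inj' k Q) : (fun i => Equiv.swap x x' (b i)) ∈ inj' k Q := by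
  rw [mem_inj'] at hb ⊢
  exact ⟨(Equiv.swap x x').injective.comp hb.1, fun i => swap_mem hx hx' (hb.2 i)⟩

theorem swap_swap' {k : ℕ} {x x' : V} (b : Fin k → V) :
    (fun i => Equiv.swap x x' (Equiv.swap x x' (b i))) = b := by
  funext i
  exact Equiv.swap_swap_apply' x x' (b i)
where
  Equiv.swap_swap_apply' (x x' y : V) : Equiv.swap x x' (Equiv.swap x x' y) = y := by
    rw [← Equiv.Perm.mul_apply, Equiv.swap_mul_self]; rfl

/-- number of tuples with `b i = x` -/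
def N1 (k : ℕ) (Q : Finset V) (i : Fin k) (x : V) : ℕ := ((inj' k Q).filter fun b => b i = x).card

/-- number of tuples with `b i = x`, `b j = y` -/
def N2 (k : ℕ) (Q : Finset V) (i j : Fin k) (x y : V) : ℕ :=
  ((inj' k Q).filter fun b => b i = x ∧ b j = y).card

theorem N1_const (k : ℕ) (Q : Finset V) (i : Fin k) {x x' : V} (hx : x ∈ Q) (hx' : x' ∈ Q) :
    N1 k Q i x = N1 k Q i x' := by
  unfold N1
  refine card_nbij' (fun b i => Equiv.swap x x' (b i)) (fun b i => Equiv.swap x x' (b i))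
    ?_ ?_ (fun b _ => swap_swap' b) (fun b _ => swap_swap' b)
  · intro b hb
    have hb' := mem_filter.1 (mem_coe.1 hb)
    refine mem_coe.2 (mem_filter.2 ⟨swap_inj' hx hx' hb'.1, ?_⟩)
    show Equiv.swap x x' (b i) = x'
    rw [hb'.2, Equiv.swap_apply_left]
  · intro b hb
    have hb' := mem_filter.1 (mem_coe.1 hb)
    refine mem_coe.2 (mem_filter.2 ⟨swap_inj' hx hx' hb'.1, ?_⟩)
    show Equiv.swap x x' (b i) = x
    rw [hb'.2, Equiv.swap_apply_right]

theorem N2_const (k : ℕ) (Q : Finset V) (i j : Fin k) {x y y' : V} (hy : y ∈ Q)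
    (hy' : y' ∈ Q) (hxy : x ≠ y) (hxy' : x ≠ y') : N2 k Q i j x y = N2 k Q i j x y' := by
  unfold N2
  refine card_nbij' (fun b i => Equiv.swap y y' (b i)) (fun b i => Equiv.swap y y' (b i))
    ?_ ?_ (fun b _ => swap_swap' b) (fun b _ => swap_swap' b)
  · intro b hb
    have hb' := mem_filter.1 (mem_coe.1 hb)
    refine mem_coe.2 (mem_filter.2 ⟨swap_inj' hy hy' hb'.1, ?_, ?_⟩)
    · show Equiv.swap y y' (b i) = x
      rw [hb'.2.1, Equiv.swap_apply_of_ne_of_ne hxy hxy']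
    · show Equiv.swap y y' (b j) = y'
      rw [hb'.2.2, Equiv.swap_apply_left]
  · intro b hb
    have hb' := mem_filter.1 (mem_coe.1 hb)
    refine mem_coe.2 (mem_filter.2 ⟨swap_inj' hy hy' hb'.1, ?_, ?_⟩)
    · show Equiv.swap y y' (b i) = x
      rw [hb'.2.1, Equiv.swap_apply_of_ne_of_ne hxy hxy']
    · show Equiv.swap y y' (b j) = y
      rw [hb'.2.2, Equiv.swap_apply_right]

theorem sum_N1 (k : ℕ) (Q C : Finset V) (i : Fin k) :
    ((inj' k Q).filter fun b => b i ∈ C).card = ∑ x ∈ C ∩ Q, N1 k Q i x := by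
  have h := card_eq_sum_card_fiberwise (s := (inj' k Q).filter fun b => b i ∈ C) (t := C ∩ Q)
    (f := fun b => b i) (by
      intro b hb
      have hb' := mem_filter.1 (mem_coe.1 hb)
      exact mem_coe.2 (mem_inter.2 ⟨hb'.2, (mem_inj'.1 hb'.1).2 i⟩))
  rw [h]
  refine sum_congr rfl fun x hx => ?_
  unfold N1
  congr 1
  ext b
  simp only [mem_filter]
  constructor
  · rintro ⟨⟨h1, h2⟩, h3⟩
    exact ⟨h1, h3⟩
  · rintro ⟨h1, h3⟩
    exact ⟨⟨h1, by rw [h3]; exact (mem_inter.1 hx).1⟩, h3⟩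

theorem N1_eq (k : ℕ) (Q : Finset V) (i : Fin k) {x : V} (hx : x ∈ Q) :
    Q.card * N1 k Q i x = (inj' k Q).card := by
  have h := sum_N1 k Q Q i
  have h1 : (inj' k Q).filter (fun b => b i ∈ Q) = inj' k Q := by
    rw [filter_eq_self]
    intro b hb
    exact (mem_inj'.1 hb).2 i
  rw [h1, inter_self] at h
  rw [h, sum_congr rfl fun y hy => N1_const k Q i hy hx, sum_const, smul_eq_mul]

theorem sum_N2 (k : ℕ) (Q C : Finset V) (i j : Fin k) (hij : i ≠ j) (x : V) :
    ((inj' k Q).filter fun b => b i = x ∧ b j ∈ C).card =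
      ∑ y ∈ (C ∩ Q).erase x, N2 k Q i j x y := by
  have h := card_eq_sum_card_fiberwise (s := (inj' k Q).filter fun b => b i = x ∧ b j ∈ C)
    (t := (C ∩ Q).erase x)
    (f := fun b => b j) (by
      intro b hb
      have hb' := mem_filter.1 (mem_coe.1 hb)
      refine mem_coe.2 (mem_erase.2 ⟨?_, mem_inter.2 ⟨hb'.2.2, (mem_inj'.1 hb'.1).2 j⟩⟩)
      rw [← hb'.2.1]
      exact fun h => hij ((mem_inj'.1 hb'.1).1 h).symm)
  rw [h]
  refine sum_congr rfl fun y hy => ?_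
  unfold N2
  congr 1
  ext b
  simp only [mem_filter]
  constructor
  · rintro ⟨⟨h1, h2, h4⟩, h3⟩
    exact ⟨h1, h2, h3⟩
  · rintro ⟨h1, h2, h3⟩
    exact ⟨⟨h1, h2, by rw [h3]; exact (mem_inter.1 (mem_erase.1 hy).2).1⟩, h3⟩

theorem N2_eq (k : ℕ) (Q : Finset V) (i j : Fin k) (hij : i ≠ j) {x y : V} (hx : x ∈ Q)
    (hy : y ∈ Q) (hxy : x ≠ y) : (Q.card - 1) * N2 k Q i j x y = N1 k Q i x := by
  have h := sum_N2 k Q Q i j hij x
  have h1 : (inj' k Q).filter (fun b => b i = x ∧ b j ∈ Q) = (inj' k Q).filter (fun b => b i = x) := by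
    refine filter_congr fun b hb => ?_
    exact ⟨fun h => h.1, fun h => ⟨h, (mem_inj'.1 hb).2 j⟩⟩
  rw [h1, inter_self] at h
  unfold N1
  rw [h, sum_congr rfl fun z hz => N2_const k Q i j (mem_of_mem_erase hz) hy
    (ne_of_mem_erase hz).symm hxy, sum_const, smul_eq_mul, card_erase_of_mem hx]

/-- first moment -/
theorem mom1 (k : ℕ) (Q C : Finset V) (i : Fin k) :
    (Q.card : ℝ) * ((inj' k Q).filter fun b => b i ∈ C).card =
      (inj' k Q).card * ((C ∩ Q).card : ℝ) := by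
  rw [sum_N1]
  push_cast
  rw [mul_sum]
  have : ∀ x ∈ C ∩ Q, (Q.card : ℝ) * (N1 k Q i x : ℝ) = (inj' k Q).card := by
    intro x hx
    exact_mod_cast N1_eq k Q i (mem_inter.1 hx).2
  rw [sum_congr rfl this, sum_const, nsmul_eq_mul]
  ring

/-- second moment -/
theorem mom2 (k : ℕ) (Q C : Finset V) (i j : Fin k) (hij : i ≠ j) (hQ : 1 < Q.card) :
    (Q.card : ℝ) * ((Q.card : ℝ) - 1) *
      ((inj' k Q).filter fun b => b i ∈ C ∧ b j ∈ C).card =
      (inj' k Q).card * (((C ∩ Q).card : ℝ) * (((C ∩ Q).card : ℝ) - 1)) := by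
  have h := card_eq_sum_card_fiberwise (s := (inj' k Q).filter fun b => b i ∈ C ∧ b j ∈ C)
    (t := C ∩ Q) (f := fun b => b i) (by
      intro b hb
      have hb' := mem_filter.1 (mem_coe.1 hb)
      exact mem_coe.2 (mem_inter.2 ⟨hb'.2.1, (mem_inj'.1 hb'.1).2 i⟩))
  have h2 : ∀ x ∈ C ∩ Q, (((inj' k Q).filter fun b => b i ∈ C ∧ b j ∈ C).filter
      fun b => b i = x).card = ∑ y ∈ (C ∩ Q).erase x, N2 k Q i j x y := by
    intro x hx
    rw [← sum_N2 k Q C i j hij x]
    congr 1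
    ext b
    simp only [mem_filter]
    constructor
    · rintro ⟨⟨h1, h2, h4⟩, h3⟩
      exact ⟨h1, h3, h4⟩
    · rintro ⟨h1, h2, h3⟩
      exact ⟨⟨h1, by rw [h2]; exact (mem_inter.1 hx).1, h3⟩, h2⟩
  rw [h, sum_congr rfl h2]
  push_cast
  rw [mul_sum]
  have h3 : ∀ x ∈ C ∩ Q, (Q.card : ℝ) * ((Q.card : ℝ) - 1) *
      ∑ y ∈ (C ∩ Q).erase x, (N2 k Q i j x y : ℝ) =
      (inj' k Q).card * (((C ∩ Q).card : ℝ) - 1) := by
    intro x hx
    have h4 : ∀ y ∈ (C ∩ Q).erase x, ((Q.card : ℝ) - 1) * (N2 k Q i j x y : ℝ) = N1 k Q i x := by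
      intro y hy
      have hy' := mem_erase.1 hy
      have h5 := N2_eq k Q i j hij (mem_inter.1 hx).2 (mem_inter.1 hy'.2).2 (Ne.symm hy'.1)
      have h6 : ((Q.card - 1 : ℕ) : ℝ) = (Q.card : ℝ) - 1 := by
        rw [Nat.cast_sub (by omega)]; simp
      rw [← h6]
      exact_mod_cast h5
    have h7 : (((C ∩ Q).erase x).card : ℝ) = ((C ∩ Q).card : ℝ) - 1 := by
      rw [card_erase_of_mem hx, Nat.cast_sub (card_pos.2 ⟨x, hx⟩)]; simp
    have h8 : (Q.card : ℝ) * (N1 k Q i x : ℝ) = (inj' k Q).card := by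
      exact_mod_cast N1_eq k Q i (mem_inter.1 hx).2
    rw [mul_assoc, mul_sum, sum_congr rfl h4, sum_const, nsmul_eq_mul, h7]
    calc (Q.card : ℝ) * ((((C ∩ Q).card : ℝ) - 1) * (N1 k Q i x : ℝ))
        = ((Q.card : ℝ) * (N1 k Q i x : ℝ)) * (((C ∩ Q).card : ℝ) - 1) := by ring
      _ = _ := by rw [h8]
  rw [sum_congr rfl h3, sum_const, nsmul_eq_mul]
  ring

/-- one set -/
theorem one_set (k : ℕ) (Q C : Finset V) (hk : 1 ≤ k) (hkQ : k ≤ Q.card) :
    ∑ b ∈ inj' k Q, (((univ.filter fun i => b i ∈ C).card : ℝ) / k -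
      ((C ∩ Q).card : ℝ) / Q.card) ^ 2 ≤
    (inj' k Q).card * (((C ∩ Q).card : ℝ) / Q.card * (1 / k)) := by
  set n : ℝ := (Q.card : ℝ) with hn
  set m : ℝ := ((C ∩ Q).card : ℝ) with hm
  set c : ℝ := ((inj' k Q).card : ℝ) with hc
  have hk0 : (0 : ℝ) < k := by exact_mod_cast hk
  have hkn : (k : ℝ) ≤ n := by rw [hn]; exact_mod_cast hkQ
  have hn0 : 0 < n := lt_of_lt_of_le hk0 hkn
  have hm0 : 0 ≤ m := Nat.cast_nonneg _
  have hc0 : 0 ≤ c := Nat.cast_nonneg _
  have hmn : m ≤ n := by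
    rw [hm, hn]; exact_mod_cast card_le_card inter_subset_right
  -- indicator
  let I : (Fin k → V) → Fin k → ℝ := fun b i => if b i ∈ C then 1 else 0
  have hX : ∀ b : Fin k → V, ((univ.filter fun i => b i ∈ C).card : ℝ) = ∑ i, I b i := by
    intro b
    rw [card_filter]
    push_cast
    rfl
  have hS1 : ∑ b ∈ inj' k Q, ∑ i, I b i = k * (c * m / n) := by
    rw [sum_comm]
    have : ∀ i ∈ (univ : Finset (Fin k)), ∑ b ∈ inj' k Q, I b i = c * m / n := by
      intro i _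
      have h1 : ∑ b ∈ inj' k Q, I b i = (((inj' k Q).filter fun b => b i ∈ C).card : ℝ) := by
        rw [card_filter]
        push_cast
        rfl
      rw [h1, eq_div_iff hn0.ne', mul_comm]
      exact mom1 k Q C i
    rw [sum_congr rfl this, sum_const, card_univ, Fintype.card_fin, nsmul_eq_mul]
  have hS2 : ∑ b ∈ inj' k Q, (∑ i, I b i) ^ 2 ≤
      k * (c * m / n) + k * (k - 1) * (c * m ^ 2 / n ^ 2) := by
    have e1 : ∑ b ∈ inj' k Q, (∑ i, I b i) ^ 2 =
        ∑ i, ∑ j, ∑ b ∈ inj' k Q, I b i * I b j := by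
      have : ∀ b ∈ inj' k Q, (∑ i, I b i) ^ 2 = ∑ i, ∑ j, I b i * I b j := by
        intro b _
        rw [sq, sum_mul_sum]
      rw [sum_congr rfl this, sum_comm]
      refine sum_congr rfl fun i _ => ?_
      rw [sum_comm]
    rw [e1]
    have e2 : ∀ i j : Fin k, ∑ b ∈ inj' k Q, I b i * I b j ≤
        if i = j then c * m / n else c * m ^ 2 / n ^ 2 := by
      intro i j
      split_ifs with hij
      · subst hij
        have h1 : ∑ b ∈ inj' k Q, I b i * I b i = (((inj' k Q).filter fun b => b i ∈ C).card : ℝ) := by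
          rw [card_filter]
          push_cast
          refine sum_congr rfl fun b _ => ?_
          show (if b i ∈ C then (1 : ℝ) else 0) * (if b i ∈ C then (1 : ℝ) else 0) = _
          split_ifs <;> simp
        rw [h1]
        refine le_of_eq ?_
        rw [eq_div_iff hn0.ne', mul_comm]
        exact mom1 k Q C i
      · have h1 : ∑ b ∈ inj' k Q, I b i * I b j =
            (((inj' k Q).filter fun b => b i ∈ C ∧ b j ∈ C).card : ℝ) := by
          rw [card_filter]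
          push_cast
          refine sum_congr rfl fun b _ => ?_
          show (if b i ∈ C then (1 : ℝ) else 0) * (if b j ∈ C then (1 : ℝ) else 0) = _
          by_cases h1 : b i ∈ C <;> by_cases h2 : b j ∈ C <;> simp [h1, h2]
        have hk2 : 1 < k := by
          have h1 := i.2
          have h2 := j.2
          by_contra hcon
          apply hij
          ext
          omega
        have hQ2 : 1 < Q.card := lt_of_lt_of_le hk2 hkQ
        have hn1 : 0 < n - 1 := by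
          have : (1 : ℝ) < n := by rw [hn]; exact_mod_cast hQ2
          linarith
        have h2 := mom2 k Q C i j hij hQ2
        rw [h1]
        rw [le_div_iff₀ (by positivity)]
        set N : ℝ := (((inj' k Q).filter fun b => b i ∈ C ∧ b j ∈ C).card : ℝ) with hN
        -- n (n-1) N = c m (m-1)
        have h3 : n * (n - 1) * N = c * (m * (m - 1)) := h2
        have h4 : (n - 1) * (N * n ^ 2) ≤ (n - 1) * (c * m ^ 2) := by
          have h5 : (n - 1) * (N * n ^ 2) = n * (c * (m * (m - 1))) := by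
            rw [← h3]; ring
          rw [h5]
          have h6 : (n - 1) * (c * m ^ 2) - n * (c * (m * (m - 1))) = c * m * (n - m) := by ring
          have h7 : 0 ≤ c * m * (n - m) := by
            have : 0 ≤ n - m := by linarith
            positivity
          linarith
        exact le_of_mul_le_mul_left h4 hn1
    calc ∑ i, ∑ j, ∑ b ∈ inj' k Q, I b i * I b j
        ≤ ∑ i : Fin k, ∑ j : Fin k, if i = j then c * m / n else c * m ^ 2 / n ^ 2 :=
          sum_le_sum fun i _ => sum_le_sum fun j _ => e2 i j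
      _ = ∑ i : Fin k, (c * m / n + (k - 1) * (c * m ^ 2 / n ^ 2)) := by
          refine sum_congr rfl fun i _ => ?_
          have h1 : ∀ j ∈ (univ : Finset (Fin k)), (if i = j then c * m / n else c * m ^ 2 / n ^ 2) =
              c * m ^ 2 / n ^ 2 + (if i = j then c * m / n - c * m ^ 2 / n ^ 2 else 0) := by
            intro j _
            split_ifs <;> ring
          rw [sum_congr rfl h1, sum_add_distrib, sum_const, card_univ, Fintype.card_fin,
            nsmul_eq_mul, sum_ite_eq, if_pos (mem_univ i)]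
          ring
      _ = _ := by
          rw [sum_const, card_univ, Fintype.card_fin, nsmul_eq_mul]
          ring
  have hexp : ∑ b ∈ inj' k Q, (((univ.filter fun i => b i ∈ C).card : ℝ) / k - m / n) ^ 2 =
      (∑ b ∈ inj' k Q, (∑ i, I b i) ^ 2) / k ^ 2 - 2 * (m / (n * k)) * ∑ b ∈ inj' k Q, ∑ i, I b i
        + c * (m / n) ^ 2 := by
    have h1 : ∀ b ∈ inj' k Q, (((univ.filter fun i => b i ∈ C).card : ℝ) / k - m / n) ^ 2 =
        (∑ i, I b i) ^ 2 / k ^ 2 - 2 * (m / (n * k)) * ∑ i, I b i + (m / n) ^ 2 := by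
      intro b _
      rw [hX]
      field_simp
      ring
    rw [sum_congr rfl h1, sum_add_distrib, sum_sub_distrib, sum_const, nsmul_eq_mul, sum_div,
      mul_sum]
  rw [hexp, hS1]
  have h1 : (∑ b ∈ inj' k Q, (∑ i, I b i) ^ 2) / k ^ 2 ≤
      (k * (c * m / n) + k * (k - 1) * (c * m ^ 2 / n ^ 2)) / k ^ 2 := by gcongr
  have h2 : (k * (c * m / n) + k * (k - 1) * (c * m ^ 2 / n ^ 2)) / k ^ 2 -
      2 * (m / (n * k)) * (k * (c * m / n)) + c * (m / n) ^ 2 =
      c * (m / n * (1 / k)) - c * m ^ 2 / (n ^ 2 * k) := by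
    field_simp
    ring
  have h3 : 0 ≤ c * m ^ 2 / (n ^ 2 * k) := by positivity
  linarith

theorem smp_abs (P : Finset (Finset V))
    (hdisj : ∀ C ∈ P, ∀ C' ∈ P, C ≠ C' → Disjoint C C') (Q : Finset V) (k : ℕ)
    (hk : 1 ≤ k) (hkQ : k ≤ Q.card) :
    ∑ b ∈ inj' k Q, ∑ C ∈ P,
      (((univ.filter fun i => b i ∈ C).card : ℝ) / k - ((C ∩ Q).card : ℝ) / Q.card) ^ 2 ≤
      (inj' k Q).card * (1 / (k : ℝ)) := by
  have hk0 : (0 : ℝ) < k := by exact_mod_cast hk
  have hn0 : (0 : ℝ) < Q.card := lt_of_lt_of_le hk0 (by exact_mod_cast hkQ)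
  rw [sum_comm]
  refine (sum_le_sum fun C _ => one_set k Q C hk hkQ).trans ?_
  rw [← mul_sum, ← sum_mul, ← sum_div]
  have h1 : (∑ C ∈ P, ((C ∩ Q).card : ℝ)) ≤ Q.card := by
    have h2 : ∑ C ∈ P, (C ∩ Q).card ≤ Q.card := by
      rw [← card_biUnion]
      · exact card_le_card (biUnion_subset.2 fun C _ => inter_subset_right)
      · intro C hC C' hC' hne
        exact (hdisj C hC C' hC' hne).mono inter_subset_left inter_subset_left
    exact_mod_cast h2
  have h3 : (∑ C ∈ P, ((C ∩ Q).card : ℝ)) / Q.card ≤ 1 := by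
    rw [div_le_one hn0]; exact h1
  calc ((inj' k Q).card : ℝ) * ((∑ C ∈ P, ((C ∩ Q).card : ℝ)) / Q.card * (1 / k))
      ≤ ((inj' k Q).card : ℝ) * (1 * (1 / k)) := by gcongr
    _ = _ := by rw [one_mul]

theorem big_abs (ι : Type) [DecidableEq ι] (s : Finset ι) (u v : ι → ℝ) (κ : ℝ → ℝ)
    (a α B : ℝ) (ha : 0 < a) (hα : 0 < α) (hB : 0 ≤ B) (hκ : ∀ x, x ≤ α → κ x = 0)
    (hL : ∀ x y, |κ x - κ y| ≤ B * |x - y|) (huv : ∀ C, 0 ≤ u C ∧ 0 ≤ v C)
    (hu : ∑ C ∈ s, u C ≤ 1) (hv : ∑ C ∈ s, v C ≤ 1) :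
    |∑ C ∈ s, κ (u C / a) - ∑ C ∈ s, κ (v C / a)| ≤
    B / a * Real.sqrt (2 / (α * a)) * Real.sqrt (∑ C ∈ s, (u C - v C) ^ 2) := by
  classical
  set s' := s.filter fun C => α * a < u C ∨ α * a < v C with hs'
  have h0 : ∀ C ∈ s, C ∉ s' → κ (u C / a) - κ (v C / a) = 0 := by
    intro C hC hC'
    have h1 : ¬ (α * a < u C ∨ α * a < v C) := fun h => hC' (mem_filter.2 ⟨hC, h⟩)
    push Not at h1
    rw [hκ _ ((div_le_iff₀ ha).2 h1.1), hκ _ ((div_le_iff₀ ha).2 h1.2), sub_self]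
  have h1 : ∑ C ∈ s, κ (u C / a) - ∑ C ∈ s, κ (v C / a) =
      ∑ C ∈ s', (κ (u C / a) - κ (v C / a)) := by
    rw [← sum_sub_distrib]
    exact (sum_subset (filter_subset _ _) h0).symm
  have h2 : |∑ C ∈ s', (κ (u C / a) - κ (v C / a))| ≤ B / a * ∑ C ∈ s', |u C - v C| := by
    refine (abs_sum_le_sum_abs _ _).trans ?_
    rw [mul_sum]
    refine sum_le_sum fun C _ => ?_
    refine (hL _ _).trans (le_of_eq ?_)
    rw [← sub_div, abs_div, abs_of_pos ha]
    ring
  have h3 : (s'.card : ℝ) ≤ 2 / (α * a) := by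
    rw [le_div_iff₀ (by positivity)]
    have h4 : (s'.card : ℝ) * (α * a) ≤ ∑ C ∈ s', (u C + v C) := by
      rw [← nsmul_eq_mul]
      refine card_nsmul_le_sum _ _ _ fun C hC => ?_
      have h5 := (mem_filter.1 hC).2
      have h6 := huv C
      rcases h5 with h5 | h5 <;> linarith
    have h7 : ∑ C ∈ s', (u C + v C) ≤ ∑ C ∈ s, (u C + v C) :=
      sum_le_sum_of_subset_of_nonneg (filter_subset _ _)
        fun C _ _ => add_nonneg (huv C).1 (huv C).2
    rw [sum_add_distrib] at h7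
    rw [sum_add_distrib (s := s)] at h7
    rw [sum_add_distrib] at h4
    linarith
  have h4 : ∑ C ∈ s', |u C - v C| ≤
      Real.sqrt (2 / (α * a)) * Real.sqrt (∑ C ∈ s, (u C - v C) ^ 2) := by
    rw [← Real.sqrt_mul (by positivity)]
    apply Real.le_sqrt_of_sq_le
    have h5 : (∑ C ∈ s', |u C - v C|) ^ 2 ≤ s'.card * ∑ C ∈ s', |u C - v C| ^ 2 :=
      sq_sum_le_card_mul_sum_sq
    have h6 : ∑ C ∈ s', |u C - v C| ^ 2 ≤ ∑ C ∈ s, (u C - v C) ^ 2 := by
      have : ∀ C ∈ s', |u C - v C| ^ 2 = (u C - v C) ^ 2 := fun C _ => sq_abs _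
      rw [sum_congr rfl this]
      exact sum_le_sum_of_subset_of_nonneg (filter_subset _ _) fun C _ _ => sq_nonneg _
    have h7 : 0 ≤ ∑ C ∈ s', |u C - v C| ^ 2 := sum_nonneg fun C _ => sq_nonneg _
    calc (∑ C ∈ s', |u C - v C|) ^ 2 ≤ s'.card * ∑ C ∈ s', |u C - v C| ^ 2 := h5
      _ ≤ 2 / (α * a) * ∑ C ∈ s, (u C - v C) ^ 2 := by gcongr
  rw [h1]
  refine h2.trans ?_
  rw [mul_assoc]
  exact mul_le_mul_of_nonneg_left h4 (by positivity)

theorem inj_eq (k : ℕ) (Q : Finset V) : Pool.Agent.H961.T3.inj k Q = inj' k Q := rfl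

theorem cycs_disj (g : Equiv.Perm V) : ∀ C ∈ Pool.Agent.H961.T3.cycs g,
    ∀ C' ∈ Pool.Agent.H961.T3.cycs g, C ≠ C' → Disjoint C C' := by
  intro C hC C' hC' hne
  unfold Pool.Agent.H961.T3.cycs at hC hC'
  obtain ⟨x, -, rfl⟩ := mem_image.1 hC
  obtain ⟨y, -, rfl⟩ := mem_image.1 hC'
  rw [disjoint_left]
  intro z hz hz'
  rw [Pool.Agent.Q153.LC.mem_cyc] at hz hz'
  apply hne
  ext w
  rw [Pool.Agent.Q153.LC.mem_cyc, Pool.Agent.Q153.LC.mem_cyc]
  exact ⟨fun h => hz'.trans (hz.symm.trans h), fun h => hz.trans (hz'.symm.trans h)⟩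

theorem smp : Pool.Agent.H961.T3.S_SMP := by
  intro V _ _ g Q k hk hkQ
  exact smp_abs (Pool.Agent.H961.T3.cycs g) (cycs_disj g) Q k hk hkQ

theorem big : Pool.Agent.H961.T3.S_BIG := by
  intro ι _ s u v κ a α B ha hα hB hκ hL huv hu hv
  exact big_abs ι s u v κ a α B ha hα hB hκ hL huv hu hv

end Pool.Agent.H961.T3.SmpBigh
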