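import Pool.Agent.H961.T3.StmA
import Pool.Agent.H961.T2.B15
import Pool.Graph.R_pool_sql_team_seeded_3997aac3.Q295.PL.All

/-!
# Project MS (mesoscopic cycles of random stirring), statements

Notation of project LC (`Q292.LC`, library) and of `Pool.Agent.H961.T2`. `N = L ^ d` sites.
-/

set_option autoImplicit false

namespace Pool.Agent.H961.T3

open Finset Equiv Matrix Q292.LC Pool.Agent.H961.T2
open Pool.Agent.Y998.ST (stirExp nnRate cycleLen)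

section cyc

variable {V : Type} [Fintype V] [DecidableEq V]

/-- the set of the cycles of `g` (fixed points are cycles too) -/
def cycs (g : Perm V) : Finset (Finset V) := univ.image (cyc g)

end cyc

/-- CYC. Invariant sets and sets of cycles. (1) `J ↦ ∪ J` is a bijection from the sets of cycles to the
invariant sets (inverse: `A ↦ {C ∈ cycs g : C ⊆ A}`; an invariant set contains with a point its cycle,
`Pool.Agent.H961.T2.cyc_sub`). (2) like (1). (3) cycles are disjoint. (4) by induction on the number of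
elements of `cycs g \ J` with `Pool.Agent.Q153.LC.p4d` (used in `perm_pair` of
Pool/Agent/H961/T2/B1.lean): `dS w U (pm g) = (1 - w ^ |C|) dS w (U \ C) (pm g)` if the cycle
`C ⊆ U`; `dS w ∅ = 1`. (5) fibres of `cyc g` over `C ∈ cycs g` are `C`. -/
def S_CYC : Prop := ∀ (V : Type) [Fintype V] [DecidableEq V] (g : Perm V),
  (∀ F : Finset V → ℝ, ∑ A : Finset V, (if Inv g A then F A else 0) =
    ∑ J ∈ (cycs g).powerset, F (J.biUnion id)) ∧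
  (∀ J ⊆ cycs g, (cycs g).filter (fun C => C ⊆ J.biUnion id) = J ∧ Inv g (J.biUnion id)) ∧
  (∀ J ⊆ cycs g, (J.biUnion id).card = ∑ C ∈ J, C.card) ∧
  (∀ (w : ℝ), ∀ J ⊆ cycs g,
    dS w (univ \ J.biUnion id) (pm g) = ∏ C ∈ cycs g \ J, (1 - w ^ C.card)) ∧
  (∀ F : Finset V → ℝ, ∑ x : V, F (cyc g x) = ∑ C ∈ cycs g, (C.card : ℝ) * F C)

open Classical in
/-- STAR. The exact identity with special cycles.
Proof. Write `g = gp e ω n`, `θ ω A = th card w ws {C ∈ cycs g : C ⊆ A}`, `J ↔ A` as in CYC.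
(a) For every `A` and `x ∉ A`, with `Θ ω = if Inv g A then θ ω A else 0`:
`E Θ (dS w ((univ \ A).erase x) (pm g) - dS w (univ \ A) (pm g)) =
E Θ Gx w (univ \ A) (TT e ω A δ n) x dS w (univ \ A) (pm g)`: this is the claim `key` in the proof of
`Pool.Agent.H961.T2.star` (B1.lean), which only uses that `Θ` is `Rmeas e n A`; here: if `ω, ω'` agree
on the steps touched by `A` then `gp e ω n a = gp e ω' n a` for `a ∈ A` (`Pool.Agent.Q68.LC.agree`), so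
`Inv` is the same and, if it holds, the cycles contained in `A` are the same (for `x ∈ A` all powers
`g ^ i x` agree). (b) Sum over `A` and over `x ∉ A`: the right side is the right side of the claim. The
left side: for invariant `A` and `x ∉ A` (see `perm_pair`)
`dS w ((univ \ A).erase x) (pm g) - dS w (univ \ A) (pm g) = w ^ |C| dS w (univ \ (A ∪ C)) (pm g)`,
`C = cyc g x`; `∑_x` over `x ∉ A` gives `∑_{C ∈ cycs g \ J} |C| w ^ |C| ∏_{cycs g \ J \ {C}} (1 - w ^ |C'|)`.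
Exchange the sums: `∑_{C ∈ cycs g} |C| w ^ |C| ∑_{J ⊆ (cycs g).erase C} th card w ws J
∏_{((cycs g).erase C) \ J} (1 - w ^ |C'|) = ∑_C |C| w ^ |C| ph card ws ((cycs g).erase C)` by MASS. -/
def S_STAR : Prop := ∀ (V : Type) [Fintype V] [DecidableEq V] (e : ℕ → V × V) (n : ℕ) (δ w : ℝ)
  (ws : List ℝ), 0 ≤ δ → δ ≤ 1 → 0 ≤ w → w < 1 →
  EE n δ (fun ω => ph (ι := Finset V) card (w :: ws) (cycs (gp e ω n))) =
  EE n δ (fun ω => ∑ A : Finset V, if Inv (gp e ω n) A then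
    th card w ws ((cycs (gp e ω n)).filter fun C => C ⊆ A) *
      dS w (univ \ A) (pm (gp e ω n)) *
      ∑ x ∈ univ \ A, Gx w (univ \ A) (TT e ω A δ n) x else 0)

open Classical in
/-- REC. The recursion.
Proof. Write `N = card V`, `H F = E ∑_{A invariant} θ ω A dS w (univ \ A) (pm g) F ω A`, a monotone linear
functional (`th ≥ 0`, `dS > 0` by `Q292.LC.S_P4`). STAR: `E ph (w :: ws) = H (∑ Gx)`. `H 1 = E ph ws`
(CYC and MASS). `H (1[¬ B]) ≤ N ^ k PW wb (¬ B)` by CYC and DOM with `b J = 1[¬ B ω (∪ J)]`, which is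
nondecreasing because `B` is hereditary (`PW` is `mk` by CYC; `∑_{C ∈ cycs g} |C| = N`). For invariant
`A` with `B ω A`: `α ≤ ∑ Gx ≤ β`; for all `A`: `0 ≤ ∑ Gx ≤ N / (1 - w)` (`Gx_tendsto` in B2.lean: it is a
limit of sums `∑_{k < M} w ^ (k+1) (T (dg U T) ^ k) x x` with entries in `[0, 1]`). So
`α (1 - 1[¬ B]) ≤ ∑ Gx ≤ β + N / (1 - w) 1[¬ B]` for all invariant `A`. -/
def S_REC : Prop := ∀ (V : Type) [Fintype V] [DecidableEq V] (e : ℕ → V × V) (n : ℕ) (δ w wb : ℝ)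
  (ws : List ℝ) (B : (ℕ → Bool) → Finset V → Prop) (α β : ℝ), 0 ≤ δ → δ ≤ 1 → 0 ≤ w → w ≤ wb →
  wb < 1 → (∀ v ∈ ws, 0 ≤ v ∧ v ≤ wb) → (∀ ω R R', R' ⊆ R → B ω R → B ω R') → 0 ≤ α → 0 ≤ β →
  (∀ ω A, B ω A → Inv (gp e ω n) A →
    α ≤ ∑ x ∈ univ \ A, Gx w (univ \ A) (TT e ω A δ n) x ∧
    ∑ x ∈ univ \ A, Gx w (univ \ A) (TT e ω A δ n) x ≤ β) →
  EE n δ (fun ω => ph (ι := Finset V) card (w :: ws) (cycs (gp e ω n))) ≤
    β * EE n δ (fun ω => ph (ι := Finset V) card ws (cycs (gp e ω n))) +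
    (Fintype.card V : ℝ) ^ (ws.length + 1) / (1 - w) * PW e n δ wb (fun ω A => ¬ B ω A) ∧
  α * (EE n δ (fun ω => ph (ι := Finset V) card ws (cycs (gp e ω n))) -
    (Fintype.card V : ℝ) ^ ws.length * PW e n δ wb (fun ω A => ¬ B ω A)) ≤
    EE n δ (fun ω => ph (ι := Finset V) card (w :: ws) (cycs (gp e ω n)))

/-- VAR. Decay of zero sum functions off the particles over many laps.
Proof. Let `n = K q ms`, `T = TT .. n`, `u = 4 Z³`, `R = C (Z + 1)² u` (`C` from WIR, see the proof of LPT in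
the library, Pool.Graph.R_pool_sql_team_seeded_3997aac3.Q38.L2.Lpt, which is the template:
`win_step` there), `J = ⌊K / u⌋ ≥ 1`. ONE WINDOW: let `g` vanish on the positions `A_j` at the start of
the window, `∑ g = 0`, `g' = vecMul g (window matrix)`, `A'` the positions at the end; then `g' = 0` on
`A'`, `∑ g' = 0` (BAS2), and with `y` from EXT for `A'` (`m = lam`) and WIR:
`gE (g' ∘ y) ≤ C R^(d+1) (∑ g² - ∑ g'²)`. BXP with `R = L`, `z = 0` (the box is everything):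
`∑_{x,y'} (g' (y x) - g' (y y'))² ≤ d L^(d+2) gE (g' ∘ y)`. On the set `U'` of the sites off `A'` `y` is the
identity, so the left side is at least `∑_{x,y' ∈ U'} (g' x - g' y')² = 2 |U'| ∑ g'²`. Every `p ∈ U'` is
`y x` for at most `|bal p lam| ≤ (2 lam + 1)^d` sites, so `|U'| ≥ L^d / (2 lam + 1)^d`. Hence
`∑ g'² ≤ M L² (∑ g² - ∑ g'²)` with `M = d (2 Z + 1)^d C R^(d+1)`, so
`∑ g'² ≤ (1 + 1 / (M L²))⁻¹ ∑ g² ≤ exp (- 1 / (2 M L²)) ∑ g²` (`(1 + x)⁻¹ ≤ exp (-x/2)`, `0 ≤ x ≤ 1`).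
LAPS: `k` laps have `k J` complete windows (the remaining units of a lap do not increase the norm,
`sum_vecMul_sq_le`), `f T^k` vanishes on `A` for all `k` because `A` is invariant. `J ≥ K / (2 u)`.
Choose `m` such that `Z^m ≥ 4 M u` for `Z ≥ C'`. -/
def S_VAR : Prop := ∀ d : ℕ, 2 ≤ d → ∃ (C m : ℕ), 1 ≤ C ∧ ∀ Z : ℕ, C ≤ Z →
  ∀ (L K lam r ρ κ₀ : ℕ) [NeZero L], lam ≤ Z → ρ ≤ Z → κ₀ ≤ Z → Z ^ m ≤ r → 8 * Z ^ m ≤ L →
  Z ^ m ≤ K → ∃ q₀ : ℕ, ∀ q ≥ q₀,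
  ∀ σ : ℕ → (Fin d → ZMod L) × Fin d, Per σ → ∀ δ : ℝ, 1 ≤ δ * q → δ * q ≤ 2 →
  ∀ (ω : ℕ → Bool) (A : Finset (Fin d → ZMod L)), Ev σ q K lam r ρ κ₀ ω A →
  Inv (gp (ed ∘ σ) ω (K * (q * ms d L))) A →
  ∀ f : (Fin d → ZMod L) → ℝ, (∀ x ∈ A, f x = 0) → ∑ x, f x = 0 → ∀ k : ℕ,
  ∑ x, (vecMul f (TT (ed ∘ σ) ω A δ (K * (q * ms d L)) ^ k) x) ^ 2 ≤
    Real.exp (-(k * K / ((Z : ℝ) ^ m * (L : ℝ) ^ 2))) * ∑ x, (f x) ^ 2

/-- ENV. The sum of the resolvent in a good environment.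
Proof. `n = K q ms`, `T = TT .. n`, `U = univ \ A`, `A` invariant, so by BAS2 `T x y = 0` for `x ∈ U`,
`y ∈ A = A.image (gp n)`: `U` is a closed class, `T` restricted to `U` is doubly stochastic (rows in `A`
are rows of a permutation of `A`), and `(T (dg U T)^j) x x = (T^(j+1)) x x` for `x ∈ U`. Let
`s_j = ∑_{x ∈ U} (T^(j+1)) x x`. (a) `0 ≤ s_j ≤ L^d (C/L^d + (c K (j+1))^(-d/2))` by `ker2` (B3.lean, with
`U`, `R = A`, `y = x`). (b) For `x ∈ U` let `f = e_x - 1_U / |U|` (`|U| ≥ 1`): `f = 0` on `A`, `∑ f = 0`,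
`∑ f² ≤ 1`, and `vecMul 1_U T = 1_U`, so `(T^(j+1)) x x - 1/|U| = (vecMul f (T^(j+1))) x`, whose square is
at most `exp (-(j+1) K / (Z^m₀ L²))` by VAR. So `|s_j - 1| ≤ L^d exp (-(j+1) a)`, `a = K / (2 Z^m₀ L²)`.
(if `U = ∅`: impossible, `Ev` with large `r` gives few particles; or get `|U| ≥ 1` from EXT as in VAR.)
(c) `∑_{x ∈ U} Gx = lim_M ∑_{j < M} w^(j+1) s_j` (`Gx_tendsto`, B2.lean), and
`1/(1-w) - 1 = ∑_j w^(j+1)`. With `k₁ = ⌈Z / a⌉` (`L^d ≤ exp Z`, so `L^d exp (- k₁ a) ≤ 1`):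
`∑_{j < k₁} |s_j - 1| ≤ k₁ (C + 1) + L^d (c K)^(-d/2) ∑_j (j+1)^(-d/2)`,
`∑_{j ≥ k₁} |s_j - 1| ≤ ∑_{i ≥ 1} exp (- i a) ≤ 1/a`. Everything is `≤ Z^m (1 + L²/K) +
C' L^d K^(-d/2)` for large `m`. Use `κ₀ + 1 ≤ Z` and GE (`Q292.LC.S_GE`, see `tlc2` in B8.lean) to pass from
`Gd` with `r + ρ` to `Ev` with `r`; the hypothesis here is `Ev`. -/
def S_ENV : Prop := ∀ d : ℕ, 3 ≤ d → ∃ (C m : ℕ), 1 ≤ C ∧ ∀ Z : ℕ, C ≤ Z →
  ∀ (L K lam r ρ κ₀ : ℕ) [NeZero L], lam ≤ Z → ρ ≤ Z → κ₀ ≤ Z → (L : ℝ) ^ d ≤ Real.exp Z →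
  Z ^ m ≤ r → 8 * Z ^ m ≤ L → Z ^ m ≤ K → ∃ q₀ : ℕ, ∀ q ≥ q₀,
  ∀ σ : ℕ → (Fin d → ZMod L) × Fin d, Per σ → ∀ δ : ℝ, 1 ≤ δ * q → δ * q ≤ 2 →
  ∀ (ω : ℕ → Bool) (A : Finset (Fin d → ZMod L)), Ev σ q K lam r ρ κ₀ ω A →
  Inv (gp (ed ∘ σ) ω (K * (q * ms d L))) A → ∀ w : ℝ, 0 ≤ w → w < 1 →
  |∑ x ∈ univ \ A, Gx w (univ \ A) (TT (ed ∘ σ) ω A δ (K * (q * ms d L))) x - 1 / (1 - w)| ≤
    (Z : ℝ) ^ m * (1 + (L : ℝ) ^ 2 / K) + C * ((L : ℝ) ^ d * (K : ℝ) ^ (-(d / 2 : ℝ)))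

/-- ENVT. The number of laps can be cut off: lower bound for the traces.
Proof. As `env_trace` in B5.lean (upper bound) with the roles of the two walks exchanged: the free
kernels are `X0, Y0` and the kernels in the environment, restricted to `U = univ \ A` by `dg U`, are
`X1, Y1` (`tr_pow` in B4.lean; `Δ` contains also the rows `x ∈ A` of the free kernels, with total mass
`≤ |A|` each, and the contact numbers `cc`, whose sum is bounded by `cc_sum`). -/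
def S_ENVT : Prop := ∀ d : ℕ, 3 ≤ d → ∃ (C m : ℕ), 3 ≤ C ∧ ∀ Z : ℕ, C ≤ Z →
  ∀ (L K lam r ρ κ₀ : ℕ) [NeZero L], lam ≤ Z → ρ ≤ Z → κ₀ ≤ Z → (L : ℝ) ^ d ≤ Real.exp Z →
  Z ^ m ≤ r → 8 * Z ^ m ≤ L → Z ^ m ≤ K → ∃ q₀ : ℕ, ∀ q ≥ q₀,
  ∀ σ : ℕ → (Fin d → ZMod L) × Fin d, Per σ → ∀ δ : ℝ, 1 ≤ δ * q → δ * q ≤ 2 →
  ∀ (ω : ℕ → Bool) (A : Finset (Fin d → ZMod L)), Ev σ q K lam r ρ κ₀ ω A → ∀ j : ℕ,
  (PP (ed ∘ σ) δ (K * (q * ms d L)) ^ (j + 1)).trace ≤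
    ∑ x ∈ univ \ A, (TT (ed ∘ σ) ω A δ (K * (q * ms d L)) *
      (dg (univ \ A) * TT (ed ∘ σ) ω A δ (K * (q * ms d L))) ^ j) x x +
      ((j : ℝ) + 1) * (C * ((K : ℝ) ^ (-(d / 2 : ℝ)) + 1 / (L : ℝ) ^ d) * (Z * K * A.card))

end Pool.Agent.H961.T3
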