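import Pool.Agent.H961.T3.Stm

/-!
# Project MS (mesoscopic cycles of random stirring), statements 2
-/

set_option autoImplicit false

namespace Pool.Agent.H961.T3

open Finset Equiv Matrix Q292.LC Pool.Agent.H961.T2
open Pool.Agent.Y998.ST (stirExp nnRate cycleLen)

/-- CIR. Good environments.
Proof. Constants: `C_e, m_e` from ENV, `C_b, m_b` from BTL (`Q292.LC.S_BTL`, proved as `Q292.LC.all_btl`).
`Z = ⌈C₂ log L⌉` with `C₂ = 100 d (p + 4) C_b` (and `≥ C_e, C_b`), `r = Z^(max m_e m_b)`, `lam = ρ = Z`,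
`κ₀ = (Z - 1) / 2`; `m` depends only on `m_e, m_b, d` (for instance `m = 4 d (m_e + m_b) + 10 d`), the
threshold `T` is chosen last (`T ≤ K ≤ L^d` gives that `L` is as large as we like, in particular
`Z ≤ (log L)²`, `8 Z^(m_e + m_b) ≤ L`). `B ω A = Gd σ q K Z (r + Z) Z (2 κ₀) ω A`, which is
hereditary (`Pool.Agent.H961.T2.tlc2` in B8.lean and `Pool.Agent.Q277.LC`), and gives
`Ev σ q K Z r Z (2 κ₀ + 1) ω A` by GE (`Q292.LC.S_GE`, see B8.lean). BTL with `w = wb`,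
`κ = C_b (K^(-d/2) + 1/(L^d (1 - wb))) ≤ 2 C_b (log L)^(-m)` for `(log L)^m ≤ K`,
`(log L)^m ≤ L^d (1 - wb)`: `(2 (r + Z) + 1)^d (Z + 2) κ ≤ exp (-1)` for `m` large, and
`e^(-Z) ≤ L^(-C₂)`, `(1/2)^(κ₀ / C_b) ≤ L^(-10 d (p + 4))`. See `Pool.Agent.Q297.LC.fail_bound` (module
Pool.Graph.R_pool_sql_team_seeded_3997aac3.Q297.LC.Par), `params` in B7.lean, and `tlc` in
Pool.Graph.R_pool_sql_team_seeded_3997aac3.Q297.LC.Tlc for similar arithmetic. -/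
def S_CIR : Prop := ∀ d : ℕ, 3 ≤ d → ∃ m : ℕ, ∀ p : ℕ, ∃ (C : ℝ) (T : ℕ), 1 ≤ C ∧
  ∀ (L K : ℕ) [NeZero L], T ≤ K → K ≤ L ^ d → (Real.log L) ^ m ≤ K → ∃ q₀ : ℕ, ∀ q ≥ q₀,
  ∀ σ : ℕ → (Fin d → ZMod L) × Fin d, Per σ → ∀ δ : ℝ, 1 ≤ δ * q → δ * q ≤ 2 →
  ∃ B : (ℕ → Bool) → Finset (Fin d → ZMod L) → Prop, (∀ ω R R', R' ⊆ R → B ω R → B ω R') ∧
  (∀ ω A, B ω A → Inv (gp (ed ∘ σ) ω (K * (q * ms d L))) A → ∀ w : ℝ, 0 ≤ w → w < 1 →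
    |∑ x ∈ univ \ A, Gx w (univ \ A) (TT (ed ∘ σ) ω A δ (K * (q * ms d L))) x - 1 / (1 - w)| ≤
      (Real.log L) ^ m * (1 + (L : ℝ) ^ 2 / K) + C * ((L : ℝ) ^ d * (K : ℝ) ^ (-(d / 2 : ℝ)))) ∧
  (∀ wb : ℝ, 0 ≤ wb → wb < 1 → (Real.log L) ^ m ≤ (L : ℝ) ^ d * (1 - wb) →
    PW (ed ∘ σ) (K * (q * ms d L)) δ wb (fun ω A => ¬ B ω A) ≤ 1 / ((L : ℝ) ^ d) ^ p)

/-- STIR. The moments of the cycle lengths for stirring.
Proof. `N = L^d`. Circuits: for `j = 0, ..., k` and the last `j` entries `ws'` of `ws`, by REC (with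
`w` the next entry, `wb` the maximum of `0` and all entries of `ws`; it satisfies the three conditions
if `k ≥ 1`) and CIR with `p = k + 3`: `E ph ws' = (1 ± ε_j) ∏ 1/(1 - v)`. In the step: the error in
CIR is at most `ε' / (1 - w)`, because `C L^d K^(-d/2) ≤ C 2^(d/2) L^d t^(-d/2) ≤ (C' / T) / (1 - w)` and
`(log L)^(m₀) (1 + L²/K) ≤ 2 (log L)^(m₀) (1 + L²/t) ≤ (2 / log L) / (1 - w)` with `m ≥ m₀ + 1`, and `log L` is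
large as `T ≤ t ≤ L^d` (`m = m₀ + 1` does not depend on `k`, `T` does); the terms with `PW` are at most `N^(k+1) / (1 - w) N^(-k-3) ≤ ε' / (1 - w)`, and
`∏ 1/(1 - v) ≥ 1`. Limit `q → ∞`: `K = ⌊t⌋`, `K ≤ t ≤ 2 K`; `Pool.Agent.Q297.LC.stir_le_of_circuit` (module
Pool.Graph.R_pool_sql_team_seeded_3997aac3.Q297.LC.Lim) for `F = ph ws (cycs g) / N^k` and `- F`
(`0 ≤ ph ≤ N^k` as `∑_{C ∈ cycs g} |C| = N`). -/
def S_STIR : Prop := ∀ d : ℕ, 3 ≤ d → ∃ m : ℕ, ∀ (k : ℕ) (ε : ℝ), 0 < ε → ∃ T : ℝ, 1 ≤ T ∧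
  ∀ (L : ℕ) [NeZero L] (t : ℝ) (ws : List ℝ), ws.length = k → 3 ≤ L → T ≤ t →
  (Real.log L) ^ m ≤ t → t ≤ (L : ℝ) ^ d →
  (∀ v ∈ ws, 0 ≤ v ∧ v < 1 ∧ T * ((L : ℝ) ^ d * t ^ (-(d / 2 : ℝ))) ≤ 1 / (1 - v) ∧
    (Real.log L) ^ m * (1 + (L : ℝ) ^ 2 / t) ≤ 1 / (1 - v) ∧
    (Real.log L) ^ m ≤ (L : ℝ) ^ d * (1 - v)) →
  |stirExp (nnRate d L) t (fun g => ph (ι := Finset (Fin d → ZMod L)) card ws (cycs g)) -
    (ws.map fun v => 1 / (1 - v)).prod| ≤ ε * (ws.map fun v => 1 / (1 - v)).prod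

end Pool.Agent.H961.T3
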