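import Pool.Agent.H961.T3.Stm2
import Pool.Agent.H961.T2.B11

/-!
# Project MS (cycles of random stirring on all scales), statements 3
-/

set_option autoImplicit false

namespace Pool.Agent.H961.T3

open Finset Equiv Matrix Q292.LC Pool.Agent.H961.T2
open Pool.Agent.Y998.ST (stirExp nnRate cycleLen)

/-- ENV2. The sum of the resolvent in a good environment, with the short laps.
Proof. As ENV (Pool/Agent/H961/T3/Env.lean: `s_j = ∑_{x ∈ univ \ A} (T^(j+1)) x x`,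
`|s_j - 1| ≤ C + 1 + P (j+1)^(-d/2)` and `|s_j - 1| ≤ L^d exp (-(j+1) a)`), but the terms `j < k₀` are
compared with `tr_j = (PP ^ (j+1)).trace`: `|s_j - tr_j| ≤ (j+1) (C ((K^(-d/2) + 1/L^d) (Z K |A|)))` by
`env_trace` (B5.lean) and ENVT (Pool/Agent/H961/T3/Envt.lean). So
`∑_j w^(j+1) s_j - (1/(1-w) + ∑_{j < k₀} w^(j+1) tr_j) = -1 - ∑_{j < k₀} w^(j+1) +
∑_{j < k₀} w^(j+1) (s_j - tr_j) + ∑_{j ≥ k₀} w^(j+1) (s_j - 1)`, and in the bound `sum_bd` of Env.lean for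
`b j = if j < k₀ then 0 else |s_j - 1|` the term `P rr d 0` becomes `P rr d k₀`. -/
def S_ENV2 : Prop := ∀ d : ℕ, 3 ≤ d → ∃ (C m : ℕ), 3 ≤ C ∧ ∀ Z : ℕ, C ≤ Z →
  ∀ (L K lam r ρ κ₀ : ℕ) [NeZero L], lam ≤ Z → ρ ≤ Z → κ₀ ≤ Z → (L : ℝ) ^ d ≤ Real.exp Z →
  Z ^ m ≤ r → 8 * Z ^ m ≤ L → Z ^ m ≤ K → ∃ q₀ : ℕ, ∀ q ≥ q₀,
  ∀ σ : ℕ → (Fin d → ZMod L) × Fin d, Per σ → ∀ δ : ℝ, 1 ≤ δ * q → δ * q ≤ 2 →
  ∀ (ω : ℕ → Bool) (A : Finset (Fin d → ZMod L)), Ev σ q K lam r ρ κ₀ ω A →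
  Inv (gp (ed ∘ σ) ω (K * (q * ms d L))) A → ∀ w : ℝ, 0 ≤ w → w < 1 → ∀ k₀ : ℕ,
  |∑ x ∈ univ \ A, Gx w (univ \ A) (TT (ed ∘ σ) ω A δ (K * (q * ms d L))) x -
    (1 / (1 - w) + ∑ k ∈ range k₀, w ^ (k + 1) *
      (PP (ed ∘ σ) δ (K * (q * ms d L)) ^ (k + 1)).trace)| ≤
    (Z : ℝ) ^ m * (1 + (L : ℝ) ^ 2 / K) + k₀ +
      C * ((L : ℝ) ^ d * (K : ℝ) ^ (-(d / 2 : ℝ)) * rr d k₀) +
      (k₀ : ℝ) ^ 2 * (C * ((K : ℝ) ^ (-(d / 2 : ℝ)) + 1 / (L : ℝ) ^ d) * (Z * K)) * A.card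

/-- ONEC. The mean of `∑_x w ^ |cycle of x|` for circuits.
Proof. Parameters `Z, r, lam, ...` and the good event `B` as in CIR with `p = 3`
(Pool/Agent/H961/T3/Cir.lean), with the additional condition `K Z^M ≤ L²` for as large a fixed power `M`
as needed (from `K (log L)^m ≤ L²`, `Z ≤ (log L)²`). Let `F ω A = ∑_{x ∉ A} Gx`,
`M_w = 1/(1-w) + ∑_{k < k₀} w^(k+1) tr_k`, `N = L^d`, `S = E ph [w]`. STAR with the empty list: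
`S = PE (F)` (`PE` of Pool.Agent.Q277.LC, `th card w [] J = ∏ w^|C| = w^|A|`). For good invariant `A`:
`|F - M_w| ≤ e₁ + β |A|` by ENV2, `e₁ = Z^m (1 + L²/K) + k₀ + C N K^(-d/2) rr d k₀`,
`β = k₀² C (K^(-d/2) + 1/N) Z K ≤ ε'` (as in `beta_bound` of B8.lean, `Z^4 ≤ K`). For bad `A`:
`|F - M_w| ≤ N/(1-w) + k₀ N` (`0 ≤ F ≤ N/(1-w)`, traces are `≤ N`), and `PW (¬ B) ≤ N^(-3)`.
`PE |A| = ∑_x PW (x ∈ A) = S` (PEB). So `|S - M_w| ≤ e₁ + β S + small`, and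
`M_w ≤ C' (1/(1-w) + k₀ (1 + N K^(-d/2)))` because the traces are `≤ C + N (c K)^(-d/2)` (`ker2` of B3.lean
for `R = ∅`). `Z^m (1 + L²/K) ≤ ε' N K^(-d/2)`, since `N K^(-d/2) / (L²/K) = (L²/K)^(d/2 - 1)`
`≥ (L²/K)^(1/2)` and `L²/K ≥ (log L)^m`; also `k₀ ≤ ε' N K^(-d/2)`. -/
def S_ONEC : Prop := ∀ d : ℕ, 3 ≤ d → ∃ (C : ℝ) (m : ℕ), 1 ≤ C ∧ ∀ (k₀ : ℕ) (ε : ℝ), 0 < ε →
  ∃ T : ℕ, ∀ (L K : ℕ) [NeZero L], 3 ≤ L → T ≤ K → (Real.log L) ^ m ≤ K →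
  K * (Real.log L) ^ m ≤ (L : ℝ) ^ 2 →
  ∃ q₀ : ℕ, ∀ q ≥ q₀, ∀ σ : ℕ → (Fin d → ZMod L) × Fin d, Per σ → ∀ δ : ℝ,
  1 ≤ δ * q → δ * q ≤ 2 → ∀ w : ℝ, 0 ≤ w → w < 1 → (Real.log L) ^ m ≤ (L : ℝ) ^ d * (1 - w) →
  |EE (K * (q * ms d L)) δ (fun ω => ph (ι := Finset (Fin d → ZMod L)) card [w]
      (cycs (gp (ed ∘ σ) ω (K * (q * ms d L))))) -
    (1 / (1 - w) + ∑ k ∈ range k₀, w ^ (k + 1) *
      (PP (ed ∘ σ) δ (K * (q * ms d L)) ^ (k + 1)).trace)| ≤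
    (ε + C * rr d k₀) * (1 / (1 - w) + (L : ℝ) ^ d * (K : ℝ) ^ (-(d / 2 : ℝ)))

/-- ONES. The mean of `∑_x w ^ |cycle of x|` for stirring; `rr d 0 = ζ(d/2)`.
Proof. `K = ⌊t⌋`, limit `q → ∞` as in `stir_lim` (B9.lean; both directions): `E ph [w]` tends to the
stirring expectation (TRO), `(PP ^ (k+1)).trace` tends to `∑ x, hop (nnRate d L) ((k+1) t) x x`
`= L^d gk L ((k+1) t) 0 ^ d` (B10.lean), which is `(1 ± ε') L^d (4 π (k+1) t)^(-d/2)` for `k < k₀` by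
`ret_all` (B11.lean; `T' t ≤ L²` because `t (log L)^m ≤ L²`). `w^(k+1) ≥ 1 - (k+1) (1-w) ≥ 1 - k₀/T`.
`∑_{k < k₀} (k+1)^(-d/2) = rr d 0 - rr d k₀` (`rr_split` in B13.lean), and `rr d k₀` is small for large
`k₀` (`rr_tendsto`). `K^(-d/2) ≤ 2^(d/2) t^(-d/2)`. -/
def S_ONES : Prop := ∀ d : ℕ, 3 ≤ d → ∃ m : ℕ, ∀ ε : ℝ, 0 < ε → ∃ T : ℝ, 1 ≤ T ∧
  ∀ (L : ℕ) [NeZero L] (t w : ℝ), 3 ≤ L → T ≤ t → (Real.log L) ^ m ≤ t →
  t * (Real.log L) ^ m ≤ (L : ℝ) ^ 2 → 0 ≤ w → w < 1 → T ≤ 1 / (1 - w) →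
  (Real.log L) ^ m ≤ (L : ℝ) ^ d * (1 - w) →
  |stirExp (nnRate d L) t (fun g => ph (ι := Finset (Fin d → ZMod L)) card [w] (cycs g)) -
    (1 / (1 - w) + (L : ℝ) ^ d * ((4 * Real.pi * t) ^ (-(d / 2 : ℝ)) * rr d 0))| ≤
    ε * (1 / (1 - w) + (L : ℝ) ^ d * t ^ (-(d / 2 : ℝ)))

/-- DVS. Boxes see the same fractions as the torus, for stirring, with a rate.
Proof. `Q295.PL.S_DVT` (proved: `Pool.Agent.Q176.L2.Dvt.dvt Q295.PL.all_btt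
(Pool.Agent.Q14.PL.lmt Q295.PL.all_win Pool.Agent.Q285.L2.bxp)`) and
`Pool.Agent.Q297.LC.stir_le_of_circuit` for `F g = Qb r g - Qv g`, `|F| ≤ 1`, `K = ⌊t⌋`,
`r = ⌊K^(7/16)⌋`: see `Pool.Agent.Q26.L2.pqt` (module
Pool.Graph.R_pool_sql_team_seeded_3997aac3.Q26.L2.Pqt), where this is done. -/
def S_DVS : Prop := ∀ d : ℕ, 2 ≤ d → ∃ m L₀ : ℕ, ∀ (L : ℕ) [NeZero L] (t : ℝ), L₀ ≤ L → 1 ≤ t →
  (Real.log L) ^ m ≤ t → t ^ 4 ≤ (L : ℝ) ^ 7 → ∃ r : ℕ, 1 ≤ r ∧ r ≤ L ∧ (r : ℝ) ^ 16 ≤ t ^ 7 ∧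
  t ^ 7 ≤ (4 * (r : ℝ)) ^ 16 ∧
  stirExp (nnRate d L) t (fun g => Qb r g - Qv g) ≤ 2 * t ^ (-(1 / 16) : ℝ)

/-- `∑ κ (|C| / n)` over the cycles of `g` -/
noncomputable def kS {V : Type} [Fintype V] [DecidableEq V] (κ : ℝ → ℝ) (n : ℝ) (g : Perm V) : ℝ :=
  ∑ C ∈ cycs g, κ ((C.card : ℝ) / n)

/-- the injective `k`-tuples of points of a set -/
def inj {V : Type} [Fintype V] [DecidableEq V] (k : ℕ) (Q : Finset V) : Finset (Fin k → V) :=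
  open Classical in univ.filter fun b => Function.Injective b ∧ ∀ i, b i ∈ Q

/-- SMP. Sampling `k` different points of a set `Q`.
Proof. Let `n = |Q|`, `q_C = |C ∩ Q| / n`. The mean over the injective tuples of
`∑_C (X_C / k)²`, `X_C = #{i : b i ∈ C}`, is `1/k + (1 - 1/k) p₂` with `p₂` the probability that two different
random points of `Q` are in the same cycle, `p₂ = ∑_C (n q_C) (n q_C - 1) / (n (n-1)) ≤ ∑_C q_C²` (for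
`n ≥ 2`; if `k = 1` there is no such term), and the mean of `X_C / k` is `q_C`. So the mean of
`∑_C (X_C/k - q_C)²` is at most `1/k + ∑ q_C² - 2 ∑ q_C² + ∑ q_C² = 1/k`. Symmetry: the number of injective
tuples with `b i = x` is the same for all `x ∈ Q`, and with `b i = x`, `b j = y` the same for all
`x ≠ y ∈ Q` (permute `Q`). -/
def S_SMP : Prop := ∀ (V : Type) [Fintype V] [DecidableEq V] (g : Perm V) (Q : Finset V) (k : ℕ),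
  1 ≤ k → k ≤ Q.card →
  ∑ b ∈ inj k Q, ∑ C ∈ cycs g,
    (((univ.filter fun i => b i ∈ C).card : ℝ) / k - ((C ∩ Q).card : ℝ) / Q.card) ^ 2 ≤
    (inj k Q).card * (1 / (k : ℝ))

/-- BIG. Sums over the large cycles.
Proof. Only the cycles with `u_C ≥ α a` or `v_C ≥ α a` contribute (`κ = 0` on `(-∞, α]`); as `∑ u_C ≤ 1`
and `∑ v_C ≤ 1` there are at most `2 / (α a)` of them; Cauchy-Schwarz. -/
def S_BIG : Prop := ∀ (ι : Type) [DecidableEq ι] (s : Finset ι) (u v : ι → ℝ) (κ : ℝ → ℝ)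
  (a α B : ℝ), 0 < a → 0 < α → 0 ≤ B → (∀ x, x ≤ α → κ x = 0) →
  (∀ x y, |κ x - κ y| ≤ B * |x - y|) → (∀ C, 0 ≤ u C ∧ 0 ≤ v C) → ∑ C ∈ s, u C ≤ 1 →
  ∑ C ∈ s, v C ≤ 1 → |∑ C ∈ s, κ (u C / a) - ∑ C ∈ s, κ (v C / a)| ≤
    B / a * Real.sqrt (2 / (α * a)) * Real.sqrt (∑ C ∈ s, (u C - v C) ^ 2)

/-- CMP. Comparison of the large cycles with those of a uniform permutation of `k` letters.
Proof. `r` from DVS. For `z` and `b ∈ inj k (box z r)`: let `π = ret k b g` (`Pool.Agent.TH268.PD.ret`, the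
induced permutation); its cycles are the traces of the cycles of `g` (`ret_spec`:
`(ret k b g).SameCycle i j ↔ g.SameCycle (b i) (b j)`), so `kS κ (a k) π = ∑_{C ∈ cycs g} κ (v_C / a)` with
`v_C = #{i : b i ∈ C} / k` (`κ 0 = 0`), and `kS κ (a L^d) g = ∑ κ (u_C / a)`, `u_C = |C| / L^d`. BIG:
`|Ψ (kS κ (a L^d) g) - Ψ (kS κ (a k) π)| ≤ B/a √(2/(α a)) √(∑ (u_C - v_C)²)`. Average over `b`, `z` (Jensen for
the square root), `∑ (u - v)² ≤ 2 ∑ (v_C - |C ∩ box|/r^d)² + 2 ∑ (|C ∩ box|/r^d - u_C)²`: the first part is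
`≤ 2/k` on average over `b` by SMP, the second one is `2 (Qb r g - Qv g)` on average over `z` (the mean of
`|C ∩ box z r| / r^d` over `z` is `u_C`; `|box z r| = r^d` for `r ≤ L`); mean over `g` by DVS:
`E √(..) ≤ √(2/k + 4 t^(-1/16))`. For fixed `b` (all distances `≤ d r`): by `ind_tv` and `t_dist`, i.e. by part (1)
of `Pool.Agent.Results.MP_b817cf_pr.LocalPoissonDirichlet.result` (module
Pool.Graph.R_seed8.Results.MP_b817cf_pr.LocalPoissonDirichlet; `ind_mean` in Pool.Agent.Y998.LQ)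
`|E Ψ (kS κ (a k) (ret k b g)) - (1/k!) ∑_π Ψ (kS κ (a k) π)| ≤ C k d r / √t ≤ C' k t^(7/16 - 1/2)`. The condition
`k ≤ r^d` follows from `k^16 ≤ t` for large `t` (`r^16 ≥ t^7/4^16`, `d ≥ 2`); make `C` large for small `t`
(the left side is at most `2`). -/
def S_CMP : Prop := ∀ d : ℕ, 2 ≤ d → ∃ (C : ℝ) (m L₀ : ℕ), 1 ≤ C ∧ ∀ (L k : ℕ) [NeZero L]
  (t a α B : ℝ) (κ Ψ : ℝ → ℝ), L₀ ≤ L → 1 ≤ t → (Real.log L) ^ m ≤ t → t ^ 4 ≤ (L : ℝ) ^ 7 →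
  1 ≤ k → (k : ℝ) ^ 16 ≤ t → 0 < a → a ≤ 1 → 0 < α → 0 ≤ B → (∀ x, x ≤ α → κ x = 0) →
  (∀ x y, |κ x - κ y| ≤ B * |x - y|) → (∀ x y, |Ψ x - Ψ y| ≤ |x - y|) → (∀ x, |Ψ x| ≤ 1) →
  |stirExp (nnRate d L) t (fun g => Ψ (kS κ (a * (L : ℝ) ^ d) g)) -
    (∑ π : Perm (Fin k), Ψ (kS κ (a * k) π)) / (k.factorial : ℝ)| ≤
    C * (B / a * Real.sqrt (2 / (α * a)) * (t ^ (-(1 / 32) : ℝ) + 1 / Real.sqrt k) +
      k * t ^ (-(1 / 16) : ℝ))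

/-- UNI. The cycle of a point in a uniform permutation.
Proof. Induction on `k` with `Equiv.Perm.decomposeFin : Perm (Fin (k+1)) ≃ Fin (k+1) × Perm (Fin k)`,
`π = swap 0 i * (σ extended by the fixed point 0)`: for `i = 0` the cycle of `0` has one point, for
`i = i' + 1` it has one point more than the cycle of `i'` for `σ` (up to an inverse/left-right
convention, which does not change the lengths). By conjugation with swaps the number of permutations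
with `|cyc π x| = j` does not depend on `x`. So the number for `k + 1` and `j + 1 ≥ 2` is
`∑_{i'} (k-1)! = k!`, and for `j + 1 = 1` it is `k!`. -/
def S_UNI : Prop := ∀ (k : ℕ) (x : Fin k) (j : ℕ), 1 ≤ j → j ≤ k →
  ((univ : Finset (Perm (Fin k))).filter fun π => (cyc π x).card = j).card = (k - 1).factorial

end Pool.Agent.H961.T3
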