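import Pool.Agent.H961.T3.Stm3

/-!
# Project MS (cycles of random stirring on all scales), statements 4
-/

set_option autoImplicit false

namespace Pool.Agent.H961.T3

open Finset Equiv Matrix Q292.LC Pool.Agent.H961.T2
open Pool.Agent.Y998.ST (stirExp nnRate cycleLen)

/-- MESO. Poisson process with intensity `du / u` at mesoscopic scales `n`, up to `L^d / (log L)^m`. -/
def S_MESO : Prop := ∀ d : ℕ, 3 ≤ d → ∃ m : ℕ, 1 ≤ m ∧ ∀ h : ℝ → ℝ, Continuous h → (∀ u, 0 ≤ h u) →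
  (∃ α β : ℝ, 0 < α ∧ α ≤ β ∧ ∀ u, (u < α ∨ β < u) → h u = 0) → ∀ ε : ℝ, 0 < ε →
  ∃ T : ℝ, 3 ≤ T ∧ ∀ (L : ℕ) [NeZero L] (t n : ℝ), 3 ≤ L → T ≤ t → (Real.log L) ^ m ≤ t →
  t ≤ (L : ℝ) ^ d → T * ((L : ℝ) ^ d * t ^ (-(d / 2 : ℝ))) ≤ n →
  (Real.log L) ^ m * (1 + (L : ℝ) ^ 2 / t) ≤ n → (Real.log L) ^ m * n ≤ (L : ℝ) ^ d →
  |stirExp (nnRate d L) t (fun g => Real.exp (-kS h n g)) -
    Real.exp (-∫ u in Set.Ioi (0 : ℝ), (1 - Real.exp (-h u)) / u)| ≤ ε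

/-- GAPP. Poisson process with intensity `du / u` for the scales `n` between `L^d / (log L)^p` and
`L^d / T`.
Proof. Let `a = n / L^d ∈ [(log L)^(-p), 1/T]`. CMP for `L, t, a, k = ⌈a^(-4)⌉`, `κ = h` and
`Ψ x = exp (- max x 0)` (Lipschitz 1, `kS h ≥ 0`): the mean of `exp (-kS h n g)` is close to
`U = (1/k!) ∑_π exp (-kS h (a k) π)`: error `C (B/a √(2/(α a)) (t^(-1/32) + a²) + (a^(-4) + 1) t^(-1/16))`, small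
because `t ≥ (log L)^m` with `m ≥ 200 (p + 1)` and `t ≥ T`, `a ≤ 1/T` (`a^(-3/2) a² = √a`;
`a^(-3/2) t^(-1/32) ≤ (log L)^(2p) t^(-1/32)`, `log L` is large too). SECOND TORUS: let `m₀` be from MESO,
`m_c` from CMP, `m₁ = m₀ + m_c + 1`, `L₂ = ⌈exp (a^(-1/m₁))⌉`, `t₂ = L₂`, `n₂ = a L₂^d`. For `a` small: `L₂` is
huge compared with every power of `1/a`, `(log L₂)^(m₀) ≤ (2 a^(-1/m₁))^(m₀) ≤ 1/a` and the same for `m_c`; so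
MESO applies to `L₂, t₂, n₂` (`(log L₂)^(m₀) ≤ L₂ = t₂ ≤ L₂^d`, `T₀ L₂^d t₂^(-d/2) ≤ a L₂^d`,
`(log L₂)^(m₀) (1 + L₂) ≤ a L₂^d`, `(log L₂)^(m₀) n₂ ≤ L₂^d`) and CMP applies to `L₂, t₂, a` and the SAME `k`
(`(log L₂)^(m_c) ≤ t₂`, `t₂^4 ≤ L₂^7`, `k^16 ≤ t₂`), with a small error. So `U` is close to the limit in MESO,
for all `a ≤ 1/T`. -/
def S_GAPP : Prop := ∀ d : ℕ, 3 ≤ d → ∀ p : ℕ, ∃ m : ℕ, 1 ≤ m ∧ ∀ (h : ℝ → ℝ) (α β B : ℝ),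
  (∀ u, 0 ≤ h u) → 0 < α → α ≤ β → (∀ u, (u < α ∨ β < u) → h u = 0) → 0 ≤ B →
  (∀ x y, |h x - h y| ≤ B * |x - y|) → ∀ ε : ℝ, 0 < ε →
  ∃ T : ℝ, 3 ≤ T ∧ ∀ (L : ℕ) [NeZero L] (t n : ℝ), 3 ≤ L → T ≤ t → (Real.log L) ^ m ≤ t →
  t ^ 4 ≤ (L : ℝ) ^ 7 → 0 < n → (L : ℝ) ^ d ≤ (Real.log L) ^ p * n → T * n ≤ (L : ℝ) ^ d →
  |stirExp (nnRate d L) t (fun g => Real.exp (-kS h n g)) -
    Real.exp (-∫ u in Set.Ioi (0 : ℝ), (1 - Real.exp (-h u)) / u)| ≤ ε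

/-- GAPO. The law of the length of the cycle of a point for the scales `n` between `L^d / (log L)^p` and
`L^d`.
Proof. `a = n / L^d ∈ [(log L)^(-p), 1]`. `P(|cyc g x| ≤ n)` does not depend on `x` (`cyc_trans2` in B9.lean),
so `P(|cyc g x| > n) = E a ∑_C κ(|C|/n)` with `κ(u) = u 1[u > 1]`, which is between the Lipschitz functions
`κ₁(u) = u min(1, (u-1)⁺/η)` and `κ₂(u) = u min(1, (u-1+η)⁺/η)` on `[0, ∞)` (extended by `0` to `u < 0`; Lipschitz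
with `B = 4/η`, zero for `u ≤ 1/2`, `0 < η ≤ 1/2`). CMP with `Ψ x = max 0 (min 1 (a x))` (`a kS κ_i ∈ [0, 1]`
because `κ_i(u) ≤ u` and `∑_C |C| = L^d`) and `k = ⌊t^(1/32)⌋`: it is compared with
`(1/k!) ∑_π a ∑_C κ_i(|C|/(a k)) = (1/k) ∑_{j=1}^k κ_i(j/(ak)) (ak)/j` (UNI; `∑_C F C = ∑_x F(cyc π x)/|cyc π x|`),
which is at most `#{j ≤ k : j > (1-η) a k}/k ≤ 1 - (1-η) a + 1/k` for `κ₂` and at least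
`#{j ≤ k : j ≥ (1+η) a k}/k ≥ 1 - (1+η) a - 1/k` for `κ₁`. With `η = ε/8` all errors are `≤ ε a`, since
`t^(1/64) ≥ C' (log L)^(5 p)` by `t ≥ (log L)^m`, `m ≥ 1000 (p + 1)`, `t ≥ T`. -/
def S_GAPO : Prop := ∀ d : ℕ, 2 ≤ d → ∀ p : ℕ, ∃ m : ℕ, 1 ≤ m ∧ ∀ ε : ℝ, 0 < ε →
  ∃ T : ℝ, 3 ≤ T ∧ ∀ (L : ℕ) [NeZero L] (t n : ℝ), 3 ≤ L → T ≤ t → (Real.log L) ^ m ≤ t →
  t ^ 4 ≤ (L : ℝ) ^ 7 → 0 < n → (L : ℝ) ^ d ≤ (Real.log L) ^ p * n → n ≤ (L : ℝ) ^ d →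
  ∀ x : Fin d → ZMod L,
  |stirExp (nnRate d L) t (fun g => if ((cyc g x).card : ℝ) ≤ n then 1 else 0) - n / (L : ℝ) ^ d| ≤
    ε * (n / (L : ℝ) ^ d)

end Pool.Agent.H961.T3
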