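import Pool.Agent.H961.T3.Stm4

/-!
# Project MS, statements 5: all dimensions `d ≥ 2` (in particular the plane), with polylogarithmic losses
-/

set_option autoImplicit false

namespace Pool.Agent.H961.T3

open Finset Equiv Matrix Q292.LC Pool.Agent.H961.T2
open Pool.Agent.Y998.ST (stirExp nnRate cycleLen)

/-- KP. Pointwise bound of the kernel of several laps, `d ≥ 2`.
Proof. This is the claim `hpow` in the proof of `Pool.Agent.Q190.L2.krt` (module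
Pool.Graph.R_pool_sql_team_seeded_3997aac3.Q190.L2.Krt), from `Q295.PL.S_LPM`, which is proved:
`Pool.Agent.Q38.L2.lpm (Pool.Agent.Q38.L2.wir Pool.Agent.Q187.LC.Rev.rev Q295.PL.all_win)
Q299.PL.nsh` (see Q295/PL/All.lean). The hypotheses `x ∉ U`, `y ∉ U` are not used there; here with
`Ev .. κ₀` (`κ₀ ≤ Z`) instead of `Gd`, so GE is not needed. The constant `3` is absorbed in `Z^m`. -/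
def S_KP : Prop := ∀ d : ℕ, 2 ≤ d → ∃ (C m : ℕ), 1 ≤ C ∧ ∀ Z : ℕ, C ≤ Z →
  ∀ (L K lam r ρ κ₀ : ℕ) [NeZero L], lam ≤ Z → ρ ≤ Z → κ₀ ≤ Z →
  Z ^ m ≤ r → 8 * Z ^ m ≤ L → Z ^ m ≤ K → ∃ q₀ : ℕ, ∀ q ≥ q₀,
  ∀ σ : ℕ → (Fin d → ZMod L) × Fin d, Per σ → ∀ δ : ℝ, 1 ≤ δ * q → δ * q ≤ 2 →
  ∀ (ω : ℕ → Bool) (R : Finset (Fin d → ZMod L)), Ev σ q K lam r ρ κ₀ ω R →
  ∀ (U : Finset (Fin d → ZMod L)) (x y : Fin d → ZMod L), Disjoint U R → x ∉ R → ∀ k : ℕ,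
  (TT (ed ∘ σ) ω R δ (K * (q * ms d L)) *
      (dg U * TT (ed ∘ σ) ω R δ (K * (q * ms d L))) ^ k) x y ≤
    (Z : ℝ) ^ m * (1 / (((k : ℝ) + 1) * K) + 1 / (L : ℝ) ^ d)

/-- ENP. The sum of the resolvent in a good environment, `d ≥ 2`.
Proof. As ENV (Pool/Agent/H961/T3/Env.lean), with KP instead of `ker2`:
`0 ≤ s_j ≤ Z^m₁ (1 + L^d / (K (j+1)))`, and `|s_j - 1| ≤ L^d exp (-(j+1) a)` with `a = K / (2 Z^m₀ L²)` from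
VAR as there. With `k₁ = ⌈Z / a⌉`: `∑_{j < k₁} |s_j - 1| ≤ k₁ (Z^m₁ + 1) + Z^m₁ (L^d / K) (1 + log k₁)` and
`1 + log k₁ ≤ 1 + 4 Z` because `k₁ ≤ 2 Z^(m₀+1) L² + 1 ≤ exp (4 Z)` (`8 Z^m ≤ L`, `L^d ≤ exp Z`, `m ≥ m₀ + 1`); the
terms with `j ≥ k₁` contribute at most `1/a`. `L² ≤ L^d`. -/
def S_ENP : Prop := ∀ d : ℕ, 2 ≤ d → ∃ (C m : ℕ), 1 ≤ C ∧ ∀ Z : ℕ, C ≤ Z →
  ∀ (L K lam r ρ κ₀ : ℕ) [NeZero L], lam ≤ Z → ρ ≤ Z → κ₀ ≤ Z → (L : ℝ) ^ d ≤ Real.exp Z →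
  Z ^ m ≤ r → 8 * Z ^ m ≤ L → Z ^ m ≤ K → ∃ q₀ : ℕ, ∀ q ≥ q₀,
  ∀ σ : ℕ → (Fin d → ZMod L) × Fin d, Per σ → ∀ δ : ℝ, 1 ≤ δ * q → δ * q ≤ 2 →
  ∀ (ω : ℕ → Bool) (A : Finset (Fin d → ZMod L)), Ev σ q K lam r ρ κ₀ ω A →
  Inv (gp (ed ∘ σ) ω (K * (q * ms d L))) A → ∀ w : ℝ, 0 ≤ w → w < 1 →
  |∑ x ∈ univ \ A, Gx w (univ \ A) (TT (ed ∘ σ) ω A δ (K * (q * ms d L))) x - 1 / (1 - w)| ≤
    (Z : ℝ) ^ m * (1 + (L : ℝ) ^ d / K)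

/-- CIP. Good environments, `d ≥ 2`.
Proof. As CIR (Pool/Agent/H961/T3/Cir.lean) with ENP and BTT (`Q295.PL.S_BTT`, module
Pool.Graph.R_pool_sql_team_seeded_3997aac3.Q295.PL.Stm2, proved as `Q295.PL.all_btt`) instead of ENV and
BTL. Now `Z = ⌈C₂ (log L)²⌉`, `lam = ρ = Z`, `κ₀ = (Z - 1) / 2`, `r = Z^(..)`, because
`(1/2)^(κ₀ / (C_b (1 + log₂ K)))` must be at most `L^(-10 d (p + 4))` and `1 + log₂ K ≤ 1 + 2 d log L`;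
`κ = Z^m_b ((1 + log (1/(1 - wb))) / K + 1/(L^d (1 - wb)))` with `log (1/(1 - wb)) ≤ d log L` (as
`1/(1 - wb) ≤ L^d / (log L)^m ≤ L^d`), so `κ ≤ Z^(m_b + 1) 4 d (log L)^(-m)` and
`(2 r + 1)^d (Z + 2) κ ≤ exp (-1)` for `m` large (`m` does not depend on `p`, because `Z ≤ (log L)³` for large
`L`; `T ≤ K ≤ L^d` makes `L` large, depending on `p`). `Z^m_e ≤ (log L)^m`. -/
def S_CIP : Prop := ∀ d : ℕ, 2 ≤ d → ∃ m : ℕ, ∀ p : ℕ, ∃ T : ℕ,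
  ∀ (L K : ℕ) [NeZero L], 3 ≤ L → T ≤ K → K ≤ L ^ d → (Real.log L) ^ m ≤ K → ∃ q₀ : ℕ, ∀ q ≥ q₀,
  ∀ σ : ℕ → (Fin d → ZMod L) × Fin d, Per σ → ∀ δ : ℝ, 1 ≤ δ * q → δ * q ≤ 2 →
  ∃ B : (ℕ → Bool) → Finset (Fin d → ZMod L) → Prop, (∀ ω R R', R' ⊆ R → B ω R → B ω R') ∧
  (∀ ω A, B ω A → Inv (gp (ed ∘ σ) ω (K * (q * ms d L))) A → ∀ w : ℝ, 0 ≤ w → w < 1 →
    |∑ x ∈ univ \ A, Gx w (univ \ A) (TT (ed ∘ σ) ω A δ (K * (q * ms d L))) x - 1 / (1 - w)| ≤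
      (Real.log L) ^ m * (1 + (L : ℝ) ^ d / K)) ∧
  (∀ wb : ℝ, 0 ≤ wb → wb < 1 → (Real.log L) ^ m ≤ (L : ℝ) ^ d * (1 - wb) →
    PW (ed ∘ σ) (K * (q * ms d L)) δ wb (fun ω A => ¬ B ω A) ≤ 1 / ((L : ℝ) ^ d) ^ p)

/-- STP. The moments of the cycle lengths for stirring, `d ≥ 2`.
Proof. As STIR (Pool/Agent/H961/T3/Stir.lean) with CIP instead of CIR:
`(log L)^(m₀) (1 + L^d/K) ≤ 2 (log L)^(m₀) (1 + L^d/t) ≤ (2 / log L) / (1 - w)` with `m = m₀ + 1`. -/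
def S_STP : Prop := ∀ d : ℕ, 2 ≤ d → ∃ m : ℕ, ∀ (k : ℕ) (ε : ℝ), 0 < ε → ∃ T : ℝ, 1 ≤ T ∧
  ∀ (L : ℕ) [NeZero L] (t : ℝ) (ws : List ℝ), ws.length = k → 3 ≤ L → T ≤ t →
  (Real.log L) ^ m ≤ t → t ≤ (L : ℝ) ^ d →
  (∀ v ∈ ws, 0 ≤ v ∧ v < 1 ∧ (Real.log L) ^ m * (1 + (L : ℝ) ^ d / t) ≤ 1 / (1 - v) ∧
    (Real.log L) ^ m ≤ (L : ℝ) ^ d * (1 - v)) →
  |stirExp (nnRate d L) t (fun g => ph (ι := Finset (Fin d → ZMod L)) card ws (cycs g)) -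
    (ws.map fun v => 1 / (1 - v)).prod| ≤ ε * (ws.map fun v => 1 / (1 - v)).prod

/-- MESP. Poisson process with intensity `du / u` at mesoscopic scales `n`, `d ≥ 2`. -/
def S_MESP : Prop := ∀ d : ℕ, 2 ≤ d → ∃ m : ℕ, 1 ≤ m ∧ ∀ h : ℝ → ℝ, Continuous h → (∀ u, 0 ≤ h u) →
  (∃ α β : ℝ, 0 < α ∧ α ≤ β ∧ ∀ u, (u < α ∨ β < u) → h u = 0) → ∀ ε : ℝ, 0 < ε →
  ∃ T : ℝ, 3 ≤ T ∧ ∀ (L : ℕ) [NeZero L] (t n : ℝ), 3 ≤ L → T ≤ t → (Real.log L) ^ m ≤ t →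
  t ≤ (L : ℝ) ^ d → (Real.log L) ^ m * (1 + (L : ℝ) ^ d / t) ≤ n →
  (Real.log L) ^ m * n ≤ (L : ℝ) ^ d →
  |stirExp (nnRate d L) t (fun g => Real.exp (-kS h n g)) -
    Real.exp (-∫ u in Set.Ioi (0 : ℝ), (1 - Real.exp (-h u)) / u)| ≤ ε

/-- GAPQ. GAPP for all `d ≥ 2`.
Proof. As GAPP (Pool/Agent/H961/T3/Gapp.lean, which has `d ≥ 3` only because of MESO) with MESP instead of
MESO; for the second torus `(log L₂)^(m₀) (1 + L₂^d / t₂) ≤ a L₂^d` with `t₂ = L₂`. -/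
def S_GAPQ : Prop := ∀ d : ℕ, 2 ≤ d → ∀ p : ℕ, ∃ m : ℕ, 1 ≤ m ∧ ∀ (h : ℝ → ℝ) (α β B : ℝ),
  (∀ u, 0 ≤ h u) → 0 < α → α ≤ β → (∀ u, (u < α ∨ β < u) → h u = 0) → 0 ≤ B →
  (∀ x y, |h x - h y| ≤ B * |x - y|) → ∀ ε : ℝ, 0 < ε →
  ∃ T : ℝ, 3 ≤ T ∧ ∀ (L : ℕ) [NeZero L] (t n : ℝ), 3 ≤ L → T ≤ t → (Real.log L) ^ m ≤ t →
  t ^ 4 ≤ (L : ℝ) ^ 7 → 0 < n → (L : ℝ) ^ d ≤ (Real.log L) ^ p * n → T * n ≤ (L : ℝ) ^ d →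
  |stirExp (nnRate d L) t (fun g => Real.exp (-kS h n g)) -
    Real.exp (-∫ u in Set.Ioi (0 : ℝ), (1 - Real.exp (-h u)) / u)| ≤ ε

end Pool.Agent.H961.T3
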